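import Pool.Agent.Work.MP_f4b644_ag.Dag.Exc
import Pool.Agent.Work.MP_f4b644_ag.Dag.DA5_1

/-! All roots of one first dimension. -/

namespace Pool.Agent.Work.MP_f4b644_ag.Dag

theorem covA5_1 : Cov loA hiA 5 5 201 :=
  Cov.trans (cov_of_run exA_s cA5_5.down) <|
  Cov.trans (cov_of_run exA_s cA5_64.down) <|
  Cov.trans (cov_of_run exA_s cA5_90.down) <|
  Cov.trans (cov_of_run exA_s cA5_110.down) <|
  Cov.trans (cov_of_run exA_s cA5_127.down) <|
  Cov.trans (cov_of_run exA_s cA5_142.down) <|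
  Cov.trans (cov_of_run exA_s cA5_156.down) <|
  Cov.trans (cov_of_run exA_s cA5_169.down) <|
  Cov.trans (cov_of_run exA_s cA5_181.down) <|
  cov_of_run exA_s cA5_192.down

theorem covA5 : Cov loA hiA 5 5 201 :=
  covA5_1

end Pool.Agent.Work.MP_f4b644_ag.Dag
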