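import Pool.Agent.Work.MP_f4b644_ag.Dag.JA4
import Pool.Agent.Work.MP_f4b644_ag.Dag.JA5
import Pool.Agent.Work.MP_f4b644_ag.Fin.Asm

/-!
The finite parts for `I = 4, 5`.
-/

set_option autoImplicit false

namespace Pool.Agent.Work.MP_f4b644_ag.Dag

open Fin

theorem loA_le {I J r : ℕ} (hI : 3 ≤ I) (h : Need I J r) : loA I J ≤ r := by
  obtain ⟨h1, h2⟩ := h
  obtain ⟨v, hv⟩ : ∃ v, I * J = r + v := ⟨I * J - r, by omega⟩
  have e : loA I J = (I * J * J + (2 * J + I - 3)) / (2 * J + I - 2) := rfl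
  rw [e]
  refine Nat.le_of_lt_succ ((Nat.div_lt_iff_lt_mul (by omega)).2 ?_)
  obtain ⟨t, rfl⟩ : ∃ t, I = t + 3 := ⟨I - 3, by omega⟩
  rw [hv, Nat.add_sub_cancel_left, show J + (t + 3) - 2 = J + t + 1 by omega] at h2
  rw [hv, show 2 * J + (t + 3) - 3 = 2 * J + t by omega, show 2 * J + (t + 3) - 2 = 2 * J + t + 1 by omega]
  rw [Nat.succ_eq_add_one]
  nlinarith

theorem lt_hiA {I J r : ℕ} (hI : 3 ≤ I) (h : Need I J r) : r < hiA I J := by
  have e : hiA I J = I * J + 3 - (J + I) := rfl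
  have := h.1
  omega

theorem Cov.need {I J0 J1 J r : ℕ} (H : Cov loA hiA I J0 J1) (hI : 3 ≤ I) (h0 : J0 ≤ J) (h1 : J < J1)
    (h : Need I J r) : Root I J r := H J r h0 h1 (loA_le hI h) (lt_hiA hI h)

theorem H45 : ∀ I J r, 4 ≤ I → I ≤ 5 → I ≤ J → J < 200 → Need I J r → Root I J r := by
  intro I J r h1 h2 h3 h4 h
  obtain rfl | rfl : I = 4 ∨ I = 5 := by omega
  · exact covA4.need (by omega) h3 (by omega) h
  · exact covA5.need (by omega) h3 (by omega) h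

end Pool.Agent.Work.MP_f4b644_ag.Dag
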