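import Pool.Agent.Work.MP_f4b644_ag.Dag.Tm2S
import Pool.Agent.Work.MP_f4b644_ag.Dag.Small
import Pool.Agent.Work.MP_f4b644_ag.Fat.Top

/-!
The roots with large third dimension are added to the checked ones.
-/

set_option autoImplicit false

namespace Pool.Agent.Work.MP_f4b644_ag.Dag

open Fin Pool.Agent.Lib.KLA

theorem root_hiF {I J r : ℕ} (hI : 30 ≤ I) (hJ : 100 ≤ J) (hIJ : I ≤ J) (h : Need I J r) (h2 : hiF I J ≤ r) :
    Root I J r := by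
  have e : hiF I J = cnd (Nat.ble ((8 * (I * J) + 8) / 9 + (J + 4 * I)) (I * J + 9)) ((8 * (I * J) + 8) / 9)
    (I * J + 9 - (J + 4 * I)) := rfl
  simp only [e, cnd_eq, Nat.ble_eq] at h2
  obtain ⟨m, rfl⟩ : ∃ m, I = m + 2 := ⟨I - 2, by omega⟩
  obtain ⟨w, hw⟩ := Nat.exists_eq_add_of_le h.1
  refine Fat.root_fat m J w r (by omega) hJ hIJ ?_ (by omega)
  split_ifs at h2 <;> omega

theorem Cov3.needF {I J0 J1 J r : ℕ} (H : Cov3 hiF I J0 J1) (hI : 30 ≤ I) (hJ : 100 ≤ J) (hIJ : I ≤ J)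
    (h0 : J0 ≤ J) (h1 : J < J1) (h : Need I J r) : Root I J r :=
  (Nat.lt_or_ge r (hiF I J)).elim (H J r h0 h1 h.2) (root_hiF hI hJ hIJ h)

end Pool.Agent.Work.MP_f4b644_ag.Dag
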