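import Pool.Agent.Work.MP_f4b644_ag.Dag.Num

/-!
The numerical leaf again. During the elimination in one slice a row is a pair: its part in this slice and its
part in the lower slices.
-/

namespace Pool.Agent.Work.MP_f4b644_ag.Dag

open Pool.Agent.Lib.KLA

/-- lists of pairs of numbers -/
inductive PL : Type
  | nil : PL
  | cons (t r : Nat) (l : PL) : PL

noncomputable section

/-- split all rows at the bit `B`, where `bd = 2 ^ B` -/
def spl (B bd : Nat) (k : PL → Bool) (L : List Nat) : PL → Bool :=
  List.rec (motive := fun _ => PL → Bool) k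
    (fun x _ ih acc => strict (Nat.shiftRight x B) fun t => strict (Nat.mod x bd) fun r =>
      ih (PL.cons t r acc)) L

/-- the lower parts which are not zero -/
def uns (k : List Nat → Bool) (L : PL) : List Nat → Bool :=
  PL.rec (motive := fun _ => List Nat → Bool) k
    (fun _ r _ ih acc => cnd (Nat.beq r 0) (ih acc) (ih (r :: acc))) L

/-- a row with bit `n` whose lower part is zero -/
def fnd0 (n : Nat) (L : PL) : Nat :=
  PL.rec (motive := fun _ => Nat) 0 (fun t r _ ih => cnd (Nat.beq r 0) (cnd (tb t n) t ih) ih) L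

/-- a row with bit `n` -/
def fnd1 (n : Nat) (k : Nat → Nat → Bool) (L : PL) : Bool :=
  PL.rec (motive := fun _ => Bool) false (fun t r _ ih => cnd (tb t n) (k t r) ih) L

/-- clear bit `n` in all rows with the row `(p, 0)` -/
def red0 (n p : Nat) (k : PL → Bool) (L : PL) : PL → Bool :=
  PL.rec (motive := fun _ => PL → Bool) k
    (fun t r _ ih acc => @Bool.rec (fun _ => Bool) (ih (PL.cons t r acc))
      (strict (Nat.xor t p) fun y => @Bool.rec (fun _ => Bool) (ih (PL.cons y r acc))
        (@Bool.rec (fun _ => Bool) (ih (PL.cons y r acc)) (ih acc) (Nat.beq r (nat_lit 0)))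
        (Nat.beq y (nat_lit 0)))
      (Nat.beq (Nat.land (Nat.shiftRight t n) (nat_lit 1)) (nat_lit 1))) L

/-- clear bit `n` in all rows with the row `(p, q)` -/
def red1 (n p q : Nat) (k : PL → Bool) (L : PL) : PL → Bool :=
  PL.rec (motive := fun _ => PL → Bool) k
    (fun t r _ ih acc => cnd (tb t n)
      (strict (Nat.xor t p) fun y => strict (Nat.xor r q) fun z => ih (PL.cons y z acc))
      (ih (PL.cons t r acc))) L

/-- the positions `c - 1, ..., 0` of a slice; those marked in `K` are skipped -/
def cells2 (K : Nat) (k : PL → Bool) (c : Nat) : PL → Bool :=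
  Nat.rec (motive := fun _ => PL → Bool) k
    (fun c ih L => cnd (tb K c) (ih L)
      (strict (fnd0 c L) fun p => cnd (tb p c) (red0 c p ih L PL.nil)
        (fnd1 c (fun p q => red1 c p q ih L PL.nil) L))) c

/-- the slices `l - 1, ..., 0` -/
def cols2 (I j k s DA DB DC K l : Nat) : List Nat → Bool :=
  Nat.rec (motive := fun _ => List Nat → Bool) (fun _ => true)
    (fun l ih => strict (Nat.mul (Nat.mul j I) l) fun B =>
      strict (Nat.pow 2 (Nat.add B (Nat.mul j I))) fun bd => strict (Nat.pow 2 B) fun bd' =>
      addR (fun p => tn I j k (dig DA I p) (dig DB j p) (Nat.pow 2 l)) bd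
        (fib I j k DA DB DC bd l fun L =>
          spl B bd' (cells2 K (fun M => uns ih M []) (Nat.mul j I)) L PL.nil) s) l

/-- the check for `s ≥ k` tangents and `f` C-fibres -/
def num2 (I j k s f DA DB DC DK : Nat) : Bool :=
  cnd (Nat.ble k s) (strict (kil DK f) fun K =>
    ext I j k DA DB DC (Nat.pow 2 (Nat.mul (Nat.mul j I) k)) (cols2 I j k s DA DB DC K k) (Nat.sub s k) [])
    false

end

end Pool.Agent.Work.MP_f4b644_ag.Dag
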