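import Pool.Agent.Work.MP_f4b644_ag.Dag.NumS
import Pool.Agent.Work.MP_f4b644_ag.Dag.Num2

/-!
Soundness of the second numerical leaf.
-/

set_option autoImplicit false

namespace Pool.Agent.Work.MP_f4b644_ag.Dag

open Big Thin Big.Gad Pool.Agent.Lib.KLA Finset

theorem num_gen {I j k s f DA DB DC DK : ℕ} (h : ∀ v : ℕ → ZMod 2,
    (∀ p < s, ∀ x, Dt v (j * I * k) (tn I j k x (dig DB j p) (dig DC k p)) = 0) →
    (∀ p < s, ∀ x, Dt v (j * I * k) (tn I j k (dig DA I p) x (dig DC k p)) = 0) →
    (∀ p < s, ∀ x, Dt v (j * I * k) (tn I j k (dig DA I p) (dig DB j p) x) = 0) →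
    (∀ q < f, dig DK 12 q < j * I → ∀ l < k, v (j * I * l + dig DK 12 q) = 0) →
    ∀ m < j * I * k, v m = 0) : P I j k s 0 f := by
  classical
  let g : Fin s ⊕ Fin f → Gad := Sum.elim (fun _ => T 0 0) fun _ => CP 1
  refine S_of_fam g (by
    rw [map_univ_sum, map_univ_const, map_univ_const, Fintype.card_fin, Fintype.card_fin,
      Multiset.replicate_zero, add_zero]) ?_
  let a : (Fin s ⊕ Fin f) × ℕ → Fin I → ℂ := fun p =>
    Sum.elim (fun p : Fin s => bv I (dig DA I p)) (fun q : Fin f => bv I (2 ^ (dig DK 12 q / j))) p.1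
  let b : (Fin s ⊕ Fin f) × ℕ → Fin j → ℂ := fun p =>
    Sum.elim (fun p : Fin s => bv j (dig DB j p)) (fun q : Fin f => bv j (2 ^ (dig DK 12 q % j))) p.1
  let c : (Fin s ⊕ Fin f) × ℕ → Fin k → ℂ := fun p =>
    Sum.elim (fun p : Fin s => bv k (dig DC k p)) (fun _ : Fin f => 0) p.1
  refine ⟨a, b, c, top_of_ann _ fun Φ hΦ => ?_⟩
  refine gf2 {w | (fun n => if w n then (1 : ℂ) else 0) ∈ (fam g).sp a b c} (fun v hv => ?_) Φ
    fun w hw => by simpa using hΦ _ hw
  let v' : ℕ → ZMod 2 := fun m => ∑ n, if pos n = m then v n else 0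
  have hv' : ∀ n, v' (pos n) = v n := fun n => by
    simp only [v', pos_inj.eq_iff, sum_ite_eq', mem_univ, if_true]
  have hD : ∀ x y z, tp (bv I x) (bv j y) (bv k z) ∈ (fam g).sp a b c →
      Dt v' (j * I * k) (tn I j k x y z) = 0 := fun x y z hm => by
    rw [← hv (wb I j k x y z) (by rwa [Set.mem_ofPred_eq, wb_tp]), Dt]
    have e1 : ∀ m, (if (tn I j k x y z).testBit m then v' m else 0) =
        ∑ n, if pos n = m then (if wb I j k x y z n then v n else 0) else 0 := fun m => by
      have e2 : ∀ n : Fin I × Fin j × Fin k, pos n = m → wb I j k x y z n = (tn I j k x y z).testBit m := by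
        rintro n rfl
        exact (tn_bit n.1.2 n.2.1.2 n.2.2.2).symm
      split_ifs with h1
      · refine sum_congr rfl fun n _ => ?_
        by_cases h0 : pos n = m
        · rw [if_pos h0, if_pos h0, e2 n h0, if_pos h1]
        · rw [if_neg h0, if_neg h0]
      · refine (sum_eq_zero fun n _ => ?_).symm
        by_cases h0 : pos n = m
        · rw [if_pos h0, e2 n h0, if_neg h1]
        · rw [if_neg h0]
    rw [sum_congr rfl fun m _ => e1 m, sum_comm]
    refine sum_congr rfl fun n _ => ?_
    rw [sum_ite_eq, if_pos (mem_range.2 (pos_lt n))]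
  have H := h v'
    (fun p hp x => hD _ _ _ (Small_A (g := g) (Sum.inl ⟨p, hp⟩) 0 0 rfl _))
    (fun p hp x => hD _ _ _ (Small_B (g := g) (Sum.inl ⟨p, hp⟩) 0 0 rfl _))
    (fun p hp x => hD _ _ _ (Small_C (g := g) (Sum.inl ⟨p, hp⟩) 0 0 ⟨le_rfl, rfl⟩ _))
    (fun q hq hlt l hl => by
      have hj : 0 < j := Nat.pos_of_ne_zero fun h0 => by simp [h0] at hlt
      let n0 : Fin I × Fin j × Fin k :=
        (⟨dig DK 12 q / j, Nat.div_lt_of_lt_mul hlt⟩, ⟨dig DK 12 q % j, Nat.mod_lt _ hj⟩, ⟨l, hl⟩)
      have e : j * I * l + dig DK 12 q = pos n0 := by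
        have := Nat.mod_add_div (dig DK 12 q) j
        simp only [pos, n0]
        omega
      rw [e, hv']
      have h1 := hv (wb I j k (2 ^ (dig DK 12 q / j)) (2 ^ (dig DK 12 q % j)) (2 ^ l)) (by
        rw [Set.mem_ofPred_eq, wb_tp]
        exact Small_C (g := g) (Sum.inr ⟨q, hq⟩) 0 0 ⟨Nat.one_pos, rfl⟩ _)
      rw [sum_eq_single n0 (fun n _ hn => if_neg fun hw => hn ?_) (fun h => absurd (mem_univ _) h),
        if_pos (by simp [wb, n0])] at h1
      · exact h1
      · simp only [wb, Nat.testBit_two_pow, Bool.and_eq_true, decide_eq_true_eq] at hw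
        exact Prod.ext (Fin.ext hw.2.1.symm) (Prod.ext (Fin.ext hw.2.2.symm) (Fin.ext hw.1.symm)))
  funext n
  rw [← hv' n]
  exact H _ (pos_lt n)


section
variable {v : ℕ → ZMod 2}

/-- a property of all pairs of a list -/
def PL.All (p : ℕ → ℕ → Prop) : PL → Prop
  | .nil => True
  | .cons t r l => p t r ∧ PL.All p l

variable (v) in
/-- the row `(t, r)` is orthogonal to `v` below `B + n` -/
def Ort (B n t r : ℕ) : Prop := Dt (fun m => v (B + m)) n t + Dt v B r = 0

variable (v) in
/-- the continuation `k` proves that `v` vanishes below `B + n` -/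
def El2 (B n : ℕ) (k : PL → Bool) : Prop :=
  ∀ L, k L = true → L.All (Ort v B n) → ∀ m < B + n, v m = 0

theorem Dt_split (B W x : ℕ) :
    Dt v (B + W) x = Dt (fun m => v (B + m)) W (x >>> B) + Dt v B (x % 2 ^ B) := by
  rw [Dt_mod, Dt, sum_range_add, add_comm]
  congr 1
  exact sum_congr rfl fun m _ => by rw [Nat.testBit_shiftRight]

theorem spl_s {B W : ℕ} {k : PL → Bool} (H : El2 v B W k) (L : List ℕ) (hL : ∀ x ∈ L, Dt v (B + W) x = 0) :
    El2 v B W (spl B (2 ^ B) k L) := by
  induction L with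
  | nil => exact H
  | cons x L ih =>
    intro acc h ha
    refine ih (fun y hy => hL y (List.mem_cons_of_mem _ hy)) (PL.cons (x >>> B) (x % 2 ^ B) acc) h ⟨?_, ha⟩
    rw [Ort, ← Dt_split]
    exact hL x List.mem_cons_self

theorem uns_s {B : ℕ} {k : List ℕ → Bool} (H : El v B B k) (L : PL) (hL : L.All (Ort v B 0)) :
    El v B B (uns k L) := by
  induction L with
  | nil => exact H
  | cons t r L ih =>
    intro acc h ha
    have h' : cnd (Nat.beq r 0) (uns k L acc) (uns k L (r :: acc)) = true := h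
    cases h0 : Nat.beq r 0 with
    | true => rw [h0, cnd_t] at h'; exact ih hL.2 _ h' ha
    | false =>
      rw [h0, cnd_f] at h'
      refine ih hL.2 _ h' fun y hy => ?_
      rcases List.mem_cons.1 hy with rfl | hy
      · simpa [Ort, Dt] using hL.1
      · exact ha y hy

theorem Dt_0 (n : ℕ) : Dt v n 0 = 0 := by simp [Dt]

theorem fnd0_s {p : ℕ → ℕ → Prop} (n : ℕ) (L : PL) (hL : L.All p) : fnd0 n L = 0 ∨ p (fnd0 n L) 0 := by
  induction L with
  | nil => exact Or.inl rfl
  | cons t r L ih =>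
    have h : fnd0 n (PL.cons t r L) = cnd (Nat.beq r 0) (cnd (tb t n) t (fnd0 n L)) (fnd0 n L) := rfl
    rw [h]
    cases h0 : Nat.beq r 0 with
    | false => exact ih hL.2
    | true =>
      obtain rfl := Nat.eq_of_beq_eq_true h0
      cases tb t n
      · exact ih hL.2
      · exact Or.inr hL.1

theorem fnd1_s {p : ℕ → ℕ → Prop} {n : ℕ} {k : ℕ → ℕ → Bool} (L : PL) (hL : L.All p) (h : fnd1 n k L = true) :
    ∃ t r, p t r ∧ t.testBit n = true ∧ k t r = true := by
  induction L with
  | nil => exact absurd h Bool.false_ne_true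
  | cons t r L ih =>
    have h' : cnd (tb t n) (k t r) (fnd1 n k L) = true := h
    rw [tb_eq] at h'
    cases h0 : t.testBit n with
    | false => rw [h0, cnd_f] at h'; exact ih hL.2 h'
    | true => rw [h0, cnd_t] at h'; exact ⟨t, r, hL.1, h0, h'⟩

theorem Ort_no {B n t r : ℕ} (h : Ort v B (n + 1) t r) (hb : t.testBit n = false) : Ort v B n t r := by
  simpa [Ort, Dt_succ, hb] using h

theorem Ort_xor {B n t r p q : ℕ} (h : Ort v B (n + 1) t r) (hp : Ort v B (n + 1) p q)
    (hb : t.testBit n = true) (hq : p.testBit n = true) : Ort v B n (t ^^^ p) (r ^^^ q) := by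
  refine Ort_no ?_ (by rw [Nat.testBit_xor, hb, hq]; rfl)
  rw [Ort] at *
  rw [Dt_xor, Dt_xor, add_add_add_comm, h, hp, add_zero]

theorem red0_s {B n p : ℕ} {k : PL → Bool} (H : El2 v B n k) (hp : Ort v B (n + 1) p 0)
    (hb : p.testBit n = true) (L : PL) (hL : L.All (Ort v B (n + 1))) : El2 v B n (red0 n p k L) := by
  induction L with
  | nil => exact H
  | cons t r L ih =>
    intro acc h ha
    have h' : cnd (tb t n) (cnd (Nat.beq (t ^^^ p) 0) (cnd (Nat.beq r 0) (red0 n p k L acc)
      (red0 n p k L (PL.cons (t ^^^ p) r acc))) (red0 n p k L (PL.cons (t ^^^ p) r acc)))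
      (red0 n p k L (PL.cons t r acc)) = true := h
    rw [tb_eq] at h'
    cases hx : t.testBit n with
    | false => rw [hx, cnd_f] at h'; exact ih hL.2 _ h' ⟨Ort_no hL.1 hx, ha⟩
    | true =>
      rw [hx, cnd_t] at h'
      have h1 : Ort v B n (t ^^^ p) r := by simpa using Ort_xor hL.1 hp hx hb
      cases h0 : Nat.beq (t ^^^ p) 0 with
      | false => rw [h0, cnd_f] at h'; exact ih hL.2 _ h' ⟨h1, ha⟩
      | true =>
        rw [h0, cnd_t] at h'
        cases h2 : Nat.beq r 0 with
        | false => rw [h2, cnd_f] at h'; exact ih hL.2 _ h' ⟨h1, ha⟩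
        | true => rw [h2, cnd_t] at h'; exact ih hL.2 _ h' ha

theorem red1_s {B n p q : ℕ} {k : PL → Bool} (H : El2 v B n k) (hp : Ort v B (n + 1) p q)
    (hb : p.testBit n = true) (L : PL) (hL : L.All (Ort v B (n + 1))) : El2 v B n (red1 n p q k L) := by
  induction L with
  | nil => exact H
  | cons t r L ih =>
    intro acc h ha
    have h' : cnd (tb t n) (red1 n p q k L (PL.cons (t ^^^ p) (r ^^^ q) acc))
      (red1 n p q k L (PL.cons t r acc)) = true := h
    rw [tb_eq] at h'
    cases hx : t.testBit n with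
    | false => rw [hx, cnd_f] at h'; exact ih hL.2 _ h' ⟨Ort_no hL.1 hx, ha⟩
    | true => rw [hx, cnd_t] at h'; exact ih hL.2 _ h' ⟨Ort_xor hL.1 hp hx hb, ha⟩

theorem PL.All.imp {p q : ℕ → ℕ → Prop} (h : ∀ t r, p t r → q t r) (L : PL) (hL : L.All p) : L.All q := by
  induction L with
  | nil => trivial
  | cons t r L ih => exact ⟨h _ _ hL.1, ih hL.2⟩

theorem Ort_top {B n p q : ℕ} (h : ∀ m < B + n, v m = 0) (hp : Ort v B (n + 1) p q)
    (hb : p.testBit n = true) : v (B + n) = 0 := by
  rw [Ort, Dt_succ, Dt_zero (fun m hm => h _ (by omega)), Dt_zero (fun m hm => h _ (by omega)), hb] at hp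
  simpa using hp

theorem cells2_s {K B : ℕ} {k : PL → Bool} (H : El2 v B 0 k) (c : ℕ)
    (hK : ∀ i < c, K.testBit i = true → v (B + i) = 0) : El2 v B c (cells2 K k c) := by
  induction c with
  | zero => exact H
  | succ c ih =>
    intro L h hL
    have ih' := ih fun i hi => hK i (by omega)
    have h' : cnd (tb K c) (cells2 K k c L) (cnd (tb (fnd0 c L) c) (red0 c (fnd0 c L) (cells2 K k c) L PL.nil)
      (fnd1 c (fun p q => red1 c p q (cells2 K k c) L PL.nil) L)) = true := h
    rw [tb_eq, tb_eq] at h'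
    have key : (∀ m < B + c, v m = 0) ∧ v (B + c) = 0 := by
      cases hb : K.testBit c with
      | true =>
        rw [hb, cnd_t] at h'
        have h0 := hK c (by omega) hb
        refine ⟨ih' L h' (PL.All.imp (fun t r hx => ?_) L hL), h0⟩
        rw [Ort, Dt_succ, h0] at hx
        simpa [Ort] using hx
      | false =>
        rw [hb, cnd_f] at h'
        cases hp : (fnd0 c L).testBit c with
        | true =>
          rw [hp, cnd_t] at h'
          have hm := (fnd0_s c L hL).resolve_left fun h0 => by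
            rw [h0, Nat.zero_testBit] at hp
            exact Bool.false_ne_true hp
          have h1 := red0_s ih' hm hp L hL PL.nil h' trivial
          exact ⟨h1, Ort_top h1 hm hp⟩
        | false =>
          rw [hp, cnd_f] at h'
          obtain ⟨p, q, h2, h3, h4⟩ := fnd1_s L hL h'
          have h1 := red1_s ih' h2 h3 L hL PL.nil h4 trivial
          exact ⟨h1, Ort_top h1 h2 h3⟩
    intro m hm
    rcases Nat.lt_or_ge m (B + c) with h1 | h1
    · exact key.1 m h1
    · rw [show m = B + c by omega]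
      exact key.2

end

theorem num2_s {I j k s f DA DB DC DK : ℕ} (h : num2 I j k s f DA DB DC DK = true) : P I j k s 0 f := by
  refine num_gen (DA := DA) (DB := DB) (DC := DC) (DK := DK) fun v hA hB hC hK => ?_
  have h' : cnd (Nat.ble k s) (ext I j k DA DB DC (2 ^ (j * I * k))
    (cols2 I j k s DA DB DC (kil DK f) k) (s - k) []) false = true := h
  cases hb : Nat.ble k s with
  | false => rw [hb, cnd_f] at h'; exact absurd h' Bool.false_ne_true
  | true =>
    rw [hb, cnd_t] at h'
    have hks : k ≤ s := Nat.le_of_ble_eq_true hb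
    have hfib : ∀ (n n' p : ℕ) (kk : List ℕ → Bool), n ≤ j * I * k → p < s → El v n n' kk →
        El v n n' (fib I j k DA DB DC (2 ^ n) p kk) := fun n n' p kk hn hp H =>
      addR_s hn (addR_s hn H j fun i _ => hB p hp _) I fun i _ => hA p hp _
    have hcol : ∀ l ≤ k, El v (j * I * l) (j * I * l) (cols2 I j k s DA DB DC (kil DK f) l) := by
      intro l
      induction l with
      | zero => intro _ L _ _ m hm; omega
      | succ l ih =>
        intro hl
        have hn : j * I * l + j * I ≤ j * I * k := Nat.mul_le_mul_left (j * I) hl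
        have h1 : El2 v (j * I * l) 0 fun M => uns (cols2 I j k s DA DB DC (kil DK f) l) M [] :=
          fun M h2 hM => uns_s (ih (by omega)) M hM [] h2 fun _ hx => absurd hx List.not_mem_nil
        have h2 := cells2_s (K := kil DK f) h1 (j * I) fun i hi hb => by
          obtain ⟨q, hq, rfl⟩ := kil_bit f hb
          exact hK q hq hi l (by omega)
        exact addR_s hn (hfib _ _ l _ hn (by omega) fun L h3 hL => spl_s h2 L hL PL.nil h3 trivial) s
          fun p hp => hC p hp _
    have hext : ∀ n ≤ s - k, El v (j * I * k) (j * I * k)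
        (ext I j k DA DB DC (2 ^ (j * I * k)) (cols2 I j k s DA DB DC (kil DK f) k) n) := by
      intro n
      induction n with
      | zero => exact fun _ => hcol k le_rfl
      | succ n ih => exact fun hn => hfib _ _ (k + n) _ le_rfl (by omega) (ih (by omega))
    exact hext _ le_rfl [] h' fun _ hx => absurd hx List.not_mem_nil

end Pool.Agent.Work.MP_f4b644_ag.Dag
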