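import Pool.Agent.Work.MP_f4b644_ag.Dag.Num2

/-! Checks of the numerical leaf. -/

namespace Pool.Agent.Work.MP_f4b644_ag.Dag

def nm27 : PLift (num2 (nat_lit 27) (nat_lit 27) (nat_lit 52) (nat_lit 55) (nat_lit 619)
    (nat_lit 0xdbf991267c3e343c0f33bb79124a7d5bd04fa6a2bdb6f9b6e90f17a8da78be992a6c78a3e7779646855753674af9d5dd738f9495fd798fd6c3a8e61e57690765c1b6ddf2a64f88ff7cd707199b73ec553a727cf4e7e7bca8d76bbed7c56afc8baa3f897676667693f2cbe5ff4bff5fb4f45fceb0cff4d3aaf377b078f74685e7f67084fd2209d704daeabf8e1fa1e3bf3bb4e779c50cd1725e7aa95e447ed9fdb67534e7d6ae41cfdef797a5ef9756e196dfeb3cf82a39dd523)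
    (nat_lit 0xfa277479f6aeaa5bde4ee0e89ff6cfb8caa89fa597b165f777c22adc1e3e21353e3baffaa5b1b8c57312e7fb97c46dbdc44be476d6e9d5bd986acb5bc63efeda176589fcc9e2bffe88bb2c4e62359f2b7f06dac58b5feaf2b5fdd656d467f3798bb962eaeba1b8bb6d27978bff2f5c7744a3629fd6eb178f75ed1eb89d376652f992bf99f5ad13479f7ca67d3035a06febd9ff925197e7f73f49ee56cee501c4ff2ff7f1937dd3605b9eff3f72d7c1f2fd90c7bad47f7f9dd8d)
    (nat_lit 0x1bd3d15cbcc46fe651f137d931fbd873a332a9e8000000000000400000000000020000000000001000000000000080000000000004000000000000200000000000010000000000000800000000000040000000000002000000000000100000000000008000000000000400000000000020000000000001000000000000080000000000004000000000000200000000000010000000000000800000000000040000000000002000000000000100000000000008000000000000400000000000020000000000001000000000000080000000000004000000000000200000000000010000000000000800000000000040000000000002000000000000100000000000008000000000000400000000000020000000000001000000000000080000000000004000000000000200000000000010000000000000800000000000040000000000002000000000000100000000000008000000000000400000000000020000000000001)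
    (nat_lit 0x2d82d72d52d42d32d22cf2ce2cd2cc2cb2ca2c92c82c72c62c42c32c22c12c02bf2be2bd2bc2bb2b92b82b62b52b42b32b22b12b02af2ae2ad2ac2ab2aa2a82a72a62a42a32a22a12a029e29d29c29b29a29829729629529429329229028f28e28c28b28a28928828728528428328228128027f27d27c27b27a27927827727527427327227126f26e26d26b26a26926826626526426326126025f25e25d25c25a25925825725525425325225124f24e24c24b24a24924824724624524424324224124023f23e23d23c23a23923723523423323223123022f22e22d22c22a22922822722622522422322222121e21d21c21b21a21921821721421321221020f20d20c20b20a2092082072062052042032022012001ff1fe1fd1fc1fb1f91f81f71f61f41f31f21f11ef1ee1ec1eb1ea1e91e81e71e61e51e41e31e21e01df1de1dd1dc1db1da1d91d71d61d51d41d21d11d01cf1ce1cd1cc1ca1c91c81c71c61c51c31c21c11c01bf1be1bd1bc1b91b81b71b61b51b41b31b21b01af1ae1ac1ab1aa1a91a81a71a61a51a41a21a019f19e19d19c19b19a19919819719519419319219119018f18e18c18b18a18918718618418318118017f17e17d17c17b17a17917817717617517417317217116d16c16b16a16916816716616516416316116015f15e15d15c15b15a15915815615515415315215115014f14e14c14b14914814714614514314214013f13e13d13c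13b13913813713613513413313213113012f12d12c12a12912812712412312212112011f11d11c11b11a11911811711611411311211111010f10e10d10c10b10a1091071061051041031021011000fe0fd0fb0fa0f90f80f70f60f40f30f20f10f00ef0ee0ed0ec0eb0e90e80e70e50e20e10e00df0de0dd0dc0db0da0d90d80d50d40d30d20d10d00cf0ce0cd0cc0ca0c90c80c70c60c50c40c30c20c10c00bf0be0bb0ba0b90b80b70b60b50b40b30b20b10b00af0ae0ad0ab0aa0a90a80a60a50a30a20a10a009f09e09d09b09a09909809709509309209109008f08e08d08c08b08a08908708608408308108007f07d07c07b07a07907807607507407307207107006f06e06d06c06b06a06906806706606506406306206106005c05b05a05905805705605405305205105004f04e04d04c04b04a04904704604504404304204103f03d03c03b03a03803703603503403303002f02e02d02c02b02a02902802702602502402001f01e01d01c01b01a01901801701601501401201101000f00e00d00c00b00a009008007004003002001) = true) :=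
  ⟨by decide +kernel⟩

end Pool.Agent.Work.MP_f4b644_ag.Dag
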