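import Pool.Agent.Work.MP_f4b644_ag.Dag.Lem

/-!
More rules: grid, sink, two strips, pairs, projection.
-/

set_option autoImplicit false

namespace Pool.Agent.Work.MP_f4b644_ag.Dag

open Big Thin Multiset Big.Gad

theorem corner2 {s X Y w y F : ℕ} (A B : ℕ) (hA : w = 0 ∨ min s (X - 1) ≤ A)
    (hB : min (s + F) (Y - 1) ≤ B) (h1 : A = 0 ∨ w + 1 ≤ Y) (h2 : B = 0 ∨ y + 1 ≤ X)
    (h3 : A * (B + w + 1) + B * (y + 1) ≤ A * Y + B * X) : Corner s X Y w F s 1 y := by
  intro a b1 b2 ha haX hb1 hb2 hb hw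
  have haA : a ≤ A := by omega
  have hbB : b1 + b2 ≤ B := by omega
  have hm : min s (a + b2) ≤ a + b2 := min_le_right _ _
  suffices h : a * (b1 + b2) + (w + 1) * a + (y + 1) * (b1 + b2) ≤ (b1 + b2) * X + a * Y by
    have : (y + 1) * (b1 + b2) = y * b1 + b2 * y + b1 + b2 := by ring
    have : (w + 1) * a = w * a + a := by ring
    omega
  generalize b1 + b2 = β at *
  rcases Nat.eq_zero_or_pos A with rfl | hA0
  · obtain rfl : a = 0 := by omega
    rcases h2 with rfl | h2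
    · obtain rfl : β = 0 := by omega
      simp
    · nlinarith
  rcases Nat.eq_zero_or_pos B with rfl | hB0
  · obtain rfl : β = 0 := by omega
    have h1' : w + 1 ≤ Y := by omega
    nlinarith
  obtain ⟨p, rfl⟩ := Nat.exists_eq_add_of_le (show w + 1 ≤ Y by omega)
  obtain ⟨q, rfl⟩ := Nat.exists_eq_add_of_le (show y + 1 ≤ X by omega)
  have h4 : A * B ≤ A * p + B * q := by nlinarith
  have h5 : A * B * (a * β) ≤ A * B * (a * p + β * q) := by
    calc A * B * (a * β) ≤ (A * p + B * q) * (a * β) := Nat.mul_le_mul_right _ h4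
      _ = a * p * (A * β) + β * q * (a * B) := by ring
      _ ≤ a * p * (A * B) + β * q * (A * B) :=
        add_le_add (Nat.mul_le_mul_left _ (Nat.mul_le_mul_left _ hbB))
          (Nat.mul_le_mul_left _ (Nat.mul_le_mul_right _ haA))
      _ = A * B * (a * p + β * q) := by ring
  have h6 := Nat.le_of_mul_le_mul_left h5 (Nat.mul_pos hA0 hB0)
  nlinarith

theorem BS_grid {I j k s u b e G f : ℕ} (y w R C : ℕ) (hy : 1 ≤ y) (hI : I = y + w + 3)
    (hR : R = s + u + u + (2 * G + f)) (hC : C = s + u + e + b) (h1 : s + u + G ≤ j) (h2 : s + u + e ≤ k)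
    (h3 : I * j * k + u ≤ (s + u) * (I - 2) + e + (C * j + R * k)) (h4 : (w + 1) * k ≤ C)
    (h5 : (y + 1) * j ≤ R) (hc : Corner (s + u) ((y + 2) * j - R) ((w + 2) * k - C) w e (s + u) 1 y) :
    BS I j k s u b e G f := by
  obtain ⟨nB, hB⟩ := Nat.exists_eq_add_of_le h4
  obtain ⟨nC, hC'⟩ := Nat.exists_eq_add_of_le h5
  have e1 : (y + 2) * j = (y + 1) * j + j := by ring
  have e2 : (w + 2) * k = (w + 1) * k + k := by ring
  rw [show (y + 2) * j - R = j - nC by omega, show (w + 2) * k - C = k - nB by omega] at hc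
  subst hI
  refine S_G j k s u b e G f y w nB nC hy h1 h2 (by omega) (by omega) ?_ hc
  rw [show y + w + 3 - 2 = y + w + 1 by omega, hB, hC'] at h3
  nlinarith

theorem BS_sink {I j k s u b e G f : ℕ} (hI : 4 ≤ I) (hj : 1 ≤ j) (hG : G ≤ j) (hR : 2 * j ≤ 2 * G + f)
    (hk : k ≤ b + e) (h : k * ((I - 1) * j - (2 * G + f)) ≤ j * (b + e - k) + e) :
    BS I j k s u b e G f := by
  obtain ⟨m, rfl⟩ : ∃ m, I = m + 2 := ⟨I - 2, by omega⟩
  have e1 : (m + 1) * j = m * j + j := by ring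
  have e2 : 2 * j ≤ m * j := Nat.mul_le_mul_right _ (by omega)
  rw [show m + 2 - 1 = m + 1 by omega] at h
  have H := (V_pure m j _ k _ e G (by omega) hj hG (by omega) (by omega) h).2.2.2
  exact BS_mono H (by omega) (by omega) (by omega) le_rfl le_rfl (by omega)

theorem grOK1 {I h x s y f : ℕ} (R : ℕ) (hsum : s * (y + 1) + f + x + h = I * h) (hx : 1 ≤ x)
    (hxy : x + y + 2 = I) (hR : R = I - 3 - (x - 1) / h) (h1 : 1 ≤ R) (h2 : s * y ≤ R * h)
    (h3 : y + 1 ≤ R ∨ s ≤ h) : GrOK I h x (replicate s (y + 1) + replicate f 1) := by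
  have hh : 1 ≤ h := by
    rcases Nat.eq_zero_or_pos h with rfl | h0
    · omega
    · exact h0
  have hd : (x - 1) / h ≤ x - 1 := Nat.div_le_self _ _
  have hs : (replicate s (y + 1) + replicate f 1 : Multiset ℕ).sum = s * (y + 1) + f := by simp
  have hc : (replicate s (y + 1) + replicate f 1 : Multiset ℕ).card = s + f := by simp
  refine ⟨hh, by rw [hs]; exact hsum, R, h1, by omega, ?_, ?_, ?_⟩
  · intro w hw
    simp only [mem_add, mem_replicate] at hw
    omega
  · rw [count_add, count_replicate, count_replicate]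
    split_ifs <;> omega
  · rw [hs, hc]
    have e : s * (y + 1) = s * y + s := by ring
    omega

/-- the numerical conditions for one strip -/
def Strip (I k b h x s z s' : ℕ) : Prop :=
  1 ≤ I - 3 - (x - 1) / h ∧ s ≤ k ∧ s * (I - 2 - x) ≤ (I - 3 - (x - 1) / h) * h ∧
    (I - 2 - x + 1 ≤ I - 3 - (x - 1) / h ∨ s ≤ h) ∧ s * (I - 2 - x + 1) + (x + h) ≤ I * h ∧
    (k - s) * (h + x) ≤ h * (s' + b) + s' * z

theorem strip_S {I k b h x s z s' y f : ℕ} (H : Strip I k b h x s z s') (hx : 1 ≤ x)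
    (hxy : x + y + 2 = I) (hz : z ≤ x) (hf : s * (y + 1) + f + x + h = I * h) :
    S I h k (replicate s (T y 0) + replicate s' (BP z) + replicate b (BP 0) + replicate f (CP 1)) := by
  obtain ⟨h1, h2, h3, h4, -, h6⟩ := H
  rw [show I - 2 - x = y by omega] at h3 h4
  have := S_stripW I h x y s (k - s) (replicate s' z + replicate b 0) (replicate f 1) hxy
    (grOK1 _ hf hx hxy rfl h1 h3 h4) (fun e he => by
      simp only [mem_add, mem_replicate] at he
      omega) (by simpa using h6)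
  rw [show s + (k - s) = k by omega] at this
  refine this.of_eq ?_
  simp only [Multiset.map_add, map_replicate]
  abel

theorem P_strips {I j k s b f : ℕ} (h1 x1 x2 s1 : ℕ) (hh : h1 ≤ j) (hs : s1 ≤ s) (hx1 : 1 ≤ x1)
    (hx2 : 1 ≤ x2) (hy1 : x1 + 2 ≤ I) (hy2 : x2 + 2 ≤ I) (hR : I * j ≤ s + f + j + (x1 + x2))
    (H1 : Strip I k b h1 x1 s1 (min (I - 2 - x2) x1) (s - s1))
    (H2 : Strip I k b (j - h1) x2 (s - s1) (min (I - 2 - x1) x2) s1) : P I j k s b f := by
  obtain ⟨h2, rfl⟩ := Nat.exists_eq_add_of_le hh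
  obtain ⟨s2, rfl⟩ := Nat.exists_eq_add_of_le hs
  rw [Nat.add_sub_cancel_left] at H1 H2
  rw [Nat.add_sub_cancel_left] at H2
  obtain ⟨y1, hy1⟩ : ∃ y, x1 + y + 2 = I := ⟨I - 2 - x1, by omega⟩
  obtain ⟨y2, hy2⟩ : ∃ y, x2 + y + 2 = I := ⟨I - 2 - x2, by omega⟩
  rw [show I - 2 - x2 = y2 by omega] at H1
  rw [show I - 2 - x1 = y1 by omega] at H2
  have c1 := H1.2.2.2.2.1
  have c2 := H2.2.2.2.2.1
  rw [show I - 2 - x1 = y1 by omega] at c1
  rw [show I - 2 - x2 = y2 by omega] at c2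
  obtain ⟨f1, hf1⟩ := Nat.exists_eq_add_of_le c1
  obtain ⟨f2, hf2⟩ := Nat.exists_eq_add_of_le c2
  have S1 := strip_S (y := y1) (f := f1) H1 hx1 hy1 (min_le_right _ _) (by omega)
  have S2 := strip_S (y := y2) (f := f2) H2 hx2 hy2 (min_le_right _ _) (by omega)
  obtain ⟨d1, hd1⟩ := Nat.exists_eq_add_of_le' (min_le_left y1 x2)
  obtain ⟨d2, hd2⟩ := Nat.exists_eq_add_of_le' (min_le_left y2 x1)
  generalize min y1 x2 = z1 at *
  generalize min y2 x1 = z2 at *
  have r1 : Rule Dir.B (T d1 z1) (T y1 0) (BP z1) := by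
    have := ruleB_T d1 0 z1
    rwa [zero_add, ← hd1] at this
  have r2 : Rule Dir.B (T d2 z2) (T y2 0) (BP z2) := by
    have := ruleB_T d2 0 z2
    rwa [zero_add, ← hd2] at this
  have q1 : Red (T d1 z1).cfg (T 0 y1).cfg := by
    have := red_T_tok 0 d1 z1
    rwa [zero_add, ← hd1] at this
  have q2 : Red (T d2 z2).cfg (T 0 y2).cfg := by
    have := red_T_tok 0 d2 z2
    rwa [zero_add, ← hd2] at this
  have r4 : Rule Dir.B (BP 0) (BP 0) (BP 0) := ruleB_BP 0 0
  have hs := (Spl.rep r1 s1).add ((Spl.rep r2.symm s2).add (((Spl.rep r4 b).add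
    (Spl.repL (ruleB_CP 1) f1)).add (Spl.repR (ruleB_CP 1).symm f2)))
  have A1 := S.hingeT s1 0 y1 _ (S.rep q1 s1 _ (S.splitB (hs.of_eq rfl (by abel) (by abel)) S1 S2))
  have A2 := S.hingeT s2 0 y2 _ (S.rep q2 s2 _ (A1.of_eq (add_left_comm _ _ _)))
  have A3 : P I (h1 + h2) k (s1 + s2) b (s1 * y1 + s2 * y2 + f1 + f2) :=
    A2.of_eq (by simp only [replicate_add]; abel)
  refine P_mono A3 le_rfl le_rfl ?_
  have e1 : s1 * (y1 + 1) = s1 * y1 + s1 := by ring
  have e2 : s2 * (y2 + 1) = s2 * y2 + s2 := by ring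
  have e3 : I * (h1 + h2) = I * h1 + I * h2 := by ring
  omega

/-- `p` pairs of tangents are joined, then both factors are cut -/
theorem P_pair {I j1 j2 k1 k1' k2 k2' : ℕ} (p a11 a12 a21 a22 b11 b12 b21 b22 : ℕ)
    (hk : k1 + k1' = k2 + k2') (ha : a11 + a12 = b21 + b22) (hb : a21 + a22 = b11 + b12)
    (h1 : BS I j1 k1 a11 p b11 0 0 a12) (h2 : BS I j1 k1' a12 p b12 0 0 a11)
    (h3 : BS I j2 k2 a21 0 b21 p 0 a22) (h4 : BS I j2 k2' a22 0 b22 p 0 a21) :
    P I (j1 + j2) (k1 + k1') (2 * p + (a11 + a12) + (a21 + a22)) 0 0 := by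
  have r1 : Rule Dir.C (T 0 0) (T 0 0) (CP 1) := ruleC_T 0
  have r2 : Rule Dir.C (TT 0) (T 1 0) (T 1 0) := ruleC_TT 0
  have r3 : Rule Dir.C (PB 0 true) (BP 1) (BP 1) := ruleC_PBt 0
  have s1 := ((((Spl.rep r1 a11).add (Spl.rep r1.symm a12)).add (Spl.repL (ruleC_BP 0) b11)).add
    (Spl.repR (ruleC_BP 0).symm b12)).add (Spl.rep r2 p)
  have s2 := ((((Spl.rep r1 a21).add (Spl.rep r1.symm a22)).add (Spl.repL (ruleC_BP 0) b21)).add
    (Spl.repR (ruleC_BP 0).symm b22)).add (Spl.rep r3 p)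
  have A1 := S.splitC (s1.of_eq rfl (by simp only [replicate_zero]; abel)
    (by simp only [replicate_zero]; abel)) h1 h2
  have A2 := S.splitC (s2.of_eq rfl (by simp only [replicate_zero]; abel)
    (by simp only [replicate_zero]; abel)) h3 h4
  rw [← hk] at A2
  have := S_level1 I j1 j2 (k1 + k1') (a11 + a12) (a21 + a22) p
    (A1.of_eq (by rw [hb]; simp only [replicate_add]; abel))
    (A2.of_eq (by rw [ha]; simp only [replicate_add]; abel))
  exact this.of_eq (by simp only [replicate_zero, add_zero])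

/-- `r` tangent spaces span for every `K` allowed by the count -/
def Root (I J r : ℕ) : Prop :=
  ∀ K, K * (I * J - r) ≤ r * (J + I - 2) → r < I * J → S I J K (replicate r (T 0 0))

theorem S_proj {I J r K : ℕ} (n : ℕ) (h : S I J (K + n) (replicate (r + 1) (T 0 0))) :
    S I J K (replicate (r + 1) (T 0 0)) := by
  induction n with
  | zero => exact h
  | succ n ih =>
    have h1 := S.drop (M := replicate r (T 0 0)) h
    have h2 := S.rep red_CP_T 1 (replicate r (T 0 0)) (h1.of_eq (by simp))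
    exact ih (h2.of_eq (by rw [add_comm, replicate_add]))

theorem Root_of {I J r : ℕ} (h : P I J (r * (J + I - 2) / (I * J - r)) r 0 0) : Root I J r := by
  intro K hK hr
  have h1 : K ≤ r * (J + I - 2) / (I * J - r) := (Nat.le_div_iff_mul_le (by omega)).2 hK
  obtain ⟨n, hn⟩ := Nat.exists_eq_add_of_le h1
  obtain _ | r := r
  · obtain rfl : K = 0 := by simpa using h1
    exact S_zeroC _ _ _
  · rw [hn] at h
    exact S_proj n (h.of_eq (by simp only [replicate_zero, add_zero]))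

end Pool.Agent.Work.MP_f4b644_ag.Dag
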