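import Pool.Agent.Work.MP_f4b644_ag.Dag.Run2S
import Pool.Agent.Work.MP_f4b644_ag.Dag.Num2S
import Pool.Agent.Work.MP_f4b644_ag.Dag.NumD5
import Pool.Agent.Work.MP_f4b644_ag.Dag.NumD6
import Pool.Agent.Work.MP_f4b644_ag.Fat.Low

/-!
The roots which are proved apart.
-/

set_option autoImplicit false

namespace Pool.Agent.Work.MP_f4b644_ag.Dag

open Big Thin Pool.Agent.Lib.KLA

theorem rt_27_27_674 : Root 27 27 674 :=
  Root_of (P_blk 52 12 55 0x2d2b6a (by decide) (by decide) (num2_s nm27.down) (by decide +kernel))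

theorem rt_29_29_782 : Root 29 29 782 :=
  Root_of (P_blk 56 13 59 0x3dc32a (by decide) (by decide) (num2_s nm29.down) (by decide +kernel))

/-- three strips -/
theorem V_three {m K t h0 h1 h2 x0 x1 x2 s0 s1 s2 y0 y1 y2 E0 E1 E2 : ℕ} (hs : s0 + s1 + s2 = K + t)
    (k0 : s0 ≤ K) (k1 : s1 ≤ K) (k2 : s2 ≤ K) (a0 : x0 + y0 = m) (a1 : x1 + y1 = m) (a2 : x2 + y2 = m)
    (c0 : y0 ≤ x1 ∧ y0 ≤ x2) (c1 : y1 ≤ x0 ∧ y1 ≤ x2) (c2 : y2 ≤ x0 ∧ y2 ≤ x1)
    (G0 : Fat.Cap m h0 x0 s0 y0) (G1 : Fat.Cap m h1 x1 s1 y1) (G2 : Fat.Cap m h2 x2 s2 y2)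
    (e0 : (K - s0) * x0 ≤ h0 * t + E0) (e1 : (K - s1) * x1 ≤ h1 * t + E1) (e2 : (K - s2) * x2 ≤ h2 * t + E2)
    (t0 : E0 ≤ y1 * s1 + y2 * s2) (t1 : E1 ≤ y0 * s0 + y2 * s2) (t2 : E2 ≤ y0 * s0 + y1 * s1)
    (H : E0 + E1 + E2 ≤ y0 * s0 + y1 * s1 + y2 * s2) :
    V m (h0 + h1 + h2) (x0 + x1 + x2) K t (K + t) 0 0 0 := by
  let F : ℕ → ℕ → ℕ → ℕ → ℕ := fun a b c i => if i = 0 then a else if i = 1 then b else c
  have h3 : ∀ a < 3, a = 0 ∨ a = 1 ∨ a = 2 := fun a ha => by omega
  have := Fat.V_hall m K t 3 (F h0 h1 h2) (F x0 x1 x2) (F s0 s1 s2) (F y0 y1 y2) (F E0 E1 E2)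
    (by simpa [F, Finset.sum_range_succ] using hs)
    (fun a ha => by rcases h3 a ha with rfl | rfl | rfl <;> simpa [F])
    (fun a ha _ => by rcases h3 a ha with rfl | rfl | rfl <;> simpa [F])
    (fun a ha b hb hab _ => by
      rcases h3 a ha with rfl | rfl | rfl <;> rcases h3 b hb with rfl | rfl | rfl <;> simp [F] at hab ⊢ <;> omega)
    (fun a ha => by rcases h3 a ha with rfl | rfl | rfl <;> simpa [F])
    (fun a ha => by rcases h3 a ha with rfl | rfl | rfl <;> simpa [F])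
    (fun a ha => by
      rcases h3 a ha with rfl | rfl | rfl <;> simp [F, Finset.sum_range_succ] <;> omega)
    (by simpa [F, Finset.sum_range_succ] using H)
  simpa [F, Finset.sum_range_succ] using this

theorem rt_81_99_7742 : Root 81 99 7742 := by
  have h1 : V 79 (29 + 5 + 65) (21 + 78 + 79) 178 99 (178 + 99) 0 0 0 :=
    V_three (s0 := 34) (s1 := 153) (s2 := 90) (y0 := 58) (y1 := 1) (y2 := 0) (E0 := 153) (E1 := 1455)
      (E2 := 517) rfl (by decide) (by decide) (by decide) rfl rfl rfl (by decide) (by decide) (by decide)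
      ⟨by decide, by decide, 78, by decide⟩ ⟨by decide, by decide, 63, by decide⟩
      ⟨by decide, by decide, 77, by decide⟩ (by decide) (by decide) (by decide) (by decide) (by decide)
      (by decide) (by decide)
  have h2 : V 79 (30 + 3 + 66) (20 + 79 + 79) 169 94 (169 + 94) 0 0 0 :=
    V_three (s0 := 28) (s1 := 145) (s2 := 90) (y0 := 59) (y1 := 0) (y2 := 0) (E0 := 0) (E1 := 1614)
      (E2 := 37) rfl (by decide) (by decide) (by decide) rfl rfl rfl (by decide) (by decide) (by decide)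
      ⟨by decide, by decide, 78, by decide⟩ ⟨by decide, by decide, 52, by decide⟩
      ⟨by decide, by decide, 77, by decide⟩ (by decide) (by decide) (by decide) (by decide) (by decide)
      (by decide) (by decide)
  have h3 := (Blk.mul 27 (by decide) (Blk_of_V (r := 7742) rfl h1) (Blk_of_V (r := 7742) rfl h2)).toS
  exact Root_of (h3.of_eq (by simp only [Multiset.replicate_zero, add_zero]))

theorem rt_15_15_194 : Root 15 15 194 := exA_s _ _ _ (by decide +kernel)

theorem rt_17_17_254 : Root 17 17 254 := exA_s _ _ _ (by decide +kernel)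

theorem rt_21_21_398 : Root 21 21 398 := exA_s _ _ _ (by decide +kernel)

theorem rt_23_23_482 : Root 23 23 482 := exA_s _ _ _ (by decide +kernel)

theorem rt_32_33_985 : Root 32 33 985 := Fat.root_fat_low 30 33 8 985 (by decide) rfl

theorem rt_33_33_1022 : Root 33 33 1022 := Fat.root_fat_low 31 33 3 1022 (by decide) rfl

theorem rt_35_35_1154 : Root 35 35 1154 := Fat.root_fat_low 33 35 3 1154 (by decide) rfl

theorem rt_39_39_1442 : Root 39 39 1442 := Fat.root_fat_low 37 39 3 1442 (by decide) rfl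

theorem rt_41_41_1598 : Root 41 41 1598 := Fat.root_fat_low 39 41 3 1598 (by decide) rfl

theorem rt_45_45_1934 : Root 45 45 1934 := Fat.root_fat_low 43 45 3 1934 (by decide) rfl

theorem rt_47_47_2114 : Root 47 47 2114 := Fat.root_fat_low 45 47 3 2114 (by decide) rfl

theorem rt_51_51_2498 : Root 51 51 2498 := Fat.root_fat_low 49 51 3 2498 (by decide) rfl

theorem rt_53_53_2702 : Root 53 53 2702 := Fat.root_fat_low 51 53 3 2702 (by decide) rfl

theorem rt_57_57_3134 : Root 57 57 3134 := Fat.root_fat_low 55 57 3 3134 (by decide) rfl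

theorem rt_59_59_3362 : Root 59 59 3362 := Fat.root_fat_low 57 59 3 3362 (by decide) rfl

theorem rt_63_63_3842 : Root 63 63 3842 := Fat.root_fat_low 61 63 3 3842 (by decide) rfl

theorem rt_65_65_4094 : Root 65 65 4094 := Fat.root_fat_low 63 65 3 4094 (by decide) rfl

theorem rt_69_69_4622 : Root 69 69 4622 := Fat.root_fat_low 67 69 3 4622 (by decide) rfl

theorem rt_71_71_4898 : Root 71 71 4898 := Fat.root_fat_low 69 71 3 4898 (by decide) rfl

theorem rt_75_75_5474 : Root 75 75 5474 := Fat.root_fat_low 73 75 3 5474 (by decide) rfl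

theorem rt_77_77_5774 : Root 77 77 5774 := Fat.root_fat_low 75 77 3 5774 (by decide) rfl

theorem rt_81_81_6398 : Root 81 81 6398 := Fat.root_fat_low 79 81 3 6398 (by decide) rfl

theorem rt_83_83_6722 : Root 83 83 6722 := Fat.root_fat_low 81 83 3 6722 (by decide) rfl

theorem rt_87_87_7394 : Root 87 87 7394 := Fat.root_fat_low 85 87 3 7394 (by decide) rfl

theorem rt_89_89_7742 : Root 89 89 7742 := Fat.root_fat_low 87 89 3 7742 (by decide) rfl

theorem rt_93_93_8462 : Root 93 93 8462 := Fat.root_fat_low 91 93 3 8462 (by decide) rfl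

theorem rt_95_95_8834 : Root 95 95 8834 := Fat.root_fat_low 93 95 3 8834 (by decide) rfl

theorem rt_99_99_9602 : Root 99 99 9602 := Fat.root_fat_low 97 99 3 9602 (by decide) rfl

end Pool.Agent.Work.MP_f4b644_ag.Dag
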