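import Pool.Agent.Work.MP_f4b644_ag.Dag.Tm2S
import Pool.Agent.Work.MP_f4b644_ag.Dag.ExB
import Pool.Agent.Work.MP_f4b644_ag.Dag.Vi_1
import Pool.Agent.Work.MP_f4b644_ag.Dag.Vi_2
import Pool.Agent.Work.MP_f4b644_ag.Dag.Vi_3
import Pool.Agent.Work.MP_f4b644_ag.Dag.Vi_4
import Pool.Agent.Work.MP_f4b644_ag.Dag.Vi_5
import Pool.Agent.Work.MP_f4b644_ag.Dag.Vi_6
import Pool.Agent.Work.MP_f4b644_ag.Dag.Vi_7
import Pool.Agent.Work.MP_f4b644_ag.Dag.Vi_8
import Pool.Agent.Work.MP_f4b644_ag.Dag.Vi_9
import Pool.Agent.Work.MP_f4b644_ag.Dag.Vi_10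

/-! All roots of some cross sections. -/

namespace Pool.Agent.Work.MP_f4b644_ag.Dag

theorem covi30_100 : Cov3 hiF 30 100 130 :=
  Cov3.trans (cov_of_run3 ex_nil (by decide) vi30_100.down) <|
  Cov3.trans (cov_of_run3 ex_nil (by decide) vi30_107.down) <|
  Cov3.trans (cov_of_run3 ex_nil (by decide) vi30_114.down) <|
  Cov3.trans (cov_of_run3 ex_nil (by decide) vi30_120.down) <|
  cov_of_run3 ex_nil (by decide) vi30_126.down

theorem covi31_100 : Cov3 hiF 31 100 130 :=
  Cov3.trans (cov_of_run3 ex_nil (by decide) vi31_100.down) <|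
  Cov3.trans (cov_of_run3 ex_nil (by decide) vi31_107.down) <|
  Cov3.trans (cov_of_run3 ex_nil (by decide) vi31_113.down) <|
  Cov3.trans (cov_of_run3 ex_nil (by decide) vi31_119.down) <|
  cov_of_run3 ex_nil (by decide) vi31_125.down

theorem covi32_100 : Cov3 hiF 32 100 130 :=
  Cov3.trans (cov_of_run3 ex_nil (by decide) vi32_100.down) <|
  Cov3.trans (cov_of_run3 ex_nil (by decide) vi32_107.down) <|
  Cov3.trans (cov_of_run3 ex_nil (by decide) vi32_113.down) <|
  Cov3.trans (cov_of_run3 ex_nil (by decide) vi32_119.down) <|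
  cov_of_run3 ex_nil (by decide) vi32_125.down

theorem covi33_100 : Cov3 hiF 33 100 130 :=
  Cov3.trans (cov_of_run3 ex_nil (by decide) vi33_100.down) <|
  Cov3.trans (cov_of_run3 ex_nil (by decide) vi33_107.down) <|
  Cov3.trans (cov_of_run3 ex_nil (by decide) vi33_113.down) <|
  Cov3.trans (cov_of_run3 ex_nil (by decide) vi33_119.down) <|
  cov_of_run3 ex_nil (by decide) vi33_125.down

theorem covi34_100 : Cov3 hiF 34 100 130 :=
  Cov3.trans (cov_of_run3 ex_nil (by decide) vi34_100.down) <|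
  Cov3.trans (cov_of_run3 ex_nil (by decide) vi34_106.down) <|
  Cov3.trans (cov_of_run3 ex_nil (by decide) vi34_112.down) <|
  Cov3.trans (cov_of_run3 ex_nil (by decide) vi34_118.down) <|
  cov_of_run3 ex_nil (by decide) vi34_124.down

theorem covi35_100 : Cov3 hiF 35 100 130 :=
  Cov3.trans (cov_of_run3 ex_nil (by decide) vi35_100.down) <|
  Cov3.trans (cov_of_run3 ex_nil (by decide) vi35_106.down) <|
  Cov3.trans (cov_of_run3 ex_nil (by decide) vi35_112.down) <|
  Cov3.trans (cov_of_run3 ex_nil (by decide) vi35_118.down) <|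
  cov_of_run3 ex_nil (by decide) vi35_124.down

theorem covi36_100 : Cov3 hiF 36 100 130 :=
  Cov3.trans (cov_of_run3 ex_nil (by decide) vi36_100.down) <|
  Cov3.trans (cov_of_run3 ex_nil (by decide) vi36_106.down) <|
  Cov3.trans (cov_of_run3 ex_nil (by decide) vi36_112.down) <|
  Cov3.trans (cov_of_run3 ex_nil (by decide) vi36_118.down) <|
  cov_of_run3 ex_nil (by decide) vi36_124.down

theorem covi37_100 : Cov3 hiF 37 100 130 :=
  Cov3.trans (cov_of_run3 ex_nil (by decide) vi37_100.down) <|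
  Cov3.trans (cov_of_run3 ex_nil (by decide) vi37_106.down) <|
  Cov3.trans (cov_of_run3 ex_nil (by decide) vi37_112.down) <|
  Cov3.trans (cov_of_run3 ex_nil (by decide) vi37_118.down) <|
  cov_of_run3 ex_nil (by decide) vi37_124.down

theorem covi38_100 : Cov3 hiF 38 100 130 :=
  Cov3.trans (cov_of_run3 ex_nil (by decide) vi38_100.down) <|
  Cov3.trans (cov_of_run3 ex_nil (by decide) vi38_106.down) <|
  Cov3.trans (cov_of_run3 ex_nil (by decide) vi38_112.down) <|
  Cov3.trans (cov_of_run3 ex_nil (by decide) vi38_118.down) <|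
  cov_of_run3 ex_nil (by decide) vi38_124.down

theorem covi39_100 : Cov3 hiF 39 100 130 :=
  Cov3.trans (cov_of_run3 ex_nil (by decide) vi39_100.down) <|
  Cov3.trans (cov_of_run3 ex_nil (by decide) vi39_106.down) <|
  Cov3.trans (cov_of_run3 ex_nil (by decide) vi39_112.down) <|
  Cov3.trans (cov_of_run3 ex_nil (by decide) vi39_118.down) <|
  cov_of_run3 ex_nil (by decide) vi39_124.down

theorem covi40_100 : Cov3 hiF 40 100 130 :=
  Cov3.trans (cov_of_run3 ex_nil (by decide) vi40_100.down) <|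
  Cov3.trans (cov_of_run3 ex_nil (by decide) vi40_106.down) <|
  Cov3.trans (cov_of_run3 ex_nil (by decide) vi40_112.down) <|
  Cov3.trans (cov_of_run3 ex_nil (by decide) vi40_118.down) <|
  cov_of_run3 ex_nil (by decide) vi40_124.down

theorem covi41_100 : Cov3 hiF 41 100 130 :=
  Cov3.trans (cov_of_run3 ex_nil (by decide) vi41_100.down) <|
  Cov3.trans (cov_of_run3 ex_nil (by decide) vi41_106.down) <|
  Cov3.trans (cov_of_run3 ex_nil (by decide) vi41_112.down) <|
  Cov3.trans (cov_of_run3 ex_nil (by decide) vi41_118.down) <|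
  cov_of_run3 ex_nil (by decide) vi41_124.down

theorem covi42_100 : Cov3 hiF 42 100 130 :=
  Cov3.trans (cov_of_run3 ex_nil (by decide) vi42_100.down) <|
  Cov3.trans (cov_of_run3 ex_nil (by decide) vi42_106.down) <|
  Cov3.trans (cov_of_run3 ex_nil (by decide) vi42_112.down) <|
  Cov3.trans (cov_of_run3 ex_nil (by decide) vi42_118.down) <|
  cov_of_run3 ex_nil (by decide) vi42_124.down

theorem covi43_100 : Cov3 hiF 43 100 130 :=
  Cov3.trans (cov_of_run3 ex_nil (by decide) vi43_100.down) <|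
  Cov3.trans (cov_of_run3 ex_nil (by decide) vi43_106.down) <|
  Cov3.trans (cov_of_run3 ex_nil (by decide) vi43_112.down) <|
  Cov3.trans (cov_of_run3 ex_nil (by decide) vi43_118.down) <|
  Cov3.trans (cov_of_run3 ex_nil (by decide) vi43_124.down) <|
  cov_of_run3 ex_nil (by decide) vi43_129.down

theorem covi44_100 : Cov3 hiF 44 100 130 :=
  Cov3.trans (cov_of_run3 ex_nil (by decide) vi44_100.down) <|
  Cov3.trans (cov_of_run3 ex_nil (by decide) vi44_106.down) <|
  Cov3.trans (cov_of_run3 ex_nil (by decide) vi44_112.down) <|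
  Cov3.trans (cov_of_run3 ex_nil (by decide) vi44_118.down) <|
  Cov3.trans (cov_of_run3 ex_nil (by decide) vi44_124.down) <|
  cov_of_run3 ex_nil (by decide) vi44_129.down

theorem covi45_100 : Cov3 hiF 45 100 130 :=
  Cov3.trans (cov_of_run3 ex_nil (by decide) vi45_100.down) <|
  Cov3.trans (cov_of_run3 ex_nil (by decide) vi45_106.down) <|
  Cov3.trans (cov_of_run3 ex_nil (by decide) vi45_112.down) <|
  Cov3.trans (cov_of_run3 ex_nil (by decide) vi45_118.down) <|
  Cov3.trans (cov_of_run3 ex_nil (by decide) vi45_124.down) <|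
  cov_of_run3 ex_nil (by decide) vi45_129.down

theorem covi46_100 : Cov3 hiF 46 100 130 :=
  Cov3.trans (cov_of_run3 ex_nil (by decide) vi46_100.down) <|
  Cov3.trans (cov_of_run3 ex_nil (by decide) vi46_106.down) <|
  Cov3.trans (cov_of_run3 ex_nil (by decide) vi46_112.down) <|
  Cov3.trans (cov_of_run3 ex_nil (by decide) vi46_118.down) <|
  Cov3.trans (cov_of_run3 ex_nil (by decide) vi46_123.down) <|
  cov_of_run3 ex_nil (by decide) vi46_128.down

theorem covi47_100 : Cov3 hiF 47 100 130 :=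
  Cov3.trans (cov_of_run3 ex_nil (by decide) vi47_100.down) <|
  Cov3.trans (cov_of_run3 ex_nil (by decide) vi47_106.down) <|
  Cov3.trans (cov_of_run3 ex_nil (by decide) vi47_112.down) <|
  Cov3.trans (cov_of_run3 ex_nil (by decide) vi47_118.down) <|
  Cov3.trans (cov_of_run3 ex_nil (by decide) vi47_123.down) <|
  cov_of_run3 ex_nil (by decide) vi47_128.down

theorem covi48_100 : Cov3 hiF 48 100 130 :=
  Cov3.trans (cov_of_run3 ex_nil (by decide) vi48_100.down) <|
  Cov3.trans (cov_of_run3 ex_nil (by decide) vi48_106.down) <|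
  Cov3.trans (cov_of_run3 ex_nil (by decide) vi48_112.down) <|
  Cov3.trans (cov_of_run3 ex_nil (by decide) vi48_118.down) <|
  Cov3.trans (cov_of_run3 ex_nil (by decide) vi48_123.down) <|
  cov_of_run3 ex_nil (by decide) vi48_128.down

theorem covi49_100 : Cov3 hiF 49 100 130 :=
  Cov3.trans (cov_of_run3 ex_nil (by decide) vi49_100.down) <|
  Cov3.trans (cov_of_run3 ex_nil (by decide) vi49_106.down) <|
  Cov3.trans (cov_of_run3 ex_nil (by decide) vi49_112.down) <|
  Cov3.trans (cov_of_run3 ex_nil (by decide) vi49_117.down) <|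
  Cov3.trans (cov_of_run3 ex_nil (by decide) vi49_122.down) <|
  cov_of_run3 ex_nil (by decide) vi49_127.down

theorem covi50_100 : Cov3 hiF 50 100 130 :=
  Cov3.trans (cov_of_run3 ex_nil (by decide) vi50_100.down) <|
  Cov3.trans (cov_of_run3 ex_nil (by decide) vi50_106.down) <|
  Cov3.trans (cov_of_run3 ex_nil (by decide) vi50_112.down) <|
  Cov3.trans (cov_of_run3 ex_nil (by decide) vi50_117.down) <|
  Cov3.trans (cov_of_run3 ex_nil (by decide) vi50_122.down) <|
  cov_of_run3 ex_nil (by decide) vi50_127.down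

theorem covi51_100 : Cov3 hiF 51 100 130 :=
  Cov3.trans (cov_of_run3 ex_nil (by decide) vi51_100.down) <|
  Cov3.trans (cov_of_run3 ex_nil (by decide) vi51_106.down) <|
  Cov3.trans (cov_of_run3 ex_nil (by decide) vi51_112.down) <|
  Cov3.trans (cov_of_run3 ex_nil (by decide) vi51_117.down) <|
  Cov3.trans (cov_of_run3 ex_nil (by decide) vi51_122.down) <|
  cov_of_run3 ex_nil (by decide) vi51_127.down

theorem covi52_100 : Cov3 hiF 52 100 130 :=
  Cov3.trans (cov_of_run3 ex_nil (by decide) vi52_100.down) <|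
  Cov3.trans (cov_of_run3 ex_nil (by decide) vi52_106.down) <|
  Cov3.trans (cov_of_run3 ex_nil (by decide) vi52_112.down) <|
  Cov3.trans (cov_of_run3 ex_nil (by decide) vi52_117.down) <|
  Cov3.trans (cov_of_run3 ex_nil (by decide) vi52_122.down) <|
  cov_of_run3 ex_nil (by decide) vi52_127.down

theorem covi53_100 : Cov3 hiF 53 100 130 :=
  Cov3.trans (cov_of_run3 ex_nil (by decide) vi53_100.down) <|
  Cov3.trans (cov_of_run3 ex_nil (by decide) vi53_106.down) <|
  Cov3.trans (cov_of_run3 ex_nil (by decide) vi53_111.down) <|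
  Cov3.trans (cov_of_run3 ex_nil (by decide) vi53_116.down) <|
  Cov3.trans (cov_of_run3 ex_nil (by decide) vi53_121.down) <|
  cov_of_run3 ex_nil (by decide) vi53_126.down

theorem covi54_100 : Cov3 hiF 54 100 130 :=
  Cov3.trans (cov_of_run3 ex_nil (by decide) vi54_100.down) <|
  Cov3.trans (cov_of_run3 ex_nil (by decide) vi54_106.down) <|
  Cov3.trans (cov_of_run3 ex_nil (by decide) vi54_111.down) <|
  Cov3.trans (cov_of_run3 ex_nil (by decide) vi54_116.down) <|
  Cov3.trans (cov_of_run3 ex_nil (by decide) vi54_121.down) <|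
  cov_of_run3 ex_nil (by decide) vi54_126.down

theorem covi55_100 : Cov3 hiF 55 100 130 :=
  Cov3.trans (cov_of_run3 ex_nil (by decide) vi55_100.down) <|
  Cov3.trans (cov_of_run3 ex_nil (by decide) vi55_106.down) <|
  Cov3.trans (cov_of_run3 ex_nil (by decide) vi55_111.down) <|
  Cov3.trans (cov_of_run3 ex_nil (by decide) vi55_116.down) <|
  Cov3.trans (cov_of_run3 ex_nil (by decide) vi55_121.down) <|
  cov_of_run3 ex_nil (by decide) vi55_126.down

theorem covi56_100 : Cov3 hiF 56 100 130 :=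
  Cov3.trans (cov_of_run3 ex_nil (by decide) vi56_100.down) <|
  Cov3.trans (cov_of_run3 ex_nil (by decide) vi56_106.down) <|
  Cov3.trans (cov_of_run3 ex_nil (by decide) vi56_111.down) <|
  Cov3.trans (cov_of_run3 ex_nil (by decide) vi56_116.down) <|
  Cov3.trans (cov_of_run3 ex_nil (by decide) vi56_121.down) <|
  cov_of_run3 ex_nil (by decide) vi56_126.down

theorem covi57_100 : Cov3 hiF 57 100 130 :=
  Cov3.trans (cov_of_run3 ex_nil (by decide) vi57_100.down) <|
  Cov3.trans (cov_of_run3 ex_nil (by decide) vi57_105.down) <|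
  Cov3.trans (cov_of_run3 ex_nil (by decide) vi57_110.down) <|
  Cov3.trans (cov_of_run3 ex_nil (by decide) vi57_115.down) <|
  Cov3.trans (cov_of_run3 ex_nil (by decide) vi57_120.down) <|
  cov_of_run3 ex_nil (by decide) vi57_125.down

theorem covi58_100 : Cov3 hiF 58 100 130 :=
  Cov3.trans (cov_of_run3 ex_nil (by decide) vi58_100.down) <|
  Cov3.trans (cov_of_run3 ex_nil (by decide) vi58_105.down) <|
  Cov3.trans (cov_of_run3 ex_nil (by decide) vi58_110.down) <|
  Cov3.trans (cov_of_run3 ex_nil (by decide) vi58_115.down) <|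
  Cov3.trans (cov_of_run3 ex_nil (by decide) vi58_120.down) <|
  cov_of_run3 ex_nil (by decide) vi58_125.down

theorem covi59_100 : Cov3 hiF 59 100 130 :=
  Cov3.trans (cov_of_run3 ex_nil (by decide) vi59_100.down) <|
  Cov3.trans (cov_of_run3 ex_nil (by decide) vi59_105.down) <|
  Cov3.trans (cov_of_run3 ex_nil (by decide) vi59_110.down) <|
  Cov3.trans (cov_of_run3 ex_nil (by decide) vi59_115.down) <|
  Cov3.trans (cov_of_run3 ex_nil (by decide) vi59_120.down) <|
  cov_of_run3 ex_nil (by decide) vi59_125.down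

theorem covi60_100 : Cov3 hiF 60 100 130 :=
  Cov3.trans (cov_of_run3 ex_nil (by decide) vi60_100.down) <|
  Cov3.trans (cov_of_run3 ex_nil (by decide) vi60_105.down) <|
  Cov3.trans (cov_of_run3 ex_nil (by decide) vi60_110.down) <|
  Cov3.trans (cov_of_run3 ex_nil (by decide) vi60_115.down) <|
  Cov3.trans (cov_of_run3 ex_nil (by decide) vi60_120.down) <|
  cov_of_run3 ex_nil (by decide) vi60_125.down

theorem covi61_100 : Cov3 hiF 61 100 130 :=
  Cov3.trans (cov_of_run3 ex_nil (by decide) vi61_100.down) <|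
  Cov3.trans (cov_of_run3 ex_nil (by decide) vi61_105.down) <|
  Cov3.trans (cov_of_run3 ex_nil (by decide) vi61_110.down) <|
  Cov3.trans (cov_of_run3 ex_nil (by decide) vi61_115.down) <|
  Cov3.trans (cov_of_run3 ex_nil (by decide) vi61_120.down) <|
  cov_of_run3 ex_nil (by decide) vi61_125.down

end Pool.Agent.Work.MP_f4b644_ag.Dag
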