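import Pool.Agent.Work.MP_f4b644_ag.Dag.Tm2S
import Pool.Agent.Work.MP_f4b644_ag.Dag.ExB
import Pool.Agent.Work.MP_f4b644_ag.Dag.Vj_1
import Pool.Agent.Work.MP_f4b644_ag.Dag.Vj_2
import Pool.Agent.Work.MP_f4b644_ag.Dag.Vj_3
import Pool.Agent.Work.MP_f4b644_ag.Dag.Vj_4
import Pool.Agent.Work.MP_f4b644_ag.Dag.Vj_5
import Pool.Agent.Work.MP_f4b644_ag.Dag.Vj_6
import Pool.Agent.Work.MP_f4b644_ag.Dag.Vj_7
import Pool.Agent.Work.MP_f4b644_ag.Dag.Vj_8

/-! All roots of some cross sections. -/

namespace Pool.Agent.Work.MP_f4b644_ag.Dag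

theorem covj30_130 : Cov3 hiF 30 130 150 :=
  Cov3.trans (cov_of_run3 ex_nil (by decide) vj30_130.down) <|
  Cov3.trans (cov_of_run3 ex_nil (by decide) vj30_136.down) <|
  Cov3.trans (cov_of_run3 ex_nil (by decide) vj30_142.down) <|
  cov_of_run3 ex_nil (by decide) vj30_148.down

theorem covj31_130 : Cov3 hiF 31 130 150 :=
  Cov3.trans (cov_of_run3 ex_nil (by decide) vj31_130.down) <|
  Cov3.trans (cov_of_run3 ex_nil (by decide) vj31_136.down) <|
  Cov3.trans (cov_of_run3 ex_nil (by decide) vj31_142.down) <|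
  cov_of_run3 ex_nil (by decide) vj31_148.down

theorem covj32_130 : Cov3 hiF 32 130 150 :=
  Cov3.trans (cov_of_run3 ex_nil (by decide) vj32_130.down) <|
  Cov3.trans (cov_of_run3 ex_nil (by decide) vj32_136.down) <|
  Cov3.trans (cov_of_run3 ex_nil (by decide) vj32_142.down) <|
  cov_of_run3 ex_nil (by decide) vj32_148.down

theorem covj33_130 : Cov3 hiF 33 130 150 :=
  Cov3.trans (cov_of_run3 ex_nil (by decide) vj33_130.down) <|
  Cov3.trans (cov_of_run3 ex_nil (by decide) vj33_136.down) <|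
  Cov3.trans (cov_of_run3 ex_nil (by decide) vj33_142.down) <|
  cov_of_run3 ex_nil (by decide) vj33_148.down

theorem covj34_130 : Cov3 hiF 34 130 150 :=
  Cov3.trans (cov_of_run3 ex_nil (by decide) vj34_130.down) <|
  Cov3.trans (cov_of_run3 ex_nil (by decide) vj34_136.down) <|
  Cov3.trans (cov_of_run3 ex_nil (by decide) vj34_142.down) <|
  cov_of_run3 ex_nil (by decide) vj34_148.down

theorem covj35_130 : Cov3 hiF 35 130 150 :=
  Cov3.trans (cov_of_run3 ex_nil (by decide) vj35_130.down) <|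
  Cov3.trans (cov_of_run3 ex_nil (by decide) vj35_136.down) <|
  Cov3.trans (cov_of_run3 ex_nil (by decide) vj35_142.down) <|
  cov_of_run3 ex_nil (by decide) vj35_147.down

theorem covj36_130 : Cov3 hiF 36 130 150 :=
  Cov3.trans (cov_of_run3 ex_nil (by decide) vj36_130.down) <|
  Cov3.trans (cov_of_run3 ex_nil (by decide) vj36_136.down) <|
  Cov3.trans (cov_of_run3 ex_nil (by decide) vj36_142.down) <|
  cov_of_run3 ex_nil (by decide) vj36_147.down

theorem covj37_130 : Cov3 hiF 37 130 150 :=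
  Cov3.trans (cov_of_run3 ex_nil (by decide) vj37_130.down) <|
  Cov3.trans (cov_of_run3 ex_nil (by decide) vj37_136.down) <|
  Cov3.trans (cov_of_run3 ex_nil (by decide) vj37_141.down) <|
  cov_of_run3 ex_nil (by decide) vj37_146.down

theorem covj38_130 : Cov3 hiF 38 130 150 :=
  Cov3.trans (cov_of_run3 ex_nil (by decide) vj38_130.down) <|
  Cov3.trans (cov_of_run3 ex_nil (by decide) vj38_136.down) <|
  Cov3.trans (cov_of_run3 ex_nil (by decide) vj38_141.down) <|
  cov_of_run3 ex_nil (by decide) vj38_146.down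

theorem covj39_130 : Cov3 hiF 39 130 150 :=
  Cov3.trans (cov_of_run3 ex_nil (by decide) vj39_130.down) <|
  Cov3.trans (cov_of_run3 ex_nil (by decide) vj39_136.down) <|
  Cov3.trans (cov_of_run3 ex_nil (by decide) vj39_141.down) <|
  cov_of_run3 ex_nil (by decide) vj39_146.down

theorem covj40_130 : Cov3 hiF 40 130 150 :=
  Cov3.trans (cov_of_run3 ex_nil (by decide) vj40_130.down) <|
  Cov3.trans (cov_of_run3 ex_nil (by decide) vj40_135.down) <|
  Cov3.trans (cov_of_run3 ex_nil (by decide) vj40_140.down) <|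
  cov_of_run3 ex_nil (by decide) vj40_145.down

theorem covj41_130 : Cov3 hiF 41 130 150 :=
  Cov3.trans (cov_of_run3 ex_nil (by decide) vj41_130.down) <|
  Cov3.trans (cov_of_run3 ex_nil (by decide) vj41_135.down) <|
  Cov3.trans (cov_of_run3 ex_nil (by decide) vj41_140.down) <|
  cov_of_run3 ex_nil (by decide) vj41_145.down

theorem covj42_130 : Cov3 hiF 42 130 150 :=
  Cov3.trans (cov_of_run3 ex_nil (by decide) vj42_130.down) <|
  Cov3.trans (cov_of_run3 ex_nil (by decide) vj42_135.down) <|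
  Cov3.trans (cov_of_run3 ex_nil (by decide) vj42_140.down) <|
  cov_of_run3 ex_nil (by decide) vj42_145.down

theorem covj43_130 : Cov3 hiF 43 130 150 :=
  Cov3.trans (cov_of_run3 ex_nil (by decide) vj43_130.down) <|
  Cov3.trans (cov_of_run3 ex_nil (by decide) vj43_135.down) <|
  Cov3.trans (cov_of_run3 ex_nil (by decide) vj43_140.down) <|
  cov_of_run3 ex_nil (by decide) vj43_145.down

theorem covj44_130 : Cov3 hiF 44 130 150 :=
  Cov3.trans (cov_of_run3 ex_nil (by decide) vj44_130.down) <|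
  Cov3.trans (cov_of_run3 ex_nil (by decide) vj44_135.down) <|
  Cov3.trans (cov_of_run3 ex_nil (by decide) vj44_140.down) <|
  cov_of_run3 ex_nil (by decide) vj44_145.down

theorem covj45_130 : Cov3 hiF 45 130 150 :=
  Cov3.trans (cov_of_run3 ex_nil (by decide) vj45_130.down) <|
  Cov3.trans (cov_of_run3 ex_nil (by decide) vj45_135.down) <|
  Cov3.trans (cov_of_run3 ex_nil (by decide) vj45_140.down) <|
  cov_of_run3 ex_nil (by decide) vj45_145.down

theorem covj46_130 : Cov3 hiF 46 130 150 :=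
  Cov3.trans (cov_of_run3 ex_nil (by decide) vj46_130.down) <|
  Cov3.trans (cov_of_run3 ex_nil (by decide) vj46_135.down) <|
  Cov3.trans (cov_of_run3 ex_nil (by decide) vj46_140.down) <|
  cov_of_run3 ex_nil (by decide) vj46_145.down

theorem covj47_130 : Cov3 hiF 47 130 150 :=
  Cov3.trans (cov_of_run3 ex_nil (by decide) vj47_130.down) <|
  Cov3.trans (cov_of_run3 ex_nil (by decide) vj47_135.down) <|
  Cov3.trans (cov_of_run3 ex_nil (by decide) vj47_140.down) <|
  cov_of_run3 ex_nil (by decide) vj47_145.down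

theorem covj48_130 : Cov3 hiF 48 130 150 :=
  Cov3.trans (cov_of_run3 ex_nil (by decide) vj48_130.down) <|
  Cov3.trans (cov_of_run3 ex_nil (by decide) vj48_135.down) <|
  Cov3.trans (cov_of_run3 ex_nil (by decide) vj48_140.down) <|
  cov_of_run3 ex_nil (by decide) vj48_145.down

theorem covj49_130 : Cov3 hiF 49 130 150 :=
  Cov3.trans (cov_of_run3 ex_nil (by decide) vj49_130.down) <|
  Cov3.trans (cov_of_run3 ex_nil (by decide) vj49_135.down) <|
  Cov3.trans (cov_of_run3 ex_nil (by decide) vj49_140.down) <|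
  cov_of_run3 ex_nil (by decide) vj49_145.down

theorem covj50_130 : Cov3 hiF 50 130 150 :=
  Cov3.trans (cov_of_run3 ex_nil (by decide) vj50_130.down) <|
  Cov3.trans (cov_of_run3 ex_nil (by decide) vj50_135.down) <|
  Cov3.trans (cov_of_run3 ex_nil (by decide) vj50_140.down) <|
  cov_of_run3 ex_nil (by decide) vj50_145.down

theorem covj51_130 : Cov3 hiF 51 130 150 :=
  Cov3.trans (cov_of_run3 ex_nil (by decide) vj51_130.down) <|
  Cov3.trans (cov_of_run3 ex_nil (by decide) vj51_135.down) <|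
  Cov3.trans (cov_of_run3 ex_nil (by decide) vj51_140.down) <|
  cov_of_run3 ex_nil (by decide) vj51_145.down

theorem covj52_130 : Cov3 hiF 52 130 150 :=
  Cov3.trans (cov_of_run3 ex_nil (by decide) vj52_130.down) <|
  Cov3.trans (cov_of_run3 ex_nil (by decide) vj52_135.down) <|
  Cov3.trans (cov_of_run3 ex_nil (by decide) vj52_140.down) <|
  cov_of_run3 ex_nil (by decide) vj52_145.down

theorem covj53_130 : Cov3 hiF 53 130 150 :=
  Cov3.trans (cov_of_run3 ex_nil (by decide) vj53_130.down) <|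
  Cov3.trans (cov_of_run3 ex_nil (by decide) vj53_135.down) <|
  Cov3.trans (cov_of_run3 ex_nil (by decide) vj53_140.down) <|
  cov_of_run3 ex_nil (by decide) vj53_145.down

theorem covj54_130 : Cov3 hiF 54 130 150 :=
  Cov3.trans (cov_of_run3 ex_nil (by decide) vj54_130.down) <|
  Cov3.trans (cov_of_run3 ex_nil (by decide) vj54_135.down) <|
  Cov3.trans (cov_of_run3 ex_nil (by decide) vj54_140.down) <|
  cov_of_run3 ex_nil (by decide) vj54_145.down

theorem covj55_130 : Cov3 hiF 55 130 150 :=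
  Cov3.trans (cov_of_run3 ex_nil (by decide) vj55_130.down) <|
  Cov3.trans (cov_of_run3 ex_nil (by decide) vj55_135.down) <|
  Cov3.trans (cov_of_run3 ex_nil (by decide) vj55_140.down) <|
  cov_of_run3 ex_nil (by decide) vj55_145.down

theorem covj56_130 : Cov3 hiF 56 130 150 :=
  Cov3.trans (cov_of_run3 ex_nil (by decide) vj56_130.down) <|
  Cov3.trans (cov_of_run3 ex_nil (by decide) vj56_135.down) <|
  Cov3.trans (cov_of_run3 ex_nil (by decide) vj56_140.down) <|
  cov_of_run3 ex_nil (by decide) vj56_145.down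

theorem covj57_130 : Cov3 hiF 57 130 150 :=
  Cov3.trans (cov_of_run3 ex_nil (by decide) vj57_130.down) <|
  Cov3.trans (cov_of_run3 ex_nil (by decide) vj57_135.down) <|
  Cov3.trans (cov_of_run3 ex_nil (by decide) vj57_140.down) <|
  cov_of_run3 ex_nil (by decide) vj57_145.down

theorem covj58_130 : Cov3 hiF 58 130 150 :=
  Cov3.trans (cov_of_run3 ex_nil (by decide) vj58_130.down) <|
  Cov3.trans (cov_of_run3 ex_nil (by decide) vj58_135.down) <|
  Cov3.trans (cov_of_run3 ex_nil (by decide) vj58_140.down) <|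
  cov_of_run3 ex_nil (by decide) vj58_145.down

theorem covj59_130 : Cov3 hiF 59 130 150 :=
  Cov3.trans (cov_of_run3 ex_nil (by decide) vj59_130.down) <|
  Cov3.trans (cov_of_run3 ex_nil (by decide) vj59_135.down) <|
  Cov3.trans (cov_of_run3 ex_nil (by decide) vj59_140.down) <|
  cov_of_run3 ex_nil (by decide) vj59_145.down

theorem covj60_130 : Cov3 hiF 60 130 150 :=
  Cov3.trans (cov_of_run3 ex_nil (by decide) vj60_130.down) <|
  Cov3.trans (cov_of_run3 ex_nil (by decide) vj60_135.down) <|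
  Cov3.trans (cov_of_run3 ex_nil (by decide) vj60_140.down) <|
  cov_of_run3 ex_nil (by decide) vj60_145.down

theorem covj61_130 : Cov3 hiF 61 130 150 :=
  Cov3.trans (cov_of_run3 ex_nil (by decide) vj61_130.down) <|
  Cov3.trans (cov_of_run3 ex_nil (by decide) vj61_135.down) <|
  Cov3.trans (cov_of_run3 ex_nil (by decide) vj61_140.down) <|
  cov_of_run3 ex_nil (by decide) vj61_145.down

end Pool.Agent.Work.MP_f4b644_ag.Dag
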