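import Pool.Agent.Work.MP_f4b644_ag.Dag.All2
import Pool.Agent.Work.MP_f4b644_ag.Dag.NeedF
import Pool.Agent.Work.MP_f4b644_ag.Dag.Wi
import Pool.Agent.Work.MP_f4b644_ag.Dag.Wj

/-!
All roots of the finite part with `J < 100` or `I ≤ 61`.
-/

set_option autoImplicit false

namespace Pool.Agent.Work.MP_f4b644_ag.Dag

open Fin

theorem cov_le61 (I : ℕ) (h1 : 30 ≤ I) (h2 : I ≤ 61) : Cov3 hiF I 100 150 := by
  interval_cases I
  · exact covi30_100.trans covj30_130
  · exact covi31_100.trans covj31_130
  · exact covi32_100.trans covj32_130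
  · exact covi33_100.trans covj33_130
  · exact covi34_100.trans covj34_130
  · exact covi35_100.trans covj35_130
  · exact covi36_100.trans covj36_130
  · exact covi37_100.trans covj37_130
  · exact covi38_100.trans covj38_130
  · exact covi39_100.trans covj39_130
  · exact covi40_100.trans covj40_130
  · exact covi41_100.trans covj41_130
  · exact covi42_100.trans covj42_130
  · exact covi43_100.trans covj43_130
  · exact covi44_100.trans covj44_130
  · exact covi45_100.trans covj45_130
  · exact covi46_100.trans covj46_130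
  · exact covi47_100.trans covj47_130
  · exact covi48_100.trans covj48_130
  · exact covi49_100.trans covj49_130
  · exact covi50_100.trans covj50_130
  · exact covi51_100.trans covj51_130
  · exact covi52_100.trans covj52_130
  · exact covi53_100.trans covj53_130
  · exact covi54_100.trans covj54_130
  · exact covi55_100.trans covj55_130
  · exact covi56_100.trans covj56_130
  · exact covi57_100.trans covj57_130
  · exact covi58_100.trans covj58_130
  · exact covi59_100.trans covj59_130
  · exact covi60_100.trans covj60_130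
  · exact covi61_100.trans covj61_130

theorem root_dag2 (I J r : ℕ) (h1 : 6 ≤ I) (h2 : I ≤ J) (h : Need I J r)
    (H : J < 100 ∨ (I = 6 ∧ J < 320) ∨ (I = 7 ∧ J < 600) ∨ (8 ≤ I ∧ I ≤ 12 ∧ J ≤ 3 * I ^ 2) ∨
      (I ≤ 61 ∧ J < 150)) : Root I J r := by
  by_cases h3 : 30 ≤ I ∧ 100 ≤ J
  · exact (cov_le61 I h3.1 (by omega)).needF h3.1 h3.2 h2 h3.2 (by omega) h
  · exact root_dag I J r h1 h2 h (by omega)

end Pool.Agent.Work.MP_f4b644_ag.Dag
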