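import Pool.Agent.Work.MP_f4b644_ag.Dag.TmS
import Pool.Agent.Work.MP_f4b644_ag.Dag.ExB
import Pool.Agent.Work.MP_f4b644_ag.Dag.Va_1
import Pool.Agent.Work.MP_f4b644_ag.Dag.Va_2
import Pool.Agent.Work.MP_f4b644_ag.Dag.Va_3
import Pool.Agent.Work.MP_f4b644_ag.Dag.Va_4
import Pool.Agent.Work.MP_f4b644_ag.Dag.Va_5
import Pool.Agent.Work.MP_f4b644_ag.Dag.Va_6
import Pool.Agent.Work.MP_f4b644_ag.Dag.Va_7
import Pool.Agent.Work.MP_f4b644_ag.Dag.Va_8
import Pool.Agent.Work.MP_f4b644_ag.Dag.Va_9
import Pool.Agent.Work.MP_f4b644_ag.Dag.Va_10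
import Pool.Agent.Work.MP_f4b644_ag.Dag.Va_11
import Pool.Agent.Work.MP_f4b644_ag.Dag.Va_12
import Pool.Agent.Work.MP_f4b644_ag.Dag.Va_13
import Pool.Agent.Work.MP_f4b644_ag.Dag.Va_14
import Pool.Agent.Work.MP_f4b644_ag.Dag.Va_15

/-! All roots of some cross sections. -/

namespace Pool.Agent.Work.MP_f4b644_ag.Dag

theorem cova13_13 : Cov3 hiB 13 13 100 :=
  Cov3.trans (cov_of_run3 ex_nil (by decide) va13_13.down) <|
  Cov3.trans (cov_of_run3 ex_nil (by decide) va13_25.down) <|
  Cov3.trans (cov_of_run3 ex_nil (by decide) va13_36.down) <|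
  Cov3.trans (cov_of_run3 ex_nil (by decide) va13_47.down) <|
  Cov3.trans (cov_of_run3 ex_nil (by decide) va13_57.down) <|
  Cov3.trans (cov_of_run3 ex_nil (by decide) va13_67.down) <|
  Cov3.trans (cov_of_run3 ex_nil (by decide) va13_76.down) <|
  Cov3.trans (cov_of_run3 ex_nil (by decide) va13_85.down) <|
  cov_of_run3 ex_nil (by decide) va13_94.down

theorem cova14_14 : Cov3 hiB 14 14 100 :=
  Cov3.trans (cov_of_run3 ex_nil (by decide) va14_14.down) <|
  Cov3.trans (cov_of_run3 ex_nil (by decide) va14_26.down) <|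
  Cov3.trans (cov_of_run3 ex_nil (by decide) va14_37.down) <|
  Cov3.trans (cov_of_run3 ex_nil (by decide) va14_48.down) <|
  Cov3.trans (cov_of_run3 ex_nil (by decide) va14_58.down) <|
  Cov3.trans (cov_of_run3 ex_nil (by decide) va14_68.down) <|
  Cov3.trans (cov_of_run3 ex_nil (by decide) va14_77.down) <|
  Cov3.trans (cov_of_run3 ex_nil (by decide) va14_86.down) <|
  cov_of_run3 ex_nil (by decide) va14_94.down

theorem cova15_15 : Cov3 hiB 15 15 100 :=
  Cov3.trans (cov_of_run3 (ex_cons rt_15_15_194 ex_nil) (by decide) va15_15.down) <|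
  Cov3.trans (cov_of_run3 ex_nil (by decide) va15_27.down) <|
  Cov3.trans (cov_of_run3 ex_nil (by decide) va15_38.down) <|
  Cov3.trans (cov_of_run3 ex_nil (by decide) va15_48.down) <|
  Cov3.trans (cov_of_run3 ex_nil (by decide) va15_58.down) <|
  Cov3.trans (cov_of_run3 ex_nil (by decide) va15_67.down) <|
  Cov3.trans (cov_of_run3 ex_nil (by decide) va15_76.down) <|
  Cov3.trans (cov_of_run3 ex_nil (by decide) va15_85.down) <|
  cov_of_run3 ex_nil (by decide) va15_93.down

theorem cova16_16 : Cov3 hiB 16 16 100 :=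
  Cov3.trans (cov_of_run3 ex_nil (by decide) va16_16.down) <|
  Cov3.trans (cov_of_run3 ex_nil (by decide) va16_28.down) <|
  Cov3.trans (cov_of_run3 ex_nil (by decide) va16_39.down) <|
  Cov3.trans (cov_of_run3 ex_nil (by decide) va16_49.down) <|
  Cov3.trans (cov_of_run3 ex_nil (by decide) va16_59.down) <|
  Cov3.trans (cov_of_run3 ex_nil (by decide) va16_68.down) <|
  Cov3.trans (cov_of_run3 ex_nil (by decide) va16_77.down) <|
  Cov3.trans (cov_of_run3 ex_nil (by decide) va16_85.down) <|
  cov_of_run3 ex_nil (by decide) va16_93.down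

theorem cova17_17 : Cov3 hiB 17 17 100 :=
  Cov3.trans (cov_of_run3 (ex_cons rt_17_17_254 ex_nil) (by decide) va17_17.down) <|
  Cov3.trans (cov_of_run3 ex_nil (by decide) va17_28.down) <|
  Cov3.trans (cov_of_run3 ex_nil (by decide) va17_39.down) <|
  Cov3.trans (cov_of_run3 ex_nil (by decide) va17_49.down) <|
  Cov3.trans (cov_of_run3 ex_nil (by decide) va17_58.down) <|
  Cov3.trans (cov_of_run3 ex_nil (by decide) va17_67.down) <|
  Cov3.trans (cov_of_run3 ex_nil (by decide) va17_76.down) <|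
  Cov3.trans (cov_of_run3 ex_nil (by decide) va17_84.down) <|
  cov_of_run3 ex_nil (by decide) va17_92.down

theorem cova18_18 : Cov3 hiB 18 18 100 :=
  Cov3.trans (cov_of_run3 ex_nil (by decide) va18_18.down) <|
  Cov3.trans (cov_of_run3 ex_nil (by decide) va18_29.down) <|
  Cov3.trans (cov_of_run3 ex_nil (by decide) va18_40.down) <|
  Cov3.trans (cov_of_run3 ex_nil (by decide) va18_50.down) <|
  Cov3.trans (cov_of_run3 ex_nil (by decide) va18_59.down) <|
  Cov3.trans (cov_of_run3 ex_nil (by decide) va18_68.down) <|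
  Cov3.trans (cov_of_run3 ex_nil (by decide) va18_76.down) <|
  Cov3.trans (cov_of_run3 ex_nil (by decide) va18_84.down) <|
  cov_of_run3 ex_nil (by decide) va18_92.down

theorem cova19_19 : Cov3 hiB 19 19 100 :=
  Cov3.trans (cov_of_run3 ex_nil (by decide) va19_19.down) <|
  Cov3.trans (cov_of_run3 ex_nil (by decide) va19_30.down) <|
  Cov3.trans (cov_of_run3 ex_nil (by decide) va19_40.down) <|
  Cov3.trans (cov_of_run3 ex_nil (by decide) va19_50.down) <|
  Cov3.trans (cov_of_run3 ex_nil (by decide) va19_59.down) <|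
  Cov3.trans (cov_of_run3 ex_nil (by decide) va19_68.down) <|
  Cov3.trans (cov_of_run3 ex_nil (by decide) va19_76.down) <|
  Cov3.trans (cov_of_run3 ex_nil (by decide) va19_84.down) <|
  Cov3.trans (cov_of_run3 ex_nil (by decide) va19_92.down) <|
  cov_of_run3 ex_nil (by decide) va19_99.down

theorem cova20_20 : Cov3 hiB 20 20 100 :=
  Cov3.trans (cov_of_run3 ex_nil (by decide) va20_20.down) <|
  Cov3.trans (cov_of_run3 ex_nil (by decide) va20_31.down) <|
  Cov3.trans (cov_of_run3 ex_nil (by decide) va20_41.down) <|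
  Cov3.trans (cov_of_run3 ex_nil (by decide) va20_51.down) <|
  Cov3.trans (cov_of_run3 ex_nil (by decide) va20_60.down) <|
  Cov3.trans (cov_of_run3 ex_nil (by decide) va20_69.down) <|
  Cov3.trans (cov_of_run3 ex_nil (by decide) va20_77.down) <|
  Cov3.trans (cov_of_run3 ex_nil (by decide) va20_85.down) <|
  Cov3.trans (cov_of_run3 ex_nil (by decide) va20_92.down) <|
  cov_of_run3 ex_nil (by decide) va20_99.down

theorem cova21_21 : Cov3 hiB 21 21 100 :=
  Cov3.trans (cov_of_run3 (ex_cons rt_21_21_398 ex_nil) (by decide) va21_21.down) <|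
  Cov3.trans (cov_of_run3 ex_nil (by decide) va21_32.down) <|
  Cov3.trans (cov_of_run3 ex_nil (by decide) va21_42.down) <|
  Cov3.trans (cov_of_run3 ex_nil (by decide) va21_51.down) <|
  Cov3.trans (cov_of_run3 ex_nil (by decide) va21_60.down) <|
  Cov3.trans (cov_of_run3 ex_nil (by decide) va21_68.down) <|
  Cov3.trans (cov_of_run3 ex_nil (by decide) va21_76.down) <|
  Cov3.trans (cov_of_run3 ex_nil (by decide) va21_84.down) <|
  Cov3.trans (cov_of_run3 ex_nil (by decide) va21_91.down) <|
  cov_of_run3 ex_nil (by decide) va21_98.down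

theorem cova22_22 : Cov3 hiB 22 22 100 :=
  Cov3.trans (cov_of_run3 ex_nil (by decide) va22_22.down) <|
  Cov3.trans (cov_of_run3 ex_nil (by decide) va22_33.down) <|
  Cov3.trans (cov_of_run3 ex_nil (by decide) va22_43.down) <|
  Cov3.trans (cov_of_run3 ex_nil (by decide) va22_52.down) <|
  Cov3.trans (cov_of_run3 ex_nil (by decide) va22_61.down) <|
  Cov3.trans (cov_of_run3 ex_nil (by decide) va22_69.down) <|
  Cov3.trans (cov_of_run3 ex_nil (by decide) va22_77.down) <|
  Cov3.trans (cov_of_run3 ex_nil (by decide) va22_85.down) <|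
  Cov3.trans (cov_of_run3 ex_nil (by decide) va22_92.down) <|
  cov_of_run3 ex_nil (by decide) va22_99.down

theorem cova23_23 : Cov3 hiB 23 23 100 :=
  Cov3.trans (cov_of_run3 (ex_cons rt_23_23_482 ex_nil) (by decide) va23_23.down) <|
  Cov3.trans (cov_of_run3 ex_nil (by decide) va23_33.down) <|
  Cov3.trans (cov_of_run3 ex_nil (by decide) va23_43.down) <|
  Cov3.trans (cov_of_run3 ex_nil (by decide) va23_52.down) <|
  Cov3.trans (cov_of_run3 ex_nil (by decide) va23_61.down) <|
  Cov3.trans (cov_of_run3 ex_nil (by decide) va23_69.down) <|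
  Cov3.trans (cov_of_run3 ex_nil (by decide) va23_77.down) <|
  Cov3.trans (cov_of_run3 ex_nil (by decide) va23_84.down) <|
  Cov3.trans (cov_of_run3 ex_nil (by decide) va23_91.down) <|
  cov_of_run3 ex_nil (by decide) va23_98.down

theorem cova24_24 : Cov3 hiB 24 24 100 :=
  Cov3.trans (cov_of_run3 ex_nil (by decide) va24_24.down) <|
  Cov3.trans (cov_of_run3 ex_nil (by decide) va24_34.down) <|
  Cov3.trans (cov_of_run3 ex_nil (by decide) va24_44.down) <|
  Cov3.trans (cov_of_run3 ex_nil (by decide) va24_53.down) <|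
  Cov3.trans (cov_of_run3 ex_nil (by decide) va24_61.down) <|
  Cov3.trans (cov_of_run3 ex_nil (by decide) va24_69.down) <|
  Cov3.trans (cov_of_run3 ex_nil (by decide) va24_77.down) <|
  Cov3.trans (cov_of_run3 ex_nil (by decide) va24_84.down) <|
  Cov3.trans (cov_of_run3 ex_nil (by decide) va24_91.down) <|
  cov_of_run3 ex_nil (by decide) va24_98.down

theorem cova25_25 : Cov3 hiB 25 25 100 :=
  Cov3.trans (cov_of_run3 ex_nil (by decide) va25_25.down) <|
  Cov3.trans (cov_of_run3 ex_nil (by decide) va25_35.down) <|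
  Cov3.trans (cov_of_run3 ex_nil (by decide) va25_44.down) <|
  Cov3.trans (cov_of_run3 ex_nil (by decide) va25_53.down) <|
  Cov3.trans (cov_of_run3 ex_nil (by decide) va25_61.down) <|
  Cov3.trans (cov_of_run3 ex_nil (by decide) va25_69.down) <|
  Cov3.trans (cov_of_run3 ex_nil (by decide) va25_77.down) <|
  Cov3.trans (cov_of_run3 ex_nil (by decide) va25_84.down) <|
  Cov3.trans (cov_of_run3 ex_nil (by decide) va25_91.down) <|
  cov_of_run3 ex_nil (by decide) va25_98.down

theorem cova26_26 : Cov3 hiB 26 26 100 :=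
  Cov3.trans (cov_of_run3 ex_nil (by decide) va26_26.down) <|
  Cov3.trans (cov_of_run3 ex_nil (by decide) va26_36.down) <|
  Cov3.trans (cov_of_run3 ex_nil (by decide) va26_45.down) <|
  Cov3.trans (cov_of_run3 ex_nil (by decide) va26_54.down) <|
  Cov3.trans (cov_of_run3 ex_nil (by decide) va26_62.down) <|
  Cov3.trans (cov_of_run3 ex_nil (by decide) va26_70.down) <|
  Cov3.trans (cov_of_run3 ex_nil (by decide) va26_77.down) <|
  Cov3.trans (cov_of_run3 ex_nil (by decide) va26_84.down) <|
  Cov3.trans (cov_of_run3 ex_nil (by decide) va26_91.down) <|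
  cov_of_run3 ex_nil (by decide) va26_98.down

theorem cova27_27 : Cov3 hiB 27 27 100 :=
  Cov3.trans (cov_of_run3 (ex_cons rt_27_27_674 ex_nil) (by decide) va27_27.down) <|
  Cov3.trans (cov_of_run3 ex_nil (by decide) va27_37.down) <|
  Cov3.trans (cov_of_run3 ex_nil (by decide) va27_46.down) <|
  Cov3.trans (cov_of_run3 ex_nil (by decide) va27_54.down) <|
  Cov3.trans (cov_of_run3 ex_nil (by decide) va27_62.down) <|
  Cov3.trans (cov_of_run3 ex_nil (by decide) va27_70.down) <|
  Cov3.trans (cov_of_run3 ex_nil (by decide) va27_77.down) <|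
  Cov3.trans (cov_of_run3 ex_nil (by decide) va27_84.down) <|
  Cov3.trans (cov_of_run3 ex_nil (by decide) va27_91.down) <|
  cov_of_run3 ex_nil (by decide) va27_97.down

theorem cova28_28 : Cov3 hiB 28 28 100 :=
  Cov3.trans (cov_of_run3 ex_nil (by decide) va28_28.down) <|
  Cov3.trans (cov_of_run3 ex_nil (by decide) va28_37.down) <|
  Cov3.trans (cov_of_run3 ex_nil (by decide) va28_46.down) <|
  Cov3.trans (cov_of_run3 ex_nil (by decide) va28_54.down) <|
  Cov3.trans (cov_of_run3 ex_nil (by decide) va28_62.down) <|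
  Cov3.trans (cov_of_run3 ex_nil (by decide) va28_70.down) <|
  Cov3.trans (cov_of_run3 ex_nil (by decide) va28_77.down) <|
  Cov3.trans (cov_of_run3 ex_nil (by decide) va28_84.down) <|
  Cov3.trans (cov_of_run3 ex_nil (by decide) va28_91.down) <|
  cov_of_run3 ex_nil (by decide) va28_97.down

theorem cova29_29 : Cov3 hiB 29 29 100 :=
  Cov3.trans (cov_of_run3 (ex_cons rt_29_29_782 ex_nil) (by decide) va29_29.down) <|
  Cov3.trans (cov_of_run3 ex_nil (by decide) va29_38.down) <|
  Cov3.trans (cov_of_run3 ex_nil (by decide) va29_47.down) <|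
  Cov3.trans (cov_of_run3 ex_nil (by decide) va29_55.down) <|
  Cov3.trans (cov_of_run3 ex_nil (by decide) va29_63.down) <|
  Cov3.trans (cov_of_run3 ex_nil (by decide) va29_70.down) <|
  Cov3.trans (cov_of_run3 ex_nil (by decide) va29_77.down) <|
  Cov3.trans (cov_of_run3 ex_nil (by decide) va29_84.down) <|
  Cov3.trans (cov_of_run3 ex_nil (by decide) va29_91.down) <|
  cov_of_run3 ex_nil (by decide) va29_97.down

theorem cova30_30 : Cov3 hiB 30 30 100 :=
  Cov3.trans (cov_of_run3 ex_nil (by decide) va30_30.down) <|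
  Cov3.trans (cov_of_run3 ex_nil (by decide) va30_39.down) <|
  Cov3.trans (cov_of_run3 ex_nil (by decide) va30_48.down) <|
  Cov3.trans (cov_of_run3 ex_nil (by decide) va30_56.down) <|
  Cov3.trans (cov_of_run3 ex_nil (by decide) va30_64.down) <|
  Cov3.trans (cov_of_run3 ex_nil (by decide) va30_71.down) <|
  Cov3.trans (cov_of_run3 ex_nil (by decide) va30_78.down) <|
  Cov3.trans (cov_of_run3 ex_nil (by decide) va30_85.down) <|
  Cov3.trans (cov_of_run3 ex_nil (by decide) va30_91.down) <|
  cov_of_run3 ex_nil (by decide) va30_97.down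

theorem cova31_31 : Cov3 hiB 31 31 100 :=
  Cov3.trans (cov_of_run3 ex_nil (by decide) va31_31.down) <|
  Cov3.trans (cov_of_run3 ex_nil (by decide) va31_40.down) <|
  Cov3.trans (cov_of_run3 ex_nil (by decide) va31_48.down) <|
  Cov3.trans (cov_of_run3 ex_nil (by decide) va31_56.down) <|
  Cov3.trans (cov_of_run3 ex_nil (by decide) va31_64.down) <|
  Cov3.trans (cov_of_run3 ex_nil (by decide) va31_71.down) <|
  Cov3.trans (cov_of_run3 ex_nil (by decide) va31_78.down) <|
  Cov3.trans (cov_of_run3 ex_nil (by decide) va31_85.down) <|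
  Cov3.trans (cov_of_run3 ex_nil (by decide) va31_91.down) <|
  cov_of_run3 ex_nil (by decide) va31_97.down

theorem cova32_32 : Cov3 hiB 32 32 100 :=
  Cov3.trans (cov_of_run3 ex_nil (by decide) va32_32.down) <|
  Cov3.trans (cov_of_run3 ex_nil (by decide) va32_41.down) <|
  Cov3.trans (cov_of_run3 ex_nil (by decide) va32_49.down) <|
  Cov3.trans (cov_of_run3 ex_nil (by decide) va32_57.down) <|
  Cov3.trans (cov_of_run3 ex_nil (by decide) va32_64.down) <|
  Cov3.trans (cov_of_run3 ex_nil (by decide) va32_71.down) <|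
  Cov3.trans (cov_of_run3 ex_nil (by decide) va32_78.down) <|
  Cov3.trans (cov_of_run3 ex_nil (by decide) va32_84.down) <|
  Cov3.trans (cov_of_run3 ex_nil (by decide) va32_90.down) <|
  cov_of_run3 ex_nil (by decide) va32_96.down

theorem cova33_33 : Cov3 hiB 33 33 100 :=
  Cov3.trans (cov_of_run3 ex_nil (by decide) va33_33.down) <|
  Cov3.trans (cov_of_run3 ex_nil (by decide) va33_42.down) <|
  Cov3.trans (cov_of_run3 ex_nil (by decide) va33_50.down) <|
  Cov3.trans (cov_of_run3 ex_nil (by decide) va33_58.down) <|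
  Cov3.trans (cov_of_run3 ex_nil (by decide) va33_65.down) <|
  Cov3.trans (cov_of_run3 ex_nil (by decide) va33_72.down) <|
  Cov3.trans (cov_of_run3 ex_nil (by decide) va33_79.down) <|
  Cov3.trans (cov_of_run3 ex_nil (by decide) va33_85.down) <|
  Cov3.trans (cov_of_run3 ex_nil (by decide) va33_91.down) <|
  cov_of_run3 ex_nil (by decide) va33_97.down

theorem cova34_34 : Cov3 hiB 34 34 100 :=
  Cov3.trans (cov_of_run3 ex_nil (by decide) va34_34.down) <|
  Cov3.trans (cov_of_run3 ex_nil (by decide) va34_43.down) <|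
  Cov3.trans (cov_of_run3 ex_nil (by decide) va34_51.down) <|
  Cov3.trans (cov_of_run3 ex_nil (by decide) va34_59.down) <|
  Cov3.trans (cov_of_run3 ex_nil (by decide) va34_66.down) <|
  Cov3.trans (cov_of_run3 ex_nil (by decide) va34_73.down) <|
  Cov3.trans (cov_of_run3 ex_nil (by decide) va34_80.down) <|
  Cov3.trans (cov_of_run3 ex_nil (by decide) va34_86.down) <|
  Cov3.trans (cov_of_run3 ex_nil (by decide) va34_92.down) <|
  cov_of_run3 ex_nil (by decide) va34_98.down

theorem cova35_35 : Cov3 hiB 35 35 100 :=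
  Cov3.trans (cov_of_run3 ex_nil (by decide) va35_35.down) <|
  Cov3.trans (cov_of_run3 ex_nil (by decide) va35_43.down) <|
  Cov3.trans (cov_of_run3 ex_nil (by decide) va35_51.down) <|
  Cov3.trans (cov_of_run3 ex_nil (by decide) va35_58.down) <|
  Cov3.trans (cov_of_run3 ex_nil (by decide) va35_65.down) <|
  Cov3.trans (cov_of_run3 ex_nil (by decide) va35_72.down) <|
  Cov3.trans (cov_of_run3 ex_nil (by decide) va35_78.down) <|
  Cov3.trans (cov_of_run3 ex_nil (by decide) va35_84.down) <|
  Cov3.trans (cov_of_run3 ex_nil (by decide) va35_90.down) <|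
  cov_of_run3 ex_nil (by decide) va35_96.down

theorem cova36_36 : Cov3 hiB 36 36 100 :=
  Cov3.trans (cov_of_run3 ex_nil (by decide) va36_36.down) <|
  Cov3.trans (cov_of_run3 ex_nil (by decide) va36_44.down) <|
  Cov3.trans (cov_of_run3 ex_nil (by decide) va36_52.down) <|
  Cov3.trans (cov_of_run3 ex_nil (by decide) va36_59.down) <|
  Cov3.trans (cov_of_run3 ex_nil (by decide) va36_66.down) <|
  Cov3.trans (cov_of_run3 ex_nil (by decide) va36_73.down) <|
  Cov3.trans (cov_of_run3 ex_nil (by decide) va36_79.down) <|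
  Cov3.trans (cov_of_run3 ex_nil (by decide) va36_85.down) <|
  Cov3.trans (cov_of_run3 ex_nil (by decide) va36_91.down) <|
  cov_of_run3 ex_nil (by decide) va36_97.down

theorem cova37_37 : Cov3 hiB 37 37 100 :=
  Cov3.trans (cov_of_run3 ex_nil (by decide) va37_37.down) <|
  Cov3.trans (cov_of_run3 ex_nil (by decide) va37_45.down) <|
  Cov3.trans (cov_of_run3 ex_nil (by decide) va37_53.down) <|
  Cov3.trans (cov_of_run3 ex_nil (by decide) va37_60.down) <|
  Cov3.trans (cov_of_run3 ex_nil (by decide) va37_67.down) <|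
  Cov3.trans (cov_of_run3 ex_nil (by decide) va37_74.down) <|
  Cov3.trans (cov_of_run3 ex_nil (by decide) va37_80.down) <|
  Cov3.trans (cov_of_run3 ex_nil (by decide) va37_86.down) <|
  Cov3.trans (cov_of_run3 ex_nil (by decide) va37_92.down) <|
  cov_of_run3 ex_nil (by decide) va37_98.down

theorem cova38_38 : Cov3 hiB 38 38 100 :=
  Cov3.trans (cov_of_run3 ex_nil (by decide) va38_38.down) <|
  Cov3.trans (cov_of_run3 ex_nil (by decide) va38_46.down) <|
  Cov3.trans (cov_of_run3 ex_nil (by decide) va38_54.down) <|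
  Cov3.trans (cov_of_run3 ex_nil (by decide) va38_61.down) <|
  Cov3.trans (cov_of_run3 ex_nil (by decide) va38_68.down) <|
  Cov3.trans (cov_of_run3 ex_nil (by decide) va38_74.down) <|
  Cov3.trans (cov_of_run3 ex_nil (by decide) va38_80.down) <|
  Cov3.trans (cov_of_run3 ex_nil (by decide) va38_86.down) <|
  Cov3.trans (cov_of_run3 ex_nil (by decide) va38_92.down) <|
  cov_of_run3 ex_nil (by decide) va38_98.down

theorem cova39_39 : Cov3 hiB 39 39 100 :=
  Cov3.trans (cov_of_run3 ex_nil (by decide) va39_39.down) <|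
  Cov3.trans (cov_of_run3 ex_nil (by decide) va39_47.down) <|
  Cov3.trans (cov_of_run3 ex_nil (by decide) va39_54.down) <|
  Cov3.trans (cov_of_run3 ex_nil (by decide) va39_61.down) <|
  Cov3.trans (cov_of_run3 ex_nil (by decide) va39_68.down) <|
  Cov3.trans (cov_of_run3 ex_nil (by decide) va39_74.down) <|
  Cov3.trans (cov_of_run3 ex_nil (by decide) va39_80.down) <|
  Cov3.trans (cov_of_run3 ex_nil (by decide) va39_86.down) <|
  Cov3.trans (cov_of_run3 ex_nil (by decide) va39_92.down) <|
  cov_of_run3 ex_nil (by decide) va39_98.down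

theorem cova40_40 : Cov3 hiB 40 40 100 :=
  Cov3.trans (cov_of_run3 ex_nil (by decide) va40_40.down) <|
  Cov3.trans (cov_of_run3 ex_nil (by decide) va40_48.down) <|
  Cov3.trans (cov_of_run3 ex_nil (by decide) va40_55.down) <|
  Cov3.trans (cov_of_run3 ex_nil (by decide) va40_62.down) <|
  Cov3.trans (cov_of_run3 ex_nil (by decide) va40_69.down) <|
  Cov3.trans (cov_of_run3 ex_nil (by decide) va40_75.down) <|
  Cov3.trans (cov_of_run3 ex_nil (by decide) va40_81.down) <|
  Cov3.trans (cov_of_run3 ex_nil (by decide) va40_87.down) <|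
  Cov3.trans (cov_of_run3 ex_nil (by decide) va40_93.down) <|
  cov_of_run3 ex_nil (by decide) va40_98.down

end Pool.Agent.Work.MP_f4b644_ag.Dag
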