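import Pool.Agent.Work.MP_f4b644_ag.Dag.TmS
import Pool.Agent.Work.MP_f4b644_ag.Dag.ExB
import Pool.Agent.Work.MP_f4b644_ag.Dag.Vb_1
import Pool.Agent.Work.MP_f4b644_ag.Dag.Vb_2
import Pool.Agent.Work.MP_f4b644_ag.Dag.Vb_3
import Pool.Agent.Work.MP_f4b644_ag.Dag.Vb_4
import Pool.Agent.Work.MP_f4b644_ag.Dag.Vb_5
import Pool.Agent.Work.MP_f4b644_ag.Dag.Vb_6
import Pool.Agent.Work.MP_f4b644_ag.Dag.Vb_7
import Pool.Agent.Work.MP_f4b644_ag.Dag.Vb_8
import Pool.Agent.Work.MP_f4b644_ag.Dag.Vb_9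
import Pool.Agent.Work.MP_f4b644_ag.Dag.Vb_10
import Pool.Agent.Work.MP_f4b644_ag.Dag.Vb_11
import Pool.Agent.Work.MP_f4b644_ag.Dag.Vb_12
import Pool.Agent.Work.MP_f4b644_ag.Dag.Vb_13

/-! All roots of some cross sections. -/

namespace Pool.Agent.Work.MP_f4b644_ag.Dag

theorem covb41_41 : Cov3 hiB 41 41 100 :=
  Cov3.trans (cov_of_run3 ex_nil (by decide) vb41_41.down) <|
  Cov3.trans (cov_of_run3 ex_nil (by decide) vb41_49.down) <|
  Cov3.trans (cov_of_run3 ex_nil (by decide) vb41_56.down) <|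
  Cov3.trans (cov_of_run3 ex_nil (by decide) vb41_63.down) <|
  Cov3.trans (cov_of_run3 ex_nil (by decide) vb41_69.down) <|
  Cov3.trans (cov_of_run3 ex_nil (by decide) vb41_75.down) <|
  Cov3.trans (cov_of_run3 ex_nil (by decide) vb41_81.down) <|
  Cov3.trans (cov_of_run3 ex_nil (by decide) vb41_87.down) <|
  Cov3.trans (cov_of_run3 ex_nil (by decide) vb41_93.down) <|
  cov_of_run3 ex_nil (by decide) vb41_98.down

theorem covb42_42 : Cov3 hiB 42 42 100 :=
  Cov3.trans (cov_of_run3 ex_nil (by decide) vb42_42.down) <|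
  Cov3.trans (cov_of_run3 ex_nil (by decide) vb42_49.down) <|
  Cov3.trans (cov_of_run3 ex_nil (by decide) vb42_56.down) <|
  Cov3.trans (cov_of_run3 ex_nil (by decide) vb42_63.down) <|
  Cov3.trans (cov_of_run3 ex_nil (by decide) vb42_69.down) <|
  Cov3.trans (cov_of_run3 ex_nil (by decide) vb42_75.down) <|
  Cov3.trans (cov_of_run3 ex_nil (by decide) vb42_81.down) <|
  Cov3.trans (cov_of_run3 ex_nil (by decide) vb42_87.down) <|
  Cov3.trans (cov_of_run3 ex_nil (by decide) vb42_92.down) <|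
  cov_of_run3 ex_nil (by decide) vb42_97.down

theorem covb43_43 : Cov3 hiB 43 43 100 :=
  Cov3.trans (cov_of_run3 ex_nil (by decide) vb43_43.down) <|
  Cov3.trans (cov_of_run3 ex_nil (by decide) vb43_50.down) <|
  Cov3.trans (cov_of_run3 ex_nil (by decide) vb43_57.down) <|
  Cov3.trans (cov_of_run3 ex_nil (by decide) vb43_64.down) <|
  Cov3.trans (cov_of_run3 ex_nil (by decide) vb43_70.down) <|
  Cov3.trans (cov_of_run3 ex_nil (by decide) vb43_76.down) <|
  Cov3.trans (cov_of_run3 ex_nil (by decide) vb43_82.down) <|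
  Cov3.trans (cov_of_run3 ex_nil (by decide) vb43_88.down) <|
  Cov3.trans (cov_of_run3 ex_nil (by decide) vb43_93.down) <|
  cov_of_run3 ex_nil (by decide) vb43_98.down

theorem covb44_44 : Cov3 hiB 44 44 100 :=
  Cov3.trans (cov_of_run3 ex_nil (by decide) vb44_44.down) <|
  Cov3.trans (cov_of_run3 ex_nil (by decide) vb44_51.down) <|
  Cov3.trans (cov_of_run3 ex_nil (by decide) vb44_58.down) <|
  Cov3.trans (cov_of_run3 ex_nil (by decide) vb44_64.down) <|
  Cov3.trans (cov_of_run3 ex_nil (by decide) vb44_70.down) <|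
  Cov3.trans (cov_of_run3 ex_nil (by decide) vb44_76.down) <|
  Cov3.trans (cov_of_run3 ex_nil (by decide) vb44_82.down) <|
  Cov3.trans (cov_of_run3 ex_nil (by decide) vb44_88.down) <|
  Cov3.trans (cov_of_run3 ex_nil (by decide) vb44_93.down) <|
  cov_of_run3 ex_nil (by decide) vb44_98.down

theorem covb45_45 : Cov3 hiB 45 45 100 :=
  Cov3.trans (cov_of_run3 ex_nil (by decide) vb45_45.down) <|
  Cov3.trans (cov_of_run3 ex_nil (by decide) vb45_52.down) <|
  Cov3.trans (cov_of_run3 ex_nil (by decide) vb45_59.down) <|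
  Cov3.trans (cov_of_run3 ex_nil (by decide) vb45_65.down) <|
  Cov3.trans (cov_of_run3 ex_nil (by decide) vb45_71.down) <|
  Cov3.trans (cov_of_run3 ex_nil (by decide) vb45_77.down) <|
  Cov3.trans (cov_of_run3 ex_nil (by decide) vb45_83.down) <|
  Cov3.trans (cov_of_run3 ex_nil (by decide) vb45_88.down) <|
  Cov3.trans (cov_of_run3 ex_nil (by decide) vb45_93.down) <|
  cov_of_run3 ex_nil (by decide) vb45_98.down

theorem covb46_46 : Cov3 hiB 46 46 100 :=
  Cov3.trans (cov_of_run3 ex_nil (by decide) vb46_46.down) <|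
  Cov3.trans (cov_of_run3 ex_nil (by decide) vb46_53.down) <|
  Cov3.trans (cov_of_run3 ex_nil (by decide) vb46_60.down) <|
  Cov3.trans (cov_of_run3 ex_nil (by decide) vb46_66.down) <|
  Cov3.trans (cov_of_run3 ex_nil (by decide) vb46_72.down) <|
  Cov3.trans (cov_of_run3 ex_nil (by decide) vb46_78.down) <|
  Cov3.trans (cov_of_run3 ex_nil (by decide) vb46_84.down) <|
  Cov3.trans (cov_of_run3 ex_nil (by decide) vb46_89.down) <|
  Cov3.trans (cov_of_run3 ex_nil (by decide) vb46_94.down) <|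
  cov_of_run3 ex_nil (by decide) vb46_99.down

theorem covb47_47 : Cov3 hiB 47 47 100 :=
  Cov3.trans (cov_of_run3 ex_nil (by decide) vb47_47.down) <|
  Cov3.trans (cov_of_run3 ex_nil (by decide) vb47_54.down) <|
  Cov3.trans (cov_of_run3 ex_nil (by decide) vb47_60.down) <|
  Cov3.trans (cov_of_run3 ex_nil (by decide) vb47_66.down) <|
  Cov3.trans (cov_of_run3 ex_nil (by decide) vb47_72.down) <|
  Cov3.trans (cov_of_run3 ex_nil (by decide) vb47_78.down) <|
  Cov3.trans (cov_of_run3 ex_nil (by decide) vb47_84.down) <|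
  Cov3.trans (cov_of_run3 ex_nil (by decide) vb47_89.down) <|
  Cov3.trans (cov_of_run3 ex_nil (by decide) vb47_94.down) <|
  cov_of_run3 ex_nil (by decide) vb47_99.down

theorem covb48_48 : Cov3 hiB 48 48 100 :=
  Cov3.trans (cov_of_run3 ex_nil (by decide) vb48_48.down) <|
  Cov3.trans (cov_of_run3 ex_nil (by decide) vb48_55.down) <|
  Cov3.trans (cov_of_run3 ex_nil (by decide) vb48_61.down) <|
  Cov3.trans (cov_of_run3 ex_nil (by decide) vb48_67.down) <|
  Cov3.trans (cov_of_run3 ex_nil (by decide) vb48_73.down) <|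
  Cov3.trans (cov_of_run3 ex_nil (by decide) vb48_79.down) <|
  Cov3.trans (cov_of_run3 ex_nil (by decide) vb48_84.down) <|
  Cov3.trans (cov_of_run3 ex_nil (by decide) vb48_89.down) <|
  Cov3.trans (cov_of_run3 ex_nil (by decide) vb48_94.down) <|
  cov_of_run3 ex_nil (by decide) vb48_99.down

theorem covb49_49 : Cov3 hiB 49 49 100 :=
  Cov3.trans (cov_of_run3 ex_nil (by decide) vb49_49.down) <|
  Cov3.trans (cov_of_run3 ex_nil (by decide) vb49_56.down) <|
  Cov3.trans (cov_of_run3 ex_nil (by decide) vb49_62.down) <|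
  Cov3.trans (cov_of_run3 ex_nil (by decide) vb49_68.down) <|
  Cov3.trans (cov_of_run3 ex_nil (by decide) vb49_74.down) <|
  Cov3.trans (cov_of_run3 ex_nil (by decide) vb49_80.down) <|
  Cov3.trans (cov_of_run3 ex_nil (by decide) vb49_85.down) <|
  Cov3.trans (cov_of_run3 ex_nil (by decide) vb49_90.down) <|
  cov_of_run3 ex_nil (by decide) vb49_95.down

theorem covb50_50 : Cov3 hiB 50 50 100 :=
  Cov3.trans (cov_of_run3 ex_nil (by decide) vb50_50.down) <|
  Cov3.trans (cov_of_run3 ex_nil (by decide) vb50_57.down) <|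
  Cov3.trans (cov_of_run3 ex_nil (by decide) vb50_63.down) <|
  Cov3.trans (cov_of_run3 ex_nil (by decide) vb50_69.down) <|
  Cov3.trans (cov_of_run3 ex_nil (by decide) vb50_75.down) <|
  Cov3.trans (cov_of_run3 ex_nil (by decide) vb50_80.down) <|
  Cov3.trans (cov_of_run3 ex_nil (by decide) vb50_85.down) <|
  Cov3.trans (cov_of_run3 ex_nil (by decide) vb50_90.down) <|
  cov_of_run3 ex_nil (by decide) vb50_95.down

theorem covb51_51 : Cov3 hiB 51 51 100 :=
  Cov3.trans (cov_of_run3 ex_nil (by decide) vb51_51.down) <|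
  Cov3.trans (cov_of_run3 ex_nil (by decide) vb51_57.down) <|
  Cov3.trans (cov_of_run3 ex_nil (by decide) vb51_63.down) <|
  Cov3.trans (cov_of_run3 ex_nil (by decide) vb51_69.down) <|
  Cov3.trans (cov_of_run3 ex_nil (by decide) vb51_75.down) <|
  Cov3.trans (cov_of_run3 ex_nil (by decide) vb51_80.down) <|
  Cov3.trans (cov_of_run3 ex_nil (by decide) vb51_85.down) <|
  Cov3.trans (cov_of_run3 ex_nil (by decide) vb51_90.down) <|
  cov_of_run3 ex_nil (by decide) vb51_95.down

theorem covb52_52 : Cov3 hiB 52 52 100 :=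
  Cov3.trans (cov_of_run3 ex_nil (by decide) vb52_52.down) <|
  Cov3.trans (cov_of_run3 ex_nil (by decide) vb52_58.down) <|
  Cov3.trans (cov_of_run3 ex_nil (by decide) vb52_64.down) <|
  Cov3.trans (cov_of_run3 ex_nil (by decide) vb52_70.down) <|
  Cov3.trans (cov_of_run3 ex_nil (by decide) vb52_76.down) <|
  Cov3.trans (cov_of_run3 ex_nil (by decide) vb52_81.down) <|
  Cov3.trans (cov_of_run3 ex_nil (by decide) vb52_86.down) <|
  Cov3.trans (cov_of_run3 ex_nil (by decide) vb52_91.down) <|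
  cov_of_run3 ex_nil (by decide) vb52_96.down

theorem covb53_53 : Cov3 hiB 53 53 100 :=
  Cov3.trans (cov_of_run3 ex_nil (by decide) vb53_53.down) <|
  Cov3.trans (cov_of_run3 ex_nil (by decide) vb53_59.down) <|
  Cov3.trans (cov_of_run3 ex_nil (by decide) vb53_65.down) <|
  Cov3.trans (cov_of_run3 ex_nil (by decide) vb53_71.down) <|
  Cov3.trans (cov_of_run3 ex_nil (by decide) vb53_76.down) <|
  Cov3.trans (cov_of_run3 ex_nil (by decide) vb53_81.down) <|
  Cov3.trans (cov_of_run3 ex_nil (by decide) vb53_86.down) <|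
  Cov3.trans (cov_of_run3 ex_nil (by decide) vb53_91.down) <|
  cov_of_run3 ex_nil (by decide) vb53_96.down

theorem covb54_54 : Cov3 hiB 54 54 100 :=
  Cov3.trans (cov_of_run3 ex_nil (by decide) vb54_54.down) <|
  Cov3.trans (cov_of_run3 ex_nil (by decide) vb54_60.down) <|
  Cov3.trans (cov_of_run3 ex_nil (by decide) vb54_66.down) <|
  Cov3.trans (cov_of_run3 ex_nil (by decide) vb54_72.down) <|
  Cov3.trans (cov_of_run3 ex_nil (by decide) vb54_77.down) <|
  Cov3.trans (cov_of_run3 ex_nil (by decide) vb54_82.down) <|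
  Cov3.trans (cov_of_run3 ex_nil (by decide) vb54_87.down) <|
  Cov3.trans (cov_of_run3 ex_nil (by decide) vb54_92.down) <|
  cov_of_run3 ex_nil (by decide) vb54_97.down

theorem covb55_55 : Cov3 hiB 55 55 100 :=
  Cov3.trans (cov_of_run3 ex_nil (by decide) vb55_55.down) <|
  Cov3.trans (cov_of_run3 ex_nil (by decide) vb55_61.down) <|
  Cov3.trans (cov_of_run3 ex_nil (by decide) vb55_67.down) <|
  Cov3.trans (cov_of_run3 ex_nil (by decide) vb55_73.down) <|
  Cov3.trans (cov_of_run3 ex_nil (by decide) vb55_78.down) <|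
  Cov3.trans (cov_of_run3 ex_nil (by decide) vb55_83.down) <|
  Cov3.trans (cov_of_run3 ex_nil (by decide) vb55_88.down) <|
  Cov3.trans (cov_of_run3 ex_nil (by decide) vb55_93.down) <|
  cov_of_run3 ex_nil (by decide) vb55_98.down

theorem covb56_56 : Cov3 hiB 56 56 100 :=
  Cov3.trans (cov_of_run3 ex_nil (by decide) vb56_56.down) <|
  Cov3.trans (cov_of_run3 ex_nil (by decide) vb56_62.down) <|
  Cov3.trans (cov_of_run3 ex_nil (by decide) vb56_68.down) <|
  Cov3.trans (cov_of_run3 ex_nil (by decide) vb56_73.down) <|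
  Cov3.trans (cov_of_run3 ex_nil (by decide) vb56_78.down) <|
  Cov3.trans (cov_of_run3 ex_nil (by decide) vb56_83.down) <|
  Cov3.trans (cov_of_run3 ex_nil (by decide) vb56_88.down) <|
  Cov3.trans (cov_of_run3 ex_nil (by decide) vb56_93.down) <|
  cov_of_run3 ex_nil (by decide) vb56_98.down

theorem covb57_57 : Cov3 hiB 57 57 100 :=
  Cov3.trans (cov_of_run3 ex_nil (by decide) vb57_57.down) <|
  Cov3.trans (cov_of_run3 ex_nil (by decide) vb57_63.down) <|
  Cov3.trans (cov_of_run3 ex_nil (by decide) vb57_69.down) <|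
  Cov3.trans (cov_of_run3 ex_nil (by decide) vb57_74.down) <|
  Cov3.trans (cov_of_run3 ex_nil (by decide) vb57_79.down) <|
  Cov3.trans (cov_of_run3 ex_nil (by decide) vb57_84.down) <|
  Cov3.trans (cov_of_run3 ex_nil (by decide) vb57_89.down) <|
  Cov3.trans (cov_of_run3 ex_nil (by decide) vb57_94.down) <|
  cov_of_run3 ex_nil (by decide) vb57_99.down

theorem covb58_58 : Cov3 hiB 58 58 100 :=
  Cov3.trans (cov_of_run3 ex_nil (by decide) vb58_58.down) <|
  Cov3.trans (cov_of_run3 ex_nil (by decide) vb58_64.down) <|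
  Cov3.trans (cov_of_run3 ex_nil (by decide) vb58_69.down) <|
  Cov3.trans (cov_of_run3 ex_nil (by decide) vb58_74.down) <|
  Cov3.trans (cov_of_run3 ex_nil (by decide) vb58_79.down) <|
  Cov3.trans (cov_of_run3 ex_nil (by decide) vb58_84.down) <|
  Cov3.trans (cov_of_run3 ex_nil (by decide) vb58_89.down) <|
  Cov3.trans (cov_of_run3 ex_nil (by decide) vb58_94.down) <|
  cov_of_run3 ex_nil (by decide) vb58_99.down

theorem covb59_59 : Cov3 hiB 59 59 100 :=
  Cov3.trans (cov_of_run3 ex_nil (by decide) vb59_59.down) <|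
  Cov3.trans (cov_of_run3 ex_nil (by decide) vb59_65.down) <|
  Cov3.trans (cov_of_run3 ex_nil (by decide) vb59_70.down) <|
  Cov3.trans (cov_of_run3 ex_nil (by decide) vb59_75.down) <|
  Cov3.trans (cov_of_run3 ex_nil (by decide) vb59_80.down) <|
  Cov3.trans (cov_of_run3 ex_nil (by decide) vb59_85.down) <|
  Cov3.trans (cov_of_run3 ex_nil (by decide) vb59_90.down) <|
  Cov3.trans (cov_of_run3 ex_nil (by decide) vb59_95.down) <|
  cov_of_run3 ex_nil (by decide) vb59_99.down

theorem covb60_60 : Cov3 hiB 60 60 100 :=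
  Cov3.trans (cov_of_run3 ex_nil (by decide) vb60_60.down) <|
  Cov3.trans (cov_of_run3 ex_nil (by decide) vb60_66.down) <|
  Cov3.trans (cov_of_run3 ex_nil (by decide) vb60_71.down) <|
  Cov3.trans (cov_of_run3 ex_nil (by decide) vb60_76.down) <|
  Cov3.trans (cov_of_run3 ex_nil (by decide) vb60_81.down) <|
  Cov3.trans (cov_of_run3 ex_nil (by decide) vb60_86.down) <|
  Cov3.trans (cov_of_run3 ex_nil (by decide) vb60_91.down) <|
  cov_of_run3 ex_nil (by decide) vb60_96.down

theorem covb61_61 : Cov3 hiB 61 61 100 :=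
  Cov3.trans (cov_of_run3 ex_nil (by decide) vb61_61.down) <|
  Cov3.trans (cov_of_run3 ex_nil (by decide) vb61_66.down) <|
  Cov3.trans (cov_of_run3 ex_nil (by decide) vb61_71.down) <|
  Cov3.trans (cov_of_run3 ex_nil (by decide) vb61_76.down) <|
  Cov3.trans (cov_of_run3 ex_nil (by decide) vb61_81.down) <|
  Cov3.trans (cov_of_run3 ex_nil (by decide) vb61_86.down) <|
  Cov3.trans (cov_of_run3 ex_nil (by decide) vb61_91.down) <|
  cov_of_run3 ex_nil (by decide) vb61_96.down

theorem covb62_62 : Cov3 hiB 62 62 100 :=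
  Cov3.trans (cov_of_run3 ex_nil (by decide) vb62_62.down) <|
  Cov3.trans (cov_of_run3 ex_nil (by decide) vb62_67.down) <|
  Cov3.trans (cov_of_run3 ex_nil (by decide) vb62_72.down) <|
  Cov3.trans (cov_of_run3 ex_nil (by decide) vb62_77.down) <|
  Cov3.trans (cov_of_run3 ex_nil (by decide) vb62_82.down) <|
  Cov3.trans (cov_of_run3 ex_nil (by decide) vb62_87.down) <|
  Cov3.trans (cov_of_run3 ex_nil (by decide) vb62_92.down) <|
  cov_of_run3 ex_nil (by decide) vb62_96.down

theorem covb63_63 : Cov3 hiB 63 63 100 :=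
  Cov3.trans (cov_of_run3 ex_nil (by decide) vb63_63.down) <|
  Cov3.trans (cov_of_run3 ex_nil (by decide) vb63_68.down) <|
  Cov3.trans (cov_of_run3 ex_nil (by decide) vb63_73.down) <|
  Cov3.trans (cov_of_run3 ex_nil (by decide) vb63_78.down) <|
  Cov3.trans (cov_of_run3 ex_nil (by decide) vb63_83.down) <|
  Cov3.trans (cov_of_run3 ex_nil (by decide) vb63_88.down) <|
  Cov3.trans (cov_of_run3 ex_nil (by decide) vb63_93.down) <|
  cov_of_run3 ex_nil (by decide) vb63_97.down

theorem covb64_64 : Cov3 hiB 64 64 100 :=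
  Cov3.trans (cov_of_run3 ex_nil (by decide) vb64_64.down) <|
  Cov3.trans (cov_of_run3 ex_nil (by decide) vb64_69.down) <|
  Cov3.trans (cov_of_run3 ex_nil (by decide) vb64_74.down) <|
  Cov3.trans (cov_of_run3 ex_nil (by decide) vb64_79.down) <|
  Cov3.trans (cov_of_run3 ex_nil (by decide) vb64_84.down) <|
  Cov3.trans (cov_of_run3 ex_nil (by decide) vb64_89.down) <|
  Cov3.trans (cov_of_run3 ex_nil (by decide) vb64_93.down) <|
  cov_of_run3 ex_nil (by decide) vb64_97.down

theorem covb65_65 : Cov3 hiB 65 65 100 :=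
  Cov3.trans (cov_of_run3 ex_nil (by decide) vb65_65.down) <|
  Cov3.trans (cov_of_run3 ex_nil (by decide) vb65_70.down) <|
  Cov3.trans (cov_of_run3 ex_nil (by decide) vb65_75.down) <|
  Cov3.trans (cov_of_run3 ex_nil (by decide) vb65_80.down) <|
  Cov3.trans (cov_of_run3 ex_nil (by decide) vb65_85.down) <|
  Cov3.trans (cov_of_run3 ex_nil (by decide) vb65_90.down) <|
  Cov3.trans (cov_of_run3 ex_nil (by decide) vb65_94.down) <|
  cov_of_run3 ex_nil (by decide) vb65_98.down

end Pool.Agent.Work.MP_f4b644_ag.Dag
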