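import Pool.Agent.Work.MP_f4b644_ag.Dag.TmS
import Pool.Agent.Work.MP_f4b644_ag.Dag.ExB
import Pool.Agent.Work.MP_f4b644_ag.Dag.Vc_1
import Pool.Agent.Work.MP_f4b644_ag.Dag.Vc_2
import Pool.Agent.Work.MP_f4b644_ag.Dag.Vc_3
import Pool.Agent.Work.MP_f4b644_ag.Dag.Vc_4
import Pool.Agent.Work.MP_f4b644_ag.Dag.Vc_5
import Pool.Agent.Work.MP_f4b644_ag.Dag.Vc_6
import Pool.Agent.Work.MP_f4b644_ag.Dag.Vc_7
import Pool.Agent.Work.MP_f4b644_ag.Dag.Vc_8
import Pool.Agent.Work.MP_f4b644_ag.Dag.Vc_9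

/-! All roots of some cross sections. -/

namespace Pool.Agent.Work.MP_f4b644_ag.Dag

theorem covc66_66 : Cov3 hiB 66 66 100 :=
  Cov3.trans (cov_of_run3 ex_nil (by decide) vc66_66.down) <|
  Cov3.trans (cov_of_run3 ex_nil (by decide) vc66_71.down) <|
  Cov3.trans (cov_of_run3 ex_nil (by decide) vc66_76.down) <|
  Cov3.trans (cov_of_run3 ex_nil (by decide) vc66_81.down) <|
  Cov3.trans (cov_of_run3 ex_nil (by decide) vc66_86.down) <|
  Cov3.trans (cov_of_run3 ex_nil (by decide) vc66_90.down) <|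
  Cov3.trans (cov_of_run3 ex_nil (by decide) vc66_94.down) <|
  cov_of_run3 ex_nil (by decide) vc66_98.down

theorem covc67_67 : Cov3 hiB 67 67 100 :=
  Cov3.trans (cov_of_run3 ex_nil (by decide) vc67_67.down) <|
  Cov3.trans (cov_of_run3 ex_nil (by decide) vc67_72.down) <|
  Cov3.trans (cov_of_run3 ex_nil (by decide) vc67_77.down) <|
  Cov3.trans (cov_of_run3 ex_nil (by decide) vc67_82.down) <|
  Cov3.trans (cov_of_run3 ex_nil (by decide) vc67_87.down) <|
  Cov3.trans (cov_of_run3 ex_nil (by decide) vc67_91.down) <|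
  Cov3.trans (cov_of_run3 ex_nil (by decide) vc67_95.down) <|
  cov_of_run3 ex_nil (by decide) vc67_99.down

theorem covc68_68 : Cov3 hiB 68 68 100 :=
  Cov3.trans (cov_of_run3 ex_nil (by decide) vc68_68.down) <|
  Cov3.trans (cov_of_run3 ex_nil (by decide) vc68_73.down) <|
  Cov3.trans (cov_of_run3 ex_nil (by decide) vc68_78.down) <|
  Cov3.trans (cov_of_run3 ex_nil (by decide) vc68_83.down) <|
  Cov3.trans (cov_of_run3 ex_nil (by decide) vc68_87.down) <|
  Cov3.trans (cov_of_run3 ex_nil (by decide) vc68_91.down) <|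
  Cov3.trans (cov_of_run3 ex_nil (by decide) vc68_95.down) <|
  cov_of_run3 ex_nil (by decide) vc68_99.down

theorem covc69_69 : Cov3 hiB 69 69 100 :=
  Cov3.trans (cov_of_run3 ex_nil (by decide) vc69_69.down) <|
  Cov3.trans (cov_of_run3 ex_nil (by decide) vc69_74.down) <|
  Cov3.trans (cov_of_run3 ex_nil (by decide) vc69_79.down) <|
  Cov3.trans (cov_of_run3 ex_nil (by decide) vc69_84.down) <|
  Cov3.trans (cov_of_run3 ex_nil (by decide) vc69_88.down) <|
  Cov3.trans (cov_of_run3 ex_nil (by decide) vc69_92.down) <|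
  cov_of_run3 ex_nil (by decide) vc69_96.down

theorem covc70_70 : Cov3 hiB 70 70 100 :=
  Cov3.trans (cov_of_run3 ex_nil (by decide) vc70_70.down) <|
  Cov3.trans (cov_of_run3 ex_nil (by decide) vc70_75.down) <|
  Cov3.trans (cov_of_run3 ex_nil (by decide) vc70_80.down) <|
  Cov3.trans (cov_of_run3 ex_nil (by decide) vc70_85.down) <|
  Cov3.trans (cov_of_run3 ex_nil (by decide) vc70_89.down) <|
  Cov3.trans (cov_of_run3 ex_nil (by decide) vc70_93.down) <|
  cov_of_run3 ex_nil (by decide) vc70_97.down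

theorem covc71_71 : Cov3 hiB 71 71 100 :=
  Cov3.trans (cov_of_run3 ex_nil (by decide) vc71_71.down) <|
  Cov3.trans (cov_of_run3 ex_nil (by decide) vc71_76.down) <|
  Cov3.trans (cov_of_run3 ex_nil (by decide) vc71_81.down) <|
  Cov3.trans (cov_of_run3 ex_nil (by decide) vc71_85.down) <|
  Cov3.trans (cov_of_run3 ex_nil (by decide) vc71_89.down) <|
  Cov3.trans (cov_of_run3 ex_nil (by decide) vc71_93.down) <|
  cov_of_run3 ex_nil (by decide) vc71_97.down

theorem covc72_72 : Cov3 hiB 72 72 100 :=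
  Cov3.trans (cov_of_run3 ex_nil (by decide) vc72_72.down) <|
  Cov3.trans (cov_of_run3 ex_nil (by decide) vc72_77.down) <|
  Cov3.trans (cov_of_run3 ex_nil (by decide) vc72_82.down) <|
  Cov3.trans (cov_of_run3 ex_nil (by decide) vc72_86.down) <|
  Cov3.trans (cov_of_run3 ex_nil (by decide) vc72_90.down) <|
  Cov3.trans (cov_of_run3 ex_nil (by decide) vc72_94.down) <|
  cov_of_run3 ex_nil (by decide) vc72_98.down

theorem covc73_73 : Cov3 hiB 73 73 100 :=
  Cov3.trans (cov_of_run3 ex_nil (by decide) vc73_73.down) <|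
  Cov3.trans (cov_of_run3 ex_nil (by decide) vc73_78.down) <|
  Cov3.trans (cov_of_run3 ex_nil (by decide) vc73_82.down) <|
  Cov3.trans (cov_of_run3 ex_nil (by decide) vc73_86.down) <|
  Cov3.trans (cov_of_run3 ex_nil (by decide) vc73_90.down) <|
  Cov3.trans (cov_of_run3 ex_nil (by decide) vc73_94.down) <|
  cov_of_run3 ex_nil (by decide) vc73_98.down

theorem covc74_74 : Cov3 hiB 74 74 100 :=
  Cov3.trans (cov_of_run3 ex_nil (by decide) vc74_74.down) <|
  Cov3.trans (cov_of_run3 ex_nil (by decide) vc74_79.down) <|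
  Cov3.trans (cov_of_run3 ex_nil (by decide) vc74_83.down) <|
  Cov3.trans (cov_of_run3 ex_nil (by decide) vc74_87.down) <|
  Cov3.trans (cov_of_run3 ex_nil (by decide) vc74_91.down) <|
  Cov3.trans (cov_of_run3 ex_nil (by decide) vc74_95.down) <|
  cov_of_run3 ex_nil (by decide) vc74_99.down

theorem covc75_75 : Cov3 hiB 75 75 100 :=
  Cov3.trans (cov_of_run3 ex_nil (by decide) vc75_75.down) <|
  Cov3.trans (cov_of_run3 ex_nil (by decide) vc75_79.down) <|
  Cov3.trans (cov_of_run3 ex_nil (by decide) vc75_83.down) <|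
  Cov3.trans (cov_of_run3 ex_nil (by decide) vc75_87.down) <|
  Cov3.trans (cov_of_run3 ex_nil (by decide) vc75_91.down) <|
  Cov3.trans (cov_of_run3 ex_nil (by decide) vc75_95.down) <|
  cov_of_run3 ex_nil (by decide) vc75_99.down

theorem covc76_76 : Cov3 hiB 76 76 100 :=
  Cov3.trans (cov_of_run3 ex_nil (by decide) vc76_76.down) <|
  Cov3.trans (cov_of_run3 ex_nil (by decide) vc76_80.down) <|
  Cov3.trans (cov_of_run3 ex_nil (by decide) vc76_84.down) <|
  Cov3.trans (cov_of_run3 ex_nil (by decide) vc76_88.down) <|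
  Cov3.trans (cov_of_run3 ex_nil (by decide) vc76_92.down) <|
  cov_of_run3 ex_nil (by decide) vc76_96.down

theorem covc77_77 : Cov3 hiB 77 77 100 :=
  Cov3.trans (cov_of_run3 ex_nil (by decide) vc77_77.down) <|
  Cov3.trans (cov_of_run3 ex_nil (by decide) vc77_81.down) <|
  Cov3.trans (cov_of_run3 ex_nil (by decide) vc77_85.down) <|
  Cov3.trans (cov_of_run3 ex_nil (by decide) vc77_89.down) <|
  Cov3.trans (cov_of_run3 ex_nil (by decide) vc77_93.down) <|
  cov_of_run3 ex_nil (by decide) vc77_97.down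

theorem covc78_78 : Cov3 hiB 78 78 100 :=
  Cov3.trans (cov_of_run3 ex_nil (by decide) vc78_78.down) <|
  Cov3.trans (cov_of_run3 ex_nil (by decide) vc78_82.down) <|
  Cov3.trans (cov_of_run3 ex_nil (by decide) vc78_86.down) <|
  Cov3.trans (cov_of_run3 ex_nil (by decide) vc78_90.down) <|
  Cov3.trans (cov_of_run3 ex_nil (by decide) vc78_94.down) <|
  cov_of_run3 ex_nil (by decide) vc78_98.down

theorem covc79_79 : Cov3 hiB 79 79 100 :=
  Cov3.trans (cov_of_run3 ex_nil (by decide) vc79_79.down) <|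
  Cov3.trans (cov_of_run3 ex_nil (by decide) vc79_83.down) <|
  Cov3.trans (cov_of_run3 ex_nil (by decide) vc79_87.down) <|
  Cov3.trans (cov_of_run3 ex_nil (by decide) vc79_91.down) <|
  Cov3.trans (cov_of_run3 ex_nil (by decide) vc79_95.down) <|
  cov_of_run3 ex_nil (by decide) vc79_99.down

theorem covc80_80 : Cov3 hiB 80 80 100 :=
  Cov3.trans (cov_of_run3 ex_nil (by decide) vc80_80.down) <|
  Cov3.trans (cov_of_run3 ex_nil (by decide) vc80_84.down) <|
  Cov3.trans (cov_of_run3 ex_nil (by decide) vc80_88.down) <|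
  Cov3.trans (cov_of_run3 ex_nil (by decide) vc80_92.down) <|
  cov_of_run3 ex_nil (by decide) vc80_96.down

theorem covc81_81 : Cov3 hiB 81 81 100 :=
  Cov3.trans (cov_of_run3 ex_nil (by decide) vc81_81.down) <|
  Cov3.trans (cov_of_run3 ex_nil (by decide) vc81_85.down) <|
  Cov3.trans (cov_of_run3 ex_nil (by decide) vc81_89.down) <|
  Cov3.trans (cov_of_run3 ex_nil (by decide) vc81_93.down) <|
  cov_of_run3 (ex_cons rt_81_99_7742 ex_nil) (by decide) vc81_97.down

theorem covc82_82 : Cov3 hiB 82 82 100 :=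
  Cov3.trans (cov_of_run3 ex_nil (by decide) vc82_82.down) <|
  Cov3.trans (cov_of_run3 ex_nil (by decide) vc82_86.down) <|
  Cov3.trans (cov_of_run3 ex_nil (by decide) vc82_90.down) <|
  Cov3.trans (cov_of_run3 ex_nil (by decide) vc82_94.down) <|
  cov_of_run3 ex_nil (by decide) vc82_98.down

theorem covc83_83 : Cov3 hiB 83 83 100 :=
  Cov3.trans (cov_of_run3 ex_nil (by decide) vc83_83.down) <|
  Cov3.trans (cov_of_run3 ex_nil (by decide) vc83_87.down) <|
  Cov3.trans (cov_of_run3 ex_nil (by decide) vc83_91.down) <|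
  Cov3.trans (cov_of_run3 ex_nil (by decide) vc83_95.down) <|
  cov_of_run3 ex_nil (by decide) vc83_99.down

theorem covc84_84 : Cov3 hiB 84 84 100 :=
  Cov3.trans (cov_of_run3 ex_nil (by decide) vc84_84.down) <|
  Cov3.trans (cov_of_run3 ex_nil (by decide) vc84_88.down) <|
  Cov3.trans (cov_of_run3 ex_nil (by decide) vc84_92.down) <|
  cov_of_run3 ex_nil (by decide) vc84_96.down

theorem covc85_85 : Cov3 hiB 85 85 100 :=
  Cov3.trans (cov_of_run3 ex_nil (by decide) vc85_85.down) <|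
  Cov3.trans (cov_of_run3 ex_nil (by decide) vc85_89.down) <|
  Cov3.trans (cov_of_run3 ex_nil (by decide) vc85_93.down) <|
  cov_of_run3 ex_nil (by decide) vc85_97.down

theorem covc86_86 : Cov3 hiB 86 86 100 :=
  Cov3.trans (cov_of_run3 ex_nil (by decide) vc86_86.down) <|
  Cov3.trans (cov_of_run3 ex_nil (by decide) vc86_90.down) <|
  Cov3.trans (cov_of_run3 ex_nil (by decide) vc86_94.down) <|
  cov_of_run3 ex_nil (by decide) vc86_98.down

theorem covc87_87 : Cov3 hiB 87 87 100 :=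
  Cov3.trans (cov_of_run3 ex_nil (by decide) vc87_87.down) <|
  Cov3.trans (cov_of_run3 ex_nil (by decide) vc87_91.down) <|
  Cov3.trans (cov_of_run3 ex_nil (by decide) vc87_95.down) <|
  cov_of_run3 ex_nil (by decide) vc87_99.down

theorem covc88_88 : Cov3 hiB 88 88 100 :=
  Cov3.trans (cov_of_run3 ex_nil (by decide) vc88_88.down) <|
  Cov3.trans (cov_of_run3 ex_nil (by decide) vc88_92.down) <|
  cov_of_run3 ex_nil (by decide) vc88_96.down

theorem covc89_89 : Cov3 hiB 89 89 100 :=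
  Cov3.trans (cov_of_run3 ex_nil (by decide) vc89_89.down) <|
  Cov3.trans (cov_of_run3 ex_nil (by decide) vc89_93.down) <|
  cov_of_run3 ex_nil (by decide) vc89_97.down

theorem covc90_90 : Cov3 hiB 90 90 100 :=
  Cov3.trans (cov_of_run3 ex_nil (by decide) vc90_90.down) <|
  Cov3.trans (cov_of_run3 ex_nil (by decide) vc90_94.down) <|
  cov_of_run3 ex_nil (by decide) vc90_98.down

theorem covc91_91 : Cov3 hiB 91 91 100 :=
  Cov3.trans (cov_of_run3 ex_nil (by decide) vc91_91.down) <|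
  Cov3.trans (cov_of_run3 ex_nil (by decide) vc91_95.down) <|
  cov_of_run3 ex_nil (by decide) vc91_99.down

theorem covc92_92 : Cov3 hiB 92 92 100 :=
  Cov3.trans (cov_of_run3 ex_nil (by decide) vc92_92.down) <|
  cov_of_run3 ex_nil (by decide) vc92_96.down

theorem covc93_93 : Cov3 hiB 93 93 100 :=
  Cov3.trans (cov_of_run3 ex_nil (by decide) vc93_93.down) <|
  cov_of_run3 ex_nil (by decide) vc93_97.down

theorem covc94_94 : Cov3 hiB 94 94 100 :=
  Cov3.trans (cov_of_run3 ex_nil (by decide) vc94_94.down) <|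
  cov_of_run3 ex_nil (by decide) vc94_98.down

theorem covc95_95 : Cov3 hiB 95 95 100 :=
  Cov3.trans (cov_of_run3 ex_nil (by decide) vc95_95.down) <|
  cov_of_run3 ex_nil (by decide) vc95_99.down

theorem covc96_96 : Cov3 hiB 96 96 100 :=
  Cov3.trans (cov_of_run3 ex_nil (by decide) vc96_96.down) <|
  cov_of_run3 ex_nil (by decide) vc96_99.down

theorem covc97_97 : Cov3 hiB 97 97 100 :=
  cov_of_run3 ex_nil (by decide) vc97_97.down

theorem covc98_98 : Cov3 hiB 98 98 100 :=
  cov_of_run3 ex_nil (by decide) vc98_98.down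

theorem covc99_99 : Cov3 hiB 99 99 100 :=
  cov_of_run3 ex_nil (by decide) vc99_99.down

end Pool.Agent.Work.MP_f4b644_ag.Dag
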