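import Pool.Agent.Work.MP_f4b644_ag.Dag.TmS
import Pool.Agent.Work.MP_f4b644_ag.Dag.ExB
import Pool.Agent.Work.MP_f4b644_ag.Dag.Vd_1
import Pool.Agent.Work.MP_f4b644_ag.Dag.Vd_2
import Pool.Agent.Work.MP_f4b644_ag.Dag.Vd_3
import Pool.Agent.Work.MP_f4b644_ag.Dag.Vd_4
import Pool.Agent.Work.MP_f4b644_ag.Dag.Vd_5
import Pool.Agent.Work.MP_f4b644_ag.Dag.Vd_6
import Pool.Agent.Work.MP_f4b644_ag.Dag.Vd_7
import Pool.Agent.Work.MP_f4b644_ag.Dag.Vd_8

/-! All roots of some cross sections. -/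

namespace Pool.Agent.Work.MP_f4b644_ag.Dag

theorem covd6_6 : Cov3 hiB 6 6 320 :=
  Cov3.trans (cov_of_run3 (ex_cons (exA_s 6 8 23 (by decide +kernel)) ex_nil) (by decide) vd6_6.down) <|
  Cov3.trans (cov_of_run3 ex_nil (by decide) vd6_19.down) <|
  Cov3.trans (cov_of_run3 ex_nil (by decide) vd6_32.down) <|
  Cov3.trans (cov_of_run3 ex_nil (by decide) vd6_44.down) <|
  Cov3.trans (cov_of_run3 ex_nil (by decide) vd6_56.down) <|
  Cov3.trans (cov_of_run3 ex_nil (by decide) vd6_68.down) <|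
  Cov3.trans (cov_of_run3 ex_nil (by decide) vd6_79.down) <|
  Cov3.trans (cov_of_run3 ex_nil (by decide) vd6_90.down) <|
  Cov3.trans (cov_of_run3 ex_nil (by decide) vd6_101.down) <|
  Cov3.trans (cov_of_run3 ex_nil (by decide) vd6_112.down) <|
  Cov3.trans (cov_of_run3 ex_nil (by decide) vd6_122.down) <|
  Cov3.trans (cov_of_run3 ex_nil (by decide) vd6_132.down) <|
  Cov3.trans (cov_of_run3 ex_nil (by decide) vd6_142.down) <|
  Cov3.trans (cov_of_run3 ex_nil (by decide) vd6_152.down) <|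
  Cov3.trans (cov_of_run3 ex_nil (by decide) vd6_161.down) <|
  Cov3.trans (cov_of_run3 ex_nil (by decide) vd6_170.down) <|
  Cov3.trans (cov_of_run3 ex_nil (by decide) vd6_179.down) <|
  Cov3.trans (cov_of_run3 ex_nil (by decide) vd6_188.down) <|
  Cov3.trans (cov_of_run3 ex_nil (by decide) vd6_197.down) <|
  Cov3.trans (cov_of_run3 ex_nil (by decide) vd6_206.down) <|
  Cov3.trans (cov_of_run3 ex_nil (by decide) vd6_215.down) <|
  Cov3.trans (cov_of_run3 ex_nil (by decide) vd6_223.down) <|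
  Cov3.trans (cov_of_run3 ex_nil (by decide) vd6_231.down) <|
  Cov3.trans (cov_of_run3 ex_nil (by decide) vd6_239.down) <|
  Cov3.trans (cov_of_run3 ex_nil (by decide) vd6_247.down) <|
  Cov3.trans (cov_of_run3 ex_nil (by decide) vd6_255.down) <|
  Cov3.trans (cov_of_run3 ex_nil (by decide) vd6_263.down) <|
  Cov3.trans (cov_of_run3 ex_nil (by decide) vd6_271.down) <|
  Cov3.trans (cov_of_run3 ex_nil (by decide) vd6_279.down) <|
  Cov3.trans (cov_of_run3 ex_nil (by decide) vd6_287.down) <|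
  Cov3.trans (cov_of_run3 ex_nil (by decide) vd6_294.down) <|
  Cov3.trans (cov_of_run3 ex_nil (by decide) vd6_301.down) <|
  Cov3.trans (cov_of_run3 ex_nil (by decide) vd6_308.down) <|
  cov_of_run3 ex_nil (by decide) vd6_315.down

theorem covd8_8 : Cov3 hiB 8 8 200 :=
  Cov3.trans (cov_of_run3 ex_nil (by decide) vd8_8.down) <|
  Cov3.trans (cov_of_run3 ex_nil (by decide) vd8_21.down) <|
  Cov3.trans (cov_of_run3 ex_nil (by decide) vd8_33.down) <|
  Cov3.trans (cov_of_run3 ex_nil (by decide) vd8_45.down) <|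
  Cov3.trans (cov_of_run3 ex_nil (by decide) vd8_56.down) <|
  Cov3.trans (cov_of_run3 ex_nil (by decide) vd8_67.down) <|
  Cov3.trans (cov_of_run3 ex_nil (by decide) vd8_78.down) <|
  Cov3.trans (cov_of_run3 ex_nil (by decide) vd8_88.down) <|
  Cov3.trans (cov_of_run3 ex_nil (by decide) vd8_98.down) <|
  Cov3.trans (cov_of_run3 ex_nil (by decide) vd8_108.down) <|
  Cov3.trans (cov_of_run3 ex_nil (by decide) vd8_117.down) <|
  Cov3.trans (cov_of_run3 ex_nil (by decide) vd8_126.down) <|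
  Cov3.trans (cov_of_run3 ex_nil (by decide) vd8_135.down) <|
  Cov3.trans (cov_of_run3 ex_nil (by decide) vd8_144.down) <|
  Cov3.trans (cov_of_run3 ex_nil (by decide) vd8_153.down) <|
  Cov3.trans (cov_of_run3 ex_nil (by decide) vd8_161.down) <|
  Cov3.trans (cov_of_run3 ex_nil (by decide) vd8_169.down) <|
  Cov3.trans (cov_of_run3 ex_nil (by decide) vd8_177.down) <|
  Cov3.trans (cov_of_run3 ex_nil (by decide) vd8_185.down) <|
  cov_of_run3 ex_nil (by decide) vd8_193.down

theorem covd9_9 : Cov3 hiB 9 9 200 :=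
  Cov3.trans (cov_of_run3 (ex_cons (exA_s 9 9 62 (by decide +kernel)) ex_nil) (by decide) vd9_9.down) <|
  Cov3.trans (cov_of_run3 ex_nil (by decide) vd9_22.down) <|
  Cov3.trans (cov_of_run3 ex_nil (by decide) vd9_34.down) <|
  Cov3.trans (cov_of_run3 ex_nil (by decide) vd9_46.down) <|
  Cov3.trans (cov_of_run3 ex_nil (by decide) vd9_57.down) <|
  Cov3.trans (cov_of_run3 ex_nil (by decide) vd9_68.down) <|
  Cov3.trans (cov_of_run3 ex_nil (by decide) vd9_78.down) <|
  Cov3.trans (cov_of_run3 ex_nil (by decide) vd9_88.down) <|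
  Cov3.trans (cov_of_run3 ex_nil (by decide) vd9_98.down) <|
  Cov3.trans (cov_of_run3 ex_nil (by decide) vd9_107.down) <|
  Cov3.trans (cov_of_run3 ex_nil (by decide) vd9_116.down) <|
  Cov3.trans (cov_of_run3 ex_nil (by decide) vd9_125.down) <|
  Cov3.trans (cov_of_run3 ex_nil (by decide) vd9_134.down) <|
  Cov3.trans (cov_of_run3 ex_nil (by decide) vd9_142.down) <|
  Cov3.trans (cov_of_run3 ex_nil (by decide) vd9_150.down) <|
  Cov3.trans (cov_of_run3 ex_nil (by decide) vd9_158.down) <|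
  Cov3.trans (cov_of_run3 ex_nil (by decide) vd9_166.down) <|
  Cov3.trans (cov_of_run3 ex_nil (by decide) vd9_174.down) <|
  Cov3.trans (cov_of_run3 ex_nil (by decide) vd9_182.down) <|
  Cov3.trans (cov_of_run3 ex_nil (by decide) vd9_189.down) <|
  cov_of_run3 ex_nil (by decide) vd9_196.down

theorem covd10_10 : Cov3 hiB 10 10 200 :=
  Cov3.trans (cov_of_run3 ex_nil (by decide) vd10_10.down) <|
  Cov3.trans (cov_of_run3 ex_nil (by decide) vd10_23.down) <|
  Cov3.trans (cov_of_run3 ex_nil (by decide) vd10_35.down) <|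
  Cov3.trans (cov_of_run3 ex_nil (by decide) vd10_46.down) <|
  Cov3.trans (cov_of_run3 ex_nil (by decide) vd10_57.down) <|
  Cov3.trans (cov_of_run3 ex_nil (by decide) vd10_67.down) <|
  Cov3.trans (cov_of_run3 ex_nil (by decide) vd10_77.down) <|
  Cov3.trans (cov_of_run3 ex_nil (by decide) vd10_87.down) <|
  Cov3.trans (cov_of_run3 ex_nil (by decide) vd10_96.down) <|
  Cov3.trans (cov_of_run3 ex_nil (by decide) vd10_105.down) <|
  Cov3.trans (cov_of_run3 ex_nil (by decide) vd10_114.down) <|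
  Cov3.trans (cov_of_run3 ex_nil (by decide) vd10_123.down) <|
  Cov3.trans (cov_of_run3 ex_nil (by decide) vd10_131.down) <|
  Cov3.trans (cov_of_run3 ex_nil (by decide) vd10_139.down) <|
  Cov3.trans (cov_of_run3 ex_nil (by decide) vd10_147.down) <|
  Cov3.trans (cov_of_run3 ex_nil (by decide) vd10_155.down) <|
  Cov3.trans (cov_of_run3 ex_nil (by decide) vd10_163.down) <|
  Cov3.trans (cov_of_run3 ex_nil (by decide) vd10_170.down) <|
  Cov3.trans (cov_of_run3 ex_nil (by decide) vd10_177.down) <|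
  Cov3.trans (cov_of_run3 ex_nil (by decide) vd10_184.down) <|
  Cov3.trans (cov_of_run3 ex_nil (by decide) vd10_191.down) <|
  cov_of_run3 ex_nil (by decide) vd10_198.down

theorem covd11_11 : Cov3 hiB 11 11 200 :=
  Cov3.trans (cov_of_run3 (ex_cons (exA_s 11 11 98 (by decide +kernel)) ex_nil) (by decide) vd11_11.down) <|
  Cov3.trans (cov_of_run3 ex_nil (by decide) vd11_24.down) <|
  Cov3.trans (cov_of_run3 ex_nil (by decide) vd11_36.down) <|
  Cov3.trans (cov_of_run3 ex_nil (by decide) vd11_47.down) <|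
  Cov3.trans (cov_of_run3 ex_nil (by decide) vd11_58.down) <|
  Cov3.trans (cov_of_run3 ex_nil (by decide) vd11_68.down) <|
  Cov3.trans (cov_of_run3 ex_nil (by decide) vd11_78.down) <|
  Cov3.trans (cov_of_run3 ex_nil (by decide) vd11_87.down) <|
  Cov3.trans (cov_of_run3 ex_nil (by decide) vd11_96.down) <|
  Cov3.trans (cov_of_run3 ex_nil (by decide) vd11_105.down) <|
  Cov3.trans (cov_of_run3 ex_nil (by decide) vd11_114.down) <|
  Cov3.trans (cov_of_run3 ex_nil (by decide) vd11_122.down) <|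
  Cov3.trans (cov_of_run3 ex_nil (by decide) vd11_130.down) <|
  Cov3.trans (cov_of_run3 ex_nil (by decide) vd11_138.down) <|
  Cov3.trans (cov_of_run3 ex_nil (by decide) vd11_146.down) <|
  Cov3.trans (cov_of_run3 ex_nil (by decide) vd11_153.down) <|
  Cov3.trans (cov_of_run3 ex_nil (by decide) vd11_160.down) <|
  Cov3.trans (cov_of_run3 ex_nil (by decide) vd11_167.down) <|
  Cov3.trans (cov_of_run3 ex_nil (by decide) vd11_174.down) <|
  Cov3.trans (cov_of_run3 ex_nil (by decide) vd11_181.down) <|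
  Cov3.trans (cov_of_run3 ex_nil (by decide) vd11_188.down) <|
  cov_of_run3 ex_nil (by decide) vd11_195.down

theorem covd12_12 : Cov3 hiB 12 12 200 :=
  Cov3.trans (cov_of_run3 ex_nil (by decide) vd12_12.down) <|
  Cov3.trans (cov_of_run3 ex_nil (by decide) vd12_24.down) <|
  Cov3.trans (cov_of_run3 ex_nil (by decide) vd12_36.down) <|
  Cov3.trans (cov_of_run3 ex_nil (by decide) vd12_47.down) <|
  Cov3.trans (cov_of_run3 ex_nil (by decide) vd12_57.down) <|
  Cov3.trans (cov_of_run3 ex_nil (by decide) vd12_67.down) <|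
  Cov3.trans (cov_of_run3 ex_nil (by decide) vd12_77.down) <|
  Cov3.trans (cov_of_run3 ex_nil (by decide) vd12_86.down) <|
  Cov3.trans (cov_of_run3 ex_nil (by decide) vd12_95.down) <|
  Cov3.trans (cov_of_run3 ex_nil (by decide) vd12_104.down) <|
  Cov3.trans (cov_of_run3 ex_nil (by decide) vd12_112.down) <|
  Cov3.trans (cov_of_run3 ex_nil (by decide) vd12_120.down) <|
  Cov3.trans (cov_of_run3 ex_nil (by decide) vd12_128.down) <|
  Cov3.trans (cov_of_run3 ex_nil (by decide) vd12_136.down) <|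
  Cov3.trans (cov_of_run3 ex_nil (by decide) vd12_143.down) <|
  Cov3.trans (cov_of_run3 ex_nil (by decide) vd12_150.down) <|
  Cov3.trans (cov_of_run3 ex_nil (by decide) vd12_157.down) <|
  Cov3.trans (cov_of_run3 ex_nil (by decide) vd12_164.down) <|
  Cov3.trans (cov_of_run3 ex_nil (by decide) vd12_171.down) <|
  Cov3.trans (cov_of_run3 ex_nil (by decide) vd12_178.down) <|
  Cov3.trans (cov_of_run3 ex_nil (by decide) vd12_185.down) <|
  Cov3.trans (cov_of_run3 ex_nil (by decide) vd12_191.down) <|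
  cov_of_run3 ex_nil (by decide) vd12_197.down

end Pool.Agent.Work.MP_f4b644_ag.Dag
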