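import Pool.Agent.Work.MP_f4b644_ag.Dag.TmS
import Pool.Agent.Work.MP_f4b644_ag.Dag.ExB
import Pool.Agent.Work.MP_f4b644_ag.Dag.Ve_1
import Pool.Agent.Work.MP_f4b644_ag.Dag.Ve_2

/-! All roots of some cross sections. -/

namespace Pool.Agent.Work.MP_f4b644_ag.Dag

theorem cove7_7 : Cov3 hiB 7 7 250 :=
  Cov3.trans (cov_of_run3 ex_nil (by decide) ve7_7.down) <|
  Cov3.trans (cov_of_run3 ex_nil (by decide) ve7_20.down) <|
  Cov3.trans (cov_of_run3 ex_nil (by decide) ve7_33.down) <|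
  Cov3.trans (cov_of_run3 ex_nil (by decide) ve7_45.down) <|
  Cov3.trans (cov_of_run3 ex_nil (by decide) ve7_57.down) <|
  Cov3.trans (cov_of_run3 ex_nil (by decide) ve7_68.down) <|
  Cov3.trans (cov_of_run3 ex_nil (by decide) ve7_79.down) <|
  Cov3.trans (cov_of_run3 ex_nil (by decide) ve7_90.down) <|
  Cov3.trans (cov_of_run3 ex_nil (by decide) ve7_100.down) <|
  Cov3.trans (cov_of_run3 ex_nil (by decide) ve7_110.down) <|
  Cov3.trans (cov_of_run3 ex_nil (by decide) ve7_120.down) <|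
  Cov3.trans (cov_of_run3 ex_nil (by decide) ve7_130.down) <|
  Cov3.trans (cov_of_run3 ex_nil (by decide) ve7_139.down) <|
  Cov3.trans (cov_of_run3 ex_nil (by decide) ve7_148.down) <|
  Cov3.trans (cov_of_run3 ex_nil (by decide) ve7_157.down) <|
  Cov3.trans (cov_of_run3 ex_nil (by decide) ve7_166.down) <|
  Cov3.trans (cov_of_run3 ex_nil (by decide) ve7_175.down) <|
  Cov3.trans (cov_of_run3 ex_nil (by decide) ve7_183.down) <|
  Cov3.trans (cov_of_run3 ex_nil (by decide) ve7_191.down) <|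
  Cov3.trans (cov_of_run3 ex_nil (by decide) ve7_199.down) <|
  Cov3.trans (cov_of_run3 ex_nil (by decide) ve7_207.down) <|
  Cov3.trans (cov_of_run3 ex_nil (by decide) ve7_215.down) <|
  Cov3.trans (cov_of_run3 ex_nil (by decide) ve7_223.down) <|
  Cov3.trans (cov_of_run3 ex_nil (by decide) ve7_231.down) <|
  Cov3.trans (cov_of_run3 ex_nil (by decide) ve7_239.down) <|
  cov_of_run3 ex_nil (by decide) ve7_246.down

end Pool.Agent.Work.MP_f4b644_ag.Dag
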