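import Pool.Agent.Work.MP_f4b644_ag.Dag.Need3
import Pool.Agent.Work.MP_f4b644_ag.Dag.Wa
import Pool.Agent.Work.MP_f4b644_ag.Dag.Wb
import Pool.Agent.Work.MP_f4b644_ag.Dag.Wc
import Pool.Agent.Work.MP_f4b644_ag.Dag.Wd
import Pool.Agent.Work.MP_f4b644_ag.Dag.We

/-!
All roots with `J < 100`.
-/

set_option autoImplicit false

namespace Pool.Agent.Work.MP_f4b644_ag.Dag

open Fin

theorem Cov3.mono {hi : ℕ → ℕ → ℕ} {I J0 J1 J2 : ℕ} (h : Cov3 hi I J0 J1) (h' : J2 ≤ J1) : Cov3 hi I J0 J2 :=
  fun J r h0 h1 => h J r h0 (by omega)

theorem cov_lt100 (I : ℕ) (h1 : 6 ≤ I) (h2 : I < 100) : Cov3 hiB I I 100 := by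
  interval_cases I
  · exact covd6_6.mono (by decide)
  · exact cove7_7.mono (by decide)
  · exact covd8_8.mono (by decide)
  · exact covd9_9.mono (by decide)
  · exact covd10_10.mono (by decide)
  · exact covd11_11.mono (by decide)
  · exact covd12_12.mono (by decide)
  · exact cova13_13
  · exact cova14_14
  · exact cova15_15
  · exact cova16_16
  · exact cova17_17
  · exact cova18_18
  · exact cova19_19
  · exact cova20_20
  · exact cova21_21
  · exact cova22_22
  · exact cova23_23
  · exact cova24_24
  · exact cova25_25
  · exact cova26_26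
  · exact cova27_27
  · exact cova28_28
  · exact cova29_29
  · exact cova30_30
  · exact cova31_31
  · exact cova32_32
  · exact cova33_33
  · exact cova34_34
  · exact cova35_35
  · exact cova36_36
  · exact cova37_37
  · exact cova38_38
  · exact cova39_39
  · exact cova40_40
  · exact covb41_41
  · exact covb42_42
  · exact covb43_43
  · exact covb44_44
  · exact covb45_45
  · exact covb46_46
  · exact covb47_47
  · exact covb48_48
  · exact covb49_49
  · exact covb50_50
  · exact covb51_51
  · exact covb52_52
  · exact covb53_53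
  · exact covb54_54
  · exact covb55_55
  · exact covb56_56
  · exact covb57_57
  · exact covb58_58
  · exact covb59_59
  · exact covb60_60
  · exact covb61_61
  · exact covb62_62
  · exact covb63_63
  · exact covb64_64
  · exact covb65_65
  · exact covc66_66
  · exact covc67_67
  · exact covc68_68
  · exact covc69_69
  · exact covc70_70
  · exact covc71_71
  · exact covc72_72
  · exact covc73_73
  · exact covc74_74
  · exact covc75_75
  · exact covc76_76
  · exact covc77_77
  · exact covc78_78
  · exact covc79_79
  · exact covc80_80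
  · exact covc81_81
  · exact covc82_82
  · exact covc83_83
  · exact covc84_84
  · exact covc85_85
  · exact covc86_86
  · exact covc87_87
  · exact covc88_88
  · exact covc89_89
  · exact covc90_90
  · exact covc91_91
  · exact covc92_92
  · exact covc93_93
  · exact covc94_94
  · exact covc95_95
  · exact covc96_96
  · exact covc97_97
  · exact covc98_98
  · exact covc99_99

theorem root_lt100 (I J r : ℕ) (h1 : 6 ≤ I) (h2 : I ≤ J) (h3 : J < 100) (h : Need I J r) : Root I J r :=
  (cov_lt100 I h1 (by omega)).need h1 h2 h2 h3 h

end Pool.Agent.Work.MP_f4b644_ag.Dag
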