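import Pool.Agent.Work.MP_f4b644_ag.Dag.TmS
import Pool.Agent.Work.MP_f4b644_ag.Dag.ExB
import Pool.Agent.Work.MP_f4b644_ag.Dag.Vf_1
import Pool.Agent.Work.MP_f4b644_ag.Dag.Vf_2
import Pool.Agent.Work.MP_f4b644_ag.Dag.Vf_3
import Pool.Agent.Work.MP_f4b644_ag.Dag.Vf_4
import Pool.Agent.Work.MP_f4b644_ag.Dag.Vf_5
import Pool.Agent.Work.MP_f4b644_ag.Dag.Vf_6
import Pool.Agent.Work.MP_f4b644_ag.Dag.Vf_7

/-! All roots of some cross sections. -/

namespace Pool.Agent.Work.MP_f4b644_ag.Dag

theorem covf7_250 : Cov3 hiB 7 250 600 :=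
  Cov3.trans (cov_of_run3 ex_nil (by decide) vf7_250.down) <|
  Cov3.trans (cov_of_run3 ex_nil (by decide) vf7_257.down) <|
  Cov3.trans (cov_of_run3 ex_nil (by decide) vf7_264.down) <|
  Cov3.trans (cov_of_run3 ex_nil (by decide) vf7_271.down) <|
  Cov3.trans (cov_of_run3 ex_nil (by decide) vf7_278.down) <|
  Cov3.trans (cov_of_run3 ex_nil (by decide) vf7_285.down) <|
  Cov3.trans (cov_of_run3 ex_nil (by decide) vf7_292.down) <|
  Cov3.trans (cov_of_run3 ex_nil (by decide) vf7_299.down) <|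
  Cov3.trans (cov_of_run3 ex_nil (by decide) vf7_306.down) <|
  Cov3.trans (cov_of_run3 ex_nil (by decide) vf7_313.down) <|
  Cov3.trans (cov_of_run3 ex_nil (by decide) vf7_320.down) <|
  Cov3.trans (cov_of_run3 ex_nil (by decide) vf7_326.down) <|
  Cov3.trans (cov_of_run3 ex_nil (by decide) vf7_332.down) <|
  Cov3.trans (cov_of_run3 ex_nil (by decide) vf7_338.down) <|
  Cov3.trans (cov_of_run3 ex_nil (by decide) vf7_344.down) <|
  Cov3.trans (cov_of_run3 ex_nil (by decide) vf7_350.down) <|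
  Cov3.trans (cov_of_run3 ex_nil (by decide) vf7_356.down) <|
  Cov3.trans (cov_of_run3 ex_nil (by decide) vf7_362.down) <|
  Cov3.trans (cov_of_run3 ex_nil (by decide) vf7_368.down) <|
  Cov3.trans (cov_of_run3 ex_nil (by decide) vf7_374.down) <|
  Cov3.trans (cov_of_run3 ex_nil (by decide) vf7_380.down) <|
  Cov3.trans (cov_of_run3 ex_nil (by decide) vf7_386.down) <|
  Cov3.trans (cov_of_run3 ex_nil (by decide) vf7_392.down) <|
  Cov3.trans (cov_of_run3 ex_nil (by decide) vf7_398.down) <|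
  Cov3.trans (cov_of_run3 ex_nil (by decide) vf7_404.down) <|
  Cov3.trans (cov_of_run3 ex_nil (by decide) vf7_410.down) <|
  Cov3.trans (cov_of_run3 ex_nil (by decide) vf7_416.down) <|
  Cov3.trans (cov_of_run3 ex_nil (by decide) vf7_422.down) <|
  Cov3.trans (cov_of_run3 ex_nil (by decide) vf7_428.down) <|
  Cov3.trans (cov_of_run3 ex_nil (by decide) vf7_434.down) <|
  Cov3.trans (cov_of_run3 ex_nil (by decide) vf7_440.down) <|
  Cov3.trans (cov_of_run3 ex_nil (by decide) vf7_445.down) <|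
  Cov3.trans (cov_of_run3 ex_nil (by decide) vf7_450.down) <|
  Cov3.trans (cov_of_run3 ex_nil (by decide) vf7_455.down) <|
  Cov3.trans (cov_of_run3 ex_nil (by decide) vf7_460.down) <|
  Cov3.trans (cov_of_run3 ex_nil (by decide) vf7_465.down) <|
  Cov3.trans (cov_of_run3 ex_nil (by decide) vf7_470.down) <|
  Cov3.trans (cov_of_run3 ex_nil (by decide) vf7_475.down) <|
  Cov3.trans (cov_of_run3 ex_nil (by decide) vf7_480.down) <|
  Cov3.trans (cov_of_run3 ex_nil (by decide) vf7_485.down) <|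
  Cov3.trans (cov_of_run3 ex_nil (by decide) vf7_490.down) <|
  Cov3.trans (cov_of_run3 ex_nil (by decide) vf7_495.down) <|
  Cov3.trans (cov_of_run3 ex_nil (by decide) vf7_500.down) <|
  Cov3.trans (cov_of_run3 ex_nil (by decide) vf7_505.down) <|
  Cov3.trans (cov_of_run3 ex_nil (by decide) vf7_510.down) <|
  Cov3.trans (cov_of_run3 ex_nil (by decide) vf7_515.down) <|
  Cov3.trans (cov_of_run3 ex_nil (by decide) vf7_520.down) <|
  Cov3.trans (cov_of_run3 ex_nil (by decide) vf7_525.down) <|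
  Cov3.trans (cov_of_run3 ex_nil (by decide) vf7_530.down) <|
  Cov3.trans (cov_of_run3 ex_nil (by decide) vf7_535.down) <|
  Cov3.trans (cov_of_run3 ex_nil (by decide) vf7_540.down) <|
  Cov3.trans (cov_of_run3 ex_nil (by decide) vf7_545.down) <|
  Cov3.trans (cov_of_run3 ex_nil (by decide) vf7_550.down) <|
  Cov3.trans (cov_of_run3 ex_nil (by decide) vf7_555.down) <|
  Cov3.trans (cov_of_run3 ex_nil (by decide) vf7_560.down) <|
  Cov3.trans (cov_of_run3 ex_nil (by decide) vf7_565.down) <|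
  Cov3.trans (cov_of_run3 ex_nil (by decide) vf7_570.down) <|
  Cov3.trans (cov_of_run3 ex_nil (by decide) vf7_575.down) <|
  Cov3.trans (cov_of_run3 ex_nil (by decide) vf7_580.down) <|
  Cov3.trans (cov_of_run3 ex_nil (by decide) vf7_585.down) <|
  Cov3.trans (cov_of_run3 ex_nil (by decide) vf7_590.down) <|
  cov_of_run3 ex_nil (by decide) vf7_595.down

theorem covf12_200 : Cov3 hiB 12 200 433 :=
  Cov3.trans (cov_of_run3 ex_nil (by decide) vf12_200.down) <|
  Cov3.trans (cov_of_run3 ex_nil (by decide) vf12_206.down) <|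
  Cov3.trans (cov_of_run3 ex_nil (by decide) vf12_212.down) <|
  Cov3.trans (cov_of_run3 ex_nil (by decide) vf12_218.down) <|
  Cov3.trans (cov_of_run3 ex_nil (by decide) vf12_224.down) <|
  Cov3.trans (cov_of_run3 ex_nil (by decide) vf12_230.down) <|
  Cov3.trans (cov_of_run3 ex_nil (by decide) vf12_236.down) <|
  Cov3.trans (cov_of_run3 ex_nil (by decide) vf12_242.down) <|
  Cov3.trans (cov_of_run3 ex_nil (by decide) vf12_248.down) <|
  Cov3.trans (cov_of_run3 ex_nil (by decide) vf12_254.down) <|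
  Cov3.trans (cov_of_run3 ex_nil (by decide) vf12_259.down) <|
  Cov3.trans (cov_of_run3 ex_nil (by decide) vf12_264.down) <|
  Cov3.trans (cov_of_run3 ex_nil (by decide) vf12_269.down) <|
  Cov3.trans (cov_of_run3 ex_nil (by decide) vf12_274.down) <|
  Cov3.trans (cov_of_run3 ex_nil (by decide) vf12_279.down) <|
  Cov3.trans (cov_of_run3 ex_nil (by decide) vf12_284.down) <|
  Cov3.trans (cov_of_run3 ex_nil (by decide) vf12_289.down) <|
  Cov3.trans (cov_of_run3 ex_nil (by decide) vf12_294.down) <|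
  Cov3.trans (cov_of_run3 ex_nil (by decide) vf12_299.down) <|
  Cov3.trans (cov_of_run3 ex_nil (by decide) vf12_304.down) <|
  Cov3.trans (cov_of_run3 ex_nil (by decide) vf12_309.down) <|
  Cov3.trans (cov_of_run3 ex_nil (by decide) vf12_314.down) <|
  Cov3.trans (cov_of_run3 ex_nil (by decide) vf12_319.down) <|
  Cov3.trans (cov_of_run3 ex_nil (by decide) vf12_324.down) <|
  Cov3.trans (cov_of_run3 ex_nil (by decide) vf12_329.down) <|
  Cov3.trans (cov_of_run3 ex_nil (by decide) vf12_334.down) <|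
  Cov3.trans (cov_of_run3 ex_nil (by decide) vf12_339.down) <|
  Cov3.trans (cov_of_run3 ex_nil (by decide) vf12_344.down) <|
  Cov3.trans (cov_of_run3 ex_nil (by decide) vf12_349.down) <|
  Cov3.trans (cov_of_run3 ex_nil (by decide) vf12_354.down) <|
  Cov3.trans (cov_of_run3 ex_nil (by decide) vf12_358.down) <|
  Cov3.trans (cov_of_run3 ex_nil (by decide) vf12_362.down) <|
  Cov3.trans (cov_of_run3 ex_nil (by decide) vf12_366.down) <|
  Cov3.trans (cov_of_run3 ex_nil (by decide) vf12_370.down) <|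
  Cov3.trans (cov_of_run3 ex_nil (by decide) vf12_374.down) <|
  Cov3.trans (cov_of_run3 ex_nil (by decide) vf12_378.down) <|
  Cov3.trans (cov_of_run3 ex_nil (by decide) vf12_382.down) <|
  Cov3.trans (cov_of_run3 ex_nil (by decide) vf12_386.down) <|
  Cov3.trans (cov_of_run3 ex_nil (by decide) vf12_390.down) <|
  Cov3.trans (cov_of_run3 ex_nil (by decide) vf12_394.down) <|
  Cov3.trans (cov_of_run3 ex_nil (by decide) vf12_398.down) <|
  Cov3.trans (cov_of_run3 ex_nil (by decide) vf12_402.down) <|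
  Cov3.trans (cov_of_run3 ex_nil (by decide) vf12_406.down) <|
  Cov3.trans (cov_of_run3 ex_nil (by decide) vf12_410.down) <|
  Cov3.trans (cov_of_run3 ex_nil (by decide) vf12_414.down) <|
  Cov3.trans (cov_of_run3 ex_nil (by decide) vf12_418.down) <|
  Cov3.trans (cov_of_run3 ex_nil (by decide) vf12_422.down) <|
  Cov3.trans (cov_of_run3 ex_nil (by decide) vf12_426.down) <|
  cov_of_run3 ex_nil (by decide) vf12_430.down

end Pool.Agent.Work.MP_f4b644_ag.Dag
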