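import Pool.Agent.Work.MP_f4b644_ag.Dag.TmS
import Pool.Agent.Work.MP_f4b644_ag.Dag.ExB
import Pool.Agent.Work.MP_f4b644_ag.Dag.Vg_1
import Pool.Agent.Work.MP_f4b644_ag.Dag.Vg_2
import Pool.Agent.Work.MP_f4b644_ag.Dag.Vg_3
import Pool.Agent.Work.MP_f4b644_ag.Dag.Vg_4
import Pool.Agent.Work.MP_f4b644_ag.Dag.Vg_5
import Pool.Agent.Work.MP_f4b644_ag.Dag.Vg_6
import Pool.Agent.Work.MP_f4b644_ag.Dag.Vg_7
import Pool.Agent.Work.MP_f4b644_ag.Dag.Vg_8

/-! All roots of some cross sections. -/

namespace Pool.Agent.Work.MP_f4b644_ag.Dag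

theorem covg13_100 : Cov3 hiB 13 100 150 :=
  Cov3.trans (cov_of_run3 ex_nil (by decide) vg13_100.down) <|
  Cov3.trans (cov_of_run3 ex_nil (by decide) vg13_108.down) <|
  Cov3.trans (cov_of_run3 ex_nil (by decide) vg13_116.down) <|
  Cov3.trans (cov_of_run3 ex_nil (by decide) vg13_124.down) <|
  Cov3.trans (cov_of_run3 ex_nil (by decide) vg13_132.down) <|
  Cov3.trans (cov_of_run3 ex_nil (by decide) vg13_139.down) <|
  cov_of_run3 ex_nil (by decide) vg13_146.down

theorem covg14_100 : Cov3 hiB 14 100 150 :=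
  Cov3.trans (cov_of_run3 ex_nil (by decide) vg14_100.down) <|
  Cov3.trans (cov_of_run3 ex_nil (by decide) vg14_108.down) <|
  Cov3.trans (cov_of_run3 ex_nil (by decide) vg14_116.down) <|
  Cov3.trans (cov_of_run3 ex_nil (by decide) vg14_124.down) <|
  Cov3.trans (cov_of_run3 ex_nil (by decide) vg14_131.down) <|
  Cov3.trans (cov_of_run3 ex_nil (by decide) vg14_138.down) <|
  cov_of_run3 ex_nil (by decide) vg14_145.down

theorem covg15_100 : Cov3 hiB 15 100 150 :=
  Cov3.trans (cov_of_run3 ex_nil (by decide) vg15_100.down) <|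
  Cov3.trans (cov_of_run3 ex_nil (by decide) vg15_108.down) <|
  Cov3.trans (cov_of_run3 ex_nil (by decide) vg15_116.down) <|
  Cov3.trans (cov_of_run3 ex_nil (by decide) vg15_123.down) <|
  Cov3.trans (cov_of_run3 ex_nil (by decide) vg15_130.down) <|
  Cov3.trans (cov_of_run3 ex_nil (by decide) vg15_137.down) <|
  cov_of_run3 ex_nil (by decide) vg15_144.down

theorem covg16_100 : Cov3 hiB 16 100 150 :=
  Cov3.trans (cov_of_run3 ex_nil (by decide) vg16_100.down) <|
  Cov3.trans (cov_of_run3 ex_nil (by decide) vg16_108.down) <|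
  Cov3.trans (cov_of_run3 ex_nil (by decide) vg16_115.down) <|
  Cov3.trans (cov_of_run3 ex_nil (by decide) vg16_122.down) <|
  Cov3.trans (cov_of_run3 ex_nil (by decide) vg16_129.down) <|
  Cov3.trans (cov_of_run3 ex_nil (by decide) vg16_136.down) <|
  Cov3.trans (cov_of_run3 ex_nil (by decide) vg16_143.down) <|
  cov_of_run3 ex_nil (by decide) vg16_149.down

theorem covg17_100 : Cov3 hiB 17 100 150 :=
  Cov3.trans (cov_of_run3 ex_nil (by decide) vg17_100.down) <|
  Cov3.trans (cov_of_run3 ex_nil (by decide) vg17_107.down) <|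
  Cov3.trans (cov_of_run3 ex_nil (by decide) vg17_114.down) <|
  Cov3.trans (cov_of_run3 ex_nil (by decide) vg17_121.down) <|
  Cov3.trans (cov_of_run3 ex_nil (by decide) vg17_128.down) <|
  Cov3.trans (cov_of_run3 ex_nil (by decide) vg17_135.down) <|
  Cov3.trans (cov_of_run3 ex_nil (by decide) vg17_141.down) <|
  cov_of_run3 ex_nil (by decide) vg17_147.down

theorem covg18_100 : Cov3 hiB 18 100 150 :=
  Cov3.trans (cov_of_run3 ex_nil (by decide) vg18_100.down) <|
  Cov3.trans (cov_of_run3 ex_nil (by decide) vg18_107.down) <|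
  Cov3.trans (cov_of_run3 ex_nil (by decide) vg18_114.down) <|
  Cov3.trans (cov_of_run3 ex_nil (by decide) vg18_121.down) <|
  Cov3.trans (cov_of_run3 ex_nil (by decide) vg18_128.down) <|
  Cov3.trans (cov_of_run3 ex_nil (by decide) vg18_134.down) <|
  Cov3.trans (cov_of_run3 ex_nil (by decide) vg18_140.down) <|
  cov_of_run3 ex_nil (by decide) vg18_146.down

theorem covg19_100 : Cov3 hiB 19 100 150 :=
  Cov3.trans (cov_of_run3 ex_nil (by decide) vg19_100.down) <|
  Cov3.trans (cov_of_run3 ex_nil (by decide) vg19_107.down) <|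
  Cov3.trans (cov_of_run3 ex_nil (by decide) vg19_114.down) <|
  Cov3.trans (cov_of_run3 ex_nil (by decide) vg19_121.down) <|
  Cov3.trans (cov_of_run3 ex_nil (by decide) vg19_128.down) <|
  Cov3.trans (cov_of_run3 ex_nil (by decide) vg19_134.down) <|
  Cov3.trans (cov_of_run3 ex_nil (by decide) vg19_140.down) <|
  cov_of_run3 ex_nil (by decide) vg19_146.down

theorem covg20_100 : Cov3 hiB 20 100 150 :=
  Cov3.trans (cov_of_run3 ex_nil (by decide) vg20_100.down) <|
  Cov3.trans (cov_of_run3 ex_nil (by decide) vg20_107.down) <|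
  Cov3.trans (cov_of_run3 ex_nil (by decide) vg20_114.down) <|
  Cov3.trans (cov_of_run3 ex_nil (by decide) vg20_121.down) <|
  Cov3.trans (cov_of_run3 ex_nil (by decide) vg20_127.down) <|
  Cov3.trans (cov_of_run3 ex_nil (by decide) vg20_133.down) <|
  Cov3.trans (cov_of_run3 ex_nil (by decide) vg20_139.down) <|
  cov_of_run3 ex_nil (by decide) vg20_145.down

theorem covg21_100 : Cov3 hiB 21 100 150 :=
  Cov3.trans (cov_of_run3 ex_nil (by decide) vg21_100.down) <|
  Cov3.trans (cov_of_run3 ex_nil (by decide) vg21_107.down) <|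
  Cov3.trans (cov_of_run3 ex_nil (by decide) vg21_114.down) <|
  Cov3.trans (cov_of_run3 ex_nil (by decide) vg21_120.down) <|
  Cov3.trans (cov_of_run3 ex_nil (by decide) vg21_126.down) <|
  Cov3.trans (cov_of_run3 ex_nil (by decide) vg21_132.down) <|
  Cov3.trans (cov_of_run3 ex_nil (by decide) vg21_138.down) <|
  cov_of_run3 ex_nil (by decide) vg21_144.down

theorem covg22_100 : Cov3 hiB 22 100 150 :=
  Cov3.trans (cov_of_run3 ex_nil (by decide) vg22_100.down) <|
  Cov3.trans (cov_of_run3 ex_nil (by decide) vg22_107.down) <|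
  Cov3.trans (cov_of_run3 ex_nil (by decide) vg22_114.down) <|
  Cov3.trans (cov_of_run3 ex_nil (by decide) vg22_120.down) <|
  Cov3.trans (cov_of_run3 ex_nil (by decide) vg22_126.down) <|
  Cov3.trans (cov_of_run3 ex_nil (by decide) vg22_132.down) <|
  Cov3.trans (cov_of_run3 ex_nil (by decide) vg22_138.down) <|
  cov_of_run3 ex_nil (by decide) vg22_144.down

theorem covg23_100 : Cov3 hiB 23 100 150 :=
  Cov3.trans (cov_of_run3 ex_nil (by decide) vg23_100.down) <|
  Cov3.trans (cov_of_run3 ex_nil (by decide) vg23_107.down) <|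
  Cov3.trans (cov_of_run3 ex_nil (by decide) vg23_113.down) <|
  Cov3.trans (cov_of_run3 ex_nil (by decide) vg23_119.down) <|
  Cov3.trans (cov_of_run3 ex_nil (by decide) vg23_125.down) <|
  Cov3.trans (cov_of_run3 ex_nil (by decide) vg23_131.down) <|
  Cov3.trans (cov_of_run3 ex_nil (by decide) vg23_137.down) <|
  Cov3.trans (cov_of_run3 ex_nil (by decide) vg23_143.down) <|
  cov_of_run3 ex_nil (by decide) vg23_149.down

theorem covg24_100 : Cov3 hiB 24 100 150 :=
  Cov3.trans (cov_of_run3 ex_nil (by decide) vg24_100.down) <|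
  Cov3.trans (cov_of_run3 ex_nil (by decide) vg24_106.down) <|
  Cov3.trans (cov_of_run3 ex_nil (by decide) vg24_112.down) <|
  Cov3.trans (cov_of_run3 ex_nil (by decide) vg24_118.down) <|
  Cov3.trans (cov_of_run3 ex_nil (by decide) vg24_124.down) <|
  Cov3.trans (cov_of_run3 ex_nil (by decide) vg24_130.down) <|
  Cov3.trans (cov_of_run3 ex_nil (by decide) vg24_136.down) <|
  Cov3.trans (cov_of_run3 ex_nil (by decide) vg24_142.down) <|
  cov_of_run3 ex_nil (by decide) vg24_147.down

theorem covg25_100 : Cov3 hiB 25 100 150 :=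
  Cov3.trans (cov_of_run3 ex_nil (by decide) vg25_100.down) <|
  Cov3.trans (cov_of_run3 ex_nil (by decide) vg25_106.down) <|
  Cov3.trans (cov_of_run3 ex_nil (by decide) vg25_112.down) <|
  Cov3.trans (cov_of_run3 ex_nil (by decide) vg25_118.down) <|
  Cov3.trans (cov_of_run3 ex_nil (by decide) vg25_124.down) <|
  Cov3.trans (cov_of_run3 ex_nil (by decide) vg25_130.down) <|
  Cov3.trans (cov_of_run3 ex_nil (by decide) vg25_136.down) <|
  Cov3.trans (cov_of_run3 ex_nil (by decide) vg25_141.down) <|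
  cov_of_run3 ex_nil (by decide) vg25_146.down

theorem covg26_100 : Cov3 hiB 26 100 150 :=
  Cov3.trans (cov_of_run3 ex_nil (by decide) vg26_100.down) <|
  Cov3.trans (cov_of_run3 ex_nil (by decide) vg26_106.down) <|
  Cov3.trans (cov_of_run3 ex_nil (by decide) vg26_112.down) <|
  Cov3.trans (cov_of_run3 ex_nil (by decide) vg26_118.down) <|
  Cov3.trans (cov_of_run3 ex_nil (by decide) vg26_124.down) <|
  Cov3.trans (cov_of_run3 ex_nil (by decide) vg26_130.down) <|
  Cov3.trans (cov_of_run3 ex_nil (by decide) vg26_136.down) <|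
  Cov3.trans (cov_of_run3 ex_nil (by decide) vg26_141.down) <|
  cov_of_run3 ex_nil (by decide) vg26_146.down

theorem covg27_100 : Cov3 hiB 27 100 150 :=
  Cov3.trans (cov_of_run3 ex_nil (by decide) vg27_100.down) <|
  Cov3.trans (cov_of_run3 ex_nil (by decide) vg27_106.down) <|
  Cov3.trans (cov_of_run3 ex_nil (by decide) vg27_112.down) <|
  Cov3.trans (cov_of_run3 ex_nil (by decide) vg27_118.down) <|
  Cov3.trans (cov_of_run3 ex_nil (by decide) vg27_124.down) <|
  Cov3.trans (cov_of_run3 ex_nil (by decide) vg27_130.down) <|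
  Cov3.trans (cov_of_run3 ex_nil (by decide) vg27_135.down) <|
  Cov3.trans (cov_of_run3 ex_nil (by decide) vg27_140.down) <|
  cov_of_run3 ex_nil (by decide) vg27_145.down

theorem covg28_100 : Cov3 hiB 28 100 150 :=
  Cov3.trans (cov_of_run3 ex_nil (by decide) vg28_100.down) <|
  Cov3.trans (cov_of_run3 ex_nil (by decide) vg28_106.down) <|
  Cov3.trans (cov_of_run3 ex_nil (by decide) vg28_112.down) <|
  Cov3.trans (cov_of_run3 ex_nil (by decide) vg28_118.down) <|
  Cov3.trans (cov_of_run3 ex_nil (by decide) vg28_124.down) <|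
  Cov3.trans (cov_of_run3 ex_nil (by decide) vg28_129.down) <|
  Cov3.trans (cov_of_run3 ex_nil (by decide) vg28_134.down) <|
  Cov3.trans (cov_of_run3 ex_nil (by decide) vg28_139.down) <|
  Cov3.trans (cov_of_run3 ex_nil (by decide) vg28_144.down) <|
  cov_of_run3 ex_nil (by decide) vg28_149.down

theorem covg29_100 : Cov3 hiB 29 100 150 :=
  Cov3.trans (cov_of_run3 ex_nil (by decide) vg29_100.down) <|
  Cov3.trans (cov_of_run3 ex_nil (by decide) vg29_106.down) <|
  Cov3.trans (cov_of_run3 ex_nil (by decide) vg29_112.down) <|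
  Cov3.trans (cov_of_run3 ex_nil (by decide) vg29_118.down) <|
  Cov3.trans (cov_of_run3 ex_nil (by decide) vg29_124.down) <|
  Cov3.trans (cov_of_run3 ex_nil (by decide) vg29_129.down) <|
  Cov3.trans (cov_of_run3 ex_nil (by decide) vg29_134.down) <|
  Cov3.trans (cov_of_run3 ex_nil (by decide) vg29_139.down) <|
  Cov3.trans (cov_of_run3 ex_nil (by decide) vg29_144.down) <|
  cov_of_run3 ex_nil (by decide) vg29_149.down

end Pool.Agent.Work.MP_f4b644_ag.Dag
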