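import Pool.Agent.Work.MP_f4b644_ag.Dag.TmS
import Pool.Agent.Work.MP_f4b644_ag.Dag.ExB
import Pool.Agent.Work.MP_f4b644_ag.Dag.Vh_1
import Pool.Agent.Work.MP_f4b644_ag.Dag.Vh_2
import Pool.Agent.Work.MP_f4b644_ag.Dag.Vh_3
import Pool.Agent.Work.MP_f4b644_ag.Dag.Vh_4

/-! All roots of some cross sections. -/

namespace Pool.Agent.Work.MP_f4b644_ag.Dag

theorem covh9_200 : Cov3 hiB 9 200 244 :=
  Cov3.trans (cov_of_run3 ex_nil (by decide) vh9_200.down) <|
  Cov3.trans (cov_of_run3 ex_nil (by decide) vh9_207.down) <|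
  Cov3.trans (cov_of_run3 ex_nil (by decide) vh9_214.down) <|
  Cov3.trans (cov_of_run3 ex_nil (by decide) vh9_221.down) <|
  Cov3.trans (cov_of_run3 ex_nil (by decide) vh9_228.down) <|
  Cov3.trans (cov_of_run3 ex_nil (by decide) vh9_235.down) <|
  cov_of_run3 ex_nil (by decide) vh9_242.down

theorem covh10_200 : Cov3 hiB 10 200 301 :=
  Cov3.trans (cov_of_run3 ex_nil (by decide) vh10_200.down) <|
  Cov3.trans (cov_of_run3 ex_nil (by decide) vh10_207.down) <|
  Cov3.trans (cov_of_run3 ex_nil (by decide) vh10_214.down) <|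
  Cov3.trans (cov_of_run3 ex_nil (by decide) vh10_221.down) <|
  Cov3.trans (cov_of_run3 ex_nil (by decide) vh10_227.down) <|
  Cov3.trans (cov_of_run3 ex_nil (by decide) vh10_233.down) <|
  Cov3.trans (cov_of_run3 ex_nil (by decide) vh10_239.down) <|
  Cov3.trans (cov_of_run3 ex_nil (by decide) vh10_245.down) <|
  Cov3.trans (cov_of_run3 ex_nil (by decide) vh10_251.down) <|
  Cov3.trans (cov_of_run3 ex_nil (by decide) vh10_257.down) <|
  Cov3.trans (cov_of_run3 ex_nil (by decide) vh10_263.down) <|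
  Cov3.trans (cov_of_run3 ex_nil (by decide) vh10_269.down) <|
  Cov3.trans (cov_of_run3 ex_nil (by decide) vh10_275.down) <|
  Cov3.trans (cov_of_run3 ex_nil (by decide) vh10_281.down) <|
  Cov3.trans (cov_of_run3 ex_nil (by decide) vh10_287.down) <|
  Cov3.trans (cov_of_run3 ex_nil (by decide) vh10_293.down) <|
  cov_of_run3 ex_nil (by decide) vh10_299.down

theorem covh11_200 : Cov3 hiB 11 200 364 :=
  Cov3.trans (cov_of_run3 ex_nil (by decide) vh11_200.down) <|
  Cov3.trans (cov_of_run3 ex_nil (by decide) vh11_206.down) <|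
  Cov3.trans (cov_of_run3 ex_nil (by decide) vh11_212.down) <|
  Cov3.trans (cov_of_run3 ex_nil (by decide) vh11_218.down) <|
  Cov3.trans (cov_of_run3 ex_nil (by decide) vh11_224.down) <|
  Cov3.trans (cov_of_run3 ex_nil (by decide) vh11_230.down) <|
  Cov3.trans (cov_of_run3 ex_nil (by decide) vh11_236.down) <|
  Cov3.trans (cov_of_run3 ex_nil (by decide) vh11_242.down) <|
  Cov3.trans (cov_of_run3 ex_nil (by decide) vh11_248.down) <|
  Cov3.trans (cov_of_run3 ex_nil (by decide) vh11_254.down) <|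
  Cov3.trans (cov_of_run3 ex_nil (by decide) vh11_260.down) <|
  Cov3.trans (cov_of_run3 ex_nil (by decide) vh11_266.down) <|
  Cov3.trans (cov_of_run3 ex_nil (by decide) vh11_272.down) <|
  Cov3.trans (cov_of_run3 ex_nil (by decide) vh11_278.down) <|
  Cov3.trans (cov_of_run3 ex_nil (by decide) vh11_283.down) <|
  Cov3.trans (cov_of_run3 ex_nil (by decide) vh11_288.down) <|
  Cov3.trans (cov_of_run3 ex_nil (by decide) vh11_293.down) <|
  Cov3.trans (cov_of_run3 ex_nil (by decide) vh11_298.down) <|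
  Cov3.trans (cov_of_run3 ex_nil (by decide) vh11_303.down) <|
  Cov3.trans (cov_of_run3 ex_nil (by decide) vh11_308.down) <|
  Cov3.trans (cov_of_run3 ex_nil (by decide) vh11_313.down) <|
  Cov3.trans (cov_of_run3 ex_nil (by decide) vh11_318.down) <|
  Cov3.trans (cov_of_run3 ex_nil (by decide) vh11_323.down) <|
  Cov3.trans (cov_of_run3 ex_nil (by decide) vh11_328.down) <|
  Cov3.trans (cov_of_run3 ex_nil (by decide) vh11_333.down) <|
  Cov3.trans (cov_of_run3 ex_nil (by decide) vh11_338.down) <|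
  Cov3.trans (cov_of_run3 ex_nil (by decide) vh11_343.down) <|
  Cov3.trans (cov_of_run3 ex_nil (by decide) vh11_348.down) <|
  Cov3.trans (cov_of_run3 ex_nil (by decide) vh11_353.down) <|
  Cov3.trans (cov_of_run3 ex_nil (by decide) vh11_358.down) <|
  cov_of_run3 ex_nil (by decide) vh11_363.down

end Pool.Agent.Work.MP_f4b644_ag.Dag
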