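import Pool.Agent.Work.MP_f4b644_ag.Dag.All
import Pool.Agent.Work.MP_f4b644_ag.Dag.Wf
import Pool.Agent.Work.MP_f4b644_ag.Dag.Wg
import Pool.Agent.Work.MP_f4b644_ag.Dag.Wh

/-!
All roots of the finite part with `J < 100` or `I ≤ 29`.
-/

set_option autoImplicit false

namespace Pool.Agent.Work.MP_f4b644_ag.Dag

open Fin

theorem cov_lt150 (I : ℕ) (h1 : 13 ≤ I) (h2 : I ≤ 29) : Cov3 hiB I 100 150 := by
  interval_cases I
  · exact covg13_100
  · exact covg14_100
  · exact covg15_100
  · exact covg16_100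
  · exact covg17_100
  · exact covg18_100
  · exact covg19_100
  · exact covg20_100
  · exact covg21_100
  · exact covg22_100
  · exact covg23_100
  · exact covg24_100
  · exact covg25_100
  · exact covg26_100
  · exact covg27_100
  · exact covg28_100
  · exact covg29_100

theorem root_dag (I J r : ℕ) (h1 : 6 ≤ I) (h2 : I ≤ J) (h : Need I J r)
    (H : J < 100 ∨ (I = 6 ∧ J < 320) ∨ (I = 7 ∧ J < 600) ∨ (8 ≤ I ∧ I ≤ 12 ∧ J ≤ 3 * I ^ 2) ∨
      (I ≤ 29 ∧ J < 150)) : Root I J r := by
  rcases Nat.lt_or_ge J 100 with h3 | h3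
  · exact root_lt100 I J r h1 h2 h3 h
  rcases Nat.lt_or_ge 12 I with h4 | h4
  · exact (cov_lt150 I h4 (by omega)).need h1 h2 h3 (by omega) h
  interval_cases I
  · exact covd6_6.need h1 h2 h2 (by omega) h
  · exact (cove7_7.trans covf7_250).need h1 h2 h2 (by omega) h
  · exact covd8_8.need h1 h2 h2 (by omega) h
  · exact (covd9_9.trans covh9_200).need h1 h2 h2 (by omega) h
  · exact (covd10_10.trans covh10_200).need h1 h2 h2 (by omega) h
  · exact (covd11_11.trans covh11_200).need h1 h2 h2 (by omega) h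
  · exact (covd12_12.trans covf12_200).need h1 h2 h2 (by omega) h

end Pool.Agent.Work.MP_f4b644_ag.Dag
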