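import Pool.Agent.Lib.KLA.Defs

/-!
A checker for proof trees of the finite rest. A proof tree is one natural number `d`, read digit by digit in
mixed radix. A plain state is `I j k s b f` (format, tangents, B-fibres, C-fibres). A check returns `0` on
failure and the unread rest of `d` plus one on success. Written with recursors for kernel evaluation.
-/

namespace Pool.Agent.Work.MP_f4b644_ag.Dag

open Pool.Agent.Lib.KLA

noncomputable section

/-- the type of a check of plain states -/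
abbrev Ck : Type := Nat → Nat → Nat → Nat → Nat → Nat → Nat → Nat

/-- result of a leaf -/
def ok (c : Bool) (d : Nat) : Nat := Bool.rec (motive := fun _ => Nat) 0 (Nat.add d 1) c

/-- guard -/
def grd (c : Bool) (x : Nat) : Nat := Bool.rec (motive := fun _ => Nat) 0 x c

/-- sequencing -/
def thn (x : Nat) (g : Nat → Nat) : Nat := Nat.rec (motive := fun _ => Nat) 0 (fun d _ => g d) x

/-- disjunction -/
def bor (a b : Bool) : Bool := Bool.rec (motive := fun _ => Bool) b true a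

/-- minimum -/
def mn (a b : Nat) : Nat := Nat.sub a (Nat.sub a b)

/-- the condition for a state without tangents -/
def pure0 (I j k R C : Nat) : Bool :=
  bnd (bnd (Nat.ble j R) (Nat.ble k C))
    (Nat.ble (Nat.mul (Nat.mul I j) k) (Nat.add (Nat.mul C j) (Nat.mul R k)))

def rFull : Ck := fun I _ k s b _ d => ok (Nat.ble (Nat.mul I k) (Nat.add s b)) d

def rPure : Ck := fun I j k s b f d =>
  strict (Nat.mod d (Nat.add s 1)) fun t =>
    ok (pure0 I j k (Nat.add f t) (Nat.sub (Nat.add b s) t)) (Nat.div d (Nat.add s 1))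

def rCol : Ck := fun I j k s b f d =>
  strict (Nat.add s f) fun R =>
    ok (bnd (bnd (Nat.ble 2 I)
      (Nat.ble (Nat.add (Nat.mul I j) 2) (Nat.add (Nat.add R I) j))) (pure0 I j (Nat.sub k s) R b)) d

/-- the exceptional states for `I = 3` -/
def exc (j X k T : Nat) : Bool :=
  bor (bnd (bnd (Nat.beq (Nat.mul 2 X) (Nat.add j 1)) (Nat.beq k (Nat.add (Nat.mul 2 T) 1)))
      (bnd (Nat.ble 3 j) (Nat.ble 3 k)))
    (bor (bnd (bnd (Nat.beq (Nat.add (Nat.mul 2 X) 1) j) (Nat.beq k (Nat.add j 1)))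
        (bnd (Nat.beq (Nat.add T 1) X) (bnd (Nat.ble 5 j) (Nat.beq (Nat.mod j 4) 1))))
      (bnd (bnd (Nat.beq (Nat.add k 1) (Nat.mul 2 T)) (Nat.beq j (Nat.add k 1)))
        (bnd (Nat.beq X (Nat.add T 2)) (bnd (Nat.ble 5 k) (Nat.beq (Nat.mod k 4) 1)))))

def rThm : Ck := fun I j k s b f d =>
  strict (Nat.add (Nat.sub (Nat.mul 2 j) (Nat.add s f)) (Nat.mod d 2)) fun X =>
  strict (Nat.sub (mn (Nat.sub (Nat.add s b) k) k) (Nat.mod (Nat.div d 2) 2)) fun T =>
    ok (bnd (bnd (bnd (Nat.beq I 3) (Nat.ble k (Nat.add s b)))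
        (bnd (Nat.ble X j) (Nat.ble (Nat.mul k X) (Nat.add (Nat.mul j T) s))))
      (bnd (bnd (Nat.ble (Nat.add s X) (Nat.mul 2 j)) (Nat.ble s (Nat.add k T)))
        (cnd (exc j X k T) false true))) (Nat.div d 4)

/-- the corner condition of the grid leaf -/
def cor (s e X Y w y : Nat) : Bool :=
  strict (cnd (Nat.beq w 0) 0 (mn s (Nat.sub X 1))) fun A =>
  strict (mn (Nat.add s e) (Nat.sub Y 1)) fun B =>
    bnd (bnd (bor (Nat.beq A 0) (Nat.ble (Nat.add w 1) Y)) (bor (Nat.beq B 0) (Nat.ble (Nat.add y 1) X)))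
      (Nat.ble (Nat.add (Nat.mul A (Nat.add (Nat.add B w) 1)) (Nat.mul B (Nat.add y 1)))
        (Nat.add (Nat.mul A Y) (Nat.mul B X)))

def rGrid : Ck := fun I j k s b f d =>
  strict (Nat.add (Nat.mod d (Nat.sub I 3)) 1) fun y =>
  strict (Nat.sub (Nat.sub I 3) y) fun w =>
  strict (Nat.add s f) fun R =>
  strict (Nat.add s b) fun C =>
    ok (bnd (bnd (bnd (Nat.ble 4 I) (Nat.ble s j)) (bnd (Nat.ble s k)
        (Nat.ble (Nat.mul (Nat.mul I j) k)
          (Nat.add (Nat.mul s (Nat.sub I 2)) (Nat.add (Nat.mul C j) (Nat.mul R k))))))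
      (bnd (bnd (Nat.ble (Nat.mul (Nat.add w 1) k) C) (Nat.ble (Nat.mul (Nat.add y 1) j) R))
        (cor s 0 (Nat.sub (Nat.mul (Nat.add y 2) j) R) (Nat.sub (Nat.mul (Nat.add w 2) k) C) w y)))
      (Nat.div d (Nat.sub I 3))

/-- one strip of height `h` and excess `x` with `s` tangents; the other strip has `s'` tangents and
excess `x'` -/
def strip (I k b h x s x' s' : Nat) : Bool :=
  strict (Nat.sub (Nat.sub I 2) x) fun y =>
  strict (Nat.sub (Nat.sub I 3) (Nat.div (Nat.sub x 1) h)) fun R =>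
    bnd (bnd (bnd (Nat.ble 1 R) (Nat.ble s k))
        (bnd (Nat.ble (Nat.mul s y) (Nat.mul R h)) (bor (Nat.ble (Nat.add y 1) R) (Nat.ble s h))))
      (bnd (Nat.ble (Nat.add (Nat.mul s (Nat.add y 1)) (Nat.add x h)) (Nat.mul I h))
        (Nat.ble (Nat.mul (Nat.sub k s) (Nat.add h x))
          (Nat.add (Nat.mul h (Nat.add s' b)) (Nat.mul s' (mn (Nat.sub (Nat.sub I 2) x') x)))))

def rStrip : Ck := fun I j k s b f d =>
  strict (Nat.sub I 2) fun m =>
  strict (Nat.mod d j) fun h =>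
  strict (Nat.div d j) fun d =>
  strict (Nat.add (Nat.mod d m) 1) fun x =>
  strict (Nat.div d m) fun d =>
  strict (Nat.add (Nat.mod d m) 1) fun x' =>
  strict (Nat.div d m) fun d =>
  strict (Nat.mod d (Nat.add s 1)) fun s1 =>
  strict (Nat.sub s s1) fun s2 =>
    ok (bnd (Nat.ble (Nat.mul I j) (Nat.add (Nat.add (Nat.add s f) j) (Nat.add x x')))
      (bnd (strip I k b h x s1 x' s2) (strip I k b (Nat.sub j h) x' s2 x s1))) (Nat.div d (Nat.add s 1))

def rLev (ih : Ck) : Ck := fun I j k s b f d =>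
  strict (Nat.mod (Nat.div d 2) I) fun e =>
  strict (Nat.mul e (Nat.sub j (Nat.sub (Nat.div s k) (Nat.mod d 2)))) fun t =>
    grd (Nat.ble t f) (strict (Nat.sub I e) fun I' => strict (Nat.sub f t) fun f' =>
      ih I' j k s b f' (Nat.div (Nat.div d 2) I))

def rCut (ih : Ck) : Ck := fun I j k s b f d =>
  strict (Nat.mod d (Nat.add j 1)) fun j1 =>
  strict (Nat.div d (Nat.add j 1)) fun d =>
  strict (Nat.add (Nat.div j j1) 1) fun q =>
  strict (Nat.mod d q) fun c =>
  strict (Nat.div d q) fun d =>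
  strict (Nat.add (Nat.div s c) 1) fun q =>
  strict (Nat.mod d q) fun s1 =>
  strict (Nat.div d q) fun d =>
  strict (Nat.add (Nat.div f c) 1) fun q =>
  strict (Nat.mod d q) fun f1 =>
  strict (Nat.sub (Nat.add s b) s1) fun b1 =>
    thn (ih I j1 k s1 b1 f1 (Nat.div d q)) fun g =>
      strict (Nat.mul c s1) fun t =>
      strict (Nat.sub j (Nat.mul c j1)) fun j2 =>
      strict (Nat.sub s t) fun s2 =>
      strict (Nat.add b t) fun b2 =>
      strict (Nat.sub f (Nat.mul c f1)) fun f2 => ih I j2 k s2 b2 f2 g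

/-- choice of the rule -/
def sel (ih : Ck) (t : Nat) : Ck :=
  cnd (Nat.ble 12 t) (cnd (Nat.ble 14 t) (rCut ih) (rLev ih))
    (cnd (Nat.ble 8 t) (cnd (Nat.ble 10 t) rStrip rGrid)
      (cnd (Nat.ble 4 t) (cnd (Nat.ble 6 t) rThm rCol) (cnd (Nat.ble 2 t) rPure rFull)))

def step (ih : Ck) : Ck := fun I j k s b f d =>
  strict (Nat.land d 15) fun t =>
  strict (Nat.shiftRight d 4) fun d =>
    cnd (Nat.beq (Nat.land t 1) 0) (sel ih t I j k s b f d) (sel ih t I k j s f b d)

/-- the check of plain states -/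
def chk (n : Nat) : Ck :=
  Nat.rec (motive := fun _ => Ck) (fun _ _ _ _ _ _ _ => 0) (fun _ ih => step ih) n

/-- the type of a check of states `I j k s u b e G f` (see `Thin.BS`) -/
abbrev CkV : Type := Nat → Nat → Nat → Nat → Nat → Nat → Nat → Nat → Nat → Nat → Nat

def vPlain : CkV := fun I j k s u b e G f d =>
  strict (Nat.add s u) fun s' => strict (Nat.add b e) fun b' => strict (Nat.add f G) fun f' =>
    chk 40 I j k s' b' f' d

def vGrid : CkV := fun I j k s u b e G f d =>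
  strict (Nat.add (Nat.mod d (Nat.sub I 3)) 1) fun y =>
  strict (Nat.sub (Nat.sub I 3) y) fun w =>
  strict (Nat.add s u) fun s' =>
  strict (Nat.add (Nat.add s' u) (Nat.add (Nat.mul 2 G) f)) fun R =>
  strict (Nat.add (Nat.add s' e) b) fun C =>
    ok (bnd (bnd (bnd (Nat.ble 4 I) (Nat.ble (Nat.add s' G) j)) (bnd (Nat.ble (Nat.add s' e) k)
        (Nat.ble (Nat.add (Nat.mul (Nat.mul I j) k) u)
          (Nat.add (Nat.add (Nat.mul s' (Nat.sub I 2)) e) (Nat.add (Nat.mul C j) (Nat.mul R k))))))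
      (bnd (bnd (Nat.ble (Nat.mul (Nat.add w 1) k) C) (Nat.ble (Nat.mul (Nat.add y 1) j) R))
        (cor s' e (Nat.sub (Nat.mul (Nat.add y 2) j) R) (Nat.sub (Nat.mul (Nat.add w 2) k) C) w y)))
      (Nat.div d (Nat.sub I 3))

def vSink : CkV := fun I j k _ _ b e G f d =>
  strict (Nat.add (Nat.mul 2 G) f) fun R =>
  strict (Nat.add b e) fun C =>
    ok (bnd (bnd (bnd (Nat.ble 4 I) (Nat.ble 1 j)) (bnd (Nat.ble G j) (Nat.ble (Nat.mul 2 j) R)))
      (bnd (Nat.ble k C) (Nat.ble (Nat.mul k (Nat.sub (Nat.mul (Nat.sub I 1) j) R))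
        (Nat.add (Nat.mul j (Nat.sub C k)) e)))) d

def vLev (ih : CkV) : CkV := fun I j k s u b e G f d =>
  strict (Nat.mod (Nat.div d 2) I) fun n =>
  strict (Nat.mul n (Nat.sub j (Nat.sub (Nat.div (Nat.add s u) k) (Nat.mod d 2)))) fun t =>
    grd (Nat.ble t f) (strict (Nat.sub I n) fun I' => strict (Nat.sub f t) fun f' =>
      ih I' j k s u b e G f' (Nat.div (Nat.div d 2) I))

def vLevB (ih : CkV) : CkV := fun I j k s u b e G f d =>
  strict (Nat.mod (Nat.div d 2) I) fun n =>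
  strict (Nat.mul n (Nat.sub k (Nat.sub (Nat.div (Nat.add s u) j) (Nat.mod d 2)))) fun t =>
    grd (Nat.ble t b) (strict (Nat.sub I n) fun I' => strict (Nat.sub b t) fun b' =>
      ih I' j k s u b' e G f (Nat.div (Nat.div d 2) I))

def vLev1 (ih : CkV) : CkV := fun I j k s u b e G f d =>
  strict (Nat.sub j (Nat.add (Nat.add u G) (Nat.sub (Nat.div s k) (Nat.mod d 2)))) fun t =>
    grd (bnd (Nat.ble t f) (Nat.ble 1 I)) (strict (Nat.sub I 1) fun I' => strict (Nat.add s u) fun s' =>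
      strict (Nat.add (Nat.sub f t) G) fun f' => ih I' j k s' 0 b e 0 f' (Nat.div d 2))

def vCutB (ih : CkV) : CkV := fun I j k s u b e G f d =>
  strict (Nat.mod d (Nat.add j 1)) fun j1 =>
  strict (Nat.div d (Nat.add j 1)) fun d =>
  strict (Nat.add (Nat.div j j1) 1) fun q =>
  strict (Nat.mod d q) fun c =>
  strict (Nat.div d q) fun d =>
  strict (Nat.add (Nat.div s c) 1) fun q =>
  strict (Nat.mod d q) fun s1 =>
  strict (Nat.div d q) fun d =>
  strict (Nat.add (Nat.div f c) 1) fun q =>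
  strict (Nat.mod d q) fun f1 =>
  strict (Nat.sub (Nat.add (Nat.add s u) (Nat.add b e)) s1) fun b1 =>
    thn (chk 40 I j1 k s1 b1 f1 (Nat.div d q)) fun d =>
      strict (Nat.mul c s1) fun t =>
      strict (Nat.sub j (Nat.mul c j1)) fun j2 =>
      strict (Nat.sub s t) fun s2 =>
      strict (Nat.add b t) fun b2 =>
      strict (Nat.sub f (Nat.mul c f1)) fun f2 => ih I j2 k s2 u b2 e G f2 d

def vCutC (ih : CkV) : CkV := fun I j k s u b e G f d =>
  strict (Nat.mod d (Nat.add k 1)) fun k1 =>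
  strict (Nat.div d (Nat.add k 1)) fun d =>
  strict (Nat.add (Nat.div k k1) 1) fun q =>
  strict (Nat.mod d q) fun c =>
  strict (Nat.div d q) fun d =>
  strict (Nat.add (Nat.div s c) 1) fun q =>
  strict (Nat.mod d q) fun s1 =>
  strict (Nat.div d q) fun d =>
  strict (Nat.add (Nat.div b c) 1) fun q =>
  strict (Nat.mod d q) fun b1 =>
  strict (Nat.div d q) fun d =>
  strict (Nat.add (Nat.div e c) 1) fun q =>
  strict (Nat.mod d q) fun e1 =>
  strict (Nat.sub (Nat.add f s) s1) fun f1 =>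
  strict (Nat.add G u) fun G1 =>
    thn (ih I j k1 s1 0 b1 e1 G1 f1 (Nat.div d q)) fun d =>
      strict (Nat.mul c s1) fun t =>
      strict (Nat.sub k (Nat.mul c k1)) fun k2 =>
      strict (Nat.sub s t) fun s2 =>
      strict (Nat.sub b (Nat.mul c b1)) fun b2 =>
      strict (Nat.sub e (Nat.mul c e1)) fun e2 =>
      strict (Nat.add f t) fun f2 => ih I j k2 s2 u b2 e2 G f2 d

def selV (ih : CkV) (t : Nat) : CkV :=
  cnd (Nat.ble 4 t)
    (cnd (Nat.ble 6 t) (cnd (Nat.ble 7 t) (vCutC ih) (vCutB ih)) (cnd (Nat.ble 5 t) (vLevB ih) (vLev1 ih)))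
    (cnd (Nat.ble 2 t) (cnd (Nat.ble 3 t) (vLev ih) vSink) (cnd (Nat.ble 1 t) vGrid vPlain))

def stepV (ih : CkV) : CkV := fun I j k s u b e G f d =>
  strict (Nat.mod d 8) fun t => strict (Nat.div d 8) fun d => selV ih t I j k s u b e G f d

def chkV (n : Nat) : CkV :=
  Nat.rec (motive := fun _ => CkV) (fun _ _ _ _ _ _ _ _ _ _ => 0) (fun _ ih => stepV ih) n

/-- `p` pairs of tangents are joined, then the second and the third factor are cut -/
def pair (I j k r d : Nat) : Nat :=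
  strict (Nat.mod d 8) fun p =>
  strict (Nat.div d 8) fun d =>
  strict (Nat.mod d (Nat.add j 1)) fun j1 =>
  strict (Nat.div d (Nat.add j 1)) fun d =>
  strict (Nat.mod d (Nat.add r 1)) fun a1 =>
  strict (Nat.div d (Nat.add r 1)) fun d =>
  strict (Nat.sub r (Nat.add (Nat.mul 2 p) a1)) fun a2 =>
  strict (Nat.sub j j1) fun j2 =>
  strict (Nat.mod d (Nat.add k 1)) fun k1 =>
  strict (Nat.div d (Nat.add k 1)) fun d =>
  strict (Nat.mod d (Nat.add a1 1)) fun a11 =>
  strict (Nat.div d (Nat.add a1 1)) fun d =>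
  strict (Nat.mod d (Nat.add a2 1)) fun b11 =>
  strict (Nat.div d (Nat.add a2 1)) fun d =>
  strict (Nat.mod d (Nat.add k 1)) fun k2 =>
  strict (Nat.div d (Nat.add k 1)) fun d =>
  strict (Nat.mod d (Nat.add a2 1)) fun a21 =>
  strict (Nat.div d (Nat.add a2 1)) fun d =>
  strict (Nat.mod d (Nat.add a1 1)) fun b21 =>
  strict (Nat.div d (Nat.add a1 1)) fun d =>
    grd (Nat.ble (Nat.add (Nat.mul 2 p) a1) r)
      (thn (chkV 20 I j1 k1 a11 p b11 0 0 (Nat.sub a1 a11) d) fun d =>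
       thn (chkV 20 I j1 (Nat.sub k k1) (Nat.sub a1 a11) p (Nat.sub a2 b11) 0 0 a11 d) fun d =>
       thn (chkV 20 I j2 k2 a21 0 b21 p 0 (Nat.sub a2 a21) d) fun d =>
         chkV 20 I j2 (Nat.sub k k2) (Nat.sub a2 a21) 0 (Nat.sub a1 b21) p 0 a21 d)

/-- the check of `r` tangents in the format `I J K` with the largest `K` allowed by the count; `ex` tells
the cases known otherwise -/
def root (ex : Nat → Nat → Nat → Bool) (I J r d : Nat) : Nat :=
  strict (Nat.div (Nat.mul r (Nat.sub (Nat.add J I) 2)) (Nat.sub (Nat.mul I J) r)) fun K =>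
  strict (Nat.land d 15) fun t =>
    cnd (Nat.ble 8 t) (chk 40 I J K r 0 0 d)
      (cnd (Nat.beq t 6) (pair I J K r (Nat.shiftRight d 4))
        (cnd (Nat.beq t 7) (pair I K J r (Nat.shiftRight d 4))
          (cnd (Nat.beq t 1) (ok (ex I J r) (Nat.shiftRight d 4)) (chk 40 I J K r 0 0 d))))

/-- the roots `r, ..., r + n - 1` -/
def roots (ex : Nat → Nat → Nat → Bool) (I J n : Nat) : Nat → Nat → Bool :=
  Nat.rec (motive := fun _ => Nat → Nat → Bool) (fun _ _ => true)
    (fun _ ih r d => Nat.rec (motive := fun _ => Bool) false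
      (fun d' _ => strict (Nat.add r 1) fun r' => ih r' d') (root ex I J r d)) n

/-- The roots `lo I J ≤ r < hi I J` for all `J < J1`, starting at `(J, r)`, sixteen for each number of the
list. -/
def run (ex : Nat → Nat → Nat → Bool) (lo hi : Nat → Nat → Nat) (I J1 : Nat) (l : List Nat) :
    Nat → Nat → Bool :=
  List.rec (motive := fun _ => Nat → Nat → Bool) (fun J _ => Nat.ble J1 J)
    (fun d _ ih J r => strict (hi I J) fun h =>
      cnd (Nat.ble h (Nat.add r 16))
        (bnd (roots ex I J (Nat.sub h r) r d)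
          (strict (Nat.add J 1) fun J' => strict (lo I J') fun r' => ih J' r'))
        (bnd (roots ex I J 16 r d) (strict (Nat.add r 16) fun r' => ih J r'))) l

/-- the least `r` whose largest `K` is at least `J` -/
def loA (I J : Nat) : Nat :=
  Nat.div (Nat.add (Nat.mul (Nat.mul I J) J) (Nat.sub (Nat.add (Nat.mul 2 J) I) 3))
    (Nat.sub (Nat.add (Nat.mul 2 J) I) 2)

/-- the bound for balanced formats -/
def hiA (I J : Nat) : Nat := Nat.sub (Nat.add (Nat.mul I J) 3) (Nat.add J I)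

end

end Pool.Agent.Work.MP_f4b644_ag.Dag
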