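import Pool.Agent.Work.MP_f4b644_ag.Dag.Fast

/-!
Lists of roots which are proved apart.
-/

namespace Pool.Agent.Work.MP_f4b644_ag.Dag

open Pool.Agent.Lib.KLA

/-- membership in a list of triples -/
noncomputable def exL (l : List (Nat × Nat × Nat)) (I J r : Nat) : Bool :=
  List.rec (motive := fun _ => Bool) false
    (fun x _ ih => bor (bnd (Nat.beq x.1 I) (bnd (Nat.beq x.2.1 J) (Nat.beq x.2.2 r))) ih) l

/-- the roots which need the numerical leaf -/
def exA : List (Nat × Nat × Nat) :=
  [(5, 5, 16), (6, 8, 23), (9, 9, 62), (11, 11, 98), (15, 15, 194), (17, 17, 254), (21, 21, 398), (23, 23, 482)]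

end Pool.Agent.Work.MP_f4b644_ag.Dag
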