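import Pool.Agent.Work.MP_f4b644_ag.Dag.Num

/-! Checks of the numerical leaf. -/

namespace Pool.Agent.Work.MP_f4b644_ag.Dag

def nm5 : PLift (num (nat_lit 5) (nat_lit 5) (nat_lit 14) (nat_lit 16) (nat_lit 0)
    (nat_lit 0x14474975f836daa9ffd5)
    (nat_lit 0x472c2279cdecf57ca9ff)
    (nat_lit 0xadfd6f38001000200040008001000200040008001000200040008001)
    (nat_lit 0x0) = true) :=
  ⟨by decide +kernel⟩

def nm6 : PLift (num (nat_lit 6) (nat_lit 8) (nat_lit 11) (nat_lit 23) (nat_lit 0)
    (nat_lit 0x20ca9515b6f7211f00a791ad4363c2174ab)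
    (nat_lit 0x82f91c2dbe957227fc459d71626f1b9278858ab137b3e5)
    (nat_lit 0x582e5f4d499d0803f058dff9bed0f8bd1001001001001001001001001001001)
    (nat_lit 0x0) = true) :=
  ⟨by decide +kernel⟩

def nm9 : PLift (num (nat_lit 9) (nat_lit 9) (nat_lit 16) (nat_lit 19) (nat_lit 43)
    (nat_lit 0x11e425a78747ebc5e13f73e5f891dfcf9c2dd7b342d)
    (nat_lit 0x7fc8dfad6ec8f1ef8a7af6dd7b433c096b52ff8f2d)
    (nat_lit 0x9c3af60fd3fd8000400020001000080004000200010000800040002000100008000400020001)
    (nat_lit 0x4d04b04a04904604504304204003d03c03b03803703503303102f02e02c02902802602402302202001c01b01a01901601401201101000f00c009006005003000) = true) :=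
  ⟨by decide +kernel⟩

def nm11 : PLift (num (nat_lit 11) (nat_lit 11) (nat_lit 20) (nat_lit 23) (nat_lit 75)
    (nat_lit 0xfead4f2e299c36838bfb22c3cc2e1686dfc02e372db5f0f2f38d5525dff77d9)
    (nat_lit 0x1fe35e784bae657335c49be9b4f66eb5d87aa3ec439c99e10bddebfbe4e9d2c3)
    (nat_lit 0x7f9b41b4c3aafd88000040000200001000008000040000200001000008000040000200001000008000040000200001000008000040000200001)
    (nat_lit 0x7807507307207006f06e06d06b06906806706606506106005e05c05b05a05805605505405205004e04d04c04b04a04904704604504003f03e03d03c03903703603503203002f02e02d02b02802702502402201e01d01c01b01701601401301101000d00c00b00a009007004003002001) = true) :=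
  ⟨by decide +kernel⟩

def nm15 : PLift (num (nat_lit 15) (nat_lit 15) (nat_lit 28) (nat_lit 31) (nat_lit 163)
    (nat_lit 0x16ffefceeb4a3e6baf47d5d7c325e63f37be0acfbf555353e7b4ee3f187e7717ea8e4fc692e8c3774affef9b3b51db9b99253678a2fe928aaf39b)
    (nat_lit 0x1f66b7dfcbb4cbf0796f911b72ae16dc2a659fc5f723cddd67b6b91317bedfb227fef0acd354c5e5c283eb3d284ffc87f61fdc1f854be3ef5b9c)
    (nat_lit 0xec615d565ba8e793dcb2b8000000400000020000001000000080000004000000200000010000000800000040000002000000100000008000000400000020000001000000080000004000000200000010000000800000040000002000000100000008000000400000020000001)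
    (nat_lit 0xdf0de0dd0dc0d90d80d60d50d40d30d20d10d00cf0cd0cc0cb0c90c80c50c40c30c20c10c00bf0be0bd0bc0ba0b80b70b60b20b10af0ad0ac0ab0aa0a90a80a60a50a30a009f09e09d09b09a09909809709609509409309209008f08e08c08a08908808608508408308208107f07e07d07c07b07707607407207106f06e06d06b06a06906806706506406306205f05d05c05a05905805705605505305205104d04c04b04a04904804504404304204104003e03d03b03903803703603503403303203002d02a02902602502302202102001f01e01d01a01901801601501301201101000f00c00b00a009007006005004003001000) = true) :=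
  ⟨by decide +kernel⟩

end Pool.Agent.Work.MP_f4b644_ag.Dag
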