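import Pool.Agent.Work.MP_f4b644_ag.Dag.Num

/-! Checks of the numerical leaf. -/

namespace Pool.Agent.Work.MP_f4b644_ag.Dag

def nm17 : PLift (num (nat_lit 17) (nat_lit 17) (nat_lit 32) (nat_lit 35) (nat_lit 219)
    (nat_lit 0x706f53e676e8e794e1e1a26e40ab8f9f13cb35e6c32a965d622b46f5c0e737455d8d767f75d5cf8874afeafba5ecdb78716e3bde5bd9baf3dc5afa3c2a5b03deeaa1b271dc586dfd3f706)
    (nat_lit 0x163f7ff06d35fba93eece7e6642d8dfecbac1bce1cd92e3df9c37df73e5aa78feaed7e09cf84a9cfc318be5fd7295e73d96b689656519bb136c4b9ffa51dc97ddf673a6f6c88f247cca96)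
    (nat_lit 0xb7e8538bdef5c34cf3abbdf28000000040000000200000001000000008000000040000000200000001000000008000000040000000200000001000000008000000040000000200000001000000008000000040000000200000001000000008000000040000000200000001000000008000000040000000200000001000000008000000040000000200000001)
    (nat_lit 0x12011f11d11b11a11911811711611511411311110f10e10d10a1091081071061051021011000ff0fd0fc0fb0f90f80f70f60f40f30f10f00ef0ee0ec0ea0e90e70e60e50e40e30e20e10e00de0dd0dc0da0d90d80d70d60d40d30d20d10d00cd0cc0cb0ca0c90c70c60c50c30c20c10c00bf0bd0bc0ba0b90b80b70b50b30b10b00af0ae0ad0ab0aa0a90a80a70a50a30a20a109f09c09b09a09909709609409309209008f08d08c08b08a08908808708508408308208108007e07c07b07a07907807607407307207107006f06c06a06906806706606506406306206105d05c05b05a05905805705505305105004f04d04c04b04a04904804704604404304204104003f03e03d03c03a03703603503303203102f02e02d02c02b02a02902802702402202102001f01d01c01a01901701601501301201101000e00d00c00a009008005004003002001) = true) :=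
  ⟨by decide +kernel⟩

end Pool.Agent.Work.MP_f4b644_ag.Dag
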