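import Pool.Agent.Work.MP_f4b644_ag.Dag.Num

/-! Checks of the numerical leaf. -/

namespace Pool.Agent.Work.MP_f4b644_ag.Dag

def nm21 : PLift (num (nat_lit 21) (nat_lit 21) (nat_lit 40) (nat_lit 43) (nat_lit 355)
    (nat_lit 0x7577eefee9df1549de1966f5e4e8edf99f93cb2b3bc2cc37be33bacb2cf7ea7d6b9a7336f7642bbcec32d6bcbbf417dfe186d75735c7be7747857e9e8565d1c65b346fd233b74efaf1534172e407e3d75d0769ba2c54f8b4deae72fe8ee76f7c9925935bc39d9fb32dfd6a25bf2e3cf99e)
    (nat_lit 0x26f7affdd8f269373d35e57d2c7907b7cdb713fd9daeb845c5eada8d2f2f36acaa0fbde7e783e47c8deeb754ebe4dcdc1d787fdc8fad91f9b606fe2cbb2bdb6f90d2fa5de5ed67dc09fe5bb5c5f1f8ef1e6efcd7b0cbfb9f3b36b48c86d994d9774fedd5f4e3527cbeb8eefea7c4fd3e71)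
    (nat_lit 0xde68ec94b9bb0f855ee594f216ebc78000000000400000000020000000001000000000080000000004000000000200000000010000000000800000000040000000002000000000100000000008000000000400000000020000000001000000000080000000004000000000200000000010000000000800000000040000000002000000000100000000008000000000400000000020000000001000000000080000000004000000000200000000010000000000800000000040000000002000000000100000000008000000000400000000020000000001)
    (nat_lit 0x1b81b71b61b41b31b11b01af1ae1ad1ac1ab1a91a71a61a51a21a11a019e19d19c19b19a19919819619519419319219018f18e18d18c18b18a18918818718618518318218118017e17d17b17917517417317217117016f16e16d16c16b16a16916816716516416316116015f15d15c15a15915815715615515415315215114f14e14d14b14a14914814714614514414214114013e13d13c13a13913813713613413313213113012c12b12a12912812712612512412212011f11e11d11c11b11a11911811711611411311111010f10e10d10b10a1081071061041031021011000fe0fd0fc0fb0fa0f90f80f70f50f40f30f10f00ef0ee0ec0eb0ea0e90e70e60e50e40e30e20e10e00dd0dc0db0da0d80d70d60d50d30d20d10d00cf0ce0cd0cc0cb0ca0c90c70c50c30c20c00bf0be0bd0bc0ba0b80b70b60b50b30b10b00af0ae0ad0ac0ab0aa0a90a80a70a60a50a40a30a20a109e09d09c09b09a09909709609509309008f08e08d08c08b08a08908808708608508308208007f07e07d07c07807707607407307207107006f06e06d06c06b06a06906706606506406306206106005e05d05a05905805705605505405205105004f04e04d04b04a04904804704604504204104003f03e03c03b03a03903703603503303203103002e02c02b02a02902802702602502202102001f01d01c01a01901801701601501401301201101000e00d00c00b009008007006005004001000)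 = true) :=
  ⟨by decide +kernel⟩

end Pool.Agent.Work.MP_f4b644_ag.Dag
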