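import Pool.Agent.Work.MP_f4b644_ag.Dag.Num

/-! Checks of the numerical leaf. -/

namespace Pool.Agent.Work.MP_f4b644_ag.Dag

def nm23 : PLift (num (nat_lit 23) (nat_lit 23) (nat_lit 44) (nat_lit 47) (nat_lit 435)
    (nat_lit 0x1cbfd2b34fbcef6ccb5959ebd8f97bc45ee4ae8c7575b97b6ad60702f7bbdf062bc1ef983988ab8bf652a49a1bfbdff07e00ef39f8f8fbe946bafd3238b49bd45de3ea6fd74961efdefbaf4bb53b5ee6b8f1761ddb8f6f753b0ec3ff4798e769aaf4b6e3f5da93bcf1db2be8b7a377a88e5a75b27bcf2b53e6f7e67c98f9ef7ea56dbbd4dfcf2eb)
    (nat_lit 0x13dc48939fa2ee9c2bbc63a8d5f6fee770c7ddc6756bbbb7ef4fb69ee4a9dbba95d625b279a27aa7546be721c573ea7c579edda9290dd7174e5bbce671ef19dae13e2eca0f72e9cf2ff9c6e61cc2c4ebe453be0ccfb1cf7bf9e2d1f2b14ecae48f6fb3ac6bdbcc57e544602e7f20dcf8cf6bf37f84636d0cf227bf529f3d2edbbfef70287d6ca6)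
    (nat_lit 0x79b77178f53de9ed6db2e59549b8c4b8a8000000000040000000000200000000001000000000008000000000040000000000200000000001000000000008000000000040000000000200000000001000000000008000000000040000000000200000000001000000000008000000000040000000000200000000001000000000008000000000040000000000200000000001000000000008000000000040000000000200000000001000000000008000000000040000000000200000000001000000000008000000000040000000000200000000001000000000008000000000040000000000200000000001000000000008000000000040000000000200000000001)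
    (nat_lit 0x21020f20e20d20c20b20a2092072042032022012001ff1fe1fd1fc1fa1f91f81f71f51f41f31f21f11f01ef1ee1ed1eb1ea1e91e81e71e51e31e21e11e01df1de1dd1da1d81d71d61d41d31d21d01cf1ce1cd1cc1cb1ca1c81c71c61c51c41c31c21c01bf1be1bd1bc1ba1b81b71b61b51b41b11b01af1ae1ad1ac1ab1aa1a71a61a51a41a31a21a11a019f19e19d19a19819719619519419319219119018f18d18c18b18a18918818718618518418218118017f17e17d17c17b17a17717617517417217117016f16e16d16c16b16916816516416316216116015f15e15d15c15b15a15815615515415315215014f14e14d14b14914814714614514414314214114013f13e13d13c13b13a13913713613513413313012f12e12d12c12912812712612512312212112011e11d11c11b11a11911711611511411211111010f10d10b10a1091081071061051041031011000ff0fe0fd0fc0fb0fa0f90f70f60f50f40f30f20f10f00ef0ee0ed0ea0e90e70e60e50e40e30e20e10df0de0dd0dc0db0da0d90d80d60d50d30d20d00cf0ce0cd0cc0cb0ca0c80c60c50c40c30c20c10c00bf0bd0bc0bb0ba0b80b70b50b40b30b20b10b00ae0ad0ac0ab0aa0a90a80a70a60a50a30a20a009f09e09d09c09b09909809709609509409109008f08d08c08b08a08908808708608508408308208107e07d07c07b07907807707607407307106f06d06c06b06906806706606506406306206106005f05e05d05c05a05905605505405305205004f04e04d04c04b04a04904704604504404304204104003f03d03c03a03903703603403303203103002f02e02d02c02b02902802702602502402302202001f01e01d01c01b01a01801601501401301201101000f00e00d00c00a009008006005003002000)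 = true) :=
  ⟨by decide +kernel⟩

end Pool.Agent.Work.MP_f4b644_ag.Dag
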