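import Pool.Agent.Lib.KLA.Defs

/-!
A numerical leaf: Gauss elimination over the field with two elements. A tensor with entries `0, 1` is a
natural number, the entry `(i, j', l)` being the bit `j' + j * i + I * j * l`. The elimination runs from the
highest bit down, one slice `l` after the other.
-/

namespace Pool.Agent.Work.MP_f4b644_ag.Dag

open Pool.Agent.Lib.KLA

noncomputable section

/-- bit `n` of `x` -/
def tb (x n : Nat) : Bool := Nat.beq (Nat.land (Nat.shiftRight x n) (nat_lit 1)) (nat_lit 1)

/-- Kronecker product of the `n` low bits of `A` with the `w` bits of `B` -/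
def kr (w A B n : Nat) : Nat :=
  Nat.rec (motive := fun _ => Nat) 0
    (fun i ih => cnd (tb A i) (Nat.add (Nat.mul (Nat.pow 2 (Nat.mul w i)) B) ih) ih) n

/-- a decomposable tensor -/
def tn (I j k a b c : Nat) : Nat :=
  strict (kr j a (Nat.mod b (Nat.pow 2 j)) I) fun x => kr (Nat.mul j I) c x k

/-- digit `p` of `D` in base `2 ^ w` -/
def dig (D w p : Nat) : Nat := Nat.mod (Nat.shiftRight D (Nat.mul w p)) (Nat.pow 2 w)

/-- add the rows `g i`, `i < n`, which have to be less than `bd` -/
def addR (g : Nat → Nat) (bd : Nat) (k : List Nat → Bool) (n : Nat) : List Nat → Bool :=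
  Nat.rec (motive := fun _ => List Nat → Bool) k
    (fun i ih L => strict (g i) fun x => cnd (Nat.ble bd x) false (ih (x :: L))) n

/-- reduce all rows modulo `bd` -/
def trn (bd : Nat) (k : List Nat → Bool) (L : List Nat) : List Nat → Bool :=
  List.rec (motive := fun _ => List Nat → Bool) k
    (fun x _ ih acc => strict (Nat.mod x bd) fun y => ih (y :: acc)) L

/-- a row with bit `n` -/
def fnd (n : Nat) (L : List Nat) : Nat :=
  List.rec (motive := fun _ => Nat) 0 (fun x _ ih => cnd (tb x n) x ih) L

/-- clear bit `n` in all rows -/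
def red (n p : Nat) (k : List Nat → Bool) (L : List Nat) : List Nat → Bool :=
  List.rec (motive := fun _ => List Nat → Bool) k
    (fun x _ ih acc => @Bool.rec (fun _ => Bool) (ih (x :: acc))
      (strict (Nat.xor x p) fun y => cnd (Nat.beq y 0) (ih acc) (ih (y :: acc)))
      (Nat.beq (Nat.land (Nat.shiftRight x n) (nat_lit 1)) (nat_lit 1))) L

/-- the positions `base + c - 1, ..., base`; those marked in `K` are skipped -/
def cells (K base : Nat) (k : List Nat → Bool) (c : Nat) : List Nat → Bool :=
  Nat.rec (motive := fun _ => List Nat → Bool) k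
    (fun c ih L => cnd (tb K c) (ih L)
      (strict (Nat.add base c) fun n => strict (fnd n L) fun p => cnd (tb p n) (red n p ih L []) false)) c

/-- the A-fibre and the B-fibre of the tangent `p` -/
def fib (I j k DA DB DC bd p : Nat) (kk : List Nat → Bool) : List Nat → Bool :=
  addR (fun i => tn I j k (Nat.pow 2 i) (dig DB j p) (dig DC k p)) bd
    (addR (fun i => tn I j k (dig DA I p) (Nat.pow 2 i) (dig DC k p)) bd kk j) I

/-- the slices `l - 1, ..., 0` -/
def cols (I j k s DA DB DC K l : Nat) : List Nat → Bool :=
  Nat.rec (motive := fun _ => List Nat → Bool) (fun _ => true)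
    (fun l ih L => strict (Nat.pow 2 (Nat.add (Nat.mul (Nat.mul j I) l) (Nat.mul j I))) fun bd =>
      trn bd (addR (fun p => tn I j k (dig DA I p) (dig DB j p) (Nat.pow 2 l)) bd
        (fib I j k DA DB DC bd l (cells K (Nat.mul (Nat.mul j I) l) ih (Nat.mul j I))) s) L []) l

/-- the fibres of the tangents `k, ..., k + n - 1` -/
def ext (I j k DA DB DC bd : Nat) (kk : List Nat → Bool) (n : Nat) : List Nat → Bool :=
  Nat.rec (motive := fun _ => List Nat → Bool) kk
    (fun q ih => fib I j k DA DB DC bd (Nat.add k q) ih) n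

/-- the cells which carry a C-fibre -/
def kil (DK f : Nat) : Nat :=
  Nat.rec (motive := fun _ => Nat) 0 (fun q ih => Nat.lor (Nat.pow 2 (dig DK 12 q)) ih) f

/-- the check for `s ≥ k` tangents and `f` C-fibres -/
def num (I j k s f DA DB DC DK : Nat) : Bool :=
  cnd (Nat.ble k s) (strict (kil DK f) fun K =>
    ext I j k DA DB DC (Nat.pow 2 (Nat.mul (Nat.mul j I) k)) (cols I j k s DA DB DC K k) (Nat.sub s k) [])
    false

end

end Pool.Agent.Work.MP_f4b644_ag.Dag
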