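import Pool.Agent.Work.MP_f4b644_ag.Dag.Lem
import Pool.Agent.Work.MP_f4b644_ag.Dag.Num

/-!
Soundness of the numerical leaf.
-/

set_option autoImplicit false

namespace Pool.Agent.Work.MP_f4b644_ag.Dag

open Big Thin Big.Gad Pool.Agent.Lib.KLA Finset

theorem tb_eq (x n : ℕ) : tb x n = x.testBit n := by
  have h : tb x n = Nat.beq ((x >>> n) &&& 1) 1 := rfl
  rw [h, Nat.and_one_is_mod, Nat.testBit, Nat.one_and_eq_mod_two]
  rcases Nat.mod_two_eq_zero_or_one (x >>> n) with h | h <;> rw [h] <;> rfl

theorem cnd_t {α : Type} (x y : α) : cnd true x y = x := rfl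

theorem cnd_f {α : Type} (x y : α) : cnd false x y = y := rfl

theorem kr_succ (w A B n : ℕ) :
    kr w A B (n + 1) = if A.testBit n then 2 ^ (w * n) * B + kr w A B n else kr w A B n := by
  have h : kr w A B (n + 1) = cnd (tb A n) (2 ^ (w * n) * B + kr w A B n) (kr w A B n) := rfl
  rw [h, tb_eq]
  cases A.testBit n <;> rfl

theorem kr_lt {w A B : ℕ} (hB : B < 2 ^ w) (n : ℕ) : kr w A B n < 2 ^ (w * n) := by
  induction n with
  | zero => exact Nat.two_pow_pos _
  | succ n ih =>
    have e : 2 ^ (w * (n + 1)) = 2 ^ (w * n) * 2 ^ w := by rw [← pow_add, Nat.mul_succ]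
    have h1 : 2 ^ (w * n) * (B + 1) ≤ 2 ^ (w * n) * 2 ^ w := Nat.mul_le_mul_left _ hB
    rw [kr_succ, e]
    split_ifs <;> nlinarith

theorem kr_bit {w A B : ℕ} (hB : B < 2 ^ w) {t : ℕ} (ht : t < w) (n : ℕ) : ∀ i < n,
    (kr w A B n).testBit (t + w * i) = (A.testBit i && B.testBit t) := by
  induction n with
  | zero => intro i hi; omega
  | succ n ih =>
    intro i hi
    have hl := kr_lt (A := A) hB n
    rw [kr_succ]
    rcases Nat.lt_or_ge i n with h | h
    · have h1 : t + w * i < w * n := by
        have : w * (i + 1) ≤ w * n := Nat.mul_le_mul_left _ h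
        rw [Nat.mul_succ] at this
        omega
      split_ifs
      · rw [Nat.testBit_two_pow_mul_add _ hl, if_pos h1, ih i h]
      · exact ih i h
    · obtain rfl : i = n := by omega
      split_ifs with h2
      · rw [Nat.testBit_two_pow_mul_add _ hl, if_neg (by omega), h2, Bool.true_and]
        congr 1
        omega
      · rw [Bool.not_eq_true] at h2
        rw [h2, Bool.false_and]
        exact Nat.testBit_lt_two_pow (lt_of_lt_of_le hl (Nat.pow_le_pow_right (by omega) (by omega)))

theorem tn_bit {I j k a b c i j' l : ℕ} (hi : i < I) (hj : j' < j) (hl : l < k) :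
    (tn I j k a b c).testBit (j' + j * i + j * I * l) = (c.testBit l && (a.testBit i && b.testBit j')) := by
  have hb : b % 2 ^ j < 2 ^ j := Nat.mod_lt _ (Nat.two_pow_pos _)
  have h1 : j' + j * i < j * I := by
    have : j * (i + 1) ≤ j * I := Nat.mul_le_mul_left _ hi
    rw [Nat.mul_succ] at this
    omega
  have h : tn I j k a b c = kr (j * I) c (kr j a (b % 2 ^ j) I) k := rfl
  rw [h, kr_bit (kr_lt hb I) h1 k l hl, kr_bit hb hj I i hi, Nat.testBit_mod_two_pow, decide_eq_true hj,
    Bool.true_and]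

/-- the pairing of the low `n` bits of `x` with `v` -/
def Dt (v : ℕ → ZMod 2) (n x : ℕ) : ZMod 2 := ∑ m ∈ range n, if x.testBit m then v m else 0

section
variable {v : ℕ → ZMod 2}

theorem Dt_succ (n x : ℕ) : Dt v (n + 1) x = Dt v n x + if x.testBit n then v n else 0 := sum_range_succ _ _

theorem Dt_xor (n x y : ℕ) : Dt v n (x ^^^ y) = Dt v n x + Dt v n y := by
  rw [Dt, Dt, Dt, ← sum_add_distrib]
  refine sum_congr rfl fun m _ => ?_
  rw [Nat.testBit_xor]
  cases x.testBit m <;> cases y.testBit m <;> simp [CharTwo.add_self_eq_zero]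

theorem Dt_mod (n x : ℕ) : Dt v n (x % 2 ^ n) = Dt v n x :=
  sum_congr rfl fun m hm => by rw [Nat.testBit_mod_two_pow, decide_eq_true (mem_range.1 hm), Bool.true_and]

theorem Dt_lt {n N x : ℕ} (h : n ≤ N) (hx : x < 2 ^ n) : Dt v n x = Dt v N x := by
  refine sum_subset (range_subset_range.2 h) fun m _ hm => ?_
  rw [Nat.testBit_lt_two_pow (lt_of_lt_of_le hx (Nat.pow_le_pow_right (by omega) (by simpa using hm)))]
  rfl

theorem Dt_zero {n : ℕ} (h : ∀ m < n, v m = 0) (x : ℕ) : Dt v n x = 0 :=
  sum_eq_zero fun m hm => by rw [h m (mem_range.1 hm), ite_self]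

theorem Dt_pow {n N : ℕ} (h : n < N) : Dt v N (2 ^ n) = v n := by
  rw [Dt, sum_eq_single n]
  · rw [Nat.testBit_two_pow_self, if_pos rfl]
  · intro m _ hm
    rw [Nat.testBit_two_pow_of_ne (Ne.symm hm)]
    rfl
  · intro hn
    exact absurd (mem_range.2 h) hn

variable (v) in
/-- the continuation `k` proves that `v` vanishes below `n'` from rows orthogonal to `v` below `n` -/
def El (n n' : ℕ) (k : List ℕ → Bool) : Prop :=
  ∀ L, k L = true → (∀ x ∈ L, Dt v n x = 0) → ∀ m < n', v m = 0

theorem addR_s {g : ℕ → ℕ} {n n' N : ℕ} {k : List ℕ → Bool} (hn : n ≤ N) (H : El v n n' k) (c : ℕ)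
    (hg : ∀ i < c, Dt v N (g i) = 0) : El v n n' (addR g (2 ^ n) k c) := by
  induction c with
  | zero => exact H
  | succ c ih =>
    intro L h hL
    have h' : cnd (Nat.ble (2 ^ n) (g c)) false (addR g (2 ^ n) k c (g c :: L)) = true := h
    cases hb : Nat.ble (2 ^ n) (g c) with
    | true => rw [hb, cnd_t] at h'; exact absurd h' Bool.false_ne_true
    | false =>
      rw [hb, cnd_f] at h'
      refine ih (fun i hi => hg i (by omega)) _ h' fun x hx => ?_
      rcases List.mem_cons.1 hx with rfl | hx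
      · have : ¬ 2 ^ n ≤ g c := fun h => by simp [Nat.ble_eq_true_of_le h] at hb
        rw [Dt_lt hn (by omega), hg c (by omega)]
      · exact hL x hx

theorem trn_s {n n' : ℕ} {k : List ℕ → Bool} (H : El v n n' k) (L : List ℕ) (hL : ∀ x ∈ L, Dt v n x = 0) :
    El v n n' (trn (2 ^ n) k L) := by
  induction L with
  | nil => exact H
  | cons x L ih =>
    intro acc h ha
    refine ih (fun y hy => hL y (List.mem_cons_of_mem _ hy)) (x % 2 ^ n :: acc) h fun y hy => ?_
    rcases List.mem_cons.1 hy with rfl | hy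
    · rw [Dt_mod, hL x List.mem_cons_self]
    · exact ha y hy

theorem fnd_mem (n : ℕ) (L : List ℕ) : fnd n L = 0 ∨ fnd n L ∈ L := by
  induction L with
  | nil => exact Or.inl rfl
  | cons x L ih =>
    have h : fnd n (x :: L) = cnd (tb x n) x (fnd n L) := rfl
    rw [h]
    cases tb x n
    · exact ih.imp id (List.mem_cons_of_mem _)
    · exact Or.inr List.mem_cons_self

theorem red_s {n p : ℕ} {k : List ℕ → Bool} (H : El v n n k) (hp : Dt v (n + 1) p = 0)
    (hb : p.testBit n = true) (L : List ℕ) (hL : ∀ x ∈ L, Dt v (n + 1) x = 0) : El v n n (red n p k L) := by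
  induction L with
  | nil => exact H
  | cons x L ih =>
    intro acc h ha
    have ih' := ih fun y hy => hL y (List.mem_cons_of_mem _ hy)
    have hx := hL x List.mem_cons_self
    have h' : cnd (tb x n) (cnd (Nat.beq (x ^^^ p) 0) (red n p k L acc) (red n p k L ((x ^^^ p) :: acc)))
      (red n p k L (x :: acc)) = true := h
    rw [tb_eq] at h'
    cases hxb : x.testBit n with
    | false =>
      rw [hxb, cnd_f] at h'
      refine ih' _ h' fun y hy => ?_
      rcases List.mem_cons.1 hy with rfl | hy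
      · simpa [Dt_succ, hxb] using hx
      · exact ha y hy
    | true =>
      rw [hxb, cnd_t] at h'
      cases h0 : Nat.beq (x ^^^ p) 0 with
      | true => rw [h0, cnd_t] at h'; exact ih' _ h' ha
      | false =>
        rw [h0, cnd_f] at h'
        refine ih' _ h' fun y hy => ?_
        rcases List.mem_cons.1 hy with rfl | hy
        · have := Dt_xor (v := v) (n + 1) x p
          rw [hx, hp, Dt_succ, Nat.testBit_xor, hxb, hb] at this
          simpa using this
        · exact ha y hy

theorem cells_s {K base : ℕ} {k : List ℕ → Bool} (H : El v base base k) (c : ℕ)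
    (hK : ∀ i < c, K.testBit i = true → v (base + i) = 0) :
    El v (base + c) (base + c) (cells K base k c) := by
  induction c with
  | zero => exact H
  | succ c ih =>
    intro L h hL
    have ih' := ih fun i hi => hK i (by omega)
    have h' : cnd (tb K c) (cells K base k c L) (cnd (tb (fnd (base + c) L) (base + c))
      (red (base + c) (fnd (base + c) L) (cells K base k c) L []) false) = true := h
    rw [tb_eq, tb_eq] at h'
    have key : (∀ m < base + c, v m = 0) ∧ v (base + c) = 0 := by
      cases hb : K.testBit c with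
      | true =>
        rw [hb, cnd_t] at h'
        have h0 := hK c (by omega) hb
        refine ⟨ih' L h' fun x hx => ?_, h0⟩
        have := hL x hx
        rw [← add_assoc, Dt_succ, h0] at this
        simpa using this
      | false =>
        rw [hb, cnd_f] at h'
        cases hp : (fnd (base + c) L).testBit (base + c) with
        | false => rw [hp, cnd_f] at h'; exact absurd h' Bool.false_ne_true
        | true =>
          rw [hp, cnd_t] at h'
          have hm : fnd (base + c) L ∈ L := (fnd_mem _ L).resolve_left fun h0 => by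
            rw [h0, Nat.zero_testBit] at hp
            exact Bool.false_ne_true hp
          have h1 := red_s ih' (hL _ hm) hp L hL [] h' (fun _ hx => absurd hx List.not_mem_nil)
          have h2 := hL _ hm
          rw [← add_assoc, Dt_succ, Dt_zero h1, hp] at h2
          exact ⟨h1, by simpa using h2⟩
    intro m hm
    rcases Nat.lt_or_ge m (base + c) with h1 | h1
    · exact key.1 m h1
    · rw [show m = base + c by omega]
      exact key.2

theorem kil_bit {DK c : ℕ} (f : ℕ) (h : (kil DK f).testBit c = true) : ∃ q < f, dig DK 12 q = c := by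
  induction f with
  | zero => exact absurd h (by rw [show kil DK 0 = 0 from rfl, Nat.zero_testBit]; exact Bool.false_ne_true)
  | succ f ih =>
    have e : kil DK (f + 1) = 2 ^ dig DK 12 f ||| kil DK f := rfl
    rw [e, Nat.testBit_or, Bool.or_eq_true, Nat.testBit_two_pow, decide_eq_true_eq] at h
    rcases h with h | h
    · exact ⟨f, by omega, h⟩
    · obtain ⟨q, h1, h2⟩ := ih h
      exact ⟨q, by omega, h2⟩

theorem num_v {I j k s f DA DB DC DK : ℕ} (h : num I j k s f DA DB DC DK = true)
    (hA : ∀ p < s, ∀ x, Dt v (j * I * k) (tn I j k x (dig DB j p) (dig DC k p)) = 0)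
    (hB : ∀ p < s, ∀ x, Dt v (j * I * k) (tn I j k (dig DA I p) x (dig DC k p)) = 0)
    (hC : ∀ p < s, ∀ x, Dt v (j * I * k) (tn I j k (dig DA I p) (dig DB j p) x) = 0)
    (hK : ∀ q < f, dig DK 12 q < j * I → ∀ l < k, v (j * I * l + dig DK 12 q) = 0) :
    ∀ m < j * I * k, v m = 0 := by
  have h' : cnd (Nat.ble k s) (ext I j k DA DB DC (2 ^ (j * I * k))
    (cols I j k s DA DB DC (kil DK f) k) (s - k) []) false = true := h
  cases hb : Nat.ble k s with
  | false => rw [hb, cnd_f] at h'; exact absurd h' Bool.false_ne_true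
  | true =>
    rw [hb, cnd_t] at h'
    have hks : k ≤ s := Nat.le_of_ble_eq_true hb
    have hfib : ∀ (n n' p : ℕ) (kk : List ℕ → Bool), n ≤ j * I * k → p < s → El v n n' kk →
        El v n n' (fib I j k DA DB DC (2 ^ n) p kk) := fun n n' p kk hn hp H =>
      addR_s hn (addR_s hn H j fun i _ => hB p hp _) I fun i _ => hA p hp _
    have hcol : ∀ l ≤ k, El v (j * I * l) (j * I * l) (cols I j k s DA DB DC (kil DK f) l) := by
      intro l
      induction l with
      | zero => intro _ L _ _ m hm; omega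
      | succ l ih =>
        intro hl L h1 hL
        have hn : j * I * l + j * I ≤ j * I * k := Nat.mul_le_mul_left (j * I) hl
        have h2 := cells_s (K := kil DK f) (ih (by omega)) (j * I) fun i hi hb => by
          obtain ⟨q, hq, rfl⟩ := kil_bit f hb
          exact hK q hq hi l (by omega)
        exact trn_s (addR_s hn (hfib _ _ l _ hn (by omega) h2) s fun p hp => hC p hp _) L hL [] h1
          fun _ hx => absurd hx List.not_mem_nil
    have hext : ∀ n ≤ s - k, El v (j * I * k) (j * I * k)
        (ext I j k DA DB DC (2 ^ (j * I * k)) (cols I j k s DA DB DC (kil DK f) k) n) := by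
      intro n
      induction n with
      | zero => exact fun _ => hcol k le_rfl
      | succ n ih => exact fun hn => hfib _ _ (k + n) _ le_rfl (by omega) (ih (by omega))
    exact hext _ le_rfl [] h' fun _ hx => absurd hx List.not_mem_nil

end

/-- full rank modulo two gives full rank over `ℂ` -/
theorem gf2 {N : Type} [Fintype N] [DecidableEq N] (R : Set (N → Bool))
    (h : ∀ v : N → ZMod 2, (∀ w ∈ R, ∑ n, (if w n then v n else 0) = 0) → v = 0) (Φ : N → ℂ)
    (hΦ : ∀ w ∈ R, ∑ n, (if w n then Φ n else 0) = 0) : Φ = 0 := by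
  classical
  let M : Matrix R N ℤ := fun w n => if w.1 n then 1 else 0
  have hinj : LinearMap.ker (Matrix.toLin' (M.map (Int.cast : ℤ → ZMod 2))) = ⊥ := by
    rw [LinearMap.ker_eq_bot']
    intro v hv
    refine h v fun w hw => ?_
    have := congrFun hv ⟨w, hw⟩
    refine Eq.trans (sum_congr rfl fun n _ => ?_) this
    change _ = ((if w n then (1 : ℤ) else 0 : ℤ) : ZMod 2) * v n
    split_ifs <;> simp
  obtain ⟨g, hg⟩ := LinearMap.exists_leftInverse_of_injective _ hinj
  let L : Matrix N R ℤ := (LinearMap.toMatrix' g).map fun x => (x.val : ℤ)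
  have h1 : (L * M).map (Int.castRingHom (ZMod 2)) = 1 := by
    rw [Matrix.map_mul]
    have e1 : L.map (Int.castRingHom (ZMod 2)) = LinearMap.toMatrix' g := by
      ext a b
      simp [L]
    have e2 := congrArg LinearMap.toMatrix' hg
    rw [LinearMap.toMatrix'_comp, LinearMap.toMatrix'_toLin', LinearMap.toMatrix'_id] at e2
    rw [e1]
    exact e2
  have h2 : (L * M).det ≠ 0 := fun h0 => by
    have := (Int.castRingHom (ZMod 2)).map_det (L * M)
    rw [h0, map_zero, RingHom.mapMatrix_apply, h1, Matrix.det_one] at this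
    exact zero_ne_one this
  have h3 : ((L * M).map (Int.castRingHom ℂ)).det ≠ 0 := by
    rw [← RingHom.mapMatrix_apply, ← RingHom.map_det]
    simpa using h2
  refine Matrix.eq_zero_of_mulVec_eq_zero h3 ?_
  rw [Matrix.map_mul, ← Matrix.mulVec_mulVec]
  have h4 : (M.map (Int.castRingHom ℂ)).mulVec Φ = 0 := by
    funext w
    refine Eq.trans (sum_congr rfl fun n _ => ?_) (hΦ w.1 w.2)
    change ((if w.1 n then (1 : ℤ) else 0 : ℤ) : ℂ) * Φ n = _
    split_ifs <;> simp
  rw [h4, Matrix.mulVec_zero]

/-- the vector of the bits of `x` -/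
def bv (n x : ℕ) : Fin n → ℂ := fun i => if x.testBit i then 1 else 0

/-- the tensor product of three bit vectors -/
def wb (I j k a b c : ℕ) : Fin I × Fin j × Fin k → Bool :=
  fun n => c.testBit n.2.2 && (a.testBit n.1 && b.testBit n.2.1)

theorem wb_tp (I j k a b c : ℕ) :
    (fun n => if wb I j k a b c n then (1 : ℂ) else 0) = tp (bv I a) (bv j b) (bv k c) := by
  funext n
  simp only [wb, tp, bv, Bool.and_eq_true]
  split_ifs <;> simp_all

/-- the position of an entry -/
def pos {I j k : ℕ} (n : Fin I × Fin j × Fin k) : ℕ := n.2.1 + j * n.1 + j * I * n.2.2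

theorem dm_lt {t w i n : ℕ} (ht : t < w) (hi : i < n) : t + w * i < w * n := by
  have : w * (i + 1) ≤ w * n := Nat.mul_le_mul_left _ hi
  rw [Nat.mul_succ] at this
  omega

theorem dm_inj {t t' w i i' : ℕ} (ht : t < w) (ht' : t' < w) (h : t + w * i = t' + w * i') :
    t = t' ∧ i = i' := by
  have h1 := congrArg (· % w) h
  simp only [Nat.add_mul_mod_self_left, Nat.mod_eq_of_lt ht, Nat.mod_eq_of_lt ht'] at h1
  subst h1
  exact ⟨rfl, Nat.eq_of_mul_eq_mul_left (by omega) (Nat.add_left_cancel h)⟩

theorem pos_lt {I j k : ℕ} (n : Fin I × Fin j × Fin k) : pos n < j * I * k :=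
  dm_lt (dm_lt n.2.1.2 n.1.2) n.2.2.2

theorem pos_inj {I j k : ℕ} : Function.Injective (pos (I := I) (j := j) (k := k)) := fun n n' h => by
  obtain ⟨h1, h2⟩ := dm_inj (dm_lt n.2.1.2 n.1.2) (dm_lt n'.2.1.2 n'.1.2) h
  obtain ⟨h3, h4⟩ := dm_inj n.2.1.2 n'.2.1.2 h1
  exact Prod.ext (Fin.ext h4) (Prod.ext (Fin.ext h3) (Fin.ext h2))

theorem num_s {I j k s f DA DB DC DK : ℕ} (h : num I j k s f DA DB DC DK = true) : P I j k s 0 f := by
  classical
  let g : Fin s ⊕ Fin f → Gad := Sum.elim (fun _ => T 0 0) fun _ => CP 1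
  refine S_of_fam g (by
    rw [map_univ_sum, map_univ_const, map_univ_const, Fintype.card_fin, Fintype.card_fin,
      Multiset.replicate_zero, add_zero]) ?_
  let a : (Fin s ⊕ Fin f) × ℕ → Fin I → ℂ := fun p =>
    Sum.elim (fun p : Fin s => bv I (dig DA I p)) (fun q : Fin f => bv I (2 ^ (dig DK 12 q / j))) p.1
  let b : (Fin s ⊕ Fin f) × ℕ → Fin j → ℂ := fun p =>
    Sum.elim (fun p : Fin s => bv j (dig DB j p)) (fun q : Fin f => bv j (2 ^ (dig DK 12 q % j))) p.1
  let c : (Fin s ⊕ Fin f) × ℕ → Fin k → ℂ := fun p =>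
    Sum.elim (fun p : Fin s => bv k (dig DC k p)) (fun _ : Fin f => 0) p.1
  refine ⟨a, b, c, top_of_ann _ fun Φ hΦ => ?_⟩
  refine gf2 {w | (fun n => if w n then (1 : ℂ) else 0) ∈ (fam g).sp a b c} (fun v hv => ?_) Φ
    fun w hw => by simpa using hΦ _ hw
  let v' : ℕ → ZMod 2 := fun m => ∑ n, if pos n = m then v n else 0
  have hv' : ∀ n, v' (pos n) = v n := fun n => by
    simp only [v', pos_inj.eq_iff, sum_ite_eq', mem_univ, if_true]
  have hD : ∀ x y z, tp (bv I x) (bv j y) (bv k z) ∈ (fam g).sp a b c →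
      Dt v' (j * I * k) (tn I j k x y z) = 0 := fun x y z hm => by
    rw [← hv (wb I j k x y z) (by rwa [Set.mem_ofPred_eq, wb_tp]), Dt]
    have e1 : ∀ m, (if (tn I j k x y z).testBit m then v' m else 0) =
        ∑ n, if pos n = m then (if wb I j k x y z n then v n else 0) else 0 := fun m => by
      have e2 : ∀ n : Fin I × Fin j × Fin k, pos n = m → wb I j k x y z n = (tn I j k x y z).testBit m := by
        rintro n rfl
        exact (tn_bit n.1.2 n.2.1.2 n.2.2.2).symm
      split_ifs with h1
      · refine sum_congr rfl fun n _ => ?_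
        by_cases h0 : pos n = m
        · rw [if_pos h0, if_pos h0, e2 n h0, if_pos h1]
        · rw [if_neg h0, if_neg h0]
      · refine (sum_eq_zero fun n _ => ?_).symm
        by_cases h0 : pos n = m
        · rw [if_pos h0, e2 n h0, if_neg h1]
        · rw [if_neg h0]
    rw [sum_congr rfl fun m _ => e1 m, sum_comm]
    refine sum_congr rfl fun n _ => ?_
    rw [sum_ite_eq, if_pos (mem_range.2 (pos_lt n))]
  have H := num_v (v := v') h
    (fun p hp x => hD _ _ _ (Small_A (g := g) (Sum.inl ⟨p, hp⟩) 0 0 rfl _))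
    (fun p hp x => hD _ _ _ (Small_B (g := g) (Sum.inl ⟨p, hp⟩) 0 0 rfl _))
    (fun p hp x => hD _ _ _ (Small_C (g := g) (Sum.inl ⟨p, hp⟩) 0 0 ⟨le_rfl, rfl⟩ _))
    (fun q hq hlt l hl => by
      have hj : 0 < j := Nat.pos_of_ne_zero fun h0 => by simp [h0] at hlt
      let n0 : Fin I × Fin j × Fin k :=
        (⟨dig DK 12 q / j, Nat.div_lt_of_lt_mul hlt⟩, ⟨dig DK 12 q % j, Nat.mod_lt _ hj⟩, ⟨l, hl⟩)
      have e : j * I * l + dig DK 12 q = pos n0 := by
        have := Nat.mod_add_div (dig DK 12 q) j
        simp only [pos, n0]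
        omega
      rw [e, hv']
      have h1 := hv (wb I j k (2 ^ (dig DK 12 q / j)) (2 ^ (dig DK 12 q % j)) (2 ^ l)) (by
        rw [Set.mem_ofPred_eq, wb_tp]
        exact Small_C (g := g) (Sum.inr ⟨q, hq⟩) 0 0 ⟨Nat.one_pos, rfl⟩ _)
      rw [sum_eq_single n0 (fun n _ hn => if_neg fun hw => hn ?_) (fun h => absurd (mem_univ _) h),
        if_pos (by simp [wb, n0])] at h1
      · exact h1
      · simp only [wb, Nat.testBit_two_pow, Bool.and_eq_true, decide_eq_true_eq] at hw
        exact Prod.ext (Fin.ext hw.2.1.symm) (Prod.ext (Fin.ext hw.2.2.symm) (Fin.ext hw.1.symm)))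
  funext n
  rw [← hv' n]
  exact H _ (pos_lt n)

end Pool.Agent.Work.MP_f4b644_ag.Dag
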