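import Pool.Agent.Work.MP_f4b644_ag.Dag.SoundV
import Pool.Agent.Work.MP_f4b644_ag.Dag.NumS
import Pool.Agent.Work.MP_f4b644_ag.Dag.Ex
import Pool.Agent.Work.MP_f4b644_ag.Dag.NumD1
import Pool.Agent.Work.MP_f4b644_ag.Dag.NumD2
import Pool.Agent.Work.MP_f4b644_ag.Dag.NumD3
import Pool.Agent.Work.MP_f4b644_ag.Dag.NumD4

/-!
The roots which need the numerical leaf.
-/

set_option autoImplicit false

namespace Pool.Agent.Work.MP_f4b644_ag.Dag

open Big Thin Pool.Agent.Lib.KLA

theorem exL_s {l : List (ℕ × ℕ × ℕ)} (H : ∀ x ∈ l, Root x.1 x.2.1 x.2.2) (I J r : ℕ)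
    (h : exL l I J r = true) : Root I J r := by
  induction l with
  | nil => exact absurd h Bool.false_ne_true
  | cons x l ih =>
    have h' : bor (bnd (Nat.beq x.1 I) (bnd (Nat.beq x.2.1 J) (Nat.beq x.2.2 r))) (exL l I J r) = true := h
    simp only [bor_iff, bnd_iff, Nat.beq_eq] at h'
    rcases h' with ⟨rfl, rfl, rfl⟩ | h'
    · exact H x List.mem_cons_self
    · exact ih (fun y hy => H y (List.mem_cons_of_mem _ hy)) h'

theorem P_blk {I J K r : ℕ} (k1 c s1 d : ℕ) (h1 : k1 * c ≤ K) (h2 : c * s1 ≤ r) (H1 : P I J k1 s1 0 (r - s1))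
    (H2 : Nat.beq (chkF 40 I J (K - c * k1) (r - c * s1) 0 (c * s1) d) 0 = false) : P I J K r 0 0 := by
  rw [chkF_eq] at H2
  have H3 := chk_s 40 _ _ _ _ _ _ _ (Nat.ne_of_beq_eq_false H2)
  exact P_iff.2 (cutC_aux k1 c s1 0 0 h1 h2 le_rfl le_rfl
    (Cuts_congr (P_iff.1 H1) rfl rfl rfl rfl rfl (by omega))
    (Cuts_congr (P_iff.1 H3) rfl rfl (by omega) (by omega) rfl (by omega)))

theorem exA_s : ∀ I J r, exL exA I J r = true → Root I J r := by
  refine exL_s ?_
  simp only [exA, List.forall_mem_cons, List.not_mem_nil, false_imp_iff, implies_true, and_true]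
  exact ⟨Root_of (num_s nm5.down), Root_of (num_s nm6.down),
    Root_of (P_blk 16 3 19 0x873a (by decide) (by decide) (num_s nm9.down) (by decide +kernel)),
    Root_of (P_blk 20 4 23 0x1499a (by decide) (by decide) (num_s nm11.down) (by decide +kernel)),
    Root_of (P_blk 28 6 31 0x44b1a (by decide) (by decide) (num_s nm15.down) (by decide +kernel)),
    Root_of (P_blk 32 7 35 0x76b1a (by decide) (by decide) (num_s nm17.down) (by decide +kernel)),
    Root_of (P_blk 40 9 43 0x126c5a (by decide) (by decide) (num_s nm21.down) (by decide +kernel)),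
    Root_of (P_blk 44 10 47 0x1b229a (by decide) (by decide) (num_s nm23.down) (by decide +kernel))⟩

end Pool.Agent.Work.MP_f4b644_ag.Dag
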