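import Pool.Agent.Work.MP_f4b644_ag.Dag.Chk

/-!
The checker of `Chk.lean` with all abbreviations written out, which the kernel evaluates faster.
-/

namespace Pool.Agent.Work.MP_f4b644_ag.Dag

open Pool.Agent.Lib.KLA

noncomputable section

def pure0F (I j k R C : Nat) : Bool :=
  @Bool.rec (fun _ => Bool) false (Nat.ble (Nat.mul (Nat.mul I j) k) (Nat.add (Nat.mul C j) (Nat.mul R k)))
    (@Bool.rec (fun _ => Bool) false (Nat.ble k C) (Nat.ble j R))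

def rFullF : Ck := fun I _ k s b _ d => @Bool.rec (fun _ => Nat) (nat_lit 0) (Nat.add d (nat_lit 1)) (Nat.ble
    (Nat.mul I k) (Nat.add s b))

def rPureF : Ck := fun I j k s b f d =>
  @Bool.rec (fun _ => Nat) (nat_lit 0) (Nat.add (Nat.div d (Nat.add s (nat_lit 1))) (nat_lit 1)) (pure0F I j
    k (Nat.add f (Nat.mod d (Nat.add s (nat_lit 1)))) (Nat.sub (Nat.add b s) (Nat.mod d (Nat.add s (nat_lit
    1)))))

def rColF : Ck := fun I j k s b f d =>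
  @Bool.rec (fun _ => Nat) (nat_lit 0) (Nat.add d (nat_lit 1)) (@Bool.rec (fun _ => Bool) false (pure0F I j
    (Nat.sub k s) (Nat.add s f) b) (@Bool.rec (fun _ => Bool) false (Nat.ble (Nat.add (Nat.mul I j) (nat_lit
    2)) (Nat.add (Nat.add (Nat.add s f) I) j)) (Nat.ble (nat_lit 2) I)))

def corF (s e X Y w y : Nat) : Bool :=
  @Bool.rec (fun _ => Bool) false (Nat.ble (Nat.add (Nat.mul (@Bool.rec (fun _ => Nat) (Nat.sub s (Nat.sub s
    (Nat.sub X (nat_lit 1)))) (nat_lit 0) (Nat.beq w (nat_lit 0))) (Nat.add (Nat.add (Nat.sub (Nat.add s e)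
    (Nat.sub (Nat.add s e) (Nat.sub Y (nat_lit 1)))) w) (nat_lit 1))) (Nat.mul (Nat.sub (Nat.add s e)
    (Nat.sub (Nat.add s e) (Nat.sub Y (nat_lit 1)))) (Nat.add y (nat_lit 1))))
        (Nat.add (Nat.mul (@Bool.rec (fun _ => Nat) (Nat.sub s (Nat.sub s (Nat.sub X (nat_lit 1)))) (nat_lit
        0) (Nat.beq w (nat_lit 0))) Y) (Nat.mul (Nat.sub (Nat.add s e) (Nat.sub (Nat.add s e) (Nat.sub Y
        (nat_lit 1)))) X))) (@Bool.rec (fun _ => Bool) false (@Bool.rec (fun _ => Bool) (Nat.ble (Nat.add y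
        (nat_lit 1)) X) true (Nat.beq (Nat.sub (Nat.add s e) (Nat.sub (Nat.add s e) (Nat.sub Y (nat_lit 1))))
        (nat_lit 0))) (@Bool.rec (fun _ => Bool) (Nat.ble (Nat.add w (nat_lit 1)) Y) true (Nat.beq (@Bool.rec
        (fun _ => Nat) (Nat.sub s (Nat.sub s (Nat.sub X (nat_lit 1)))) (nat_lit 0) (Nat.beq w (nat_lit 0)))
        (nat_lit 0))))

def rGridF : Ck := fun I j k s b f d =>
  @Bool.rec (fun _ => Nat) (nat_lit 0) (Nat.add (Nat.div d (Nat.sub I (nat_lit 3))) (nat_lit 1)) (@Bool.rec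
    (fun _ => Bool) false (@Bool.rec (fun _ => Bool) false (corF s (nat_lit 0) (Nat.sub (Nat.mul (Nat.add
    (Nat.add (Nat.mod d (Nat.sub I (nat_lit 3))) (nat_lit 1)) (nat_lit 2)) j) (Nat.add s f)) (Nat.sub
    (Nat.mul (Nat.add (Nat.sub (Nat.sub I (nat_lit 3)) (Nat.add (Nat.mod d (Nat.sub I (nat_lit 3))) (nat_lit
    1))) (nat_lit 2)) k) (Nat.add s b)) (Nat.sub (Nat.sub I (nat_lit 3)) (Nat.add (Nat.mod d (Nat.sub I
    (nat_lit 3))) (nat_lit 1))) (Nat.add (Nat.mod d (Nat.sub I (nat_lit 3))) (nat_lit 1))) (@Bool.rec (fun _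
    => Bool) false (Nat.ble (Nat.mul (Nat.add (Nat.add (Nat.mod d (Nat.sub I (nat_lit 3))) (nat_lit 1))
    (nat_lit 1)) j) (Nat.add s f)) (Nat.ble (Nat.mul (Nat.add (Nat.sub (Nat.sub I (nat_lit 3)) (Nat.add
    (Nat.mod d (Nat.sub I (nat_lit 3))) (nat_lit 1))) (nat_lit 1)) k) (Nat.add s b)))) (@Bool.rec (fun _ =>
    Bool) false (@Bool.rec (fun _ => Bool) false (Nat.ble (Nat.mul (Nat.mul I j) k)
          (Nat.add (Nat.mul s (Nat.sub I (nat_lit 2))) (Nat.add (Nat.mul (Nat.add s b) j) (Nat.mul (Nat.add s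
          f) k)))) (Nat.ble s k)) (@Bool.rec (fun _ => Bool) false (Nat.ble s j) (Nat.ble (nat_lit 4) I))))

def stripF (I k b h x s x' s' : Nat) : Bool :=
  @Bool.rec (fun _ => Bool) false (@Bool.rec (fun _ => Bool) false (Nat.ble (Nat.mul (Nat.sub k s) (Nat.add h
    x))
          (Nat.add (Nat.mul h (Nat.add s' b)) (Nat.mul s' (Nat.sub (Nat.sub (Nat.sub I (nat_lit 2)) x')
          (Nat.sub (Nat.sub (Nat.sub I (nat_lit 2)) x') x))))) (Nat.ble (Nat.add (Nat.mul s (Nat.add (Nat.sub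
          (Nat.sub I (nat_lit 2)) x) (nat_lit 1))) (Nat.add x h)) (Nat.mul I h))) (@Bool.rec (fun _ => Bool)
          false (@Bool.rec (fun _ => Bool) false (@Bool.rec (fun _ => Bool) (Nat.ble s h) true (Nat.ble
          (Nat.add (Nat.sub (Nat.sub I (nat_lit 2)) x) (nat_lit 1)) (Nat.sub (Nat.sub I (nat_lit 3)) (Nat.div
          (Nat.sub x (nat_lit 1)) h)))) (Nat.ble (Nat.mul s (Nat.sub (Nat.sub I (nat_lit 2)) x)) (Nat.mul
          (Nat.sub (Nat.sub I (nat_lit 3)) (Nat.div (Nat.sub x (nat_lit 1)) h)) h))) (@Bool.rec (fun _ =>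
          Bool) false (Nat.ble s k) (Nat.ble (nat_lit 1) (Nat.sub (Nat.sub I (nat_lit 3)) (Nat.div (Nat.sub x
          (nat_lit 1)) h)))))

def rStripF : Ck := fun I j k s b f d =>
  @Bool.rec (fun _ => Nat) (nat_lit 0) (Nat.add (Nat.div (Nat.div (Nat.div (Nat.div d j) (Nat.sub I (nat_lit
    2))) (Nat.sub I (nat_lit 2))) (Nat.add s (nat_lit 1))) (nat_lit 1)) (@Bool.rec (fun _ => Bool) false
    (@Bool.rec (fun _ => Bool) false (stripF I k b (Nat.sub j (Nat.mod d j)) (Nat.add (Nat.mod (Nat.div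
    (Nat.div d j) (Nat.sub I (nat_lit 2))) (Nat.sub I (nat_lit 2))) (nat_lit 1)) (Nat.sub s (Nat.mod (Nat.div
    (Nat.div (Nat.div d j) (Nat.sub I (nat_lit 2))) (Nat.sub I (nat_lit 2))) (Nat.add s (nat_lit 1))))
    (Nat.add (Nat.mod (Nat.div d j) (Nat.sub I (nat_lit 2))) (nat_lit 1)) (Nat.mod (Nat.div (Nat.div (Nat.div
    d j) (Nat.sub I (nat_lit 2))) (Nat.sub I (nat_lit 2))) (Nat.add s (nat_lit 1)))) (stripF I k b (Nat.mod d
    j) (Nat.add (Nat.mod (Nat.div d j) (Nat.sub I (nat_lit 2))) (nat_lit 1)) (Nat.mod (Nat.div (Nat.div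
    (Nat.div d j) (Nat.sub I (nat_lit 2))) (Nat.sub I (nat_lit 2))) (Nat.add s (nat_lit 1))) (Nat.add
    (Nat.mod (Nat.div (Nat.div d j) (Nat.sub I (nat_lit 2))) (Nat.sub I (nat_lit 2))) (nat_lit 1)) (Nat.sub s
    (Nat.mod (Nat.div (Nat.div (Nat.div d j) (Nat.sub I (nat_lit 2))) (Nat.sub I (nat_lit 2))) (Nat.add s
    (nat_lit 1)))))) (Nat.ble (Nat.mul I j) (Nat.add (Nat.add (Nat.add s f) j) (Nat.add (Nat.add (Nat.mod
    (Nat.div d j) (Nat.sub I (nat_lit 2))) (nat_lit 1)) (Nat.add (Nat.mod (Nat.div (Nat.div d j) (Nat.sub I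
    (nat_lit 2))) (Nat.sub I (nat_lit 2))) (nat_lit 1))))))

def rLevF (ih : Ck) : Ck := fun I j k s b f d =>
  @Bool.rec (fun _ => Nat) (nat_lit 0) (ih (Nat.sub I (Nat.mod (Nat.div d (nat_lit 2)) I)) j k s b (Nat.sub f
    (Nat.mul (Nat.mod (Nat.div d (nat_lit 2)) I) (Nat.sub j (Nat.sub (Nat.div s k) (Nat.mod d (nat_lit
    2)))))) (Nat.div (Nat.div d (nat_lit 2)) I)) (Nat.ble (Nat.mul (Nat.mod (Nat.div d (nat_lit 2)) I)
    (Nat.sub j (Nat.sub (Nat.div s k) (Nat.mod d (nat_lit 2))))) f)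

def rCutF (ih : Ck) : Ck := fun I j k s b f d =>
  thn (ih I (Nat.mod d (Nat.add j (nat_lit 1))) k (Nat.mod (Nat.div (Nat.div d (Nat.add j (nat_lit 1)))
    (Nat.add (Nat.div j (Nat.mod d (Nat.add j (nat_lit 1)))) (nat_lit 1))) (Nat.add (Nat.div s (Nat.mod
    (Nat.div d (Nat.add j (nat_lit 1))) (Nat.add (Nat.div j (Nat.mod d (Nat.add j (nat_lit 1)))) (nat_lit
    1)))) (nat_lit 1))) (Nat.sub (Nat.add s b) (Nat.mod (Nat.div (Nat.div d (Nat.add j (nat_lit 1))) (Nat.add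
    (Nat.div j (Nat.mod d (Nat.add j (nat_lit 1)))) (nat_lit 1))) (Nat.add (Nat.div s (Nat.mod (Nat.div d
    (Nat.add j (nat_lit 1))) (Nat.add (Nat.div j (Nat.mod d (Nat.add j (nat_lit 1)))) (nat_lit 1)))) (nat_lit
    1)))) (Nat.mod (Nat.div (Nat.div (Nat.div d (Nat.add j (nat_lit 1))) (Nat.add (Nat.div j (Nat.mod d
    (Nat.add j (nat_lit 1)))) (nat_lit 1))) (Nat.add (Nat.div s (Nat.mod (Nat.div d (Nat.add j (nat_lit 1)))
    (Nat.add (Nat.div j (Nat.mod d (Nat.add j (nat_lit 1)))) (nat_lit 1)))) (nat_lit 1))) (Nat.add (Nat.div f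
    (Nat.mod (Nat.div d (Nat.add j (nat_lit 1))) (Nat.add (Nat.div j (Nat.mod d (Nat.add j (nat_lit 1))))
    (nat_lit 1)))) (nat_lit 1))) (Nat.div (Nat.div (Nat.div (Nat.div d (Nat.add j (nat_lit 1))) (Nat.add
    (Nat.div j (Nat.mod d (Nat.add j (nat_lit 1)))) (nat_lit 1))) (Nat.add (Nat.div s (Nat.mod (Nat.div d
    (Nat.add j (nat_lit 1))) (Nat.add (Nat.div j (Nat.mod d (Nat.add j (nat_lit 1)))) (nat_lit 1)))) (nat_lit
    1))) (Nat.add (Nat.div f (Nat.mod (Nat.div d (Nat.add j (nat_lit 1))) (Nat.add (Nat.div j (Nat.mod d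
    (Nat.add j (nat_lit 1)))) (nat_lit 1)))) (nat_lit 1)))) fun g =>
      ih I (Nat.sub j (Nat.mul (Nat.mod (Nat.div d (Nat.add j (nat_lit 1))) (Nat.add (Nat.div j (Nat.mod d
      (Nat.add j (nat_lit 1)))) (nat_lit 1))) (Nat.mod d (Nat.add j (nat_lit 1))))) k (Nat.sub s (Nat.mul
      (Nat.mod (Nat.div d (Nat.add j (nat_lit 1))) (Nat.add (Nat.div j (Nat.mod d (Nat.add j (nat_lit 1))))
      (nat_lit 1))) (Nat.mod (Nat.div (Nat.div d (Nat.add j (nat_lit 1))) (Nat.add (Nat.div j (Nat.mod d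
      (Nat.add j (nat_lit 1)))) (nat_lit 1))) (Nat.add (Nat.div s (Nat.mod (Nat.div d (Nat.add j (nat_lit
      1))) (Nat.add (Nat.div j (Nat.mod d (Nat.add j (nat_lit 1)))) (nat_lit 1)))) (nat_lit 1))))) (Nat.add b
      (Nat.mul (Nat.mod (Nat.div d (Nat.add j (nat_lit 1))) (Nat.add (Nat.div j (Nat.mod d (Nat.add j
      (nat_lit 1)))) (nat_lit 1))) (Nat.mod (Nat.div (Nat.div d (Nat.add j (nat_lit 1))) (Nat.add (Nat.div j
      (Nat.mod d (Nat.add j (nat_lit 1)))) (nat_lit 1))) (Nat.add (Nat.div s (Nat.mod (Nat.div d (Nat.add j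
      (nat_lit 1))) (Nat.add (Nat.div j (Nat.mod d (Nat.add j (nat_lit 1)))) (nat_lit 1)))) (nat_lit 1)))))
      (Nat.sub f (Nat.mul (Nat.mod (Nat.div d (Nat.add j (nat_lit 1))) (Nat.add (Nat.div j (Nat.mod d
      (Nat.add j (nat_lit 1)))) (nat_lit 1))) (Nat.mod (Nat.div (Nat.div (Nat.div d (Nat.add j (nat_lit 1)))
      (Nat.add (Nat.div j (Nat.mod d (Nat.add j (nat_lit 1)))) (nat_lit 1))) (Nat.add (Nat.div s (Nat.mod
      (Nat.div d (Nat.add j (nat_lit 1))) (Nat.add (Nat.div j (Nat.mod d (Nat.add j (nat_lit 1)))) (nat_lit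
      1)))) (nat_lit 1))) (Nat.add (Nat.div f (Nat.mod (Nat.div d (Nat.add j (nat_lit 1))) (Nat.add (Nat.div
      j (Nat.mod d (Nat.add j (nat_lit 1)))) (nat_lit 1)))) (nat_lit 1))))) g

def selF (ih : Ck) (t : Nat) : Ck :=
  @Bool.rec (fun _ => Ck) (@Bool.rec (fun _ => Ck) (@Bool.rec (fun _ => Ck) (@Bool.rec (fun _ => Ck) rFullF
    rPureF (Nat.ble (nat_lit 2) t)) (@Bool.rec (fun _ => Ck) rColF rThm (Nat.ble (nat_lit 6) t)) (Nat.ble
    (nat_lit 4) t)) (@Bool.rec (fun _ => Ck) rGridF rStripF (Nat.ble (nat_lit 10) t)) (Nat.ble (nat_lit 8)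
    t)) (@Bool.rec (fun _ => Ck) (rLevF ih) (rCutF ih) (Nat.ble (nat_lit 14) t)) (Nat.ble (nat_lit 12) t)

def stepF (ih : Ck) : Ck := fun I j k s b f d =>
  @Bool.rec (fun _ => Nat) (selF ih (Nat.land d (nat_lit 15)) I k j s f b (Nat.shiftRight d (nat_lit 4)))
    (selF ih (Nat.land d (nat_lit 15)) I j k s b f (Nat.shiftRight d (nat_lit 4))) (Nat.beq (Nat.land
    (Nat.land d (nat_lit 15)) (nat_lit 1)) (nat_lit 0))

def chkF (n : Nat) : Ck :=
  Nat.rec (motive := fun _ => Ck) (fun _ _ _ _ _ _ _ => 0) (fun _ ih => stepF ih) n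

def rootF (ex : Nat → Nat → Nat → Bool) (I J r d : Nat) : Nat :=
  @Bool.rec (fun _ => Nat) (@Bool.rec (fun _ => Nat) (@Bool.rec (fun _ => Nat) (@Bool.rec (fun _ => Nat)
    (chkF (nat_lit 40) I J (Nat.div (Nat.mul r (Nat.sub (Nat.add J I) (nat_lit 2))) (Nat.sub (Nat.mul I J)
    r)) r (nat_lit 0) (nat_lit 0) d) (@Bool.rec (fun _ => Nat) (nat_lit 0) (Nat.add (Nat.shiftRight d
    (nat_lit 4)) (nat_lit 1)) (ex I J r)) (Nat.beq (Nat.land d (nat_lit 15)) (nat_lit 1))) (pair I (Nat.div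
    (Nat.mul r (Nat.sub (Nat.add J I) (nat_lit 2))) (Nat.sub (Nat.mul I J) r)) J r (Nat.shiftRight d (nat_lit
    4))) (Nat.beq (Nat.land d (nat_lit 15)) (nat_lit 7))) (pair I J (Nat.div (Nat.mul r (Nat.sub (Nat.add J
    I) (nat_lit 2))) (Nat.sub (Nat.mul I J) r)) r (Nat.shiftRight d (nat_lit 4))) (Nat.beq (Nat.land d
    (nat_lit 15)) (nat_lit 6))) (chkF (nat_lit 40) I J (Nat.div (Nat.mul r (Nat.sub (Nat.add J I) (nat_lit
    2))) (Nat.sub (Nat.mul I J) r)) r (nat_lit 0) (nat_lit 0) d) (Nat.ble (nat_lit 8) (Nat.land d (nat_lit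
    15)))

def rootsF (ex : Nat → Nat → Nat → Bool) (I J n : Nat) : Nat → Nat → Bool :=
  Nat.rec (motive := fun _ => Nat → Nat → Bool) (fun _ _ => true)
    (fun _ ih r d => Nat.rec (motive := fun _ => Bool) false
      (fun d' _ => strict (Nat.add r 1) fun r' => ih r' d') (rootF ex I J r d)) n

def runF (ex : Nat → Nat → Nat → Bool) (lo hi : Nat → Nat → Nat) (I J1 : Nat) (l : List Nat) :
    Nat → Nat → Bool :=
  List.rec (motive := fun _ => Nat → Nat → Bool) (fun J _ => Nat.ble J1 J)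
    (fun d _ ih J r => strict (hi I J) fun h =>
      cnd (Nat.ble h (Nat.add r 16))
        (bnd (rootsF ex I J (Nat.sub h r) r d)
          (strict (Nat.add J 1) fun J' => strict (lo I J') fun r' => ih J' r'))
        (bnd (rootsF ex I J 16 r d) (strict (Nat.add r 16) fun r' => ih J r'))) l

end

end Pool.Agent.Work.MP_f4b644_ag.Dag
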