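import Pool.Agent.Work.MP_f4b644_ag.Dag.Exc
import Pool.Agent.Work.MP_f4b644_ag.Dag.DA4_1

/-! All roots of one first dimension. -/

namespace Pool.Agent.Work.MP_f4b644_ag.Dag

theorem covA4_1 : Cov loA hiA 4 4 201 :=
  Cov.trans (cov_of_run exA_s cA4_4.down) <|
  Cov.trans (cov_of_run exA_s cA4_79.down) <|
  Cov.trans (cov_of_run exA_s cA4_111.down) <|
  Cov.trans (cov_of_run exA_s cA4_136.down) <|
  Cov.trans (cov_of_run exA_s cA4_157.down) <|
  Cov.trans (cov_of_run exA_s cA4_176.down) <|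
  cov_of_run exA_s cA4_193.down

theorem covA4 : Cov loA hiA 4 4 201 :=
  covA4_1

end Pool.Agent.Work.MP_f4b644_ag.Dag
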