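import Pool.Agent.Work.MP_f4b644_ag.Thin.Cuts
import Pool.Agent.Work.MP_f4b644_ag.Thin.Leaf
import Pool.Agent.Work.MP_f4b644_ag.Thin.M1
import Pool.Agent.Work.MP_f4b644_ag.Big.Strip

/-!
The rules of the proof trees of the finite rest, for states `BS I j k s u b e G f`.
-/

set_option autoImplicit false

namespace Pool.Agent.Work.MP_f4b644_ag.Dag

open Big Thin Multiset Big.Gad

/-- a plain state -/
def P (I j k s b f : ℕ) : Prop :=
  S I j k (replicate s (T 0 0) + replicate b (BP 0) + replicate f (CP 1))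

theorem P_iff {I j k s b f : ℕ} : P I j k s b f ↔ BS I j k s 0 b 0 0 f := by
  simp only [P, BS, replicate_zero, add_zero]

theorem rle {a b : ℕ} (g : Gad) (h : a ≤ b) : replicate a g ≤ replicate b g :=
  (replicate_le_replicate _).2 h

theorem BS_mono {I j k s u b e G f s' u' b' e' G' f' : ℕ} (h : BS I j k s u b e G f)
    (h1 : s ≤ s') (h2 : u ≤ u') (h3 : b ≤ b') (h4 : e ≤ e') (h5 : G ≤ G') (h6 : f ≤ f') :
    BS I j k s' u' b' e' G' f' :=
  S.mono (add_le_add (add_le_add (add_le_add (add_le_add (add_le_add (rle _ h1) (rle _ h2))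
    (rle _ h3)) (rle _ h4)) (rle _ h5)) (rle _ h6)) h

theorem P_mono {I j k s b f s' b' f' : ℕ} (h : P I j k s b f) (h1 : s ≤ s') (h3 : b ≤ b')
    (h6 : f ≤ f') : P I j k s' b' f' :=
  S.mono (add_le_add (add_le_add (rle _ h1) (rle _ h3)) (rle _ h6)) h

theorem P_congr {I j k s b f I' j' k' s' b' f' : ℕ} (h : P I j k s b f) (h0 : I = I') (h1 : j = j')
    (h2 : k = k') (h3 : s = s') (h4 : b = b') (h5 : f = f') : P I' j' k' s' b' f' := by
  subst h0 h1 h2 h3 h4 h5
  exact h

theorem BS_dim {I j k I' j' k' s u b e G f : ℕ} (h : BS I j k s u b e G f) (h0 : I = I') (h1 : j = j')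
    (h2 : k = k') : BS I' j' k' s u b e G f := by
  subst h0 h1 h2
  exact h

theorem P_swap {I j k s b f : ℕ} (h : P I k j s f b) : P I j k s b f := by
  have := S_swap s f b 0 (h.of_eq (by rw [replicate_zero, add_zero]))
  exact this.of_eq (by rw [replicate_zero, add_zero])

/-- tangents are at least as good as single fibres -/
theorem P_deg {I j k s b f : ℕ} (tB tC : ℕ) (h : P I j k s (b + tB) (f + tC)) :
    P I j k (s + tB + tC) b f := by
  have h1 := S.rep red_BP_T tB (replicate s (T 0 0) + replicate b (BP 0) + replicate (f + tC) (CP 1))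
    (h.of_eq (by simp only [replicate_add]; abel))
  have h2 := S.rep red_CP_T tC (replicate tB (T 0 0) + (replicate s (T 0 0) + replicate b (BP 0) +
    replicate f (CP 1))) (h1.of_eq (by simp only [replicate_add]; abel))
  exact h2.of_eq (by simp only [replicate_add]; abel)

theorem P_full {I j k s b f : ℕ} (h : I * k ≤ s + b) : P I j k s b f := by
  have h0 : P I j k 0 (b + s) (f + 0) :=
    (S_Blev I j k).mono (le_trans (rle _ (by omega)) (le_trans (le_add_left _ _) (le_add_right _ _)))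
  exact P_congr (P_deg s 0 h0) rfl rfl rfl (by omega) rfl rfl

theorem af_row (k : ℕ) : S 1 1 k (replicate k (AF 0)) := by
  induction k with
  | zero => exact S_zeroC _ _ _
  | succ k ih => exact S.splitC (Small_spl (ruleC_AF 0) k 1) ih (S_AF1 1 0)

theorem af_all (n k : ℕ) : S 1 n k (replicate (n * k) (AF 0)) := by
  induction n with
  | zero => exact S_zeroB _ _ _
  | succ n ih =>
    rw [Nat.succ_mul]
    exact S.splitB (Small_spl (ruleB_AF 0) (n * k) k) ih (af_row k)

/-- a level of C-fibres with `n` rows filled by points -/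
theorem lvlC {j k a c : ℕ} (n : ℕ) (h1 : n * k ≤ a) (h2 : j ≤ c + n) :
    S 1 j k (replicate a (AF 0) + replicate c (CP 1)) := by
  have h := S.splitB (((Spl.repR (ruleB_AF 0).symm ((j - c) * k)).add
    (Spl.repL (ruleB_CP 1) (min c j))).of_eq rfl (zero_add _).symm (add_zero _).symm)
    (S_CP1 (min c j) k) (af_all (j - c) k)
  rw [show min c j + (j - c) = j by omega] at h
  refine h.mono (add_le_add (rle _ (le_trans (Nat.mul_le_mul_right _ (by omega)) h1))
    (rle _ (min_le_left _ _)))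

/-- a level of B-fibres with `n` columns filled by points -/
theorem lvlB {j k a c : ℕ} (n : ℕ) (h1 : n * j ≤ a) (h2 : k ≤ c + n) :
    S 1 j k (replicate a (AF 0) + replicate c (BP 0)) := by
  have h := S.splitC (((Spl.repR (ruleC_AF 0).symm (j * (k - c))).add
    (Spl.repL (ruleC_BP 0) (1 * min c k))).of_eq rfl (zero_add _).symm (add_zero _).symm)
    (S_Blev 1 j (min c k)) (af_all j (k - c))
  rw [show min c k + (k - c) = k by omega] at h
  refine h.mono (add_le_add (rle _ (le_trans ?_ h1)) (rle _ (by omega)))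
  rw [mul_comm]
  exact Nat.mul_le_mul_right _ (by omega)

theorem BS_lev {I j k s u b e G f : ℕ} (c1 c2 : ℕ) (h : BS I j k s u b e G f)
    (hl : S 1 j k (replicate (s + u) (AF 0) + (replicate c1 (BP 0) + replicate c2 (CP 1)))) :
    BS (I + 1) j k s u (b + c1) e G (f + c2) := by
  have r1 : Rule Dir.A (T 0 0) (T 0 0) (AF 0) := ruleA_T 0 0
  have r2 : Rule Dir.A (T 1 0) (T 1 0) (AF 0) := ruleA_T 1 0
  have r3 : Rule Dir.A (CP 2) (CP 2) (CP 0) := ruleA_CP 2 0
  have r4 : Rule Dir.A (CP 1) (CP 1) (CP 0) := ruleA_CP 1 0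
  have hs := (((((((Spl.rep r1 s).add (Spl.rep r2 u)).add (Spl.repL (ruleA_BP 0) b)).add
    (Spl.repL (ruleA_BP 1) e)).add (Spl.repL r3 G)).add (Spl.repL r4 f)).add
    (Spl.repR (ruleA_BP 0).symm c1)).add (Spl.repR r4.symm c2)
  refine S.splitA (hs.of_eq ?_ ?_ ?_) h hl
  · simp only [replicate_add]
    abel
  · abel
  · simp only [replicate_add]
    abel

theorem BS_levC {I j k s u b e G f : ℕ} (n t : ℕ) (h1 : n * k ≤ s + u) (h2 : j ≤ t + n) (q : ℕ)
    (h : BS I j k s u b e G f) : BS (I + q) j k s u b e G (f + q * t) := by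
  induction q with
  | zero => simpa using h
  | succ q ih =>
    have := BS_lev 0 t ih ((lvlC n h1 h2).of_eq (by rw [replicate_zero, zero_add]))
    exact Cuts_congr this rfl rfl rfl rfl rfl (by ring)

theorem BS_levB {I j k s u b e G f : ℕ} (n t : ℕ) (h1 : n * j ≤ s + u) (h2 : k ≤ t + n) (q : ℕ)
    (h : BS I j k s u b e G f) : BS (I + q) j k s u (b + q * t) e G f := by
  induction q with
  | zero => simpa using h
  | succ q ih =>
    have := BS_lev t 0 ih ((lvlB n h1 h2).of_eq (by rw [replicate_zero, add_zero]))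
    exact Cuts_congr this rfl rfl (by ring) rfl rfl rfl

theorem red_CP_AF : Red (CP 1).cfg (AF 1).cfg := by
  refine ⟨id, id, id, ?_, ?_, ?_, ?_⟩
  · rintro q ⟨⟩
  · rintro q ⟨⟩
  · exact fun q hq => ⟨q, hq, rfl, rfl⟩
  · rintro q ⟨⟩

/-- a level which takes the mates and one fibre of every pair -/
theorem BS_lev1 {I j k s u b e G f : ℕ} (n t : ℕ) (h1 : n * k ≤ s) (h2 : j ≤ u + G + t + n)
    (h : BS I j k (s + u) 0 b e 0 (f + G)) : BS (I + 1) j k s u b e G (f + t) := by
  have r1 : Rule Dir.A (T 0 0) (T 0 0) (AF 0) := ruleA_T 0 0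
  have r2 : Rule Dir.A (T 1 0) (T 0 0) (AF 1) := ruleA_T 0 1
  have r3 : Rule Dir.A (CP 2) (CP 1) (CP 1) := ruleA_CP 1 1
  have r4 : Rule Dir.A (CP 1) (CP 1) (CP 0) := ruleA_CP 1 0
  have hs := ((((((Spl.rep r1 s).add (Spl.rep r2 u)).add (Spl.repL (ruleA_BP 0) b)).add
    (Spl.repL (ruleA_BP 1) e)).add (Spl.rep r3 G)).add (Spl.repL r4 f)).add (Spl.repR r4.symm t)
  have hl := S.rep red_CP_AF u (replicate s (AF 0) + replicate (G + t) (CP 1))
    ((lvlC (j := j) (c := u + (G + t)) n h1 (by omega)).of_eq (by simp only [replicate_add]; abel))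
  refine S.splitA (hs.of_eq ?_ ?_ ?_) h hl
  all_goals
    simp only [replicate_add, replicate_zero]
    abel

theorem red_T1 : Red (T 0 0).cfg (T 1 0).cfg := by
  refine ⟨id, id, id, ?_, ?_, ?_, ?_⟩
  · exact fun q hq => ⟨q, hq, rfl, rfl⟩
  · exact fun q hq => ⟨q, hq, rfl, rfl⟩
  · exact fun q hq => ⟨q, ⟨le_trans hq.1 (by omega), hq.2⟩, rfl, rfl⟩
  · rintro q ⟨h1, h2, -⟩
    omega

theorem red_CP2 : Red (CP 1).cfg (CP 2).cfg := by
  refine ⟨id, id, id, ?_, ?_, ?_, ?_⟩
  · rintro q ⟨⟩
  · rintro q ⟨⟩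
  · exact fun q hq => ⟨q, ⟨lt_trans hq.1 (by omega), hq.2⟩, rfl, rfl⟩
  · rintro q ⟨⟩

theorem BS_plain {I j k s u b e G f : ℕ} (h : P I j k (s + u) (b + e) (f + G)) :
    BS I j k s u b e G f := by
  have h1 := S.rep red_T1 u (replicate s (T 0 0) + replicate (b + e) (BP 0) + replicate (f + G) (CP 1))
    (h.of_eq (by simp only [replicate_add]; abel))
  have h2 := S.rep (red_BP (Nat.zero_le 1)) e (replicate u (T 1 0) + (replicate s (T 0 0) +
    replicate b (BP 0) + replicate (f + G) (CP 1))) (h1.of_eq (by simp only [replicate_add]; abel))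
  have h3 := S.rep red_CP2 G (replicate e (BP 1) + (replicate u (T 1 0) + (replicate s (T 0 0) +
    replicate b (BP 0) + replicate f (CP 1)))) (h2.of_eq (by simp only [replicate_add]; abel))
  exact h3.of_eq (by abel)

/-- `c` copies of one plain part are cut off the second factor -/
theorem BS_cutB {I j1 j2 k s1 s2 u e G f1 f2 B : ℕ} (h1 : P I j1 k s1 B f1) (c : ℕ) : ∀ b : ℕ,
    (1 ≤ c → B + s1 ≤ b + c * s1 + s2 + u + e) → BS I j2 k s2 u (b + c * s1) e G f2 →
    BS I (c * j1 + j2) k (c * s1 + s2) u b e G (c * f1 + f2) := by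
  induction c with
  | zero => intro b _ h; simpa using h
  | succ c ih =>
    intro b hB h
    have e1 : (c + 1) * s1 = c * s1 + s1 := by ring
    have hB' := hB (by omega)
    have h3 := ih (s1 + b) (fun _ => by omega) (Cuts_congr h rfl rfl (by omega) rfl rfl rfl)
    have h4 := Cuts_peel s1 (c * s1 + s2) 0 u b e G f1 (c * f1 + f2)
      (BS_mono (P_iff.1 h1) le_rfl le_rfl (by omega) le_rfl le_rfl le_rfl) h3
    exact BS_dim (Cuts_congr h4 (by omega) rfl rfl rfl rfl (by ring)) rfl (by ring) rfl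

/-- `c` copies of one part are cut off the third factor -/
theorem BS_cutC {I j k1 k2 s1 s2 u b1 b2 e1 e2 G F : ℕ} (h1 : BS I j k1 s1 0 b1 e1 (G + u) F) (c : ℕ) :
    ∀ f : ℕ, (1 ≤ c → F + s1 ≤ f + c * s1 + s2) → BS I j k2 s2 u b2 e2 G (f + c * s1) →
    BS I j (c * k1 + k2) (c * s1 + s2) u (c * b1 + b2) (c * e1 + e2) G f := by
  induction c with
  | zero => intro f _ h; simpa using h
  | succ c ih =>
    intro f hF h
    have e0 : (c + 1) * s1 = c * s1 + s1 := by ring
    have hF' := hF (by omega)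
    have h3 := ih (f + s1) (fun _ => by omega) (Cuts_congr h rfl rfl rfl rfl rfl (by omega))
    have h4 := Cuts_cut s1 (c * s1 + s2) 0 u b1 (c * b1 + b2) e1 (c * e1 + e2) G f
      (BS_mono h1 le_rfl le_rfl le_rfl le_rfl le_rfl (by omega)) h3
    exact BS_dim (Cuts_congr h4 (by omega) (by omega) (by ring) (by ring) rfl rfl) rfl rfl (by ring)

/-- states without tangents -/
theorem P_pure0 (I : ℕ) : ∀ j k R C : ℕ, j ≤ R → k ≤ C → I * j * k ≤ C * j + R * k → P I j k 0 C R := by
  induction I using Nat.strong_induction_on with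
  | _ I ih =>
    intro j k R C hj hk h
    obtain ⟨R', rfl⟩ := Nat.exists_eq_add_of_le hj
    obtain ⟨C', rfl⟩ := Nat.exists_eq_add_of_le hk
    rcases Nat.lt_or_ge I 2 with h2 | h2
    · exact P_full (by nlinarith)
    rcases Nat.lt_or_ge I 3 with h3 | h3
    · obtain rfl : I = 2 := by omega
      have h0 : P 1 j k 0 (k + C') R' := P_full (by omega)
      have := BS_levC 0 j (by omega) (by omega) 1 (P_iff.1 h0)
      exact P_congr (P_iff.2 this) rfl rfl rfl rfl rfl (by omega)
    rcases Nat.lt_or_ge I 4 with h4 | h4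
    · obtain rfl : I = 3 := by omega
      have := S_pc j k C' 0 (j - R') (by omega) (by
        rcases Nat.le_total j R' with h5 | h5
        · simp [Nat.sub_eq_zero_of_le h5]
        · obtain ⟨x, rfl⟩ := Nat.exists_eq_add_of_le h5
          rw [Nat.add_sub_cancel_left]
          nlinarith)
      refine this.mono ?_
      rw [replicate_zero, replicate_zero, add_zero, zero_add]
      exact add_le_add le_rfl (rle _ (by omega))
    obtain ⟨I', rfl⟩ : ∃ I', I = I' + 1 := ⟨I - 1, by omega⟩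
    rcases Nat.le_total k C' with h5 | h5
    · have h0 := ih I' (by omega) j k (j + R') C' (by omega) h5 (by nlinarith)
      have := BS_levB 0 k (by omega) (by omega) 1 (P_iff.1 h0)
      exact P_congr (P_iff.2 this) rfl rfl rfl rfl (by omega) rfl
    rcases Nat.le_total j R' with h6 | h6
    · have h0 := ih I' (by omega) j k R' (k + C') h6 (by omega) (by nlinarith)
      have := BS_levC 0 j (by omega) (by omega) 1 (P_iff.1 h0)
      exact P_congr (P_iff.2 this) rfl rfl rfl rfl rfl (by omega)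
    · -- then `I = 4`, `C' = k`, `R' = j` or a dimension vanishes
      rcases Nat.eq_zero_or_pos j with rfl | hj0
      · exact S_zeroB _ _ _
      have a1 : C' * j ≤ k * j := Nat.mul_le_mul_right _ h5
      have a2 : R' * k ≤ j * k := Nat.mul_le_mul_right _ h6
      have a3 : 4 * (j * k) ≤ (I' + 1) * (j * k) := Nat.mul_le_mul_right _ h4
      have h7 : k ≤ C' := Nat.le_of_mul_le_mul_right (by nlinarith : k * j ≤ C' * j) hj0
      have h0 := ih I' (by omega) j k (j + R') C' (by omega) h7 (by nlinarith)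
      have := BS_levB 0 k (by omega) (by omega) 1 (P_iff.1 h0)
      exact P_congr (P_iff.2 this) rfl rfl rfl rfl (by omega) rfl

theorem P_pure {I j k s b f : ℕ} (t : ℕ) (ht : t ≤ s) (h1 : j ≤ f + t) (h2 : k ≤ b + s - t)
    (h3 : I * j * k ≤ (b + s - t) * j + (f + t) * k) : P I j k s b f := by
  have h := P_pure0 I j k _ _ h1 h2 h3
  exact P_congr (P_deg (s - t) t (P_congr h rfl rfl rfl rfl (by omega) rfl)) rfl rfl rfl (by omega) rfl rfl

/-- every tangent fills one column -/
theorem P_col {I j k s b f : ℕ} (hI : 2 ≤ I) (h : I * j + 2 ≤ s + f + I + j)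
    (hp : P I j (k - s) 0 b (s + f)) : P I j k s b f := by
  obtain _ | j := j
  · exact S_zeroB _ _ _
  obtain ⟨I, rfl⟩ : ∃ I', I = I' + 1 := ⟨I - 1, by omega⟩
  have hc : P (I + 1) (j + 1) 1 1 0 (I * j) := by
    have := S_col (I + 1) (j + 1) 0 (by omega) (by omega) (replicate (I * j) 1) (fun z hz => by
      rw [(mem_replicate.1 hz).2]; omega) (by simp)
    refine this.of_eq ?_
    rw [map_replicate, replicate_zero, add_zero, replicate_one]
  have e0 : (I + 1) * (j + 1) = I * j + I + j + 1 := by ring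
  have h1 := BS_cutC (G := 0) (u := 0) (k2 := k - s) (s2 := 0) (b2 := b) (e2 := 0) (P_iff.1 hc) (min s k)
    (f + (s - min s k)) (fun _ => by omega) (Cuts_congr (P_iff.1 hp) rfl rfl rfl rfl rfl (by omega))
  have h2 : P (I + 1) (j + 1) k (min s k) (b + 0) (f + (s - min s k)) :=
    P_iff.2 (BS_dim (Cuts_congr h1 (by omega) rfl (by omega) (by omega) rfl rfl) rfl rfl (by omega))
  exact P_congr (P_deg 0 _ h2) rfl rfl rfl (by omega) rfl rfl

theorem P_thm {j k s b f : ℕ} (X T' : ℕ) (h0 : 2 * j ≤ s + f + X) (h1 : k + T' ≤ s + b) (h2 : T' ≤ k)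
    (h3 : X ≤ j) (h4 : k * X ≤ j * T' + s) (h5 : s + X ≤ 2 * j) (h6 : s ≤ k + T')
    (he : ¬ Exc1 j X k T') : P 3 j k s b f := by
  rcases Nat.eq_zero_or_pos j with rfl | hj
  · exact S_zeroB _ _ _
  rcases Nat.eq_zero_or_pos k with rfl | hk
  · exact S_zeroC _ _ _
  exact P_mono (thmA j X k T' s ⟨hj, hk, h3, h2, h4, h5, h6⟩ he) le_rfl (by omega) (by omega)

end Pool.Agent.Work.MP_f4b644_ag.Dag
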