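import Pool.Agent.Work.MP_f4b644_ag.Dag.TmS
import Pool.Agent.Work.MP_f4b644_ag.Dag.Small
import Pool.Agent.Work.MP_f4b644_ag.Fat.Low

/-!
The roots with small excess are added to the checked ones.
-/

set_option autoImplicit false

namespace Pool.Agent.Work.MP_f4b644_ag.Dag

open Fin Pool.Agent.Lib.KLA

theorem Cov3.need {I J0 J1 J r : ℕ} (H : Cov3 hiB I J0 J1) (hI : 6 ≤ I) (hIJ : I ≤ J) (h0 : J0 ≤ J) (h1 : J < J1)
    (h : Need I J r) : Root I J r := by
  rcases Nat.lt_or_ge r (hiB I J) with h2 | h2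
  · exact H J r h0 h1 h.2 h2
  · have e : hiB I J = cnd (bor (Nat.ble 31 I) (Nat.ble (I + 3) J)) (I * J + 5 - (J + 2 * I)) (hiA I J) := rfl
    have h3 := lt_hiA (by omega) h
    simp only [e, cnd_eq, bor_iff, Nat.ble_eq] at h2
    obtain ⟨m, rfl⟩ : ∃ m, I = m + 2 := ⟨I - 2, by omega⟩
    obtain ⟨w, hw⟩ := Nat.exists_eq_add_of_le h.1
    split_ifs at h2 with h4
    · exact Fat.root_fat_low m J w r (by omega) (by omega)
    · omega

end Pool.Agent.Work.MP_f4b644_ag.Dag
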