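import Pool.Agent.Work.MP_f4b644_ag.Dag.Ex

/-!
The loop over the roots which skips the numbers of tangents with the same largest third dimension.
-/

namespace Pool.Agent.Work.MP_f4b644_ag.Dag

open Pool.Agent.Lib.KLA

noncomputable section

/-- the check of `r` tangents in the format `I J K` -/
def rootK (ex : Nat → Nat → Nat → Bool) (I J K r d : Nat) : Nat :=
  @Bool.rec (fun _ => Nat) (@Bool.rec (fun _ => Nat) (@Bool.rec (fun _ => Nat) (@Bool.rec (fun _ => Nat)
    (chkF (nat_lit 40) I J K r (nat_lit 0) (nat_lit 0) d)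
    (@Bool.rec (fun _ => Nat) (nat_lit 0) (Nat.add (Nat.shiftRight d (nat_lit 4)) (nat_lit 1)) (ex I J r))
    (Nat.beq (Nat.land d (nat_lit 15)) (nat_lit 1)))
    (pair I K J r (Nat.shiftRight d (nat_lit 4))) (Nat.beq (Nat.land d (nat_lit 15)) (nat_lit 7)))
    (pair I J K r (Nat.shiftRight d (nat_lit 4))) (Nat.beq (Nat.land d (nat_lit 15)) (nat_lit 6)))
    (chkF (nat_lit 40) I J K r (nat_lit 0) (nat_lit 0) d) (Nat.ble (nat_lit 8) (Nat.land d (nat_lit 15)))

/-- At most `n` roots below `h` from `r` on, where `t = J + I - 2` and `p = I * J`; the result is the next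
root, or `0`. -/
def roots2 (ex : Nat → Nat → Nat → Bool) (I J t p h n : Nat) : Nat → Nat → Nat :=
  Nat.rec (motive := fun _ => Nat → Nat → Nat) (fun r _ => r)
    (fun _ ih r d => @Bool.rec (fun _ => Nat)
      (strict (Nat.div (Nat.mul r t) (Nat.sub p r)) fun K =>
        Nat.rec (motive := fun _ => Nat) (nat_lit 0)
          (fun d' _ => strict (Nat.div (Nat.add (Nat.mul (Nat.add K (nat_lit 1)) p) (Nat.add t K))
            (Nat.add (Nat.add t K) (nat_lit 1))) fun r' => ih r' d') (rootK ex I J K r d))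
      r (Nat.ble h r)) n

/-- The roots `lo I J ≤ r < hi I J` for all `J < J1`, starting at `(J, r)`, sixteen for each number of the
list. -/
def run2 (ex : Nat → Nat → Nat → Bool) (lo hi : Nat → Nat → Nat) (I J1 : Nat) (l : List Nat) :
    Nat → Nat → Bool :=
  List.rec (motive := fun _ => Nat → Nat → Bool) (fun J _ => Nat.ble J1 J)
    (fun d _ ih J r => strict (hi I J) fun h =>
      strict (Nat.sub (Nat.add J I) 2) fun t => strict (Nat.mul I J) fun p =>
      strict (roots2 ex I J t p h 16 r d) fun x =>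
        cnd (Nat.beq x 0) false
          (cnd (Nat.ble h x) (strict (Nat.add J 1) fun J' => strict (lo I J') fun r' => ih J' r') (ih J x))) l

/-- the bound for the roots near the diagonal -/
def hiD (I J : Nat) : Nat := Nat.add (Nat.div (Nat.mul (Nat.add (Nat.mul 2 I) 1) J) 4) 1

end

end Pool.Agent.Work.MP_f4b644_ag.Dag
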