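import Pool.Agent.Work.MP_f4b644_ag.Dag.Exc
import Pool.Agent.Work.MP_f4b644_ag.Dag.Run2

/-!
Soundness of the loop which skips roots.
-/

set_option autoImplicit false

namespace Pool.Agent.Work.MP_f4b644_ag.Dag

open Big Thin Multiset Big.Gad Pool.Agent.Lib.KLA

theorem Root_skip {I J r r' : ℕ} (h : Root I J r) (h1 : r ≤ r')
    (h2 : r' < ((r * (J + I - 2) / (I * J - r) + 1) * (I * J) + (J + I - 2 + r * (J + I - 2) / (I * J - r))) /
      (J + I - 2 + r * (J + I - 2) / (I * J - r) + 1)) : Root I J r' := by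
  intro K hK hr
  have hr0 : r < I * J := by omega
  generalize hq : r * (J + I - 2) / (I * J - r) = q at h2
  have hq1 : q * (I * J - r) ≤ r * (J + I - 2) := by
    rw [← hq]
    exact Nat.div_mul_le_self _ _
  have h3 := h q hq1 hr0
  have h4 : (r' + 1) * (J + I - 2 + q + 1) ≤ (q + 1) * (I * J) + (J + I - 2 + q) :=
    (Nat.le_div_iff_mul_le (by omega)).1 h2
  have h5 : K ≤ q := by
    by_contra hc
    have h6 : (q + 1) * (I * J - r') ≤ K * (I * J - r') := Nat.mul_le_mul_right _ (by omega)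
    obtain ⟨v, hv⟩ := Nat.exists_eq_add_of_le hr.le
    rw [hv, Nat.add_sub_cancel_left] at h6 hK
    rw [hv] at h4
    generalize J + I - 2 = t at *
    nlinarith
  obtain ⟨n, rfl⟩ := Nat.exists_eq_add_of_le h5
  have h7 : S I J (K + n) (replicate r' (T 0 0)) := S.mono (rle _ h1) h3
  obtain _ | r' := r'
  · obtain rfl : K = 0 := by
      rcases Nat.eq_zero_or_pos K with h0 | h0
      · exact h0
      · have : 1 * (I * J - 0) ≤ K * (I * J - 0) := Nat.mul_le_mul_right _ h0
        omega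
    exact S_zeroC _ _ _
  · exact S_proj n h7

variable {ex : ℕ → ℕ → ℕ → Bool} (hex : ∀ I J r, ex I J r = true → Root I J r)

include hex

theorem rootK_s {I J r d : ℕ} (h : rootK ex I J (r * (J + I - 2) / (I * J - r)) r d ≠ 0) : Root I J r :=
  root_s hex (d := d) (by rw [← rootF_eq]; exact h)

theorem roots2_s {I J h : ℕ} (n : ℕ) : ∀ r d, roots2 ex I J (J + I - 2) (I * J) h n r d ≠ 0 →
    ∀ r', r ≤ r' → r' < roots2 ex I J (J + I - 2) (I * J) h n r d → Root I J r' := by
  induction n with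
  | zero =>
    intro r d _ r' h1 h2
    have : r' < r := h2
    omega
  | succ n ih =>
    intro r d
    have e : roots2 ex I J (J + I - 2) (I * J) h (n + 1) r d = cnd (Nat.ble h r) r
      (thn (rootK ex I J (r * (J + I - 2) / (I * J - r)) r d) fun d' => roots2 ex I J (J + I - 2) (I * J) h n
        (((r * (J + I - 2) / (I * J - r) + 1) * (I * J) + (J + I - 2 + r * (J + I - 2) / (I * J - r))) /
          (J + I - 2 + r * (J + I - 2) / (I * J - r) + 1)) d') := rfl
    rw [e, cnd_eq]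
    split_ifs
    · intro _ r' h1 h2
      omega
    · cases hr : rootK ex I J (r * (J + I - 2) / (I * J - r)) r d with
      | zero => exact fun h0 => absurd rfl h0
      | succ d' =>
        intro h0 r' h1 h2
        have H := rootK_s hex (d := d) (by rw [hr]; exact Nat.succ_ne_zero _)
        by_cases h3 : r' < ((r * (J + I - 2) / (I * J - r) + 1) * (I * J) +
            (J + I - 2 + r * (J + I - 2) / (I * J - r))) / (J + I - 2 + r * (J + I - 2) / (I * J - r) + 1)
        · exact Root_skip H h1 h3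
        · exact ih _ d' h0 r' (Nat.le_of_not_lt h3) h2

theorem run2_s {lo hi : ℕ → ℕ → ℕ} {I J1 : ℕ} (l : List ℕ) : ∀ J r, run2 ex lo hi I J1 l J r = true →
    ∀ J' r', J' < J1 → (J' = J ∧ r ≤ r' ∨ J < J' ∧ lo I J' ≤ r') → r' < hi I J' → Root I J' r' := by
  induction l with
  | nil =>
    intro J r h J' r' h1 h2 _
    have : J1 ≤ J := Nat.le_of_ble_eq_true h
    omega
  | cons d l ih =>
    intro J r h J' r' h1 h2 h3
    have h' : cnd (Nat.beq (roots2 ex I J (J + I - 2) (I * J) (hi I J) 16 r d) 0) false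
      (cnd (Nat.ble (hi I J) (roots2 ex I J (J + I - 2) (I * J) (hi I J) 16 r d))
        (run2 ex lo hi I J1 l (J + 1) (lo I (J + 1)))
        (run2 ex lo hi I J1 l J (roots2 ex I J (J + I - 2) (I * J) (hi I J) 16 r d))) = true := h
    have H := roots2_s hex (I := I) (J := J) (h := hi I J) 16 r d
    generalize roots2 ex I J (J + I - 2) (I * J) (hi I J) 16 r d = x at h' H
    simp only [cnd_eq, Nat.beq_eq, Nat.ble_eq] at h'
    split_ifs at h' with h0 h4
    · rcases h2 with ⟨rfl, h2⟩ | ⟨h2, h5⟩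
      · exact H h0 r' h2 (by omega)
      · refine ih _ _ h' J' r' h1 ?_ h3
        rcases Nat.eq_or_lt_of_le h2 with rfl | h6
        · exact Or.inl ⟨rfl, h5⟩
        · exact Or.inr ⟨h6, h5⟩
    · rcases h2 with ⟨rfl, h2⟩ | h2
      · rcases Nat.lt_or_ge r' x with h5 | h5
        · exact H h0 r' h2 h5
        · exact ih _ _ h' J' r' h1 (Or.inl ⟨rfl, h5⟩) h3
      · exact ih _ _ h' J' r' h1 (Or.inr h2) h3

theorem cov_of_run2 {lo hi : ℕ → ℕ → ℕ} {I J0 J1 : ℕ} {l : List ℕ}
    (h : run2 ex lo hi I J1 l J0 (lo I J0) = true) : Cov lo hi I J0 J1 := fun J r h1 h2 h3 h4 => by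
  refine run2_s hex l _ _ h J r h2 ?_ h4
  rcases Nat.eq_or_lt_of_le h1 with rfl | h5
  · exact Or.inl ⟨rfl, h3⟩
  · exact Or.inr ⟨h5, h3⟩

omit hex in
theorem ex_nil : ∀ I J r, exL [] I J r = true → Root I J r := fun _ _ _ h => absurd h Bool.false_ne_true

omit hex in
theorem ex_cons {I J r : ℕ} {l : List (ℕ × ℕ × ℕ)} (h : Root I J r)
    (H : ∀ I J r, exL l I J r = true → Root I J r) :
    ∀ I' J' r', exL ((I, J, r) :: l) I' J' r' = true → Root I' J' r' := fun I' J' r' h0 => by
  have h' : bor (bnd (Nat.beq I I') (bnd (Nat.beq J J') (Nat.beq r r'))) (exL l I' J' r') = true := h0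
  simp only [bor_iff, bnd_iff, Nat.beq_eq] at h'
  rcases h' with ⟨rfl, rfl, rfl⟩ | h'
  · exact h
  · exact H _ _ _ h'

end Pool.Agent.Work.MP_f4b644_ag.Dag
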