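import Pool.Agent.Work.MP_f4b644_ag.Dag.Lem2
import Pool.Agent.Work.MP_f4b644_ag.Dag.Fast

/-!
Soundness of the checker for plain states.
-/

set_option autoImplicit false

namespace Pool.Agent.Work.MP_f4b644_ag.Dag

open Big Thin Multiset Big.Gad Pool.Agent.Lib.KLA

theorem strict_eq {α : Type} (e : ℕ) (f : ℕ → α) : strict e f = f e := rfl

theorem cnd_eq {α : Type} (b : Bool) (x y : α) : cnd b x y = if b = true then x else y := by
  cases b <;> rfl

theorem bnd_iff (a b : Bool) : bnd a b = true ↔ a = true ∧ b = true := by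
  cases a <;> cases b <;> simp [bnd]

theorem bor_iff (a b : Bool) : bor a b = true ↔ a = true ∨ b = true := by
  cases a <;> cases b <;> simp [bor]

theorem ok_ne {c : Bool} {d : ℕ} (h : ok c d ≠ 0) : c = true := by
  cases c
  · exact absurd rfl h
  · rfl

theorem grd_ne {c : Bool} {x : ℕ} (h : grd c x ≠ 0) : c = true ∧ x ≠ 0 := by
  cases c
  · exact absurd rfl h
  · exact ⟨rfl, h⟩

theorem thn_ne {x : ℕ} {g : ℕ → ℕ} (h : thn x g ≠ 0) : x ≠ 0 ∧ ∃ d, g d ≠ 0 := by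
  cases x
  · exact absurd rfl h
  · exact ⟨Nat.succ_ne_zero _, _, h⟩

theorem mn_eq (a b : ℕ) : mn a b = min a b := by
  change a - (a - b) = _
  omega

theorem div_eq (a b : ℕ) : Nat.div a b = a / b := rfl

theorem mod_eq (a b : ℕ) : Nat.mod a b = a % b := rfl

theorem mod_le (d s : ℕ) : d % (s + 1) ≤ s := Nat.le_of_lt_succ (Nat.mod_lt _ (Nat.succ_pos _))

theorem mod_mul (d s c : ℕ) : c * (d % (s / c + 1)) ≤ s :=
  le_trans (Nat.mul_le_mul_left _ (mod_le _ _)) (Nat.mul_div_le _ _)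

theorem pure0_s {I j k R C : ℕ} (h : pure0 I j k R C = true) :
    j ≤ R ∧ k ≤ C ∧ I * j * k ≤ C * j + R * k := by
  simpa only [pure0, bnd_iff, Nat.ble_eq, Nat.add_eq, Nat.mul_eq, and_assoc] using h

theorem cor_s {s e X Y w y : ℕ} (h : cor s e X Y w y = true) : Corner s X Y w e s 1 y := by
  simp only [cor, strict_eq, bnd_iff, bor_iff, cnd_eq, mn_eq, Nat.ble_eq, Nat.beq_eq, Nat.add_eq, Nat.mul_eq,
    Nat.sub_eq] at h
  refine corner2 _ _ ?_ le_rfl h.1.1 h.1.2 h.2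
  split_ifs with h0
  · exact Or.inl h0
  · exact Or.inr le_rfl

/-- soundness of a check -/
def Snd (c : Ck) : Prop := ∀ I j k s b f d, c I j k s b f d ≠ 0 → P I j k s b f

theorem rFull_s : Snd rFull := fun I j k s b f d h => by
  have := ok_ne h
  simp only [Nat.ble_eq, Nat.add_eq, Nat.mul_eq] at this
  exact P_full this

theorem rPure_s : Snd rPure := fun I j k s b f d h => by
  have := pure0_s (ok_ne h)
  exact P_pure _ (mod_le d s) this.1 this.2.1 this.2.2

theorem rCol_s : Snd rCol := fun I j k s b f d h => by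
  have := ok_ne h
  simp only [bnd_iff, Nat.ble_eq, Nat.add_eq, Nat.mul_eq, Nat.sub_eq] at this
  have h2 := pure0_s this.2
  exact P_col this.1.1 this.1.2 (P_pure0 _ _ _ _ _ h2.1 h2.2.1 h2.2.2)

theorem exc_s {j X k T' : ℕ} (h : Exc1 j X k T') : exc j X k T' = true := by
  simp only [exc, bnd_iff, bor_iff, Nat.ble_eq, Nat.beq_eq, Nat.add_eq, Nat.mul_eq, mod_eq]
  unfold Exc1 at h
  omega

theorem rThm_s : Snd rThm := fun I j k s b f d h => by
  have := ok_ne h
  simp only [bnd_iff, cnd_eq, mn_eq, Nat.ble_eq, Nat.beq_eq, Nat.add_eq, Nat.mul_eq, Nat.sub_eq, mod_eq,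
    div_eq] at this
  obtain ⟨⟨⟨rfl, h1⟩, h2, h3⟩, ⟨h4, h5⟩, h6⟩ := this
  refine P_thm _ _ (by omega) (by omega) (by omega) h2 h3 h4 h5 fun he => ?_
  rw [if_pos (exc_s he)] at h6
  exact Bool.false_ne_true h6

theorem rGrid_s : Snd rGrid := fun I j k s b f d h => by
  have := ok_ne h
  simp only [bnd_iff, Nat.ble_eq, Nat.add_eq, Nat.mul_eq, Nat.sub_eq, mod_eq] at this
  obtain ⟨⟨⟨h1, h2⟩, h3, h4⟩, ⟨h5, h6⟩, h7⟩ := this
  have h0 : d % (I - 3) < I - 3 := Nat.mod_lt _ (by omega)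
  exact P_iff.2 (BS_grid (d % (I - 3) + 1) (I - 3 - (d % (I - 3) + 1)) (s + f) (s + b) (by omega) (by omega)
    (by omega) (by omega) h2 h3 h4 h5 h6 (cor_s h7))

theorem strip_s {I k b h x s x' s' : ℕ} (H : strip I k b h x s x' s' = true) :
    Strip I k b h x s (min (I - 2 - x') x) s' := by
  simpa only [strip, Strip, strict_eq, bnd_iff, bor_iff, mn_eq, Nat.ble_eq, Nat.add_eq, Nat.mul_eq,
    Nat.sub_eq, div_eq, and_assoc] using H

theorem rStrip_s : Snd rStrip := fun I j k s b f d h => by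
  have := ok_ne h
  simp only [bnd_iff, Nat.ble_eq, Nat.add_eq, Nat.mul_eq, Nat.sub_eq, mod_eq, div_eq] at this
  obtain ⟨h1, h2, h3⟩ := this
  have h4 := strip_s h2
  have h5 := strip_s h3
  have hI : 0 < I - 2 := by
    have := le_trans h4.1 (Nat.sub_le _ _)
    omega
  rcases Nat.eq_zero_or_pos j with rfl | hj
  · exact S_zeroB _ _ _
  have a1 := Nat.mod_lt (d / j) hI
  have a2 := Nat.mod_lt (d / j / (I - 2)) hI
  exact P_strips _ _ _ _ (Nat.mod_lt _ hj).le (mod_le _ _) (by omega) (by omega) (by omega) (by omega)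
    h1 h4 h5

theorem lev_n (s k δ : ℕ) : (s / k - δ) * k ≤ s :=
  le_trans (Nat.mul_le_mul_right _ (Nat.sub_le _ _)) (Nat.div_mul_le_self _ _)

theorem rLev_s {ih : Ck} (H : Snd ih) : Snd (rLev ih) := fun I j k s b f d h => by
  obtain ⟨h1, h2⟩ := grd_ne h
  have h3 := H _ _ _ _ _ _ _ h2
  simp only [Nat.ble_eq, Nat.mul_eq, Nat.sub_eq, mod_eq, div_eq] at h1 h3
  rcases Nat.eq_zero_or_pos I with rfl | hI
  · exact S_zeroA _ _ _
  have h0 := Nat.mod_lt (d / 2) hI
  have := BS_levC (u := 0) (s / k - d % 2) (j - (s / k - d % 2)) (lev_n _ _ _) (by omega) (d / 2 % I)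
    (P_iff.1 h3)
  exact P_congr (P_iff.2 this) (by omega) rfl rfl rfl rfl (by omega)

theorem cutB_aux {I j k s u b e G f : ℕ} (j1 c s1 f1 : ℕ) (h1 : j1 * c ≤ j) (h2 : c * s1 ≤ s)
    (h3 : c * f1 ≤ f) (H1 : P I j1 k s1 (s + u + (b + e) - s1) f1)
    (H2 : BS I (j - c * j1) k (s - c * s1) u (b + c * s1) e G (f - c * f1)) : BS I j k s u b e G f := by
  rw [mul_comm] at h1
  have := BS_cutB H1 c b (fun hc => by
    have : 1 * s1 ≤ c * s1 := Nat.mul_le_mul_right _ hc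
    omega) H2
  exact BS_dim (Cuts_congr this (by omega) rfl rfl rfl rfl (by omega)) rfl (by omega) rfl

theorem rCut_s {ih : Ck} (H : Snd ih) : Snd (rCut ih) := fun I j k s b f d h => by
  obtain ⟨h1, g, h2⟩ := thn_ne h
  exact P_iff.2 (cutB_aux _ _ _ _ (mod_mul _ _ _) (mod_mul _ _ _) (mod_mul _ _ _) (H _ _ _ _ _ _ _ h1)
    (P_iff.1 (H _ _ _ _ _ _ _ h2)))

theorem sel_s {ih : Ck} (H : Snd ih) (t : ℕ) : Snd (sel ih t) := by
  simp only [sel, cnd_eq]
  split_ifs
  exacts [rCut_s H, rLev_s H, rStrip_s, rGrid_s, rThm_s, rCol_s, rPure_s, rFull_s]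

theorem step_s {ih : Ck} (H : Snd ih) : Snd (step ih) := fun I j k s b f d h => by
  simp only [step, strict_eq, cnd_eq] at h
  split_ifs at h
  · exact sel_s H _ _ _ _ _ _ _ _ h
  · exact P_swap (sel_s H _ _ _ _ _ _ _ _ h)

theorem chk_s (n : ℕ) : Snd (chk n) := by
  induction n with
  | zero => exact fun _ _ _ _ _ _ _ h => absurd rfl h
  | succ n ih => exact step_s ih

theorem stepF_eq : stepF = step := rfl

theorem chkF_eq : chkF = chk := rfl

end Pool.Agent.Work.MP_f4b644_ag.Dag
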