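import Pool.Agent.Work.MP_f4b644_ag.Dag.Sound

/-!
Soundness of the checker for states with mates, tokens and pairs, and of the loops over the roots.
-/

set_option autoImplicit false

namespace Pool.Agent.Work.MP_f4b644_ag.Dag

open Big Thin Multiset Big.Gad Pool.Agent.Lib.KLA

/-- soundness of a check -/
def SndV (c : CkV) : Prop := ∀ I j k s u b e G f d, c I j k s u b e G f d ≠ 0 → BS I j k s u b e G f

theorem vPlain_s : SndV vPlain := fun _ _ _ _ _ _ _ _ _ _ h => BS_plain (chk_s 40 _ _ _ _ _ _ _ h)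

theorem vGrid_s : SndV vGrid := fun I j k s u b e G f d h => by
  have := ok_ne h
  simp only [bnd_iff, Nat.ble_eq, Nat.add_eq, Nat.mul_eq, Nat.sub_eq, mod_eq] at this
  obtain ⟨⟨⟨h1, h2⟩, h3, h4⟩, ⟨h5, h6⟩, h7⟩ := this
  have h0 : d % (I - 3) < I - 3 := Nat.mod_lt _ (by omega)
  exact BS_grid (d % (I - 3) + 1) (I - 3 - (d % (I - 3) + 1)) _ _ (by omega) (by omega) rfl rfl h2 h3 h4 h5 h6
    (cor_s h7)

theorem vSink_s : SndV vSink := fun I j k s u b e G f d h => by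
  have := ok_ne h
  simp only [bnd_iff, Nat.ble_eq, Nat.add_eq, Nat.mul_eq, Nat.sub_eq] at this
  obtain ⟨⟨⟨h1, h2⟩, h3, h4⟩, h5, h6⟩ := this
  exact BS_sink h1 h2 h3 h4 h5 h6

theorem vLev_s {ih : CkV} (H : SndV ih) : SndV (vLev ih) := fun I j k s u b e G f d h => by
  obtain ⟨h1, h2⟩ := grd_ne h
  have h3 := H _ _ _ _ _ _ _ _ _ _ h2
  simp only [Nat.ble_eq, Nat.add_eq, Nat.mul_eq, Nat.sub_eq, mod_eq, div_eq] at h1 h3
  rcases Nat.eq_zero_or_pos I with rfl | hI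
  · exact S_zeroA _ _ _
  have h0 := Nat.mod_lt (d / 2) hI
  have := BS_levC ((s + u) / k - d % 2) (j - ((s + u) / k - d % 2)) (lev_n _ _ _) (by omega) (d / 2 % I) h3
  exact BS_dim (Cuts_congr this rfl rfl rfl rfl rfl (by omega)) (by omega) rfl rfl

theorem vLevB_s {ih : CkV} (H : SndV ih) : SndV (vLevB ih) := fun I j k s u b e G f d h => by
  obtain ⟨h1, h2⟩ := grd_ne h
  have h3 := H _ _ _ _ _ _ _ _ _ _ h2
  simp only [Nat.ble_eq, Nat.add_eq, Nat.mul_eq, Nat.sub_eq, mod_eq, div_eq] at h1 h3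
  rcases Nat.eq_zero_or_pos I with rfl | hI
  · exact S_zeroA _ _ _
  have h0 := Nat.mod_lt (d / 2) hI
  have := BS_levB ((s + u) / j - d % 2) (k - ((s + u) / j - d % 2)) (lev_n _ _ _) (by omega) (d / 2 % I) h3
  exact BS_dim (Cuts_congr this rfl rfl (by omega) rfl rfl rfl) (by omega) rfl rfl

theorem vLev1_s {ih : CkV} (H : SndV ih) : SndV (vLev1 ih) := fun I j k s u b e G f d h => by
  obtain ⟨h1, h2⟩ := grd_ne h
  have h3 := H _ _ _ _ _ _ _ _ _ _ h2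
  simp only [bnd_iff, Nat.ble_eq, Nat.add_eq, Nat.sub_eq, mod_eq, div_eq] at h1 h3
  have := BS_lev1 (s / k - d % 2) (j - (u + G + (s / k - d % 2))) (lev_n _ _ _) (by omega) h3
  exact BS_dim (Cuts_congr this rfl rfl rfl rfl rfl (by omega)) (by omega) rfl rfl

theorem vCutB_s {ih : CkV} (H : SndV ih) : SndV (vCutB ih) := fun I j k s u b e G f d h => by
  obtain ⟨h1, g, h2⟩ := thn_ne h
  exact cutB_aux _ _ _ _ (mod_mul _ _ _) (mod_mul _ _ _) (mod_mul _ _ _) (chk_s 40 _ _ _ _ _ _ _ h1)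
    (H _ _ _ _ _ _ _ _ _ _ h2)

theorem cutC_aux {I j k s u b e G f : ℕ} (k1 c s1 b1 e1 : ℕ) (h1 : k1 * c ≤ k) (h2 : c * s1 ≤ s)
    (h3 : c * b1 ≤ b) (h4 : c * e1 ≤ e) (H1 : BS I j k1 s1 0 b1 e1 (G + u) (f + s - s1))
    (H2 : BS I j (k - c * k1) (s - c * s1) u (b - c * b1) (e - c * e1) G (f + c * s1)) :
    BS I j k s u b e G f := by
  rw [mul_comm] at h1
  have := BS_cutC H1 c f (fun hc => by
    have : 1 * s1 ≤ c * s1 := Nat.mul_le_mul_right _ hc
    omega) H2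
  exact BS_dim (Cuts_congr this (by omega) rfl (by omega) (by omega) rfl rfl) rfl rfl (by omega)

theorem vCutC_s {ih : CkV} (H : SndV ih) : SndV (vCutC ih) := fun I j k s u b e G f d h => by
  obtain ⟨h1, g, h2⟩ := thn_ne h
  exact cutC_aux _ _ _ _ _ (mod_mul _ _ _) (mod_mul _ _ _) (mod_mul _ _ _) (mod_mul _ _ _)
    (H _ _ _ _ _ _ _ _ _ _ h1) (H _ _ _ _ _ _ _ _ _ _ h2)

theorem selV_s {ih : CkV} (H : SndV ih) (t : ℕ) : SndV (selV ih t) := by
  simp only [selV, cnd_eq]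
  split_ifs
  exacts [vCutC_s H, vCutB_s H, vLevB_s H, vLev1_s H, vLev_s H, vSink_s, vGrid_s, vPlain_s]

theorem chkV_s (n : ℕ) : SndV (chkV n) := by
  induction n with
  | zero => exact fun _ _ _ _ _ _ _ _ _ _ h => absurd rfl h
  | succ n ih => exact fun _ _ _ _ _ _ _ _ _ _ h => selV_s ih _ _ _ _ _ _ _ _ _ _ _ h

theorem pair_aux {I j k r : ℕ} (p j1 a1 k1 a11 b11 k2 a21 b21 : ℕ) (hj : j1 ≤ j) (hr : 2 * p + a1 ≤ r)
    (hk1 : k1 ≤ k) (hk2 : k2 ≤ k) (ha : a11 ≤ a1) (hb : b11 ≤ r - (2 * p + a1))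
    (ha' : a21 ≤ r - (2 * p + a1)) (hb' : b21 ≤ a1) (h1 : BS I j1 k1 a11 p b11 0 0 (a1 - a11))
    (h2 : BS I j1 (k - k1) (a1 - a11) p (r - (2 * p + a1) - b11) 0 0 a11)
    (h3 : BS I (j - j1) k2 a21 0 b21 p 0 (r - (2 * p + a1) - a21))
    (h4 : BS I (j - j1) (k - k2) (r - (2 * p + a1) - a21) 0 (a1 - b21) p 0 a21) : P I j k r 0 0 :=
  P_congr (P_pair p _ _ _ _ _ _ _ _ (by omega) (by omega) (by omega) h1 h2 h3 h4) rfl (by omega) (by omega)
    (by omega) rfl rfl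

theorem pair_s {I j k r d : ℕ} (h : pair I j k r d ≠ 0) : P I j k r 0 0 := by
  simp only [pair, strict_eq] at h
  obtain ⟨h0, h⟩ := grd_ne h
  obtain ⟨h1, _, h⟩ := thn_ne h
  obtain ⟨h2, _, h⟩ := thn_ne h
  obtain ⟨h3, _, h4⟩ := thn_ne h
  exact pair_aux _ _ _ _ _ _ _ _ _ (mod_le _ _) (Nat.le_of_ble_eq_true h0) (mod_le _ _) (mod_le _ _)
    (mod_le _ _) (mod_le _ _) (mod_le _ _) (mod_le _ _) (chkV_s _ _ _ _ _ _ _ _ _ _ _ h1)
    (chkV_s _ _ _ _ _ _ _ _ _ _ _ h2) (chkV_s _ _ _ _ _ _ _ _ _ _ _ h3) (chkV_s _ _ _ _ _ _ _ _ _ _ _ h4)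

variable {ex : ℕ → ℕ → ℕ → Bool} (hex : ∀ I J r, ex I J r = true → Root I J r)

include hex

theorem root_s {I J r d : ℕ} (h : root ex I J r d ≠ 0) : Root I J r := by
  simp only [root, strict_eq, cnd_eq] at h
  split_ifs at h
  · exact Root_of (chk_s _ _ _ _ _ _ _ _ h)
  · exact Root_of (pair_s h)
  · exact Root_of (P_swap (pair_s h))
  · exact hex _ _ _ (ok_ne h)
  · exact Root_of (chk_s _ _ _ _ _ _ _ _ h)

theorem roots_s {I J : ℕ} (n : ℕ) : ∀ r d, roots ex I J n r d = true →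
    ∀ r', r ≤ r' → r' < r + n → Root I J r' := by
  induction n with
  | zero => intro r d _ r' h1 h2; omega
  | succ n ih =>
    intro r d h r' h1 h2
    have h' : (Nat.rec (motive := fun _ => Bool) false (fun d' _ => roots ex I J n (r + 1) d')
      (root ex I J r d) : Bool) = true := h
    cases hr : root ex I J r d with
    | zero =>
      rw [hr] at h'
      exact absurd h' Bool.false_ne_true
    | succ d' =>
      rw [hr] at h'
      rcases Nat.eq_or_lt_of_le h1 with rfl | h3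
      · exact root_s hex (by rw [hr]; exact Nat.succ_ne_zero _)
      · exact ih _ _ h' r' h3 (by omega)

theorem run_s {lo hi : ℕ → ℕ → ℕ} {I J1 : ℕ} (l : List ℕ) : ∀ J r, run ex lo hi I J1 l J r = true →
    ∀ J' r', J' < J1 → (J' = J ∧ r ≤ r' ∨ J < J' ∧ lo I J' ≤ r') → r' < hi I J' → Root I J' r' := by
  induction l with
  | nil =>
    intro J r h J' r' h1 h2 _
    have : J1 ≤ J := Nat.le_of_ble_eq_true h
    omega
  | cons d l ih =>
    intro J r h J' r' h1 h2 h3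
    have h' : cnd (Nat.ble (hi I J) (r + 16))
      (bnd (roots ex I J (hi I J - r) r d) (run ex lo hi I J1 l (J + 1) (lo I (J + 1))))
      (bnd (roots ex I J 16 r d) (run ex lo hi I J1 l J (r + 16))) = true := h
    rw [cnd_eq] at h'
    split_ifs at h' with h0
    · rw [bnd_iff] at h'
      rcases h2 with ⟨rfl, h2⟩ | ⟨h2, h4⟩
      · exact roots_s hex _ _ _ h'.1 r' h2 (by omega)
      · refine ih _ _ h'.2 J' r' h1 ?_ h3
        rcases Nat.eq_or_lt_of_le h2 with rfl | h5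
        · exact Or.inl ⟨rfl, h4⟩
        · exact Or.inr ⟨h5, h4⟩
    · rw [bnd_iff] at h'
      rcases h2 with ⟨rfl, h2⟩ | h2
      · rcases Nat.lt_or_ge r' (r + 16) with h5 | h5
        · exact roots_s hex _ _ _ h'.1 r' h2 h5
        · exact ih _ _ h'.2 J' r' h1 (Or.inl ⟨rfl, h5⟩) h3
      · exact ih _ _ h'.2 J' r' h1 (Or.inr h2) h3

omit hex in
theorem rootF_eq : rootF = root := by
  funext ex I J r d
  unfold rootF
  rw [chkF_eq]
  rfl

omit hex in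
theorem rootsF_eq : rootsF = roots := by
  funext ex I J n
  unfold rootsF
  rw [rootF_eq]
  rfl

omit hex in
theorem runF_eq : runF = run := by
  funext ex lo hi I J1 l
  unfold runF
  rw [rootsF_eq]
  rfl

/-- all roots with `J0 ≤ J < J1` -/
def Cov (lo hi : ℕ → ℕ → ℕ) (I J0 J1 : ℕ) : Prop :=
  ∀ J r, J0 ≤ J → J < J1 → lo I J ≤ r → r < hi I J → Root I J r

theorem cov_of_run {lo hi : ℕ → ℕ → ℕ} {I J0 J1 : ℕ} {l : List ℕ}
    (h : runF ex lo hi I J1 l J0 (lo I J0) = true) : Cov lo hi I J0 J1 := fun J r h1 h2 h3 h4 => by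
  rw [runF_eq] at h
  refine run_s hex l _ _ h J r h2 ?_ h4
  rcases Nat.eq_or_lt_of_le h1 with rfl | h5
  · exact Or.inl ⟨rfl, h3⟩
  · exact Or.inr ⟨h5, h3⟩

omit hex in
theorem Cov.trans {lo hi : ℕ → ℕ → ℕ} {I J0 J1 J2 : ℕ} (h1 : Cov lo hi I J0 J1) (h2 : Cov lo hi I J1 J2) :
    Cov lo hi I J0 J2 := fun J r a b c d => by
  rcases Nat.lt_or_ge J J1 with h | h
  · exact h1 J r a h c d
  · exact h2 J r h b c d

end Pool.Agent.Work.MP_f4b644_ag.Dag
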