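import Pool.Agent.Work.MP_f4b644_ag.Dag.Vec
import Pool.Agent.Work.MP_f4b644_ag.Dag.Run2

/-!
Proof trees of one fixed shape (two blocks, two bricks in each block), checked for all roots of a cross
section at once. Every expression counts violated conditions.
-/

namespace Pool.Agent.Work.MP_f4b644_ag.Dag

open Pool.Agent.Lib.KLA E

/-- one strip -/
def capE (h x y s Ih : E) : E :=
  add (lt Ih (add (add (mul s y) x) (add s (sub (add h h) s))))
    (ifl (cst 0) (add (lt h (cst 2)) (lt x (cst 2))) (lt h s) (cst 0))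

/-- two strips -/
def strE (m j k s h x X Ij A x2 kx sx hT s2 As2 Ih Z Y : E) : E :=
  add (add (add (add (lt X m) (lt x (cst 1))) (add (lt m x) (lt x2 (cst 1))))
      (add (add (lt m x2) (lt k (sub s s2))) (add (lt (add hT sx) (add As2 kx))
        (lt (add Z (add As2 kx)) (add (add (mul s A) Y) (add hT sx))))))
    (add (capE h x (sub m x) (sub s s2) Ih) (capE (sub j h) x2 (sub m x2) s2 (sub Ij Ih)))

def mnE (a b : E) : E := ifl a b a b

def strD (I1 m j k s h x X Ij A kx sx hT s2 Z Y : E) : E :=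
  strE m j k s h x X Ij A (sub X x) kx sx hT s2 (mul s2 A) (mul I1 h) Z Y

def strC (I1 m j k s h x X Ij A kx sx hT Z Y : E) : E :=
  strD I1 m j k s h x X Ij A kx sx hT (mnE (dv (sub (add hT sx) kx) A 11) (mnE s k)) Z Y

def leafZ (I1 m j k s h x X Ij T Z Y : E) : E :=
  ifl (cst 0) (add (ifl (cst 0) s (lt m X) (cst 0)) (lt Z Y))
    (strC I1 m j k s h x X Ij (sub X m) (mul k x) (mul s x) (mul T h) Z Y) (cst 0)

def leafY (I1 j k s h x Ij R C X T : E) : E :=
  add (add (lt (add R X) Ij) (add (lt C k) (lt R j)))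
    (leafZ I1 (sub I1 (cst 1)) j k s h x X Ij T (add (mul T j) (mul s X)) (mul k X))

def leafX (I1 j k s h x Ij R C : E) : E := leafY I1 j k s h x Ij R C (clip (sub Ij R) 8) (sub C k)

def leafM (I : Nat) (j k s b f e h x n t : E) : E :=
  add (add (lt s (mul n j)) (add (lt b t) (lt (cst I) (add e (cst 2)))))
    (leafX (sub (cst (Nat.sub I 1)) e) j k s h x (sub (smul (Nat.sub I 1) j) (mul j e)) (add s f)
      (add s (sub b t)))

def leafL (I : Nat) (j k s b f e h x jc n : E) : E :=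
  add (add (lt jc j) (lt j jc)) (leafM I jc k s b f e h x n (mul (sub k n) e))

def leafO (I : Nat) (j k s b f : E) (D : Nat) : E :=
  leafL I j k s b f (fld D 1 7) (fld D 8 7) (fld D 15 7) (clip j 8) (dv s j 10)

def leafP (I : Nat) (j k s b f o : E) (D : Nat) : E :=
  leafO I (ifl (cst 0) o k j) (ifl (cst 0) o j k) s (ifl (cst 0) o f b) (ifl (cst 0) o b f) D

/-- a brick: some levels, then a column leaf or two strips -/
def leafE (I : Nat) (j k s b f : E) (D : Nat) : E := leafP I j k s b f (fld D 0 1) D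

def blkC (I : Nat) (j k s b k1 t1 f1 ck ct cf : E) (D D' : Nat) : E :=
  add (add (lt k ck) (add (lt s ct) (lt b cf)))
    (add (leafE I k1 j t1 (sub s t1) f1 D) (leafE I (sub k ck) j (sub s ct) ct (sub b cf) D'))

def blkB (I : Nat) (j k s b k1 c t1 f1 : E) (D D' : Nat) : E :=
  blkC I j k s b k1 t1 f1 (mul k1 c) (mul t1 c) (mul f1 c) D D'

/-- a block -/
def blkE (I q : Nat) (j k s b k1 c d t1 : E) (D D' : Nat) : E :=
  blkB I j k s b k1 c t1
    (sub (add (smul I k1) d) (add (dv (add (smul (Nat.sub I 2) t1) (mul s k1)) j q) t1)) D D'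

def rootE (I q : Nat) (j k r j1 s1 cj cs : E) (D1 D2 D3 D4 : Nat) : E :=
  add (add (lt j cj) (lt r cs))
    (add (blkE I q j1 k s1 (sub r s1) (fld D2 22 7) (fld D2 29 8) (fld D2 37 2) (fld D4 22 10) D1 D2)
      (blkE I q (sub j cj) k (sub r cs) cs (fld D3 22 7) (fld D3 29 8) (fld D3 37 2) (fld D4 32 10) D3 D4))

def rootD (I q : Nat) (j k r j1 c s1 : E) (D1 D2 D3 D4 : Nat) : E :=
  rootE I q j k r j1 s1 (mul j1 c) (mul s1 c) D1 D2 D3 D4

def rootC (I q q0 : Nat) (j k r j1 : E) (D1 D2 D3 D4 : Nat) : E :=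
  rootD I q j k r j1 (fld D1 33 8) (add (dv (add (mul (sub (smul I k) r) j1) (add k (cst (Nat.sub I 3))))
    (add k (cst (Nat.sub I 2))) q0) (fld D2 39 2)) D1 D2 D3 D4

/-- the whole tree -/
def rootT (I q q0 : Nat) (J K r o : E) (D1 D2 D3 D4 : Nat) : E :=
  rootC I q q0 (ifl (cst 0) o K J) (ifl (cst 0) o J K) r (fld D1 23 10) D1 D2 D3 D4

def rootB (I J q q0 nA : Nat) (KA rB num den z zd : E) (D1 D2 D3 D4 : Nat) : E :=
  add (ifl idx (cst nA) (lt num zd) (lt (add zd den) (add num (cst 1))))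
    (rootT I q q0 (cst J) (ifl idx (cst nA) KA z) (ifl idx (cst nA) z rB) (fld D1 22 1) D1 D2 D3 D4)

def rootA2 (I J q q0 nA : Nat) (KA rB num den z : E) (D1 D2 D3 D4 : Nat) : E :=
  rootB I J q q0 nA KA rB num den z (mul den z) D1 D2 D3 D4

def rootA1 (I J q q0 nA : Nat) (KA rB num den : E) (D1 D2 D3 D4 : Nat) : E :=
  rootA2 I J q q0 nA KA rB num den (dv num den q0) D1 D2 D3 D4

def rootA0 (I J t p q q0 nA : Nat) (KA rB : E) (D1 D2 D3 D4 : Nat) : E :=
  rootA1 I J q q0 nA KA rB (ifl idx (cst nA) (add (smul (Nat.add p 1) KA) (cst (Nat.sub t 1))) (smul t rB))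
    (ifl idx (cst nA) (add KA (cst t)) (sub (cst p) rB)) D1 D2 D3 D4

/-- The first `nA` places stand for `K = J + i`, the others for `r = r0 + i - nA`; the places marked in `M` are
left out. -/
def prog (I J t p q q0 nA r0 M D1 D2 D3 D4 : Nat) : E :=
  ifl (cst 0) (fld M 0 1) (cst 0)
    (rootA0 I J t p q q0 nA (add idx (cst J)) (sub (add idx (cst r0)) (cst nA)) D1 D2 D3 D4)

/-- pieces of the four vectors of data -/
inductive Q4 : Type
  | nil : Q4
  | cons (a b c d : Nat) (l : Q4) : Q4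

/-- the data for consecutive values of `J` -/
inductive Bt : Type
  | nil : Bt
  | cons (r0 : Nat) (x : List Nat) (y : Q4) (l : Bt) : Bt

noncomputable section

/-- the four vectors -/
def cat (k : Nat → Nat → Nat → Nat → Bool) (y : Q4) : Nat → Nat → Nat → Nat → Nat → Bool :=
  Q4.rec (motive := fun _ => Nat → Nat → Nat → Nat → Nat → Bool) (fun _ a b c d => k a b c d)
    (fun a b c d _ ih u a' b' c' d' => strict (Nat.add u 2688) fun u' =>
      ih u' (Nat.add a' (Nat.shiftLeft a u)) (Nat.add b' (Nat.shiftLeft b u)) (Nat.add c' (Nat.shiftLeft c u))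
        (Nat.add d' (Nat.shiftLeft d u))) y

/-- the number of tangents at the place `i` -/
def rAt (J t p nA r0 i : Nat) : Nat :=
  cnd (Nat.ble nA i) (Nat.sub (Nat.add i r0) nA)
    (Nat.div (Nat.add (Nat.mul (Nat.add p 1) (Nat.add i J)) (Nat.sub t 1)) (Nat.add (Nat.add i J) t))

/-- the places with trees of another shape -/
def oth (ex : Nat → Nat → Nat → Bool) (I J t p nA r0 : Nat) (k : Nat → Bool) (x : List Nat) : Nat → Bool :=
  List.rec (motive := fun _ => Nat → Bool) k
    (fun d _ ih M => strict (Nat.land d 8191) fun i => strict (rAt J t p nA r0 i) fun r =>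
      strict (Nat.div (Nat.mul r t) (Nat.sub p r)) fun K =>
        cnd (Nat.ble p r) false (cnd (Nat.beq (rootK ex I J K r (Nat.shiftRight d 13)) 0) false
          (ih (Nat.lor (Nat.pow 2 (Nat.mul 42 i)) M)))) x

/-- all roots below `h` of the cross section `I, J` -/
def batch (ex : Nat → Nat → Nat → Bool) (I J h r0 : Nat) (x : List Nat) (y : Q4) : Bool :=
  strict (Nat.sub (Nat.add J I) 2) fun t => strict (Nat.mul I J) fun p =>
  strict (Nat.sub (Nat.add (Nat.div (Nat.mul (Nat.sub r0 1) t) (Nat.sub p (Nat.sub r0 1))) 1) J) fun nA =>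
  strict (Nat.add nA (Nat.sub h r0)) fun n => strict (Nat.add (Nat.log2 p) 1) fun q0 =>
  strict (Nat.add (Nat.log2 I) 8) fun q =>
    bnd (Nat.ble r0 p) (oth ex I J t p nA r0 (fun M => strict M fun M => cat (fun a b c d =>
      strict a fun a => strict b fun b => strict c fun c => strict d fun d =>
        allZ 41 n (prog I J t p q q0 nA r0 M a b c d)) y 0 0 0 0 0) x 0)

/-- all `J < J1` from `J` on -/
def run3 (ex : Nat → Nat → Nat → Bool) (hi : Nat → Nat → Nat) (I J1 : Nat) (l : Bt) : Nat → Bool :=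
  Bt.rec (motive := fun _ => Nat → Bool) (fun J => Nat.ble J1 J)
    (fun r0 x y _ ih J => strict (hi I J) fun h =>
      bnd (batch ex I J h r0 x y) (strict (Nat.add J 1) fun J' => ih J')) l

/-- the bound for the roots with excess at least `I - 2`, if the others are known -/
def hiB (I J : Nat) : Nat :=
  cnd (bor (Nat.ble 31 I) (Nat.ble (Nat.add I 3) J))
    (Nat.sub (Nat.add (Nat.mul I J) 5) (Nat.add J (Nat.mul 2 I))) (hiA I J)

end

end Pool.Agent.Work.MP_f4b644_ag.Dag
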