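import Pool.Agent.Work.MP_f4b644_ag.Dag.Tm

/-!
The check of trees of fixed shape for the roots with third dimension at least `L`.
-/

namespace Pool.Agent.Work.MP_f4b644_ag.Dag

open Pool.Agent.Lib.KLA E

/-- The first `nA` places stand for `K = L + i`, the others for `r = r0 + i - nA`; the places marked in `M` are
left out. -/
def prog2 (I J L t p q q0 nA r0 M D1 D2 D3 D4 : Nat) : E :=
  ifl (cst 0) (fld M 0 1) (cst 0)
    (rootA0 I J t p q q0 nA (add idx (cst L)) (sub (add idx (cst r0)) (cst nA)) D1 D2 D3 D4)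

noncomputable section

/-- the places with trees of another shape -/
def oth2 (ex : Nat → Nat → Nat → Bool) (I J L t p nA r0 : Nat) (k : Nat → Bool) (x : List Nat) : Nat → Bool :=
  List.rec (motive := fun _ => Nat → Bool) k
    (fun d _ ih M => strict (Nat.land d 8191) fun i => strict (rAt L t p nA r0 i) fun r =>
      strict (Nat.div (Nat.mul r t) (Nat.sub p r)) fun K =>
        cnd (Nat.ble p r) false (cnd (Nat.beq (rootK ex I J K r (Nat.shiftRight d 13)) 0) false
          (ih (Nat.lor (Nat.pow 2 (Nat.mul 42 i)) M)))) x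

/-- all roots below `h` of the cross section `I, J` with third dimension at least `L` -/
def batch2 (ex : Nat → Nat → Nat → Bool) (I J L h r0 : Nat) (x : List Nat) (y : Q4) : Bool :=
  strict (Nat.sub (Nat.add J I) 2) fun t => strict (Nat.mul I J) fun p =>
  strict (Nat.sub (Nat.add (Nat.div (Nat.mul (Nat.sub r0 1) t) (Nat.sub p (Nat.sub r0 1))) 1) L) fun nA =>
  strict (Nat.add nA (Nat.sub h r0)) fun n => strict (Nat.add (Nat.log2 p) 1) fun q0 =>
  strict (Nat.add (Nat.log2 I) 8) fun q =>
    bnd (Nat.ble r0 p) (oth2 ex I J L t p nA r0 (fun M => strict M fun M => cat (fun a b c d =>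
      strict a fun a => strict b fun b => strict c fun c => strict d fun d =>
        allZ 41 n (prog2 I J L t p q q0 nA r0 M a b c d)) y 0 0 0 0 0) x 0)

/-- all `J < J1` from `J` on -/
def run4 (ex : Nat → Nat → Nat → Bool) (lo hi : Nat → Nat → Nat) (I J1 : Nat) (l : Bt) : Nat → Bool :=
  Bt.rec (motive := fun _ => Nat → Bool) (fun J => Nat.ble J1 J)
    (fun r0 x y _ ih J => strict (lo I J) fun L => strict (hi I J) fun h =>
      bnd (batch2 ex I J L h r0 x y) (strict (Nat.add J 1) fun J' => ih J')) l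

/-- the bound for the roots which are left if `I ≥ 30` and `J ≥ 100` -/
def hiF (I J : Nat) : Nat :=
  cnd (Nat.ble (Nat.add (Nat.div (Nat.add (Nat.mul 8 (Nat.mul I J)) 8) 9) (Nat.add J (Nat.mul 4 I)))
      (Nat.add (Nat.mul I J) 9))
    (Nat.div (Nat.add (Nat.mul 8 (Nat.mul I J)) 8) 9) (Nat.sub (Nat.add (Nat.mul I J) 9) (Nat.add J (Nat.mul 4 I)))

end

end Pool.Agent.Work.MP_f4b644_ag.Dag
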