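import Pool.Agent.Work.MP_f4b644_ag.Dag.TmS
import Pool.Agent.Work.MP_f4b644_ag.Dag.Tm2

/-!
Soundness of the check of the roots with a lower bound for the third dimension.
-/

set_option autoImplicit false

namespace Pool.Agent.Work.MP_f4b644_ag.Dag

open Big Thin Multiset Big.Gad Pool.Agent.Lib.KLA

/-- what is proved at the place `i` -/
def Goal2 (I J L t p nA r0 i : ℕ) : Prop :=
  ∃ K r, S I J K (replicate r (T 0 0)) ∧ (i < nA → i + L ≤ K ∧ (i + L + t) * r ≤ (p + 1) * (i + L) + (t - 1)) ∧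
    (nA ≤ i → r ≤ i + r0 - nA ∧ t * (i + r0 - nA) < (p - (i + r0 - nA)) * K + (p - (i + r0 - nA)))

theorem prog2_s {W n i I J L t p q q0 nA r0 M D1 D2 D3 D4 : ℕ}
    (H : ev W n i (prog2 I J L t p q q0 nA r0 M D1 D2 D3 D4) = 0) (hM : M.testBit ((W + 1) * i) = false) :
    Goal2 I J L t p nA r0 i := by
  have h0 : ¬ ev W n i (.cst 0) < ev W n i (.fld M 0 1) := by
    show ¬ 0 < ((M >>> 0) >>> ((W + 1) * i)) % 2 ^ 1
    rw [Nat.testBit, Nat.one_and_eq_mod_two] at hM
    simpa using hM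
  have H1 := (ev_neg _ _ h0).symm.trans H
  unfold rootA0 rootA1 at H1
  generalize E.dv _ _ q0 = z at H1
  obtain ⟨H2, H3⟩ := Nat.add_eq_zero_iff.1 H1
  have H4 := (rootT_s H3).of_eq (M' := replicate _ (T 0 0)) (by simp only [replicate_zero, add_zero]; rfl)
  refine ⟨_, _, H4, fun h => ?_, fun h => ?_⟩
  · have h' : ev W n i .idx < ev W n i (.cst nA) := h
    simp only [ev_pos _ _ h', ev_lt0, ev_mul] at H2 ⊢
    exact ⟨le_rfl, H2⟩
  · have h' : ¬ ev W n i .idx < ev W n i (.cst nA) := not_lt.2 h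
    simp only [ev_neg _ _ h', ev_lt0, ev_mul, ev_add] at H2 ⊢
    exact ⟨le_rfl, H2⟩

theorem goal2_of_root {I J L nA r0 i : ℕ} (ht : 1 ≤ J + I - 2) (h : Root I J (rAt L (J + I - 2) (I * J) nA r0 i))
    (hp : rAt L (J + I - 2) (I * J) nA r0 i < I * J) : Goal2 I J L (J + I - 2) (I * J) nA r0 i := by
  have e : rAt L (J + I - 2) (I * J) nA r0 i = cnd (Nat.ble nA i) (i + r0 - nA)
    (((I * J + 1) * (i + L) + (J + I - 2 - 1)) / (i + L + (J + I - 2))) := rfl
  rw [e, cnd_eq] at h hp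
  unfold Root at h
  generalize J + I - 2 = t, I * J = p at *
  simp only [Nat.ble_eq] at h hp
  split_ifs at h hp with h0
  · generalize hr : i + r0 - nA = r at *
    refine ⟨r * t / (p - r), r, h _ (Nat.div_mul_le_self _ _) hp, fun h1 => by omega, fun _ => ?_⟩
    rw [hr]
    have := Nat.lt_mul_div_succ (r * t) (show 0 < p - r by omega)
    exact ⟨le_rfl, by rw [mul_comm t]; exact this⟩
  · have h1 := Nat.mul_div_le ((p + 1) * (i + L) + (t - 1)) (i + L + t)
    have h2 : i + L + t = 0 ∨ (p + 1) * (i + L) + (t - 1) <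
        (i + L + t) * (((p + 1) * (i + L) + (t - 1)) / (i + L + t) + 1) := by
      rcases Nat.eq_zero_or_pos (i + L + t) with h3 | h3
      · exact Or.inl h3
      · exact Or.inr (Nat.lt_mul_div_succ _ h3)
    generalize ((p + 1) * (i + L) + (t - 1)) / (i + L + t) = r at *
    refine ⟨i + L, r, h _ ?_ hp, fun _ => ⟨le_rfl, h1⟩, fun h1 => by omega⟩
    obtain ⟨v, rfl⟩ := Nat.exists_eq_add_of_le hp.le
    rw [Nat.add_sub_cancel_left]
    rcases h2 with h2 | h2
    · rw [show i + L = 0 by omega]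
      simp
    · generalize i + L = K at *
      obtain _ | t := t
      · omega
      · rw [Nat.add_sub_cancel] at h2
        nlinarith

/-- All roots below `hi I J` with third dimension at least `lo I J`, for `J0 ≤ J < J1`. -/
def Cov4 (lo hi : ℕ → ℕ → ℕ) (I J0 J1 : ℕ) : Prop :=
  ∀ J r, J0 ≤ J → J < J1 → lo I J * (I * J - r) ≤ r * (J + I - 2) → r < hi I J → Root I J r

theorem Cov4.trans {lo hi : ℕ → ℕ → ℕ} {I J0 J1 J2 : ℕ} (h : Cov4 lo hi I J0 J1) (h' : Cov4 lo hi I J1 J2) :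
    Cov4 lo hi I J0 J2 := fun J r h0 h2 =>
  (Nat.lt_or_ge J J1).elim (fun h1 => h J r h0 h1) fun h1 => h' J r h1 h2

variable {ex : ℕ → ℕ → ℕ → Bool} (hex : ∀ I J r, ex I J r = true → Root I J r)

include hex

theorem oth2_s {I J L nA r0 : ℕ} (ht : 1 ≤ J + I - 2) {k : ℕ → Bool} (x : List ℕ) : ∀ M,
    oth2 ex I J L (J + I - 2) (I * J) nA r0 k x M = true →
    (∀ i, M.testBit (42 * i) = true → Goal2 I J L (J + I - 2) (I * J) nA r0 i) →
    ∃ M, k M = true ∧ ∀ i, M.testBit (42 * i) = true → Goal2 I J L (J + I - 2) (I * J) nA r0 i := by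
  induction x with
  | nil => exact fun M h H => ⟨M, h, H⟩
  | cons d x ih =>
    intro M h H
    have h' : cnd (Nat.ble (I * J) (rAt L (J + I - 2) (I * J) nA r0 (d &&& 8191))) false
      (cnd (Nat.beq (rootK ex I J (rAt L (J + I - 2) (I * J) nA r0 (d &&& 8191) * (J + I - 2) /
        (I * J - rAt L (J + I - 2) (I * J) nA r0 (d &&& 8191))) (rAt L (J + I - 2) (I * J) nA r0 (d &&& 8191))
        (d >>> 13)) 0) false
        (oth2 ex I J L (J + I - 2) (I * J) nA r0 k x (2 ^ (42 * (d &&& 8191)) ||| M))) = true := h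
    simp only [cnd_eq, Nat.beq_eq, Nat.ble_eq] at h'
    split_ifs at h' with h1 h2
    refine ih _ h' fun i hi => ?_
    rw [Nat.testBit_or, Bool.or_eq_true, Nat.testBit_two_pow, decide_eq_true_eq] at hi
    rcases hi with hi | hi
    · obtain rfl : d &&& 8191 = i := by omega
      exact goal2_of_root ht (rootK_s hex h2) (by omega)
    · exact H i hi

theorem batch2_s {I J L h r0 : ℕ} {x : List ℕ} {y : Q4} (ht : 1 ≤ J + I - 2) (H : batch2 ex I J L h r0 x y = true)
    (r : ℕ) (h1 : L * (I * J - r) ≤ r * (J + I - 2)) (h2 : r < h) : Root I J r := by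
  obtain ⟨nA, hA⟩ : ∃ nA, nA = (r0 - 1) * (J + I - 2) / (I * J - (r0 - 1)) + 1 - L := ⟨_, rfl⟩
  have H' : bnd (Nat.ble r0 (I * J)) (oth2 ex I J L (J + I - 2) (I * J) nA r0 (fun M => strict M fun M =>
      cat (fun a b c d => strict a fun a => strict b fun b => strict c fun c => strict d fun d =>
      allZ 41 (nA + (h - r0)) (prog2 I J L (J + I - 2) (I * J) (I.log2 + 8) ((I * J).log2 + 1) nA r0 M a b c d))
      y 0 0 0 0 0) x 0) = true := by
    rw [hA]
    exact H
  obtain ⟨H1, H2⟩ := (bnd_iff _ _).1 H'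
  have H1 := Nat.le_of_ble_eq_true H1
  obtain ⟨M, H3, H4⟩ := oth2_s hex ht x 0 H2 (fun i hi => by simp at hi)
  obtain ⟨a, b, c, d, H5⟩ := cat4_s (fun M a b c d => allZ 41 (nA + (h - r0))
    (prog2 I J L (J + I - 2) (I * J) (I.log2 + 8) ((I * J).log2 + 1) nA r0 M a b c d)) H3
  have G : ∀ i < nA + (h - r0), Goal2 I J L (J + I - 2) (I * J) nA r0 i := fun i hi => by
    cases hb : M.testBit (42 * i) with
    | true => exact H4 i hb
    | false => exact prog2_s (allZ_s H5 i hi) hb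
  intro K hK hr
  clear H H' H2 H3 H4 H5
  rcases Nat.lt_or_ge r r0 with h3 | h3
  · have hK' : max K L * (I * J - r) ≤ r * (J + I - 2) := by
      rcases le_total K L with h4 | h4
      · rwa [max_eq_right h4]
      · rwa [max_eq_left h4]
    have h5 : max K L ≤ (r0 - 1) * (J + I - 2) / (I * J - (r0 - 1)) := by
      rw [Nat.le_div_iff_mul_le (by omega)]
      exact (Nat.mul_le_mul_left _ (by omega)).trans (hK'.trans (Nat.mul_le_mul_right _ (by omega)))
    have h6 := le_max_left K L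
    have h7 := le_max_right K L
    obtain ⟨K', r', g1, g2, -⟩ := G (max K L - L) (by omega)
    obtain ⟨g2, g3⟩ := g2 (by omega)
    rw [Nat.sub_add_cancel h7] at g2 g3
    refine S_le g1 (by omega) ?_ hK hr
    generalize max K L = N, J + I - 2 = t, I * J = p at *
    obtain ⟨v, rfl⟩ := Nat.exists_eq_add_of_le hr.le
    obtain ⟨t, rfl⟩ := Nat.exists_eq_add_of_le' ht
    rw [Nat.add_sub_cancel_left] at hK'
    rw [Nat.add_sub_cancel] at g3
    by_contra hc
    have : (N + (t + 1)) * (r + 1) ≤ (N + (t + 1)) * r' := Nat.mul_le_mul_left _ (by omega)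
    nlinarith
  · obtain ⟨K', r', g1, -, g2⟩ := G (nA + (r - r0)) (by omega)
    obtain ⟨g2, g3⟩ := g2 (by omega)
    rw [show nA + (r - r0) + r0 - nA = r by omega] at g2 g3
    refine S_le g1 ?_ g2 hK hr
    by_contra hc
    have : (K' + 1) * (I * J - r) ≤ K * (I * J - r) := Nat.mul_le_mul_right _ (by omega)
    nlinarith

theorem cov_of_run4 {lo hi : ℕ → ℕ → ℕ} {I J1 : ℕ} (hI : 3 ≤ I) {l : Bt} : ∀ {J0}, run4 ex lo hi I J1 l J0 = true →
    Cov4 lo hi I J0 J1 := by
  induction l with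
  | nil =>
    intro J0 h J r h0 h1
    have : J1 ≤ J0 := Nat.le_of_ble_eq_true h
    omega
  | cons r0 x y l ih =>
    intro J0 h J r h0 h1 h2 h3
    have h' : bnd (batch2 ex I J0 (lo I J0) (hi I J0) r0 x y) (run4 ex lo hi I J1 l (J0 + 1)) = true := h
    obtain ⟨H1, H2⟩ := (bnd_iff _ _).1 h'
    rcases Nat.eq_or_lt_of_le h0 with rfl | h4
    · exact batch2_s hex (by omega) H1 r h2 h3
    · exact ih H2 J r h4 h1 h2 h3

end Pool.Agent.Work.MP_f4b644_ag.Dag
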