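import Pool.Agent.Work.MP_f4b644_ag.Dag.VecS
import Pool.Agent.Work.MP_f4b644_ag.Dag.Run2S
import Pool.Agent.Work.MP_f4b644_ag.Dag.Tm

/-!
Soundness of the check of trees of fixed shape.
-/

set_option autoImplicit false

namespace Pool.Agent.Work.MP_f4b644_ag.Dag

open Big Thin Multiset Big.Gad Pool.Agent.Lib.KLA

theorem ite_lt {a b : ℕ} : (if a < b then 1 else 0 : ℕ) = 0 ↔ b ≤ a := by simp

theorem strip_of {I1 k b h x s z s' : ℕ} (hx : 1 ≤ x) (hxm : x + 1 ≤ I1) (hk : s ≤ k)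
    (h1 : s * (I1 - 1 - x) + x + (s + (h + h - s)) ≤ I1 * h) (h2 : (2 ≤ h ∧ 2 ≤ x) ∨ s ≤ h)
    (h3 : (k - s) * (h + x) ≤ h * (s' + b) + s' * z) : Strip (I1 + 1) k b h x s z s' := by
  obtain ⟨y, rfl⟩ : ∃ y, I1 = x + 1 + y := ⟨I1 - (x + 1), by omega⟩
  rw [show x + 1 + y - 1 - x = y by omega] at h1
  have hh : 0 < h := by
    rcases Nat.eq_zero_or_pos h with rfl | h0
    · omega
    · exact h0
  have hq : (x - 1) / h * h ≤ x - 1 := Nat.div_mul_le_self _ _
  have h4 : 2 ≤ h → 2 ≤ x → (x - 1) / h + 2 ≤ x := fun a c => by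
    have : (x - 1) / h * 2 ≤ (x - 1) / h * h := Nat.mul_le_mul_left _ a
    omega
  unfold Strip
  rw [show x + 1 + y + 1 - 2 - x = y by omega, show x + 1 + y + 1 - 3 = x + y - 1 by omega]
  generalize (x - 1) / h = q at *
  have h5 : q + 2 ≤ x + y := by
    by_contra hc
    have : (x + 1 + y) * h ≤ (q + 2) * h := Nat.mul_le_mul_right _ (by omega)
    rw [add_mul q] at this
    omega
  obtain ⟨R, hR⟩ : ∃ R, x + y = q + 1 + R := ⟨x + y - (q + 1), by omega⟩
  have e1 : (x + 1 + y) * h = q * h + 2 * h + R * h := by rw [show x + 1 + y = q + 2 + R by omega]; ring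
  have e2 : (x + 1 + y + 1) * h = (x + 1 + y) * h + h := by ring
  have e3 : s * (y + 1) = s * y + s := by ring
  rw [show x + y - 1 - q = R by omega]
  exact ⟨by omega, hk, by omega, by omega, by omega, h3⟩

theorem cnt_of {k s s1 s2 b T h x x2 m A : ℕ} (hs : s = s1 + s2) (hk : s1 ≤ k) (hC : s + b = k + T)
    (hA : x + x2 = m + A) (h2 : x2 ≤ m) (h3 : s2 * A + k * x ≤ T * h + s * x) :
    (k - s1) * (h + x) ≤ h * (s2 + b) + s2 * min (m - x2) x := by
  obtain ⟨y, rfl⟩ := Nat.exists_eq_add_of_le h2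
  obtain ⟨c, rfl⟩ := Nat.exists_eq_add_of_le hk
  obtain rfl : x = y + A := by omega
  rw [Nat.add_sub_cancel_left, Nat.add_sub_cancel_left, min_eq_left (by omega), show s2 + b = c + T by omega]
  subst hs
  nlinarith

/-- what is proved at the place `i` -/
def Goal (I J t p nA r0 i : ℕ) : Prop :=
  ∃ K r, S I J K (replicate r (T 0 0)) ∧ (i < nA → i + J ≤ K ∧ (i + J + t) * r ≤ (p + 1) * (i + J) + (t - 1)) ∧
    (nA ≤ i → r ≤ i + r0 - nA ∧ t * (i + r0 - nA) < (p - (i + r0 - nA)) * K + (p - (i + r0 - nA)))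

section
variable {W n i : ℕ}

theorem ev_cst (c : ℕ) : ev W n i (.cst c) = c := rfl
theorem ev_idx : ev W n i .idx = i := rfl
theorem ev_add (a b : E) : ev W n i (.add a b) = ev W n i a + ev W n i b := rfl
theorem ev_smul (c : ℕ) (a : E) : ev W n i (.smul c a) = c * ev W n i a := rfl
theorem ev_mul (a b : E) : ev W n i (.mul a b) = ev W n i a * ev W n i b := rfl
theorem ev_sub (a b : E) : ev W n i (.sub a b) = ev W n i a - ev W n i b := rfl
theorem ev_lt0 (a b : E) : ev W n i (.lt a b) = 0 ↔ ev W n i b ≤ ev W n i a := ite_lt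
theorem ev_pos {a b : E} (x y : E) (h : ev W n i a < ev W n i b) : ev W n i (.ifl a b x y) = ev W n i x :=
  if_pos h
theorem ev_neg {a b : E} (x y : E) (h : ¬ ev W n i a < ev W n i b) : ev W n i (.ifl a b x y) = ev W n i y :=
  if_neg h

theorem mnE_le (a b : E) : ev W n i (mnE a b) ≤ ev W n i a ∧ ev W n i (mnE a b) ≤ ev W n i b := by
  unfold mnE
  by_cases h : ev W n i a < ev W n i b
  · rw [ev_pos _ _ h]
    omega
  · rw [ev_neg _ _ h]
    omega

theorem capE_s {h x y s Ih : E} (H : ev W n i (capE h x y s Ih) = 0) :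
    ev W n i s * ev W n i y + ev W n i x + (ev W n i s + (ev W n i h + ev W n i h - ev W n i s)) ≤ ev W n i Ih ∧
      ((2 ≤ ev W n i h ∧ 2 ≤ ev W n i x) ∨ ev W n i s ≤ ev W n i h) := by
  obtain ⟨H1, H2⟩ := Nat.add_eq_zero_iff.1 H
  refine ⟨(ev_lt0 _ _).1 H1, ?_⟩
  by_cases hc : ev W n i (.cst 0) < ev W n i (.add (.lt h (.cst 2)) (.lt x (.cst 2)))
  · exact Or.inr ((ev_lt0 _ _).1 ((ev_pos _ _ hc).symm.trans H2))
  · have h0 := Nat.eq_zero_of_not_pos hc
    simp only [ev_cst, ev_add, ev_smul, ev_mul, ev_sub, ev_lt0, Nat.add_eq_zero_iff, Nat.sub_eq]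
      at h0
    exact Or.inl h0

theorem strD_s {I1 j k s h x X Ij kx sx hT s2 Z Y T : E} {b f : ℕ}
    (H : ev W n i (strD I1 (.sub I1 (.cst 1)) j k s h x X Ij (.sub X (.sub I1 (.cst 1))) kx sx hT s2 Z Y) = 0)
    (e1 : ev W n i Ij = ev W n i I1 * ev W n i j) (e2 : ev W n i kx = ev W n i k * ev W n i x)
    (e3 : ev W n i sx = ev W n i s * ev W n i x) (e4 : ev W n i hT = ev W n i T * ev W n i h)
    (e5 : ev W n i Z = ev W n i T * ev W n i j + ev W n i s * ev W n i X)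
    (e6 : ev W n i Y = ev W n i k * ev W n i X) (h1 : ev W n i s2 ≤ ev W n i s) (h2 : ev W n i s2 ≤ ev W n i k)
    (hC : ev W n i s + b = ev W n i k + ev W n i T) (hR : ev W n i Ij ≤ ev W n i s + f + ev W n i X) :
    P (ev W n i I1 + 1) (ev W n i j) (ev W n i k) (ev W n i s) b f := by
  obtain ⟨H1, H2⟩ := Nat.add_eq_zero_iff.1 H
  obtain ⟨H2, H3⟩ := Nat.add_eq_zero_iff.1 H2
  have c1 := capE_s H2
  have c2 := capE_s H3
  simp only [ev_cst, ev_add, ev_smul, ev_mul, ev_sub, ev_lt0, Nat.add_eq_zero_iff, Nat.sub_eq]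
    at H1 c1 c2
  simp only [e1, e2, e3, e4, e5, e6] at H1 c2 hR
  clear H H2 H3 e1 e2 e3 e4 e5 e6
  generalize ev W n i I1 = I1, ev W n i j = j, ev W n i k = k, ev W n i s = s, ev W n i h = h, ev W n i x = x,
    ev W n i X = X, ev W n i s2 = s2, ev W n i T = T at *
  obtain ⟨⟨⟨a1, a2⟩, a3, a4⟩, ⟨a5, a6⟩, a7, a8⟩ := H1
  have hj : h ≤ j := by
    by_contra hc
    have : I1 * j ≤ I1 * h := Nat.mul_le_mul_left _ (by omega)
    omega
  obtain ⟨h', rfl⟩ := Nat.exists_eq_add_of_le hj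
  obtain ⟨x', rfl⟩ : ∃ x', X = x + x' := ⟨X - x, by omega⟩
  obtain ⟨s1, rfl⟩ := Nat.exists_eq_add_of_le' h1
  obtain ⟨A, hA⟩ := Nat.exists_eq_add_of_le a1
  rw [show x + x' - (I1 - 1) = A by omega] at a7 a8
  simp only [Nat.add_sub_cancel_left, Nat.add_sub_cancel, mul_add I1] at *
  have e : I1 + 1 - 2 = I1 - 1 := by omega
  refine P_strips h x x' s1 (by omega) (by omega) a2 a4 (by omega) (by omega) (by
    rw [add_mul, one_mul, mul_add I1]
    omega) ?_ ?_
  · rw [e, Nat.add_sub_cancel_left]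
    exact strip_of a2 (by omega) a6 c1.1 c1.2 (cnt_of rfl a6 hC hA a5 a7)
  · rw [e, Nat.add_sub_cancel_left, Nat.add_sub_cancel_left]
    refine strip_of a4 (by omega) h2 c2.1 c2.2 (cnt_of (A := A) (add_comm _ _) h2 hC (by omega) a3 ?_)
    nlinarith

theorem leafX_s {I1 j k s h x Ij R C : E} {b f : ℕ} (H : ev W n i (leafX I1 j k s h x Ij R C) = 0)
    (h0 : 1 ≤ ev W n i I1) (e1 : ev W n i Ij = ev W n i I1 * ev W n i j) (e2 : ev W n i R = ev W n i s + f)
    (e3 : ev W n i C = ev W n i s + b) : P (ev W n i I1 + 1) (ev W n i j) (ev W n i k) (ev W n i s) b f := by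
  unfold leafX at H
  generalize E.clip (.sub Ij R) 8 = X at H
  obtain ⟨H1, H2⟩ := Nat.add_eq_zero_iff.1 H
  simp only [ev_cst, ev_add, ev_smul, ev_mul, ev_sub, ev_lt0, Nat.add_eq_zero_iff, Nat.sub_eq]
    at H1
  simp only [e1, e2, e3] at H1
  have eT : ev W n i (.sub C k) = ev W n i s + b - ev W n i k := by rw [← e3]; rfl
  by_cases hc : ev W n i (.cst 0) < ev W n i (.add (.ifl (.cst 0) s (.lt (.sub I1 (.cst 1)) X) (.cst 0))
      (.lt (.add (.mul (.sub C k) j) (.mul s X)) (.mul k X)))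
  · have H3 := (ev_pos _ _ hc).symm.trans H2
    exact strD_s (T := .sub C k) H3 e1 rfl rfl rfl rfl rfl ((mnE_le _ _).2.trans (mnE_le _ _).1)
      ((mnE_le _ _).2.trans (mnE_le _ _).2) (by omega) (by omega)
  · obtain ⟨c1, a4⟩ := Nat.add_eq_zero_iff.1 (Nat.eq_zero_of_not_pos hc)
    have c2 : 0 < ev W n i s → ev W n i X ≤ ev W n i I1 - 1 := fun h =>
      (ev_lt0 _ _).1 ((ev_pos (a := .cst 0) _ _ h).symm.trans c1)
    simp only [ev_cst, ev_add, ev_smul, ev_mul, ev_sub, ev_lt0, Nat.add_eq_zero_iff, Nat.sub_eq]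
      at a4
    rw [e3] at a4
    clear H H2 eT e1 e2 e3 hc c1
    generalize ev W n i I1 = I1, ev W n i j = j, ev W n i k = k, ev W n i s = s, ev W n i X = X at *
    obtain ⟨a1, a2, a3⟩ := H1
    obtain ⟨T, hT⟩ := Nat.exists_eq_add_of_le a2
    rw [show s + b - k = T by omega] at a4
    rcases Nat.eq_zero_or_pos s with rfl | hs
    · refine P_pure0 _ _ _ _ _ (by omega) (by omega) ?_
      have := Nat.mul_le_mul_right k a1
      obtain rfl : b = k + T := by omega
      nlinarith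
    · have a5 := c2 hs
      refine P_col (by omega) (by rw [add_mul]; omega) (P_pure0 _ _ _ _ _ a3 (by omega) ?_)
      rcases le_total k s with h | h
      · rw [Nat.sub_eq_zero_of_le h]
        simp
      · obtain ⟨c, rfl⟩ := Nat.exists_eq_add_of_le h
        obtain rfl : b = c + T := by omega
        have := Nat.mul_le_mul_right c a1
        rw [Nat.add_sub_cancel_left]
        nlinarith

theorem leafL_s {I : ℕ} {j k s b f e h x jc u : E} (H : ev W n i (leafL I j k s b f e h x jc u) = 0) :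
    P I (ev W n i j) (ev W n i k) (ev W n i s) (ev W n i b) (ev W n i f) := by
  obtain ⟨H1, H2⟩ := Nat.add_eq_zero_iff.1 H
  obtain ⟨H2, H3⟩ := Nat.add_eq_zero_iff.1 H2
  simp only [ev_cst, ev_add, ev_smul, ev_mul, ev_sub, ev_lt0, Nat.add_eq_zero_iff, Nat.sub_eq]
    at H1 H2
  have H4 := leafX_s (b := ev W n i b - (ev W n i k - ev W n i u) * ev W n i e) (f := ev W n i f) H3
    (show 1 ≤ I - 1 - ev W n i e by omega)
    (show (I - 1) * ev W n i jc - ev W n i jc * ev W n i e = (I - 1 - ev W n i e) * ev W n i jc by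
      rw [Nat.sub_mul (I - 1), mul_comm (ev W n i e)]) rfl rfl
  have H5 := BS_levB (u := 0) (ev W n i u) (ev W n i k - ev W n i u) H2.1 (by omega) (ev W n i e) (P_iff.1 H4)
  refine P_congr (P_iff.2 H5) ?_ (by omega) rfl rfl ?_ rfl
  · show I - 1 - ev W n i e + 1 + ev W n i e = I
    omega
  · rw [mul_comm (ev W n i e)]
    omega

theorem leafE_s {I D : ℕ} {j k s b f : E} (H : ev W n i (leafE I j k s b f D) = 0) :
    P I (ev W n i j) (ev W n i k) (ev W n i s) (ev W n i b) (ev W n i f) := by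
  have H1 := leafL_s H
  by_cases hc : ev W n i (.cst 0) < ev W n i (.fld D 0 1)
  · simp only [ev_pos _ _ hc] at H1
    exact P_swap H1
  · simp only [ev_neg _ _ hc] at H1
    exact H1

theorem blkB_s {I D D' : ℕ} {j k s b k1 c t1 f1 : E} (H : ev W n i (blkB I j k s b k1 c t1 f1 D D') = 0) :
    P I (ev W n i j) (ev W n i k) (ev W n i s) (ev W n i b) 0 := by
  obtain ⟨H1, H2⟩ := Nat.add_eq_zero_iff.1 H
  obtain ⟨H2, H3⟩ := Nat.add_eq_zero_iff.1 H2
  have H4 := leafE_s H2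
  have H5 := leafE_s H3
  simp only [ev_cst, ev_add, ev_smul, ev_mul, ev_sub, ev_lt0, Nat.add_eq_zero_iff, Nat.sub_eq]
    at H1 H4 H5
  refine P_swap (P_iff.2 (cutB_aux (ev W n i k1) (ev W n i c) (ev W n i t1) (ev W n i f1) H1.1
    (by rw [mul_comm]; exact H1.2.1) (by rw [mul_comm]; exact H1.2.2) H4 (P_iff.1 ?_)))
  simpa only [mul_comm (ev W n i c), zero_add] using H5

theorem rootD_s {I q D1 D2 D3 D4 : ℕ} {j k r j1 c s1 : E}
    (H : ev W n i (rootD I q j k r j1 c s1 D1 D2 D3 D4) = 0) :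
    P I (ev W n i j) (ev W n i k) (ev W n i r) 0 0 := by
  obtain ⟨H1, H2⟩ := Nat.add_eq_zero_iff.1 H
  obtain ⟨H2, H3⟩ := Nat.add_eq_zero_iff.1 H2
  have H4 := blkB_s H2
  have H5 := blkB_s H3
  simp only [ev_cst, ev_add, ev_smul, ev_mul, ev_sub, ev_lt0, Nat.add_eq_zero_iff, Nat.sub_eq]
    at H1 H4 H5
  refine P_iff.2 (cutB_aux (ev W n i j1) (ev W n i c) (ev W n i s1) 0 H1.1
    (by rw [mul_comm]; exact H1.2) le_rfl H4 (P_iff.1 ?_))
  simpa only [mul_comm (ev W n i c), zero_add, Nat.zero_sub] using H5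

theorem rootT_s {I q q0 D1 D2 D3 D4 : ℕ} {J K r o : E} (H : ev W n i (rootT I q q0 J K r o D1 D2 D3 D4) = 0) :
    P I (ev W n i J) (ev W n i K) (ev W n i r) 0 0 := by
  have H1 := rootD_s H
  by_cases hc : ev W n i (.cst 0) < ev W n i o
  · simp only [ev_pos _ _ hc] at H1
    exact P_swap H1
  · simp only [ev_neg _ _ hc] at H1
    exact H1

theorem prog_s {I J t p q q0 nA r0 M D1 D2 D3 D4 : ℕ}
    (H : ev W n i (prog I J t p q q0 nA r0 M D1 D2 D3 D4) = 0) (hM : M.testBit ((W + 1) * i) = false) :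
    Goal I J t p nA r0 i := by
  have h0 : ¬ ev W n i (.cst 0) < ev W n i (.fld M 0 1) := by
    show ¬ 0 < ((M >>> 0) >>> ((W + 1) * i)) % 2 ^ 1
    rw [Nat.testBit, Nat.one_and_eq_mod_two] at hM
    simpa using hM
  have H1 := (ev_neg _ _ h0).symm.trans H
  unfold rootA0 rootA1 at H1
  generalize E.dv _ _ q0 = z at H1
  obtain ⟨H2, H3⟩ := Nat.add_eq_zero_iff.1 H1
  have H4 := (rootT_s H3).of_eq (M' := replicate _ (T 0 0)) (by simp only [replicate_zero, add_zero]; rfl)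
  refine ⟨_, _, H4, fun h => ?_, fun h => ?_⟩
  · have h' : ev W n i .idx < ev W n i (.cst nA) := h
    simp only [ev_pos _ _ h', ev_lt0, ev_mul] at H2 ⊢
    exact ⟨le_rfl, H2⟩
  · have h' : ¬ ev W n i .idx < ev W n i (.cst nA) := not_lt.2 h
    simp only [ev_neg _ _ h', ev_lt0, ev_mul, ev_add] at H2 ⊢
    exact ⟨le_rfl, H2⟩

end

theorem S_le {I J K K' r r' : ℕ} (h : S I J K (replicate r (T 0 0))) (h1 : K' ≤ K) (h2 : r ≤ r')
    (h3 : K' * (I * J - r') ≤ r' * (J + I - 2)) (h4 : r' < I * J) : S I J K' (replicate r' (T 0 0)) := by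
  obtain ⟨n, rfl⟩ := Nat.exists_eq_add_of_le h1
  obtain _ | r' := r'
  · obtain rfl : K' = 0 := by
      rcases Nat.eq_zero_or_pos K' with h0 | h0
      · exact h0
      · have : 1 * (I * J - 0) ≤ K' * (I * J - 0) := Nat.mul_le_mul_right _ h0
        omega
    exact S_zeroC _ _ _
  · exact S_proj n (S.mono (rle _ h2) h)

theorem goal_of_root {I J nA r0 i : ℕ} (ht : 1 ≤ J + I - 2) (h : Root I J (rAt J (J + I - 2) (I * J) nA r0 i))
    (hp : rAt J (J + I - 2) (I * J) nA r0 i < I * J) : Goal I J (J + I - 2) (I * J) nA r0 i := by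
  have e : rAt J (J + I - 2) (I * J) nA r0 i = cnd (Nat.ble nA i) (i + r0 - nA)
    (((I * J + 1) * (i + J) + (J + I - 2 - 1)) / (i + J + (J + I - 2))) := rfl
  rw [e, cnd_eq] at h hp
  unfold Root at h
  generalize J + I - 2 = t, I * J = p at *
  simp only [Nat.ble_eq] at h hp
  split_ifs at h hp with h0
  · generalize hr : i + r0 - nA = r at *
    refine ⟨r * t / (p - r), r, h _ (Nat.div_mul_le_self _ _) hp, fun h1 => by omega, fun _ => ?_⟩
    rw [hr]
    have := Nat.lt_mul_div_succ (r * t) (show 0 < p - r by omega)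
    exact ⟨le_rfl, by rw [mul_comm t]; exact this⟩
  · have h1 := Nat.mul_div_le ((p + 1) * (i + J) + (t - 1)) (i + J + t)
    have h2 : i + J + t = 0 ∨ (p + 1) * (i + J) + (t - 1) <
        (i + J + t) * (((p + 1) * (i + J) + (t - 1)) / (i + J + t) + 1) := by
      rcases Nat.eq_zero_or_pos (i + J + t) with h3 | h3
      · exact Or.inl h3
      · exact Or.inr (Nat.lt_mul_div_succ _ h3)
    generalize ((p + 1) * (i + J) + (t - 1)) / (i + J + t) = r at *
    refine ⟨i + J, r, h _ ?_ hp, fun _ => ⟨le_rfl, h1⟩, fun h1 => by omega⟩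
    obtain ⟨v, rfl⟩ := Nat.exists_eq_add_of_le hp.le
    rw [Nat.add_sub_cancel_left]
    rcases h2 with h2 | h2
    · rw [show i + J = 0 by omega]
      simp
    · generalize i + J = K at *
      obtain _ | t := t
      · omega
      · rw [Nat.add_sub_cancel] at h2
        nlinarith

theorem cat_s {k : ℕ → ℕ → ℕ → ℕ → Bool} (y : Q4) : ∀ u a b c d, cat k y u a b c d = true →
    ∃ a b c d, k a b c d = true := by
  induction y with
  | nil => exact fun _ a b c d h => ⟨a, b, c, d, h⟩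
  | cons a b c d y ih => exact fun u a' b' c' d' h => ih _ _ _ _ _ h

theorem cat4_s (F : ℕ → ℕ → ℕ → ℕ → ℕ → Bool) {y : Q4} {M : ℕ} (h : (strict M fun M => cat (fun a b c d =>
    strict a fun a => strict b fun b => strict c fun c => strict d fun d => F M a b c d) y 0 0 0 0 0) = true) :
    ∃ a b c d, F M a b c d = true := cat_s y _ _ _ _ _ h

/-- All roots below `hi I J` with third dimension at least `J`, for `J0 ≤ J < J1`. -/
def Cov3 (hi : ℕ → ℕ → ℕ) (I J0 J1 : ℕ) : Prop :=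
  ∀ J r, J0 ≤ J → J < J1 → J * (I * J - r) ≤ r * (J + I - 2) → r < hi I J → Root I J r

theorem Cov3.trans {hi : ℕ → ℕ → ℕ} {I J0 J1 J2 : ℕ} (h : Cov3 hi I J0 J1) (h' : Cov3 hi I J1 J2) :
    Cov3 hi I J0 J2 := fun J r h0 h2 =>
  (Nat.lt_or_ge J J1).elim (fun h1 => h J r h0 h1) fun h1 => h' J r h1 h2

variable {ex : ℕ → ℕ → ℕ → Bool} (hex : ∀ I J r, ex I J r = true → Root I J r)

include hex

theorem oth_s {I J nA r0 : ℕ} (ht : 1 ≤ J + I - 2) {k : ℕ → Bool} (x : List ℕ) : ∀ M,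
    oth ex I J (J + I - 2) (I * J) nA r0 k x M = true →
    (∀ i, M.testBit (42 * i) = true → Goal I J (J + I - 2) (I * J) nA r0 i) →
    ∃ M, k M = true ∧ ∀ i, M.testBit (42 * i) = true → Goal I J (J + I - 2) (I * J) nA r0 i := by
  induction x with
  | nil => exact fun M h H => ⟨M, h, H⟩
  | cons d x ih =>
    intro M h H
    have h' : cnd (Nat.ble (I * J) (rAt J (J + I - 2) (I * J) nA r0 (d &&& 8191))) false
      (cnd (Nat.beq (rootK ex I J (rAt J (J + I - 2) (I * J) nA r0 (d &&& 8191) * (J + I - 2) /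
        (I * J - rAt J (J + I - 2) (I * J) nA r0 (d &&& 8191))) (rAt J (J + I - 2) (I * J) nA r0 (d &&& 8191))
        (d >>> 13)) 0) false
        (oth ex I J (J + I - 2) (I * J) nA r0 k x (2 ^ (42 * (d &&& 8191)) ||| M))) = true := h
    simp only [cnd_eq, Nat.beq_eq, Nat.ble_eq] at h'
    split_ifs at h' with h1 h2
    refine ih _ h' fun i hi => ?_
    rw [Nat.testBit_or, Bool.or_eq_true, Nat.testBit_two_pow, decide_eq_true_eq] at hi
    rcases hi with hi | hi
    · obtain rfl : d &&& 8191 = i := by omega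
      exact goal_of_root ht (rootK_s hex h2) (by omega)
    · exact H i hi

theorem batch_s {I J h r0 : ℕ} {x : List ℕ} {y : Q4} (ht : 1 ≤ J + I - 2) (H : batch ex I J h r0 x y = true)
    (r : ℕ) (h1 : J * (I * J - r) ≤ r * (J + I - 2)) (h2 : r < h) : Root I J r := by
  obtain ⟨nA, hA⟩ : ∃ nA, nA = (r0 - 1) * (J + I - 2) / (I * J - (r0 - 1)) + 1 - J := ⟨_, rfl⟩
  have H' : bnd (Nat.ble r0 (I * J)) (oth ex I J (J + I - 2) (I * J) nA r0 (fun M => strict M fun M =>
      cat (fun a b c d => strict a fun a => strict b fun b => strict c fun c => strict d fun d =>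
      allZ 41 (nA + (h - r0)) (prog I J (J + I - 2) (I * J) (I.log2 + 8) ((I * J).log2 + 1) nA r0 M a b c d))
      y 0 0 0 0 0) x 0) = true := by
    rw [hA]
    exact H
  obtain ⟨H1, H2⟩ := (bnd_iff _ _).1 H'
  have H1 := Nat.le_of_ble_eq_true H1
  obtain ⟨M, H3, H4⟩ := oth_s hex ht x 0 H2 (fun i hi => by simp at hi)
  obtain ⟨a, b, c, d, H5⟩ := cat4_s (fun M a b c d => allZ 41 (nA + (h - r0))
    (prog I J (J + I - 2) (I * J) (I.log2 + 8) ((I * J).log2 + 1) nA r0 M a b c d)) H3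
  have G : ∀ i < nA + (h - r0), Goal I J (J + I - 2) (I * J) nA r0 i := fun i hi => by
    cases hb : M.testBit (42 * i) with
    | true => exact H4 i hb
    | false => exact prog_s (allZ_s H5 i hi) hb
  intro K hK hr
  clear H H' H2 H3 H4 H5
  rcases Nat.lt_or_ge r r0 with h3 | h3
  · have hK' : max K J * (I * J - r) ≤ r * (J + I - 2) := by
      rcases le_total K J with h4 | h4
      · rwa [max_eq_right h4]
      · rwa [max_eq_left h4]
    have h5 : max K J ≤ (r0 - 1) * (J + I - 2) / (I * J - (r0 - 1)) := by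
      rw [Nat.le_div_iff_mul_le (by omega)]
      exact (Nat.mul_le_mul_left _ (by omega)).trans (hK'.trans (Nat.mul_le_mul_right _ (by omega)))
    have h6 := le_max_left K J
    have h7 := le_max_right K J
    obtain ⟨K', r', g1, g2, -⟩ := G (max K J - J) (by omega)
    obtain ⟨g2, g3⟩ := g2 (by omega)
    rw [Nat.sub_add_cancel h7] at g2 g3
    refine S_le g1 (by omega) ?_ hK hr
    generalize max K J = L, J + I - 2 = t, I * J = p at *
    obtain ⟨v, rfl⟩ := Nat.exists_eq_add_of_le hr.le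
    obtain ⟨t, rfl⟩ := Nat.exists_eq_add_of_le' ht
    rw [Nat.add_sub_cancel_left] at hK'
    rw [Nat.add_sub_cancel] at g3
    by_contra hc
    have : (L + (t + 1)) * (r + 1) ≤ (L + (t + 1)) * r' := Nat.mul_le_mul_left _ (by omega)
    nlinarith
  · obtain ⟨K', r', g1, -, g2⟩ := G (nA + (r - r0)) (by omega)
    obtain ⟨g2, g3⟩ := g2 (by omega)
    rw [show nA + (r - r0) + r0 - nA = r by omega] at g2 g3
    refine S_le g1 ?_ g2 hK hr
    by_contra hc
    have : (K' + 1) * (I * J - r) ≤ K * (I * J - r) := Nat.mul_le_mul_right _ (by omega)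
    nlinarith

theorem cov_of_run3 {hi : ℕ → ℕ → ℕ} {I J1 : ℕ} (hI : 3 ≤ I) {l : Bt} : ∀ {J0}, run3 ex hi I J1 l J0 = true →
    Cov3 hi I J0 J1 := by
  induction l with
  | nil =>
    intro J0 h J r h0 h1
    have : J1 ≤ J0 := Nat.le_of_ble_eq_true h
    omega
  | cons r0 x y l ih =>
    intro J0 h J r h0 h1 h2 h3
    have h' : bnd (batch ex I J0 (hi I J0) r0 x y) (run3 ex hi I J1 l (J0 + 1)) = true := h
    obtain ⟨H1, H2⟩ := (bnd_iff _ _).1 h'
    rcases Nat.eq_or_lt_of_le h0 with rfl | h4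
    · exact batch_s hex (by omega) H1 r h2 h3
    · exact ih H2 J r h4 h1 h2 h3

end Pool.Agent.Work.MP_f4b644_ag.Dag
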