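import Pool.Agent.Lib.KLA.Defs

/-!
Arithmetic on many small numbers at once. A vector of `n` numbers below `2 ^ W` is one natural number, the
entry `i` being its digit `i` in base `2 ^ W`. With `H = 2 ^ (W - 1)` the constants are `W1 = W - 1`,
`Hc = H - 1` and the vectors `O`, `A`, `B`, `X` with the entries `1`, `H - 1`, `H`, `i`.
-/

namespace Pool.Agent.Work.MP_f4b644_ag.Dag

open Pool.Agent.Lib.KLA

/-- expressions -/
inductive E : Type
  | cst (c : Nat) : E
  | idx : E
  | fld (D sh q : Nat) : E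
  | add (a b : E) : E
  | smul (c : Nat) (a : E) : E
  | mul (a b : E) : E
  | sub (a b : E) : E
  | lt (a b : E) : E
  | ifl (a b x y : E) : E
  | dv (a b : E) (q : Nat) : E
  | clip (a : E) (q : Nat) : E

noncomputable section

/-- `y` if `x < H`, otherwise `H` -/
def pz (H x y : Nat) : Nat := @Bool.rec (fun _ => Nat) y H (Nat.ble H x)

/-- a bound for the entries, meaningful if it is less than `H` -/
def bd (H n : Nat) (e : E) : Nat :=
  E.rec (motive := fun _ => Nat) (fun c => c) n (fun _ _ q => Nat.sub (Nat.pow 2 q) 1)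
    (fun _ _ x y => Nat.add x y) (fun c _ x => pz H x (Nat.mul c x))
    (fun _ _ x y => pz H x (pz H y (Nat.mul x y))) (fun _ _ x y => pz H y x)
    (fun _ _ x y => pz H x (pz H y 1))
    (fun _ _ _ _ x y u v => pz H x (pz H y (Nat.add u (Nat.sub v u))))
    (fun _ _ q _ _ => Nat.sub (Nat.pow 2 q) 1) (fun _ q _ => Nat.sub (Nat.pow 2 q) 1) e

/-- the `q` low bits of all entries -/
def vlow (O x q : Nat) : Nat := Nat.land x (Nat.mul O (Nat.sub (Nat.pow 2 q) 1))

/-- the entries `1` if `x < y`, otherwise `0` -/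
def vlt (W1 O A x y : Nat) : Nat := Nat.land (Nat.shiftRight (Nat.sub (Nat.add y A) x) W1) O

/-- the products of the entries of `x` with the `q` low bits of the entries of `y` -/
def vmul (Hc O x y q : Nat) : Nat :=
  Nat.rec (motive := fun _ => Nat) 0 (fun t ih => Nat.add ih
    (Nat.shiftLeft (Nat.land x (Nat.mul (Nat.land (Nat.shiftRight y t) O) Hc)) t)) q

/-- long division -/
def vdiv (W1 Hc O B y q : Nat) : Nat → Nat → Nat :=
  Nat.rec (motive := fun _ => Nat → Nat → Nat) (fun _ z => z) (fun t ih x z =>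
    ih (Nat.sub x (Nat.land (Nat.shiftLeft y t)
        (Nat.mul (Nat.land (Nat.shiftRight (Nat.sub (Nat.add x B) (Nat.shiftLeft y t)) W1) O) Hc)))
      (Nat.add z (Nat.shiftLeft
        (Nat.land (Nat.shiftRight (Nat.sub (Nat.add x B) (Nat.shiftLeft y t)) W1) O) t))) q

/-- the vector of the values -/
def vv (H n W1 Hc O A B X : Nat) (e : E) : Nat :=
  E.rec (motive := fun _ => Nat) (fun c => Nat.mul O c) X (fun D sh q => vlow O (Nat.shiftRight D sh) q)
    (fun _ _ x y => Nat.add x y) (fun c _ x => Nat.mul c x)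
    (fun _ b x y => vmul Hc O x y (Nat.add (Nat.log2 (bd H n b)) 1))
    (fun _ _ x y => Nat.land (Nat.sub (Nat.add x B) y)
      (Nat.mul (Nat.land (Nat.shiftRight (Nat.sub (Nat.add x B) y) W1) O) Hc))
    (fun _ _ x y => vlt W1 O A x y)
    (fun _ _ _ _ x y u v => Nat.add (Nat.land u (Nat.mul (vlt W1 O A x y) Hc))
      (Nat.land v (Nat.sub A (Nat.mul (vlt W1 O A x y) Hc))))
    (fun _ _ q x y => vlow O (vdiv W1 Hc O B y q x 0) q) (fun _ q x => vlow O x q) e

/-- all `n` entries of `e` vanish -/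
def allZ (W1 n : Nat) (e : E) : Bool :=
  strict (Nat.pow 2 W1) fun H => strict (Nat.sub H 1) fun Hc => strict (Nat.sub (Nat.mul 2 H) 1) fun G =>
  strict (Nat.pow 2 (Nat.mul (Nat.add W1 1) n)) fun N => strict (Nat.div (Nat.sub N 1) G) fun O =>
  strict (Nat.mul O Hc) fun A => strict (Nat.mul O H) fun B =>
  strict (Nat.div (Nat.sub (Nat.add (Nat.mul n N) 1) (Nat.add O N)) G) fun X =>
    bnd (Nat.ble (Nat.add (bd H n e) 1) H) (Nat.beq (vv H n W1 Hc O A B X e) 0)

end

end Pool.Agent.Work.MP_f4b644_ag.Dag
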