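import Mathlib
import Pool.Agent.Work.MP_f4b644_ag.Dag.Vec

/-!
Soundness of the arithmetic on vectors.
-/

set_option autoImplicit false

namespace Pool.Agent.Work.MP_f4b644_ag.Dag

open Finset Pool.Agent.Lib.KLA

/-- the vector with the entries `f i` -/
def pk (W n : ℕ) (f : ℕ → ℕ) : ℕ := ∑ i ∈ range n, 2 ^ (W * i) * f i

section
variable {W n : ℕ} {f g : ℕ → ℕ}

theorem pk_succ : pk W (n + 1) f = 2 ^ (W * n) * f n + pk W n f := by
  rw [pk, sum_range_succ, add_comm]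
  rfl

theorem pk_congr (h : ∀ i < n, f i = g i) : pk W n f = pk W n g :=
  sum_congr rfl fun i hi => by rw [h i (mem_range.1 hi)]

theorem pk_add : pk W n f + pk W n g = pk W n fun i => f i + g i := by
  simp only [pk, mul_add, sum_add_distrib]

theorem pk_sub (h : ∀ i < n, g i ≤ f i) : pk W n f - pk W n g = pk W n fun i => f i - g i := by
  refine Nat.sub_eq_of_eq_add ?_
  rw [pk_add]
  exact pk_congr fun i hi => (Nat.sub_add_cancel (h i hi)).symm

theorem pk_mul (c : ℕ) : pk W n f * c = pk W n fun i => f i * c := by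
  simp only [pk, sum_mul, mul_assoc]

theorem pk_lt (h : ∀ i < n, f i < 2 ^ W) : pk W n f < 2 ^ (W * n) := by
  induction n with
  | zero => simp [pk]
  | succ n ih =>
    have h1 := ih fun i hi => h i (by omega)
    have h2 : 2 ^ (W * n) * (f n + 1) ≤ 2 ^ (W * n) * 2 ^ W := Nat.mul_le_mul_left _ (h n (by omega))
    rw [pk_succ, Nat.mul_succ, pow_add]
    nlinarith

theorem pk_bit (h : ∀ i < n, f i < 2 ^ W) {t : ℕ} (ht : t < W) (i : ℕ) :
    (pk W n f).testBit (W * i + t) = (decide (i < n) && (f i).testBit t) := by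
  induction n with
  | zero => simp [pk]
  | succ n ih =>
    have h1 := pk_lt (n := n) fun i hi => h i (by omega)
    rw [pk_succ, Nat.testBit_two_pow_mul_add _ h1]
    rcases lt_trichotomy i n with h2 | rfl | h2
    · have : W * (i + 1) ≤ W * n := Nat.mul_le_mul_left _ h2
      rw [Nat.mul_succ] at this
      rw [if_pos (by omega), ih fun i hi => h i (by omega), decide_eq_true h2,
        decide_eq_true (show i < n + 1 by omega)]
    · rw [if_neg (by omega), Nat.add_sub_cancel_left, decide_eq_true (show i < i + 1 by omega), Bool.true_and]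
    · have : W * (n + 1) ≤ W * i := Nat.mul_le_mul_left _ h2
      rw [Nat.mul_succ] at this
      rw [if_neg (by omega), decide_eq_false (show ¬ i < n + 1 by omega), Bool.false_and]
      exact Nat.testBit_lt_two_pow (lt_of_lt_of_le (h n (by omega)) (Nat.pow_le_pow_right (by omega) (by omega)))

theorem bit_ext {x y : ℕ} (hW : 0 < W) (h : ∀ i, ∀ t < W, x.testBit (W * i + t) = y.testBit (W * i + t)) :
    x = y :=
  Nat.eq_of_testBit_eq fun m => by
    have := h (m / W) (m % W) (Nat.mod_lt _ hW)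
    rwa [Nat.div_add_mod] at this

theorem pk_land (hW : 0 < W) (hf : ∀ i < n, f i < 2 ^ W) (hg : ∀ i < n, g i < 2 ^ W) :
    pk W n f &&& pk W n g = pk W n fun i => f i &&& g i := by
  refine bit_ext hW fun i t ht => ?_
  rw [Nat.testBit_and, pk_bit hf ht, pk_bit hg ht,
    pk_bit (fun i hi => lt_of_le_of_lt Nat.and_le_left (hf i hi)) ht, Nat.testBit_and]
  cases decide (i < n) <;> simp

theorem pk_low (hW : 0 < W) (D : ℕ) {q : ℕ} (hq : q ≤ W) :
    D &&& (pk W n fun _ => 2 ^ q - 1) = pk W n fun i => (D >>> (W * i)) % 2 ^ q := by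
  have h0 : 2 ^ q ≤ 2 ^ W := Nat.pow_le_pow_right (by omega) hq
  have h1 := Nat.two_pow_pos q
  refine bit_ext hW fun i t ht => ?_
  rw [Nat.testBit_and, pk_bit (fun i _ => by omega) ht,
    pk_bit (fun i _ => lt_of_lt_of_le (Nat.mod_lt _ h1) h0) ht, Nat.testBit_mod_two_pow,
    Nat.testBit_shiftRight, Nat.testBit_two_pow_sub_one]
  cases decide (i < n) <;> cases decide (t < q) <;> simp

theorem pk_one (hW : 0 < W) (hf : ∀ i < n, f i < 2 ^ W) {t : ℕ} (ht : t < W) :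
    (pk W n f >>> t) &&& (pk W n fun _ => 1) = pk W n fun i => if (f i).testBit t then 1 else 0 := by
  refine (pk_low hW _ (q := 1) hW).trans (pk_congr fun i hi => ?_)
  have h := pk_bit hf ht i
  rw [decide_eq_true hi, Bool.true_and] at h
  rw [← h, ← Nat.shiftRight_add, add_comm t, pow_one, Nat.testBit, Nat.one_and_eq_mod_two]
  rcases Nat.mod_two_eq_zero_or_one (pk W n f >>> (W * i + t)) with h | h <;> simp [h]

theorem pk_zero (h : pk W n f = 0) : ∀ i < n, f i = 0 := fun i hi => by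
  have := sum_eq_zero_iff.1 h i (mem_range.2 hi)
  simpa using this

theorem pk_ones (W n : ℕ) : (2 ^ W - 1) * (pk W n fun _ => 1) + 1 = 2 ^ (W * n) := by
  induction n with
  | zero => simp [pk]
  | succ n ih =>
    obtain ⟨x, hx⟩ : ∃ x, 2 ^ W = x + 1 := ⟨2 ^ W - 1, by have := Nat.two_pow_pos W; omega⟩
    rw [pk_succ, Nat.mul_succ W, pow_add]
    rw [hx, Nat.add_sub_cancel] at ih ⊢
    rw [mul_add, add_assoc, ih]
    ring

theorem pk_idx (W n : ℕ) :
    (2 ^ W - 1) * (pk W n fun i => i) + ((pk W n fun _ => 1) + 2 ^ (W * n)) = n * 2 ^ (W * n) + 1 := by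
  induction n with
  | zero => simp [pk]
  | succ n ih =>
    obtain ⟨x, hx⟩ : ∃ x, 2 ^ W = x + 1 := ⟨2 ^ W - 1, by have := Nat.two_pow_pos W; omega⟩
    rw [pk_succ, pk_succ, Nat.mul_succ W, pow_add]
    rw [hx, Nat.add_sub_cancel] at ih ⊢
    nlinarith

end

theorem top_bit {W1 z : ℕ} (h : z < 2 ^ (W1 + 1)) : z.testBit W1 = decide (2 ^ W1 ≤ z) := by
  rcases Nat.lt_or_ge z (2 ^ W1) with h1 | h1
  · rw [Nat.testBit_lt_two_pow h1, decide_eq_false (by omega)]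
  · rw [Nat.testBit_of_two_pow_le_and_two_pow_add_one_gt h1 h, decide_eq_true h1]

theorem pz_lt {H x y : ℕ} (h : pz H x y < H) : x < H ∧ pz H x y = y := by
  unfold pz at *
  cases hb : Nat.ble H x with
  | true => rw [hb] at h; exact absurd h (lt_irrefl _)
  | false => exact ⟨Nat.lt_of_not_le fun h1 => by simp [Nat.ble_eq_true_of_le h1] at hb, rfl⟩

section
variable (W1 n : ℕ)

/-- the vector of the values, with the right constants -/
noncomputable def vw (e : E) : ℕ :=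
  vv (2 ^ W1) n W1 (2 ^ W1 - 1) (pk (W1 + 1) n fun _ => 1) (pk (W1 + 1) n fun _ => 2 ^ W1 - 1)
    (pk (W1 + 1) n fun _ => 2 ^ W1) (pk (W1 + 1) n fun i => i) e

/-- the value at the place `i` -/
noncomputable def ev (i : ℕ) : E → ℕ
  | .cst c => c
  | .idx => i
  | .fld D sh q => ((D >>> sh) >>> ((W1 + 1) * i)) % 2 ^ q
  | .add a b => ev i a + ev i b
  | .smul c a => c * ev i a
  | .mul a b => ev i a * ev i b
  | .sub a b => ev i a - ev i b
  | .lt a b => if ev i a < ev i b then 1 else 0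
  | .ifl a b x y => if ev i a < ev i b then ev i x else ev i y
  | .dv a b q => (vdiv W1 (2 ^ W1 - 1) (pk (W1 + 1) n fun _ => 1) (pk (W1 + 1) n fun _ => 2 ^ W1)
      (vw W1 n b) q (vw W1 n a) 0 >>> ((W1 + 1) * i)) % 2 ^ q
  | .clip a q => (vw W1 n a >>> ((W1 + 1) * i)) % 2 ^ q

variable {W1 n}

theorem vlow_s (D : ℕ) {q : ℕ} (h : 2 ^ q - 1 < 2 ^ W1) :
    vlow (pk (W1 + 1) n fun _ => 1) D q = pk (W1 + 1) n fun i => (D >>> ((W1 + 1) * i)) % 2 ^ q := by
  have hq : q ≤ W1 := (Nat.pow_le_pow_iff_right (by omega : 1 < 2)).1 (by omega)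
  have e : vlow (pk (W1 + 1) n fun _ => 1) D q = D &&& ((pk (W1 + 1) n fun _ => 1) * (2 ^ q - 1)) := rfl
  rw [e, pk_mul]
  simp only [one_mul]
  exact pk_low (by omega) D (by omega)

theorem vlt_s {f g : ℕ → ℕ} (hf : ∀ i < n, f i < 2 ^ W1) (hg : ∀ i < n, g i < 2 ^ W1) :
    vlt W1 (pk (W1 + 1) n fun _ => 1) (pk (W1 + 1) n fun _ => 2 ^ W1 - 1) (pk (W1 + 1) n f) (pk (W1 + 1) n g) =
      pk (W1 + 1) n fun i => if f i < g i then 1 else 0 := by
  have e : ∀ O A x y, vlt W1 O A x y = ((y + A - x) >>> W1) &&& O := fun _ _ _ _ => rfl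
  have h1 : ∀ i < n, g i + (2 ^ W1 - 1) - f i < 2 ^ (W1 + 1) := fun i hi => by
    have := hg i hi
    rw [pow_succ]
    omega
  rw [e, pk_add, pk_sub fun i hi => by have := hf i hi; omega, pk_one (by omega) h1 (by omega)]
  refine pk_congr fun i hi => ?_
  have := hf i hi
  rw [top_bit (h1 i hi)]
  simp only [decide_eq_true_eq]
  split_ifs <;> omega

theorem gate_s {f : ℕ → ℕ} (c : ℕ → Prop) [DecidablePred c] (hf : ∀ i < n, f i < 2 ^ (W1 + 1)) :
    pk (W1 + 1) n f &&& (pk (W1 + 1) n fun i => if c i then 2 ^ W1 - 1 else 0) =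
      pk (W1 + 1) n fun i => if c i then f i % 2 ^ W1 else 0 := by
  have h0 := Nat.two_pow_pos W1
  rw [pk_land (by omega) hf fun i _ => by rw [pow_succ]; split_ifs <;> omega]
  refine pk_congr fun i _ => ?_
  split_ifs
  · exact Nat.and_two_pow_sub_one_eq_mod _ _
  · exact Nat.and_zero _

theorem mask_s (c : ℕ → Prop) [DecidablePred c] (z : ℕ) :
    (pk (W1 + 1) n fun i => if c i then 1 else 0) * z = pk (W1 + 1) n fun i => if c i then z else 0 := by
  rw [pk_mul]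
  exact pk_congr fun i _ => by split_ifs <;> simp

theorem vmul_s {f g : ℕ → ℕ} (hf : ∀ i < n, f i < 2 ^ W1) (hg : ∀ i < n, g i < 2 ^ W1) (q : ℕ)
    (hq : q ≤ W1 + 1) :
    vmul (2 ^ W1 - 1) (pk (W1 + 1) n fun _ => 1) (pk (W1 + 1) n f) (pk (W1 + 1) n g) q =
      pk (W1 + 1) n fun i => f i * (g i % 2 ^ q) := by
  have h2 : 2 ^ W1 < 2 ^ (W1 + 1) := Nat.pow_lt_pow_right (by omega) (by omega)
  induction q with
  | zero => simp [vmul, pk, Nat.mod_one]
  | succ q ih =>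
    have e : ∀ Hc O x y, vmul Hc O x y (q + 1) =
        vmul Hc O x y q + (x &&& (((y >>> q) &&& O) * Hc)) <<< q := fun _ _ _ _ => rfl
    rw [e, ih (by omega), pk_one (by omega) (fun i hi => (hg i hi).trans h2) (by omega), mask_s,
      gate_s _ fun i hi => (hf i hi).trans h2, Nat.shiftLeft_eq, pk_mul, pk_add]
    refine pk_congr fun i hi => ?_
    rw [Nat.mod_eq_of_lt (hf i hi), Nat.mod_pow_succ, Nat.testBit_eq_decide_div_mod_eq]
    rcases Nat.mod_two_eq_zero_or_one (g i / 2 ^ q) with h | h <;> simp [h]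
    ring

theorem vw_s (e : E) (h : bd (2 ^ W1) n e < 2 ^ W1) :
    vw W1 n e = pk (W1 + 1) n (fun i => ev W1 n i e) ∧ ∀ i < n, ev W1 n i e ≤ bd (2 ^ W1) n e := by
  have h2 : 2 ^ (W1 + 1) = 2 * 2 ^ W1 := by rw [pow_succ, mul_comm]
  have low : ∀ x q : ℕ, x % 2 ^ q ≤ 2 ^ q - 1 := fun x q =>
    Nat.le_sub_one_of_lt (Nat.mod_lt _ (Nat.two_pow_pos q))
  induction e with
  | cst c => exact ⟨(pk_mul c).trans (pk_congr fun _ _ => one_mul c), fun _ _ => le_rfl⟩
  | idx => exact ⟨rfl, fun i hi => hi.le⟩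
  | fld D sh q => exact ⟨vlow_s _ h, fun _ _ => low _ _⟩
  | dv a b q => exact ⟨vlow_s _ h, fun _ _ => low _ _⟩
  | clip a q => exact ⟨vlow_s _ h, fun _ _ => low _ _⟩
  | add a b iha ihb =>
    have h' : bd (2 ^ W1) n a + bd (2 ^ W1) n b < 2 ^ W1 := h
    obtain ⟨a1, a2⟩ := iha (by omega)
    obtain ⟨b1, b2⟩ := ihb (by omega)
    refine ⟨?_, fun i hi => Nat.add_le_add (a2 i hi) (b2 i hi)⟩
    have e : vw W1 n (.add a b) = vw W1 n a + vw W1 n b := rfl
    rw [e, a1, b1, pk_add]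
    rfl
  | smul c a iha =>
    obtain ⟨p1, p2⟩ := pz_lt (x := bd (2 ^ W1) n a) (y := c * bd (2 ^ W1) n a) h
    obtain ⟨a1, a2⟩ := iha p1
    refine ⟨?_, fun i hi => le_of_le_of_eq (Nat.mul_le_mul_left c (a2 i hi)) p2.symm⟩
    have e : vw W1 n (.smul c a) = c * vw W1 n a := rfl
    rw [e, a1, mul_comm, pk_mul]
    exact pk_congr fun _ _ => mul_comm _ _
  | mul a b iha ihb =>
    obtain ⟨p1, p2⟩ := pz_lt (x := bd (2 ^ W1) n a)
      (y := pz (2 ^ W1) (bd (2 ^ W1) n b) (bd (2 ^ W1) n a * bd (2 ^ W1) n b)) h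
    obtain ⟨p3, p4⟩ := pz_lt (lt_of_eq_of_lt p2.symm h)
    obtain ⟨a1, a2⟩ := iha p1
    obtain ⟨b1, b2⟩ := ihb p3
    refine ⟨?_, fun i hi => le_of_le_of_eq (Nat.mul_le_mul (a2 i hi) (b2 i hi)) (p2.trans p4).symm⟩
    have e : vw W1 n (.mul a b) = vmul (2 ^ W1 - 1) (pk (W1 + 1) n fun _ => 1) (vw W1 n a) (vw W1 n b)
      ((bd (2 ^ W1) n b).log2 + 1) := rfl
    have h3 : (bd (2 ^ W1) n b).log2 ≤ W1 := by
      rcases Nat.eq_zero_or_pos (bd (2 ^ W1) n b) with h0 | h0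
      · simp [h0]
      · exact ((Nat.log2_lt (by omega)).2 p3).le
    rw [e, a1, b1, vmul_s (fun i hi => lt_of_le_of_lt (a2 i hi) p1) (fun i hi => lt_of_le_of_lt (b2 i hi) p3) _
      (by omega)]
    exact pk_congr fun i hi => by
      rw [Nat.mod_eq_of_lt (lt_of_le_of_lt (b2 i hi) Nat.lt_log2_self)]
      rfl
  | sub a b iha ihb =>
    obtain ⟨p1, p2⟩ := pz_lt (x := bd (2 ^ W1) n b) (y := bd (2 ^ W1) n a) h
    have p3 := lt_of_eq_of_lt p2.symm h
    obtain ⟨a1, a2⟩ := iha p3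
    obtain ⟨b1, b2⟩ := ihb p1
    refine ⟨?_, fun i hi => le_trans (Nat.sub_le _ _) (le_of_le_of_eq (a2 i hi) p2.symm)⟩
    have e : vw W1 n (.sub a b) = (vw W1 n a + (pk (W1 + 1) n fun _ => 2 ^ W1) - vw W1 n b) &&&
      ((((vw W1 n a + (pk (W1 + 1) n fun _ => 2 ^ W1) - vw W1 n b) >>> W1) &&& pk (W1 + 1) n fun _ => 1) *
        (2 ^ W1 - 1)) := rfl
    have h1 : ∀ i < n, ev W1 n i a + 2 ^ W1 - ev W1 n i b < 2 ^ (W1 + 1) := fun i hi => by
      have := a2 i hi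
      omega
    rw [e, a1, b1, pk_add, pk_sub fun i hi => by have := b2 i hi; omega, pk_one (by omega) h1 (by omega), mask_s,
      gate_s _ h1]
    refine pk_congr fun i hi => ?_
    have h3 := a2 i hi
    have h4 := b2 i hi
    have e2 : ev W1 n i (.sub a b) = ev W1 n i a - ev W1 n i b := rfl
    rw [top_bit (h1 i hi), e2]
    simp only [decide_eq_true_eq]
    split_ifs with h5
    · rw [Nat.mod_eq_sub_mod h5, Nat.mod_eq_of_lt (by omega)]
      omega
    · omega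
  | lt a b iha ihb =>
    obtain ⟨p1, p2⟩ := pz_lt (x := bd (2 ^ W1) n a) (y := pz (2 ^ W1) (bd (2 ^ W1) n b) 1) h
    obtain ⟨p3, p4⟩ := pz_lt (lt_of_eq_of_lt p2.symm h)
    obtain ⟨a1, a2⟩ := iha p1
    obtain ⟨b1, b2⟩ := ihb p3
    refine ⟨?_, fun i hi => le_of_le_of_eq ?_ (p2.trans p4).symm⟩
    · have e : vw W1 n (.lt a b) = vlt W1 (pk (W1 + 1) n fun _ => 1) (pk (W1 + 1) n fun _ => 2 ^ W1 - 1)
        (vw W1 n a) (vw W1 n b) := rfl
      rw [e, a1, b1, vlt_s (fun i hi => lt_of_le_of_lt (a2 i hi) p1) fun i hi => lt_of_le_of_lt (b2 i hi) p3]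
      rfl
    · have e2 : ev W1 n i (.lt a b) = if ev W1 n i a < ev W1 n i b then 1 else 0 := rfl
      rw [e2]
      split_ifs <;> omega
  | ifl a b x y iha ihb ihx ihy =>
    obtain ⟨p1, p2⟩ := pz_lt (x := bd (2 ^ W1) n a) (y := pz (2 ^ W1) (bd (2 ^ W1) n b)
      (bd (2 ^ W1) n x + (bd (2 ^ W1) n y - bd (2 ^ W1) n x))) h
    obtain ⟨p3, p4⟩ := pz_lt (lt_of_eq_of_lt p2.symm h)
    have p5 := lt_of_eq_of_lt (p2.trans p4).symm h
    obtain ⟨a1, a2⟩ := iha p1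
    obtain ⟨b1, b2⟩ := ihb p3
    obtain ⟨x1, x2⟩ := ihx (by omega)
    obtain ⟨y1, y2⟩ := ihy (by omega)
    have e2 : ∀ i, ev W1 n i (.ifl a b x y) =
      if ev W1 n i a < ev W1 n i b then ev W1 n i x else ev W1 n i y := fun _ => rfl
    refine ⟨?_, fun i hi => le_of_le_of_eq ?_ (p2.trans p4).symm⟩
    · have e : vw W1 n (.ifl a b x y) = (vw W1 n x &&& (vlt W1 (pk (W1 + 1) n fun _ => 1)
        (pk (W1 + 1) n fun _ => 2 ^ W1 - 1) (vw W1 n a) (vw W1 n b) * (2 ^ W1 - 1))) + (vw W1 n y &&&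
        ((pk (W1 + 1) n fun _ => 2 ^ W1 - 1) - vlt W1 (pk (W1 + 1) n fun _ => 1)
        (pk (W1 + 1) n fun _ => 2 ^ W1 - 1) (vw W1 n a) (vw W1 n b) * (2 ^ W1 - 1))) := rfl
      rw [e, a1, b1, x1, y1,
        vlt_s (fun i hi => lt_of_le_of_lt (a2 i hi) p1) fun i hi => lt_of_le_of_lt (b2 i hi) p3, mask_s,
        pk_sub fun i _ => by split_ifs <;> omega,
        pk_congr (f := fun i => 2 ^ W1 - 1 - if ev W1 n i a < ev W1 n i b then 2 ^ W1 - 1 else 0)
          (g := fun i => if ¬ ev W1 n i a < ev W1 n i b then 2 ^ W1 - 1 else 0)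
          fun i _ => by split_ifs <;> omega,
        gate_s _ fun i hi => by have := x2 i hi; omega, gate_s _ fun i hi => by have := y2 i hi; omega, pk_add]
      refine pk_congr fun i hi => ?_
      have h3 := x2 i hi
      have h4 := y2 i hi
      rw [e2, Nat.mod_eq_of_lt (show ev W1 n i x < 2 ^ W1 by omega),
        Nat.mod_eq_of_lt (show ev W1 n i y < 2 ^ W1 by omega)]
      split_ifs <;> omega
    · have h3 := x2 i hi
      have h4 := y2 i hi
      rw [e2]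
      split_ifs <;> omega

theorem allZ_s {e : E} (h : allZ W1 n e = true) : ∀ i < n, ev W1 n i e = 0 := by
  have hG : 2 * 2 ^ W1 - 1 = 2 ^ (W1 + 1) - 1 := by rw [pow_succ, mul_comm]
  have hG0 : 0 < 2 ^ (W1 + 1) - 1 := by have := Nat.two_pow_pos W1; omega
  have hO : (2 ^ ((W1 + 1) * n) - 1) / (2 * 2 ^ W1 - 1) = pk (W1 + 1) n fun _ => 1 := by
    rw [hG, ← pk_ones, Nat.add_sub_cancel, Nat.mul_div_cancel_left _ hG0]
  have hX : (n * 2 ^ ((W1 + 1) * n) + 1 - ((pk (W1 + 1) n fun _ => 1) + 2 ^ ((W1 + 1) * n))) /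
      (2 * 2 ^ W1 - 1) = pk (W1 + 1) n fun i => i := by
    rw [hG, ← pk_idx, Nat.add_sub_cancel, Nat.mul_div_cancel_left _ hG0]
  have h' : bnd (Nat.ble (bd (2 ^ W1) n e + 1) (2 ^ W1)) (Nat.beq (vv (2 ^ W1) n W1 (2 ^ W1 - 1)
    ((2 ^ ((W1 + 1) * n) - 1) / (2 * 2 ^ W1 - 1))
    ((2 ^ ((W1 + 1) * n) - 1) / (2 * 2 ^ W1 - 1) * (2 ^ W1 - 1))
    ((2 ^ ((W1 + 1) * n) - 1) / (2 * 2 ^ W1 - 1) * 2 ^ W1)
    ((n * 2 ^ ((W1 + 1) * n) + 1 - ((2 ^ ((W1 + 1) * n) - 1) / (2 * 2 ^ W1 - 1) + 2 ^ ((W1 + 1) * n))) /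
      (2 * 2 ^ W1 - 1)) e) 0) = true := h
  rw [hO, hX, pk_mul, pk_mul] at h'
  simp only [one_mul] at h'
  cases hb : Nat.ble (bd (2 ^ W1) n e + 1) (2 ^ W1) with
  | false => rw [hb] at h'; exact absurd h' Bool.false_ne_true
  | true =>
    rw [hb] at h'
    have h0 : vw W1 n e = 0 := Nat.eq_of_beq_eq_true h'
    rw [(vw_s e (Nat.le_of_ble_eq_true hb)).1] at h0
    exact pk_zero h0

end

end Pool.Agent.Work.MP_f4b644_ag.Dag
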